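import Pool.Agent.Work.MP_d5331a_gt.OO.Stmt
import Pool.Agent.Work.MP_d5331a_gt.DetectA

-- merged part: Pool.Agent.Work.MP_d5331a_gt.OO.Braid
section
-- merged part: Pool.Agent.Work.MP_d5331a_gt.OO.Red
section
/-!
Definitions used in the reduction to level position.
-/

set_option autoImplicit false

open Complex Set

namespace OneOne

open Neuwirth

/-- Equivalence under a homeomorphism of the 3-sphere. -/
def Eqv (K K' : Set S3) : Prop := ∃ h : S3 ≃ₜ S3, h '' K = K'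

theorem Eqv.refl (K : Set S3) : Eqv K K := ⟨Homeomorph.refl _, by simp⟩

theorem Eqv.of_eq {K K' : Set S3} (h : K = K') : Eqv K K' := h ▸ Eqv.refl K

theorem Eqv.symm {K K' : Set S3} (h : Eqv K K') : Eqv K' K := by
  obtain ⟨h, rfl⟩ := h
  exact ⟨h.symm, by rw [← image_comp]; simp⟩

theorem Eqv.trans {K K' K'' : Set S3} (h : Eqv K K') (h' : Eqv K' K'') : Eqv K K'' := by
  obtain ⟨h, rfl⟩ := h
  obtain ⟨h', rfl⟩ := h'
  exact ⟨h.trans h', by rw [← image_comp]; rfl⟩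

/-- Admissible paths that end in the column left of `w`. -/
structure Adm (w : ℤ) (γ : ℝ → ℂ) : Prop where
  cont : Continuous γ
  avoid : ∀ s ∈ Icc (0 : ℝ) 1, ∀ k m : ℤ, γ s ≠ k + m * I
  bot : 0 < (γ 0).im ∧ (γ 0).im < 1
  top : (w : ℝ) - 1 < (γ 1).re ∧ (γ 1).re < w

/-- The path crosses the column `c` between the rows `lo c` and `lo c + 1`; left of its start it is
thought of as continued horizontally. -/
def Cols (w : ℤ) (lo : ℤ → ℤ) (γ : ℝ → ℂ) : Prop :=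
  ∀ c : ℤ, c < w → ((c : ℝ) ≤ (γ 0).re → lo c = 0) ∧
    ∀ s ∈ Icc (0 : ℝ) 1, (γ s).re = c → lo c < (γ s).im ∧ (γ s).im < lo c + 1

/-- The conclusion of the conjecture. -/
def Neu (K : Set S3) : Prop :=
  ∃ F : Set S3, IsCompact F ∧ K ⊆ F ∧ (∀ x ∈ F, Flat F K x) ∧ IsConnected (F \ K) ∧
    (∀ x, Function.Injective (FundamentalGroup.map (incl F K) x)) ∧
    ∃ (x : ↥(F \ K)) (g h : FundamentalGroup ↥(F \ K) x), g * h ≠ h * g

/-- The symmetric form of a knot: the strands over `z s` and `-z s` for `s₀ ≤ s ≤ s₁`, closed up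
by straight arcs on the tori of latitude `s₀` and `s₁` with middle points `0` and `v`. -/
def symKnot (z : ℝ → ℂ) (s₀ s₁ : ℝ) (v : ℂ) : Set S3 :=
  (fun s => pt (z s) s) '' Icc s₀ s₁ ∪ (fun s => pt (-z s) s) '' Icc s₀ s₁ ∪
    (fun t : ℝ => pt (t * z s₀) s₀) '' Icc (-1) 1 ∪
    (fun t : ℝ => pt (v + t * (z s₁ - v)) s₁) '' Icc (-1) 1

end OneOne
end

-- merged part: Pool.Agent.Work.MP_d5331a_gt.OO.Desc
section
/-!
Homeomorphisms of the 3-sphere induced by maps in the coordinates `(ζ, s)`.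

Plan. `pt_eq_iff`: compare norms of the coordinates (`cos` and `sin` are non-negative, `sin` is
injective on `[0, π / 2]`), then `exp_eq_exp_iff_exists_int`. `pt_surj`: `s = 2 / π * arcsin ‖p.2‖`,
angles by `Complex.arg` (`norm_mul_exp_arg_mul_I`). `S3` is compact (closed and bounded).
`descend`: put `h p = q (H (σ p))` for a section `σ` of `q`; `h ∘ q = q ∘ H`, so `h` is continuous;
it is bijective; `Continuous.homeoOfEquivCompactToT2`. `quot_of_compact`: the restriction of `q` to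
the compact set is a continuous surjection from a compact space to a Hausdorff space, hence closed
and a quotient map; `IsQuotientMap.of_comp`. `descend_pt`: apply `descend` to
`X = {x : ℂ × ℝ // x.2 ∈ Icc 0 1}`, with the compact set `‖ζ‖ ≤ 2` (`pt_add`).
`exists_contr_inv`: Banach fixed point theorem (`ContractingWith.fixedPoint`) for `x ↦ y - φ x`.
-/

set_option autoImplicit false

open Complex Set Topology

namespace OneOne

open Neuwirth

theorem continuous_pt : Continuous fun x : ℂ × ℝ => pt x.1 x.2 := by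
  refine Continuous.subtype_mk ?_ _
  fun_prop

theorem Desc_exp (a b : ℝ) : exp (((2 * Real.pi * a : ℝ) : ℂ) * I) = exp (((2 * Real.pi * b : ℝ) : ℂ) * I) ↔
    ∃ m : ℤ, b = a + m := by
  rw [eq_comm, exp_eq_exp_iff_exists_int]
  refine exists_congr fun m => ⟨fun h => ?_, fun h => ?_⟩
  · have h1 := congrArg Complex.im h
    simp at h1
    exact mul_left_cancel₀ Real.two_pi_pos.ne' (by linarith only [h1])
  · rw [h]
    push_cast
    ring

theorem Desc_mul (r a b : ℝ) : (r : ℂ) * exp (((2 * Real.pi * a : ℝ) : ℂ) * I) =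
    r * exp (((2 * Real.pi * b : ℝ) : ℂ) * I) ↔ (r ≠ 0 → ∃ m : ℤ, b = a + m) := by
  rw [mul_eq_mul_left_iff, Desc_exp, ofReal_eq_zero, or_iff_not_imp_right]

theorem Desc_mem {s : ℝ} (hs : s ∈ Icc (0 : ℝ) 1) : Real.pi * s / 2 ∈ Icc 0 (Real.pi / 2) :=
  ⟨by have := hs.1; positivity, by linarith only [hs, hs.2, Real.pi_pos, mul_nonneg_of_nonpos_of_nonpos (Mathlib.Tactic.Linarith.sub_nonpos_of_le hs.right) (le_of_lt (Mathlib.Tactic.Linarith.sub_neg_of_lt Real.pi_pos))]⟩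

theorem Desc_sin {s s' : ℝ} (hs : s ∈ Icc (0 : ℝ) 1) (hs' : s' ∈ Icc (0 : ℝ) 1)
    (h : Real.sin (Real.pi * s / 2) = Real.sin (Real.pi * s' / 2)) : s = s' := by
  have h1 := Real.pi_pos
  have := Real.injOn_sin ⟨by linarith only [h1, hs, (Desc_mem hs).1], (Desc_mem hs).2⟩
    ⟨by linarith only [h1, hs', (Desc_mem hs').1], (Desc_mem hs').2⟩ h
  exact mul_left_cancel₀ h1.ne' (by linarith only [this])

theorem Desc_sin_ne {s : ℝ} (hs : s ∈ Icc (0 : ℝ) 1) : Real.sin (Real.pi * s / 2) ≠ 0 ↔ 0 < s := by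
  refine ⟨fun h => hs.1.lt_of_ne fun e => h (by simp [← e]), fun h e => h.ne' ?_⟩
  exact Desc_sin hs ⟨le_rfl, zero_le_one⟩ (by simpa using e)

theorem Desc_cos_ne {s : ℝ} (hs : s ∈ Icc (0 : ℝ) 1) : Real.cos (Real.pi * s / 2) ≠ 0 ↔ s < 1 := by
  have h1 := Real.pi_pos
  refine ⟨fun h => hs.2.lt_of_ne fun e => h (by simp [e]), fun h => ne_of_gt ?_⟩
  exact Real.cos_pos_of_mem_Ioo ⟨by linarith only [h1, hs, (Desc_mem hs).1], by linarith only [h1, h, mul_pos_of_neg_of_neg (Mathlib.Tactic.Linarith.sub_neg_of_lt h1) (Mathlib.Tactic.Linarith.sub_neg_of_lt h)]⟩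

theorem Desc_surj (p : S3) : ∃ ζ : ℂ, ‖ζ‖ ≤ 1 ∧ ∃ s ∈ Icc (0 : ℝ) 1, pt ζ s = p := by
  obtain ⟨⟨a, b⟩, hp⟩ := p
  have h1 := Real.pi_pos
  have hb : ‖b‖ ≤ 1 := by (refine le_of_not_gt fun h_nl => ?_; linarith only [h_nl, hp, norm_nonneg a, norm_nonneg b, sq_nonneg ‖(a, b).1‖, mul_pos_of_neg_of_neg (Mathlib.Tactic.Linarith.sub_neg_of_lt h_nl) (Mathlib.Tactic.Linarith.sub_neg_of_lt h_nl)])
  have e : Real.pi * (2 / Real.pi * Real.arcsin ‖b‖) / 2 = Real.arcsin ‖b‖ := by field_simp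
  have e1 : ∀ z : ℂ, 2 * Real.pi * (arg z / (2 * Real.pi)) = arg z := fun z => by field_simp
  have e2 : ∀ z : ℂ, |arg z / (2 * Real.pi)| ≤ 1 / 2 := fun z => by
    rw [abs_div, abs_of_pos Real.two_pi_pos, div_le_iff₀ Real.two_pi_pos]
    linarith only [abs_arg_le_pi z]
  refine ⟨⟨arg b / (2 * Real.pi), arg a / (2 * Real.pi)⟩, ?_, 2 / Real.pi * Real.arcsin ‖b‖,
    ⟨mul_nonneg (by positivity) (Real.arcsin_nonneg.2 (norm_nonneg b)), ?_⟩, Subtype.ext ?_⟩
  · refine (norm_le_abs_re_add_abs_im _).trans ?_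
    linarith only [e2, e2 a, e2 b]
  · rw [div_mul_eq_mul_div, div_le_one h1]
    linarith only [Real.arcsin_le_pi_div_two ‖b‖]
  · have e3 : Real.sqrt (1 - ‖b‖ ^ 2) = ‖a‖ := by
      rw [show 1 - ‖b‖ ^ 2 = ‖a‖ ^ 2 from by linarith only [hp], Real.sqrt_sq (norm_nonneg a)]
    simp only [pt, e, e1, Real.cos_arcsin, Real.sin_arcsin (by linarith only [norm_nonneg b]) hb, e3,
      norm_mul_exp_arg_mul_I]

theorem Desc_cpt : IsCompact (Metric.closedBall (0 : ℂ) 1 ×ˢ Icc (0 : ℝ) 1) :=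
  (isCompact_closedBall _ _).prod isCompact_Icc

theorem pt_eq_iff {ζ ζ' : ℂ} {s s' : ℝ} (hs : s ∈ Icc (0 : ℝ) 1) (hs' : s' ∈ Icc (0 : ℝ) 1) :
    pt ζ s = pt ζ' s' ↔ s = s' ∧ (s < 1 → ∃ m : ℤ, ζ'.im = ζ.im + m) ∧
      (0 < s → ∃ k : ℤ, ζ'.re = ζ.re + k) := by
    rw [Subtype.ext_iff, Prod.ext_iff]
    simp only [pt]
    refine ⟨fun h => ?_, fun h => ?_⟩
    · have h1 := congrArg norm h.2
      have h2 : ∀ t ∈ Icc (0 : ℝ) 1, 0 ≤ Real.sin (Real.pi * t / 2) := fun t ht =>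
        Real.sin_nonneg_of_nonneg_of_le_pi (Desc_mem ht).1 (by linarith only [ht, (Desc_mem ht).2, Real.pi_pos])
      simp only [norm_mul, norm_exp_ofReal_mul_I, mul_one, norm_real, Real.norm_eq_abs,
        abs_of_nonneg (h2 s hs), abs_of_nonneg (h2 s' hs')] at h1
      obtain rfl := Desc_sin hs hs' h1
      rw [Desc_mul, Desc_mul, Desc_cos_ne hs, Desc_sin_ne hs] at h
      exact ⟨rfl, h⟩
    · obtain ⟨rfl, h⟩ := h
      rw [Desc_mul, Desc_mul, Desc_cos_ne hs, Desc_sin_ne hs]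
      exact h

theorem pt_add (ζ : ℂ) (s : ℝ) (k m : ℤ) : pt (ζ + (k + m * I)) s = pt ζ s := by
    refine Subtype.ext (Prod.ext ?_ ?_)
    · exact ((Desc_mul _ _ _).2 fun _ => ⟨m, by simp⟩).symm
    · exact ((Desc_mul _ _ _).2 fun _ => ⟨k, by simp⟩).symm

theorem pt_surj (p : S3) : ∃ ζ : ℂ, ∃ s ∈ Icc (0 : ℝ) 1, pt ζ s = p := by
    exact (Desc_surj p).imp fun _ h => h.2

theorem compactSpace_S3 : CompactSpace S3 := by
    refine ⟨(Desc_cpt.image continuous_pt).of_isClosed_subset isClosed_univ fun p _ => ?_⟩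
    obtain ⟨ζ, h1, s, h2, h3⟩ := Desc_surj p
    exact ⟨(ζ, s), ⟨mem_closedBall_zero_iff.2 h1, h2⟩, h3⟩

theorem quot_of_compact {X : Type*} [TopologicalSpace X] {q : X → S3} (hq : Continuous q)
    {A : Set X} (hA : IsCompact A) (hs : ∀ p, ∃ x ∈ A, q x = p) : IsQuotientMap q := by
    have := isCompact_iff_compactSpace.1 hA
    have h1 : Continuous (q ∘ (Subtype.val : A → X)) := hq.comp continuous_subtype_val
    refine IsQuotientMap.of_comp continuous_subtype_val hq (h1.isClosedMap.isQuotientMap h1 fun p => ?_)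
    obtain ⟨x, hx, e⟩ := hs p
    exact ⟨⟨x, hx⟩, e⟩

theorem descend {X : Type*} [TopologicalSpace X] {q : X → S3} (hq : IsQuotientMap q) {H : X → X}
    (hH : Continuous H) (hrel : ∀ x y, q (H x) = q (H y) ↔ q x = q y)
    (hs : ∀ y, ∃ x, q (H x) = q y) : ∃ h : S3 ≃ₜ S3, ∀ x, h (q x) = q (H x) := by
    have := compactSpace_S3
    choose σ hσ using hq.surjective
    have h1 : ∀ x, q (H (σ (q x))) = q (H x) := fun x => (hrel _ _).2 (hσ _)
    have h2 : Function.Bijective fun p => q (H (σ p)) := by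
      refine ⟨fun p p' e => by rw [← hσ p, ← hσ p', (hrel _ _).1 e], fun p => ?_⟩
      obtain ⟨x, hx⟩ := hs (σ p)
      exact ⟨q x, (h1 x).trans (hx.trans (hσ p))⟩
    have h3 : Continuous (Equiv.ofBijective _ h2) := by
      refine hq.continuous_iff.2 ?_
      exact (hq.continuous.comp hH).congr fun x => (h1 x).symm
    exact ⟨h3.homeoOfEquivCompactToT2, h1⟩

theorem descend_pt (H : ℂ × ℝ → ℂ × ℝ) (hH : Continuous H)
    (hm : ∀ x : ℂ × ℝ, x.2 ∈ Icc (0 : ℝ) 1 → (H x).2 ∈ Icc (0 : ℝ) 1)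
    (hrel : ∀ x y : ℂ × ℝ, x.2 ∈ Icc (0 : ℝ) 1 → y.2 ∈ Icc (0 : ℝ) 1 →
      (pt (H x).1 (H x).2 = pt (H y).1 (H y).2 ↔ pt x.1 x.2 = pt y.1 y.2))
    (hs : ∀ y : ℂ × ℝ, y.2 ∈ Icc (0 : ℝ) 1 →
      ∃ x : ℂ × ℝ, x.2 ∈ Icc (0 : ℝ) 1 ∧ pt (H x).1 (H x).2 = pt y.1 y.2) :
    ∃ h : S3 ≃ₜ S3, ∀ ζ, ∀ s ∈ Icc (0 : ℝ) 1, h (pt ζ s) = pt (H (ζ, s)).1 (H (ζ, s)).2 := by
    have hc : IsClosed {x : ℂ × ℝ | x.2 ∈ Icc (0 : ℝ) 1} := isClosed_Icc.preimage continuous_snd
    obtain ⟨h, hh⟩ := descend (X := {x : ℂ × ℝ | x.2 ∈ Icc (0 : ℝ) 1}) (q := fun x => pt x.1.1 x.1.2)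
      (quot_of_compact (continuous_pt.comp continuous_subtype_val)
        (hc.isClosedEmbedding_subtypeVal.isCompact_preimage Desc_cpt) fun p => by
          obtain ⟨ζ, h1, s, h2, h3⟩ := Desc_surj p
          exact ⟨⟨(ζ, s), h2⟩, ⟨mem_closedBall_zero_iff.2 h1, h2⟩, h3⟩)
      (H := fun x => ⟨H x.1, hm x.1 x.2⟩) ((hH.comp continuous_subtype_val).subtype_mk _)
      (fun x y => hrel x.1 y.1 x.2 y.2) fun y => by
        obtain ⟨x, h1, h2⟩ := hs y.1 y.2
        exact ⟨⟨x, h1⟩, h2⟩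
    exact ⟨h, fun ζ s k => hh ⟨(ζ, s), k⟩⟩

/-- Vertical moves. -/
theorem vert (δ : ℂ × ℝ → ℝ) (hc : Continuous δ)
    (hper : ∀ ζ s, ∀ k m : ℤ, δ (ζ + (k + m * I), s) = δ (ζ, s))
    (hmono : ∀ ζ, StrictMonoOn (fun s => s + δ (ζ, s)) (Icc 0 1))
    (h0 : ∀ ζ, δ (ζ, 0) = 0) (h1 : ∀ ζ, δ (ζ, 1) = 0) :
    ∃ h : S3 ≃ₜ S3, ∀ ζ, ∀ s ∈ Icc (0 : ℝ) 1, h (pt ζ s) = pt ζ (s + δ (ζ, s)) := by
    have z0 : (0 : ℝ) ∈ Icc (0 : ℝ) 1 := ⟨le_rfl, zero_le_one⟩
    have z1 : (1 : ℝ) ∈ Icc (0 : ℝ) 1 := ⟨zero_le_one, le_rfl⟩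
    have a0 : ∀ ζ, ∀ s ∈ Icc (0 : ℝ) 1, 0 < s + δ (ζ, s) ↔ 0 < s := fun ζ s hs => by
      have := (hmono ζ).lt_iff_lt z0 hs
      rwa [h0, add_zero] at this
    have a1 : ∀ ζ, ∀ s ∈ Icc (0 : ℝ) 1, s + δ (ζ, s) < 1 ↔ s < 1 := fun ζ s hs => by
      have := (hmono ζ).lt_iff_lt hs z1
      rwa [h1, add_zero] at this
    have hm : ∀ ζ, ∀ s ∈ Icc (0 : ℝ) 1, s + δ (ζ, s) ∈ Icc (0 : ℝ) 1 := fun ζ s hs => by
      have k0 := (hmono ζ).monotoneOn z0 hs hs.1
      have k1 := (hmono ζ).monotoneOn hs z1 hs.2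
      simp only [h0, h1, add_zero] at k0 k1
      exact ⟨k0, k1⟩
    have key : ∀ ζ ζ' : ℂ, ∀ s ∈ Icc (0 : ℝ) 1, (s < 1 → ∃ m : ℤ, ζ'.im = ζ.im + m) →
        (0 < s → ∃ k : ℤ, ζ'.re = ζ.re + k) → δ (ζ', s) = δ (ζ, s) := fun ζ ζ' s hs k1 k2 => by
      rcases hs.1.eq_or_lt with rfl | l0
      · rw [h0, h0]
      rcases hs.2.eq_or_lt with rfl | l1
      · rw [h1, h1]
      obtain ⟨m, hm⟩ := k1 l1
      obtain ⟨k, hk⟩ := k2 l0
      rw [← hper ζ s k m, show ζ' = ζ + (k + m * I) from Complex.ext (by simp [hk]) (by simp [hm])]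
    refine descend_pt (fun x => (x.1, x.2 + δ x)) (by fun_prop) (fun x hx => hm x.1 x.2 hx) ?_ ?_
    · rintro ⟨ζ, s⟩ ⟨ζ', s'⟩ hs hs'
      rw [pt_eq_iff (hm ζ s hs) (hm ζ' s' hs'), pt_eq_iff hs hs', a0 ζ s hs, a1 ζ s hs]
      refine and_congr_left fun k => ⟨fun e => (hmono ζ').injOn hs hs' ?_, ?_⟩
      · rw [key ζ ζ' s hs k.1 k.2]
        exact e
      · rintro rfl
        rw [key ζ ζ' s hs k.1 k.2]
    · rintro ⟨ζ, t⟩ ht
      obtain ⟨s, hs, e⟩ := intermediate_value_Icc zero_le_one (f := fun s => s + δ (ζ, s))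
        (Continuous.continuousOn (by fun_prop)) (a := 0) (b := 1) (show t ∈ _ by
          simp only [h0, h1, add_zero]
          exact ht)
      exact ⟨(ζ, s), hs, congrArg (pt ζ) e⟩

/-- Translations that depend on the latitude. -/
theorem transl (c : ℝ → ℂ) (hc : Continuous c) :
    ∃ h : S3 ≃ₜ S3, ∀ ζ, ∀ s ∈ Icc (0 : ℝ) 1, h (pt ζ s) = pt (ζ + c s) s := by
    refine descend_pt (fun x => (x.1 + c x.2, x.2)) (by fun_prop) (fun x hx => hx) ?_ ?_
    · rintro ⟨ζ, s⟩ ⟨ζ', s'⟩ hs hs'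
      rw [pt_eq_iff hs hs', pt_eq_iff hs hs']
      refine and_congr_right ?_
      rintro rfl
      simp only [add_im, add_re, add_right_comm _ (c s).im, add_right_comm _ (c s).re, add_left_inj]
    · rintro ⟨ζ, s⟩ hs
      exact ⟨(ζ - c s, s), hs, by simp⟩

/-- The identity plus a contraction is bijective. -/
theorem exists_contr_inv {φ : ℂ → ℂ} {c : ℝ} (hc : c < 1)
    (h : ∀ x y, ‖φ x - φ y‖ ≤ c * ‖x - y‖) : Function.Bijective fun x => x + φ x := by
    refine ⟨fun x y e => ?_, fun y => ?_⟩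
    · have h1 := h x y
      rw [show φ x - φ y = -(x - y) from by linear_combination (e : x + φ x = y + φ y), norm_neg] at h1
      exact sub_eq_zero.1 (norm_eq_zero.1 (by nlinarith [norm_nonneg (x - y)]))
    · have h1 : ContractingWith c.toNNReal fun x => y - φ x := by
        refine ⟨Real.toNNReal_lt_one.2 hc, LipschitzWith.of_dist_le_mul fun a b => ?_⟩
        rw [dist_sub_left, dist_eq_norm, dist_eq_norm]
        exact (h a b).trans (mul_le_mul_of_nonneg_right (Real.le_coe_toNNReal c) (norm_nonneg _))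
      have h2 : y - φ _ = _ := h1.fixedPoint_isFixedPt
      exact ⟨_, (sub_eq_iff_eq_add.1 h2).symm⟩

end OneOne
end

-- merged part: Pool.Agent.Work.MP_d5331a_gt.OO.Move
section
/-!
Homotopies of admissible paths do not change the knot type.

Plan for `move_near`. Let `dZ x = |x - round x|` (distance to `ℤ`, 1-periodic, 1-Lipschitz; it is
`‖(x : AddCircle 1)‖`, or use `Metric.infDist`), and
`d (ζ, s) = sin (π s / 2) * dZ (re (ζ - γ s)) + cos (π s / 2) * dZ (im (ζ - γ s))`. By admissibility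
`d (0, s) > 0` on `[0, 1]`, so `d (0, s) ≥ η > 0` by compactness. Put `φ = max 0 (1 - d / η)`: it is
`2 / η`-Lipschitz in `ζ`, periodic, `1` at `γ s`, `0` on the lattice, depends only on `im ζ` for
`s = 0` and only on `re ζ` for `s = 1`. With `v s = γ' s - γ s`, `‖v s‖ < δ ≤ η / 4`, the map
`H (ζ, s) = (ζ + φ (ζ, s) * v s, s)` satisfies the hypotheses of `descend_pt`
(`exists_contr_inv`, `pt_eq_iff`; for `s = 0` the map `y ↦ y + φ * im (v 0)` of the line is strictly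
increasing and commutes with integer shifts). It fixes the strand over `0`, sends `γ s` to `γ' s`,
and maps the two closing intervals onto the new ones (strictly increasing continuous maps of the
line that fix `0`, respectively `w`; `ContinuousOn.image_Icc` or the intermediate value theorem).
Admissibility of `γ'`: it follows from the injectivity of `H` or directly from `δ ≤ η / 4` and
`δ` smaller than the distances of the end points to the walls. Note `⌈re (γ 1)⌉ = w`.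
`move_homotopy`: the relation `Eqv (knot (Γ t)) (knot (Γ t'))` is locally true by `move_near` and
uniform continuity in `s` (tube lemma, `IsCompact.eventually_forall_of_forall_eventually`); use
`IsPreconnected.induction₂'` on `Icc 0 1`.
-/

set_option autoImplicit false

open Complex Set Topology

namespace OneOne

open Neuwirth

theorem knot_congr {γ γ' : ℝ → ℂ} (h : EqOn γ γ' (Icc 0 1)) : knot γ = knot γ' := by
  have h0 : γ 0 = γ' 0 := h ⟨le_rfl, zero_le_one⟩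
  have h1 : γ 1 = γ' 1 := h ⟨zero_le_one, le_rfl⟩
  unfold knot
  rw [h0, h1, image_congr (f := fun s => pt (γ s) s) (g := fun s => pt (γ' s) s)
    fun s hs => by rw [h hs]]

theorem knot_add_int (γ : ℝ → ℂ) (a : ℤ) : knot (fun s => γ s + a) = knot γ := by
  have e : ∀ (ζ : ℂ) (s : ℝ), pt (ζ + a) s = pt ζ s := fun ζ s => by
    simpa using pt_add ζ s a 0
  unfold knot
  simp only [e, add_im, intCast_im, add_zero, add_re, intCast_re, Int.ceil_add_intCast,
    Int.cast_add]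
  congr 1
  rw [← image_add_const_Icc, image_image]
  refine image_congr fun x _ => ?_
  rw [← e x 1]
  push_cast
  rfl

theorem Adm.add_int {w : ℤ} {γ : ℝ → ℂ} (h : Adm w γ) (a : ℤ) :
    Adm (w + a) fun s => γ s + a := by
  refine ⟨h.cont.add continuous_const, fun s hs k m e => h.avoid s hs (k - a) m ?_, ?_, ?_⟩
  · push_cast
    linear_combination e
  · simpa using h.bot
  · have := h.top
    simp only [add_re, intCast_re, Int.cast_add]
    constructor <;> linarith only [this, this.1, this.2]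

/-- Distance to the integers. -/
noncomputable def moveDZ (x : ℝ) : ℝ := |x - round x|

theorem moveDZ_nonneg (x : ℝ) : 0 ≤ moveDZ x := abs_nonneg _

theorem moveDZ_le (x y : ℝ) (k : ℤ) : moveDZ x ≤ moveDZ y + |x - (y + k)| := by
  have h1 : moveDZ x ≤ |x - ((round y + k : ℤ) : ℝ)| := round_le x _
  have h2 : x - ((round y + k : ℤ) : ℝ) = (y - round y) + (x - (y + k)) := by
    push_cast; ring
  rw [h2] at h1
  exact h1.trans (abs_add_le _ _)

theorem moveDZ_lip (x y : ℝ) (k : ℤ) : |moveDZ x - moveDZ y| ≤ |x - (y + k)| := by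
  have h1 := moveDZ_le x y k
  have h2 := moveDZ_le y x (-k)
  have h3 : |y - (x + ((-k : ℤ) : ℝ))| = |x - (y + k)| := by
    rw [← abs_neg]; congr 1; push_cast; ring
  rw [h3] at h2
  exact abs_le.2 ⟨by linarith, by linarith⟩

theorem moveDZ_zero : moveDZ 0 = 0 := by simp [moveDZ]

theorem moveDZ_eq_zero {x : ℝ} (h : moveDZ x = 0) : ∃ k : ℤ, x = k :=
  ⟨round x, sub_eq_zero.1 (abs_eq_zero.1 h)⟩

theorem continuous_moveDZ : Continuous moveDZ := by
  have : LipschitzWith 1 moveDZ := LipschitzWith.of_dist_le_mul fun x y => by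
    have := moveDZ_lip x y 0
    simpa [Real.dist_eq] using this
  exact this.continuous

/-- Weighted distance of `ζ - γ s` to the lattice. -/
noncomputable def moveD (γ : ℝ → ℂ) (x : ℂ × ℝ) : ℝ :=
  Real.sin (Real.pi * x.2 / 2) * moveDZ (x.1.re - (γ x.2).re) +
    Real.cos (Real.pi * x.2 / 2) * moveDZ (x.1.im - (γ x.2).im)

/-- The bump function. -/
noncomputable def movePhi (γ : ℝ → ℂ) (η : ℝ) (x : ℂ × ℝ) : ℝ := max 0 (1 - moveD γ x / η)

theorem move_sin_nonneg {s : ℝ} (hs : s ∈ Icc (0 : ℝ) 1) : 0 ≤ Real.sin (Real.pi * s / 2) := by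
  have := Real.pi_pos
  refine Real.sin_nonneg_of_nonneg_of_le_pi (by linarith only [this, hs, hs.1, mul_nonneg_of_nonpos_of_nonpos (le_of_lt (Mathlib.Tactic.Linarith.sub_neg_of_lt this)) (Mathlib.Tactic.Linarith.sub_nonpos_of_le hs.left)]) (by nlinarith [hs.2])

theorem move_cos_nonneg {s : ℝ} (hs : s ∈ Icc (0 : ℝ) 1) : 0 ≤ Real.cos (Real.pi * s / 2) := by
  have := Real.pi_pos
  refine Real.cos_nonneg_of_neg_pi_div_two_le_of_le (by linarith only [this, hs, hs.1, mul_nonneg_of_nonpos_of_nonpos (le_of_lt (Mathlib.Tactic.Linarith.sub_neg_of_lt this)) (Mathlib.Tactic.Linarith.sub_nonpos_of_le hs.left)]) (by nlinarith [hs.2])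

theorem move_sin_pos {s : ℝ} (h0 : 0 < s) (h1 : s ≤ 1) : 0 < Real.sin (Real.pi * s / 2) := by
  have := Real.pi_pos
  refine Real.sin_pos_of_pos_of_lt_pi (by positivity) (by linarith only [this, h1, mul_nonneg_of_nonpos_of_nonpos (Mathlib.Tactic.Linarith.sub_nonpos_of_le h1) (le_of_lt (Mathlib.Tactic.Linarith.sub_neg_of_lt this))])

theorem move_cos_pos {s : ℝ} (h0 : 0 ≤ s) (h1 : s < 1) : 0 < Real.cos (Real.pi * s / 2) := by
  have := Real.pi_pos
  refine Real.cos_pos_of_mem_Ioo ⟨by linarith only [this, h0, mul_nonneg_of_nonpos_of_nonpos (Mathlib.Tactic.Linarith.sub_nonpos_of_le h0) (le_of_lt (Mathlib.Tactic.Linarith.sub_neg_of_lt this))], by nlinarith⟩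

theorem move_sin_one : Real.sin (Real.pi * 1 / 2) = 1 := by simp

theorem move_cos_one : Real.cos (Real.pi * 1 / 2) = 0 := by simp

theorem continuous_moveD {γ : ℝ → ℂ} (hγ : Continuous γ) : Continuous (moveD γ) := by
  unfold moveD
  have := continuous_moveDZ
  fun_prop

theorem continuous_movePhi {γ : ℝ → ℂ} (hγ : Continuous γ) (η : ℝ) :
    Continuous (movePhi γ η) := by
  unfold movePhi
  have := continuous_moveD hγ
  fun_prop

theorem movePhi_lip (γ : ℝ → ℂ) {η : ℝ} (hη : 0 < η) {s : ℝ} (hs : s ∈ Icc (0 : ℝ) 1)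
    (ζ ζ' : ℂ) (k m : ℤ) :
    η * |movePhi γ η (ζ', s) - movePhi γ η (ζ, s)| ≤
      Real.sin (Real.pi * s / 2) * |ζ'.re - (ζ.re + k)| +
        Real.cos (Real.pi * s / 2) * |ζ'.im - (ζ.im + m)| := by
  have hA := move_sin_nonneg hs
  have hB := move_cos_nonneg hs
  have h1 : |movePhi γ η (ζ', s) - movePhi γ η (ζ, s)| ≤
      |(1 - moveD γ (ζ', s) / η) - (1 - moveD γ (ζ, s) / η)| := by
    unfold movePhi
    rw [max_comm 0, max_comm 0]
    exact abs_max_sub_max_le_abs _ _ _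
  have h2 : η * |(1 - moveD γ (ζ', s) / η) - (1 - moveD γ (ζ, s) / η)| =
      |moveD γ (ζ', s) - moveD γ (ζ, s)| := by
    have : (1 - moveD γ (ζ', s) / η) - (1 - moveD γ (ζ, s) / η) =
        -(moveD γ (ζ', s) - moveD γ (ζ, s)) / η := by ring
    rw [this, abs_div, abs_neg, abs_of_pos hη]
    field_simp
  have h3 := moveDZ_lip (ζ'.re - (γ s).re) (ζ.re - (γ s).re) k
  have h4 := moveDZ_lip (ζ'.im - (γ s).im) (ζ.im - (γ s).im) m
  have e3 : ζ'.re - (γ s).re - (ζ.re - (γ s).re + k) = ζ'.re - (ζ.re + k) := by ring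
  have e4 : ζ'.im - (γ s).im - (ζ.im - (γ s).im + m) = ζ'.im - (ζ.im + m) := by ring
  rw [e3] at h3
  rw [e4] at h4
  have h5 : moveD γ (ζ', s) - moveD γ (ζ, s) =
      Real.sin (Real.pi * s / 2) * (moveDZ (ζ'.re - (γ s).re) - moveDZ (ζ.re - (γ s).re)) +
        Real.cos (Real.pi * s / 2) * (moveDZ (ζ'.im - (γ s).im) - moveDZ (ζ.im - (γ s).im)) := by
    simp only [moveD]; ring
  calc η * |movePhi γ η (ζ', s) - movePhi γ η (ζ, s)|
      ≤ |moveD γ (ζ', s) - moveD γ (ζ, s)| := by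
        rw [← h2]; exact mul_le_mul_of_nonneg_left h1 hη.le
    _ ≤ _ := by
        rw [h5]
        refine (abs_add_le _ _).trans ?_
        rw [abs_mul, abs_mul, abs_of_nonneg hA, abs_of_nonneg hB]
        exact add_le_add (mul_le_mul_of_nonneg_left h3 hA) (mul_le_mul_of_nonneg_left h4 hB)

theorem movePhi_self (γ : ℝ → ℂ) (η : ℝ) {s : ℝ} {ζ : ℂ}
    (h1 : s = 0 ∨ ζ.re = (γ s).re) (h2 : s = 1 ∨ ζ.im = (γ s).im) : movePhi γ η (ζ, s) = 1 := by
  have e1 : Real.sin (Real.pi * s / 2) * moveDZ (ζ.re - (γ s).re) = 0 := by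
    rcases h1 with h | h
    · simp [h]
    · simp [h, moveDZ_zero]
  have e2 : Real.cos (Real.pi * s / 2) * moveDZ (ζ.im - (γ s).im) = 0 := by
    rcases h2 with h | h
    · simp [h]
    · simp [h, moveDZ_zero]
  simp [movePhi, moveD, e1, e2]

theorem moveD_pos {w : ℤ} {γ : ℝ → ℂ} (h : Adm w γ) {s : ℝ} (hs : s ∈ Icc (0 : ℝ) 1) :
    0 < moveD γ (0, s) := by
  have hA := move_sin_nonneg hs
  have hB := move_cos_nonneg hs
  have h1 := mul_nonneg hA (moveDZ_nonneg ((0 : ℂ).re - (γ s).re))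
  have h2 := mul_nonneg hB (moveDZ_nonneg ((0 : ℂ).im - (γ s).im))
  by_contra hn
  have hn' : moveD γ (0, s) ≤ 0 := not_lt.1 hn
  simp only [moveD] at hn'
  have e1 : Real.sin (Real.pi * s / 2) * moveDZ ((0 : ℂ).re - (γ s).re) = 0 := by linarith only [h1, h2, hn']
  have e2 : Real.cos (Real.pi * s / 2) * moveDZ ((0 : ℂ).im - (γ s).im) = 0 := by linarith only [h2, h1, hn']
  have f1 : 0 < s → ∃ k : ℤ, (γ s).re = k := fun h0 => by
    obtain ⟨k, hk⟩ := moveDZ_eq_zero ((mul_eq_zero.1 e1).resolve_left (move_sin_pos h0 hs.2).ne')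
    exact ⟨-k, by simp at hk; push_cast; linarith only [hk]⟩
  have f2 : s < 1 → ∃ k : ℤ, (γ s).im = k := fun h0 => by
    obtain ⟨k, hk⟩ := moveDZ_eq_zero ((mul_eq_zero.1 e2).resolve_left (move_cos_pos hs.1 h0).ne')
    exact ⟨-k, by simp at hk; push_cast; linarith only [hk]⟩
  rcases hs.1.eq_or_lt with h0 | h0
  · subst h0
    obtain ⟨k, hk⟩ := f2 one_pos
    have hb := h.bot
    rw [hk] at hb
    have b1 : (0 : ℤ) < k := by exact_mod_cast hb.1
    have b2 : k < (1 : ℤ) := by exact_mod_cast hb.2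
    omega
  rcases hs.2.eq_or_lt with h1 | h1
  · subst h1
    obtain ⟨k, hk⟩ := f1 one_pos
    have hb := h.top
    rw [hk] at hb
    have b1 : w - 1 < k := by exact_mod_cast hb.1
    have b2 : k < w := by exact_mod_cast hb.2
    omega
  obtain ⟨k, hk⟩ := f1 h0
  obtain ⟨m, hm⟩ := f2 h1
  exact h.avoid s hs k m (Complex.ext (by simp [hk]) (by simp [hm]))

theorem move_strictMono {φ : ℝ → ℝ} {η c : ℝ} (hη : 0 < η) (hc : |c| ≤ η / 4)
    (h : ∀ x y, η * |φ y - φ x| ≤ |y - x|) : StrictMono fun y => y + φ y * c := by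
  intro x y hxy
  have h1 := h x y
  rw [abs_of_pos (sub_pos.2 hxy)] at h1
  have h2 : |(φ y - φ x) * c| ≤ |φ y - φ x| * (η / 4) := by
    rw [abs_mul]; exact mul_le_mul_of_nonneg_left hc (abs_nonneg _)
  have h3 := (abs_le.1 h2).1
  show x + φ x * c < y + φ y * c
  linarith only [hxy, h1, h3]

theorem Adm.move_ceil {w : ℤ} {γ : ℝ → ℂ} (h : Adm w γ) : ⌈(γ 1).re⌉ = w :=
  Int.ceil_eq_iff.2 ⟨h.top.1, h.top.2.le⟩

theorem move_pt_bot {ζ ζ' : ℂ} (h : ζ.im = ζ'.im) : pt ζ 0 = pt ζ' 0 :=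
  (pt_eq_iff ⟨le_rfl, zero_le_one⟩ ⟨le_rfl, zero_le_one⟩).2
    ⟨rfl, fun _ => ⟨0, by simp [h]⟩, fun h0 => absurd h0 (lt_irrefl _)⟩

theorem move_pt_top {ζ ζ' : ℂ} (h : ζ.re = ζ'.re) : pt ζ 1 = pt ζ' 1 :=
  (pt_eq_iff ⟨zero_le_one, le_rfl⟩ ⟨zero_le_one, le_rfl⟩).2
    ⟨rfl, fun h0 => absurd h0 (lt_irrefl _), fun _ => ⟨0, by simp [h]⟩⟩

theorem move_rel (γ : ℝ → ℂ) {η : ℝ} (hη : 0 < η) {s : ℝ} (hs : s ∈ Icc (0 : ℝ) 1) {v : ℂ}
    (hv : ‖v‖ ≤ η / 4) (ζ ζ' : ℂ) :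
    pt (ζ + movePhi γ η (ζ, s) * v) s = pt (ζ' + movePhi γ η (ζ', s) * v) s ↔
      pt ζ s = pt ζ' s := by
  have hA := move_sin_nonneg hs
  have hB := move_cos_nonneg hs
  have hA1 := Real.sin_le_one (Real.pi * s / 2)
  have hB1 := Real.cos_le_one (Real.pi * s / 2)
  have hre : |v.re| ≤ η / 4 := (abs_re_le_norm v).trans hv
  have him : |v.im| ≤ η / 4 := (abs_im_le_norm v).trans hv
  have key : (pt (ζ + movePhi γ η (ζ, s) * v) s = pt (ζ' + movePhi γ η (ζ', s) * v) s ∨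
      pt ζ s = pt ζ' s) → movePhi γ η (ζ', s) = movePhi γ η (ζ, s) := by
    intro hh
    set D := movePhi γ η (ζ', s) - movePhi γ η (ζ, s) with hD
    have hD0 := abs_nonneg D
    have hq : 0 ≤ |D| * (η / 4) := by positivity
    have b1 : ∃ k : ℤ, Real.sin (Real.pi * s / 2) * |ζ'.re - (ζ.re + k)| ≤ |D| * (η / 4) := by
      rcases hs.1.eq_or_lt with h0 | h0
      · exact ⟨0, by subst h0; simpa using hq⟩
      rcases hh with hh | hh
      · obtain ⟨k, hk⟩ := ((pt_eq_iff hs hs).1 hh).2.2 h0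
        refine ⟨k, ?_⟩
        have e : ζ'.re - (ζ.re + k) = -(D * v.re) := by
          simp only [add_re, mul_re, ofReal_re, ofReal_im, zero_mul, sub_zero] at hk
          rw [hD]; linarith only [hk]
        rw [e, abs_neg, abs_mul]
        calc _ ≤ 1 * (|D| * |v.re|) := mul_le_mul_of_nonneg_right hA1 (by positivity)
          _ ≤ _ := by rw [one_mul]; exact mul_le_mul_of_nonneg_left hre hD0
      · obtain ⟨k, hk⟩ := ((pt_eq_iff hs hs).1 hh).2.2 h0
        exact ⟨k, by simpa [hk] using hq⟩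
    have b2 : ∃ k : ℤ, Real.cos (Real.pi * s / 2) * |ζ'.im - (ζ.im + k)| ≤ |D| * (η / 4) := by
      rcases hs.2.eq_or_lt with h0 | h0
      · exact ⟨0, by subst h0; simpa using hq⟩
      rcases hh with hh | hh
      · obtain ⟨k, hk⟩ := ((pt_eq_iff hs hs).1 hh).2.1 h0
        refine ⟨k, ?_⟩
        have e : ζ'.im - (ζ.im + k) = -(D * v.im) := by
          simp only [add_im, mul_im, ofReal_re, ofReal_im, zero_mul, add_zero] at hk
          rw [hD]; linarith only [hk]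
        rw [e, abs_neg, abs_mul]
        calc _ ≤ 1 * (|D| * |v.im|) := mul_le_mul_of_nonneg_right hB1 (by positivity)
          _ ≤ _ := by rw [one_mul]; exact mul_le_mul_of_nonneg_left him hD0
      · obtain ⟨k, hk⟩ := ((pt_eq_iff hs hs).1 hh).2.1 h0
        exact ⟨k, by simpa [hk] using hq⟩
    obtain ⟨k, hk⟩ := b1
    obtain ⟨m, hm⟩ := b2
    have h1 := movePhi_lip γ hη hs ζ ζ' k m
    rw [← hD] at h1
    have h2 : |D| ≤ 0 := by (refine le_of_not_gt fun h_nl => ?_; linarith only [h_nl, hk, hm, h1, hη, mul_pos_of_neg_of_neg (Mathlib.Tactic.Linarith.sub_neg_of_lt hη) (Mathlib.Tactic.Linarith.sub_neg_of_lt h_nl)])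
    exact sub_eq_zero.1 (abs_eq_zero.1 (le_antisymm h2 hD0))
  constructor
  · intro hh
    have e := key (Or.inl hh)
    rw [e] at hh
    obtain ⟨-, h1, h2⟩ := (pt_eq_iff hs hs).1 hh
    refine (pt_eq_iff hs hs).2 ⟨rfl, fun h => ?_, fun h => ?_⟩
    · obtain ⟨m, hm⟩ := h1 h
      exact ⟨m, by simp only [add_im] at hm; linarith only [hm]⟩
    · obtain ⟨m, hm⟩ := h2 h
      exact ⟨m, by simp only [add_re] at hm; linarith only [hm]⟩
  · intro hh
    have e := key (Or.inr hh)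
    rw [e]
    obtain ⟨-, h1, h2⟩ := (pt_eq_iff hs hs).1 hh
    refine (pt_eq_iff hs hs).2 ⟨rfl, fun h => ?_, fun h => ?_⟩
    · obtain ⟨m, hm⟩ := h1 h
      exact ⟨m, by simp only [add_im]; linarith only [hm]⟩
    · obtain ⟨m, hm⟩ := h2 h
      exact ⟨m, by simp only [add_re]; linarith only [hm]⟩

theorem move_bij (γ : ℝ → ℂ) {η : ℝ} (hη : 0 < η) {s : ℝ} (hs : s ∈ Icc (0 : ℝ) 1) {v : ℂ}
    (hv : ‖v‖ ≤ η / 4) : Function.Bijective fun ζ : ℂ => ζ + movePhi γ η (ζ, s) * v := by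
  refine exists_contr_inv (φ := fun ζ : ℂ => (movePhi γ η (ζ, s) : ℂ) * v) (c := 1 / 2)
    (by norm_num) fun x y => ?_
  have hA1 := Real.sin_le_one (Real.pi * s / 2)
  have hB1 := Real.cos_le_one (Real.pi * s / 2)
  have h1 := movePhi_lip γ hη hs y x 0 0
  have h2 : |x.re - (y.re + ((0 : ℤ) : ℝ))| ≤ ‖x - y‖ := by simpa using abs_re_le_norm (x - y)
  have h3 : |x.im - (y.im + ((0 : ℤ) : ℝ))| ≤ ‖x - y‖ := by simpa using abs_im_le_norm (x - y)
  have h4 := mul_le_mul_of_nonneg_right hA1 (abs_nonneg (x.re - (y.re + ((0 : ℤ) : ℝ))))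
  have h5 := mul_le_mul_of_nonneg_right hB1 (abs_nonneg (x.im - (y.im + ((0 : ℤ) : ℝ))))
  rw [← sub_mul, norm_mul, ← ofReal_sub, norm_real, Real.norm_eq_abs]
  have h6 := mul_le_mul_of_nonneg_left hv
    (abs_nonneg (movePhi γ η (x, s) - movePhi γ η (y, s)))
  generalize |x.re - (y.re + ((0 : ℤ) : ℝ))| = a at *
  generalize |x.im - (y.im + ((0 : ℤ) : ℝ))| = b at *
  generalize |movePhi γ η (x, s) - movePhi γ η (y, s)| = D at *
  linarith only [h2, h4, h3, h5, h6, h1]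

theorem move_near {w : ℤ} {γ : ℝ → ℂ} (h : Adm w γ) : ∃ δ > 0, ∀ γ' : ℝ → ℂ, Continuous γ' →
    (∀ s ∈ Icc (0 : ℝ) 1, ‖γ' s - γ s‖ < δ) → Adm w γ' ∧ Eqv (knot γ) (knot γ') := by
  have z0 : (0 : ℝ) ∈ Icc (0 : ℝ) 1 := ⟨le_rfl, zero_le_one⟩
  have z1 : (1 : ℝ) ∈ Icc (0 : ℝ) 1 := ⟨zero_le_one, le_rfl⟩
  obtain ⟨s₀, hs₀, hmin⟩ := (isCompact_Icc (a := (0 : ℝ)) (b := 1)).exists_isMinOn
    ⟨0, z0⟩ (f := fun s => moveD γ (0, s))
    ((continuous_moveD h.cont).comp (by fun_prop)).continuousOn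
  set η := moveD γ (0, s₀) with hηd
  have hη : 0 < η := moveD_pos h hs₀
  have hzero : ∀ s ∈ Icc (0 : ℝ) 1, movePhi γ η (0, s) = 0 := fun s hs => by
    have h1 : η ≤ moveD γ (0, s) := hmin hs
    refine max_eq_left ?_
    rw [sub_nonpos, le_div_iff₀ hη, one_mul]
    exact h1
  have hlat : ∀ s ∈ Icc (0 : ℝ) 1, ∀ k m : ℤ, movePhi γ η (k + m * I, s) = 0 := fun s hs k m => by
    have h1 := movePhi_lip γ hη hs 0 (k + m * I) k m
    rw [hzero s hs] at h1
    simp only [add_re, intCast_re, mul_re, I_re, mul_zero, intCast_im, I_im, mul_one, sub_self,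
      add_zero, zero_re, zero_add, abs_zero, add_im, mul_im, zero_im, sub_zero] at h1
    have h2 : |movePhi γ η (k + m * I, s)| ≤ 0 := by
      by_contra hn
      linarith only [h1, hη, hn, not_le.1 hn, mul_pos_of_neg_of_neg (Mathlib.Tactic.Linarith.sub_neg_of_lt hη) (Mathlib.Tactic.Linarith.sub_neg_of_lt (lt_of_not_ge hn))]
    exact abs_eq_zero.1 (le_antisymm h2 (abs_nonneg _))
  refine ⟨η / 4, by positivity, fun γ' hc' hn => ?_⟩
  have hv : ∀ s ∈ Icc (0 : ℝ) 1, ‖γ' s - γ s‖ ≤ η / 4 := fun s hs => (hn s hs).le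
  have hφc := continuous_movePhi h.cont η
  have hγ := h.cont
  let g0 : ℝ → ℝ := fun y => y + movePhi γ η (y * I, 0) * (γ' 0 - γ 0).im
  let g1 : ℝ → ℝ := fun x => x + movePhi γ η (x, 1) * (γ' 1 - γ 1).re
  have m0 : StrictMono g0 := by
    refine move_strictMono (φ := fun y : ℝ => movePhi γ η (y * I, 0)) hη
      ((abs_im_le_norm _).trans (hv 0 z0)) fun x y => ?_
    simpa using movePhi_lip γ hη z0 (x * I) (y * I) 0 0
  have m1 : StrictMono g1 := by
    refine move_strictMono (φ := fun y : ℝ => movePhi γ η (y, 1)) hη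
      ((abs_re_le_norm _).trans (hv 1 z1)) fun x y => ?_
    simpa using movePhi_lip γ hη z1 x y 0 0
  have c0 : Continuous g0 := by fun_prop
  have c1 : Continuous g1 := by fun_prop
  have i0 : ∀ m : ℤ, g0 m = m := fun m => by
    have := hlat 0 z0 0 m
    simp only [Int.cast_zero, zero_add] at this
    simp [g0, this]
  have i1 : ∀ m : ℤ, g1 m = m := fun m => by
    have := hlat 1 z1 m 0
    simp only [Int.cast_zero, zero_mul, add_zero] at this
    simp [g1, this]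
  have e0 : g0 (γ 0).im = (γ' 0).im := by
    have : movePhi γ η (((γ 0).im : ℂ) * I, 0) = 1 :=
      movePhi_self γ η (Or.inl rfl) (Or.inr (by simp))
    simp [g0, this]
  have e1 : g1 (γ 1).re = (γ' 1).re := by
    have : movePhi γ η (((γ 1).re : ℂ), 1) = 1 :=
      movePhi_self γ η (Or.inr (by simp)) (Or.inl rfl)
    simp [g1, this]
  have es : ∀ s, γ s + movePhi γ η (γ s, s) * (γ' s - γ s) = γ' s := fun s => by
    rw [movePhi_self γ η (Or.inr rfl) (Or.inr rfl)]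
    simp
  have hA : Adm w γ' := by
    refine ⟨hc', fun s hs k m e => h.avoid s hs k m ((move_bij γ hη hs (hv s hs)).1 ?_), ?_, ?_⟩
    · simp only
      rw [es, hlat s hs, e]
      simp
    · have a := m0 h.bot.1
      have b := m0 h.bot.2
      have a' := i0 0
      have b' := i0 1
      push_cast at a' b'
      rw [e0] at a b
      constructor <;> linarith only [a, a', b, b']
    · have a := m1 h.top.1
      have b := m1 h.top.2
      have a' := i1 (w - 1)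
      have b' := i1 w
      push_cast at a' b'
      rw [e1] at a b
      constructor <;> linarith only [a, a', b, b']
  refine ⟨hA, ?_⟩
  obtain ⟨H, hH⟩ := descend_pt
    (fun x => (x.1 + movePhi γ η x * (γ' x.2 - γ x.2), x.2)) (by fun_prop) (fun x hx => hx)
    (by
      rintro ⟨ζ, s⟩ ⟨ζ', s'⟩ hs hs'
      simp only at hs hs' ⊢
      by_cases e : s = s'
      · subst e
        exact move_rel γ hη hs (hv s hs) ζ ζ'
      · constructor
        · exact fun hh => absurd ((pt_eq_iff hs hs').1 hh).1 e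
        · exact fun hh => absurd ((pt_eq_iff hs hs').1 hh).1 e)
    (by
      rintro ⟨ζ, s⟩ hs
      obtain ⟨x, hx⟩ := (move_bij γ hη hs (hv s hs)).2 ζ
      exact ⟨(x, s), hs, by simp only at hx ⊢; rw [hx]⟩)
  refine ⟨H, ?_⟩
  unfold knot
  rw [h.move_ceil, hA.move_ceil]
  simp only [image_union, image_image]
  congr 1
  congr 1
  congr 1
  · refine image_congr fun s hs => ?_
    rw [hH 0 s hs]
    simp [hzero s hs]
  · refine image_congr fun s hs => ?_
    rw [hH _ s hs]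
    simp only
    rw [es]
  · have a' := i0 0
    push_cast at a'
    have := c0.continuousOn.image_Icc_of_monotoneOn h.bot.1.le (m0.monotone.monotoneOn _)
    rw [a', e0] at this
    rw [← this, image_image]
    refine image_congr fun y _ => ?_
    rw [hH _ 0 z0]
    exact move_pt_bot (by simp [g0])
  · have := c1.continuousOn.image_Icc_of_monotoneOn h.top.2.le (m1.monotone.monotoneOn _)
    rw [i1, e1] at this
    rw [← this, image_image]
    refine image_congr fun y _ => ?_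
    rw [hH _ 1 z1]
    exact move_pt_top (by simp [g1])

theorem move_homotopy {w : ℤ} (Γ : ℝ × ℝ → ℂ) (hc : Continuous Γ)
    (h : ∀ t ∈ Icc (0 : ℝ) 1, Adm w fun s => Γ (t, s)) :
    Eqv (knot fun s => Γ (0, s)) (knot fun s => Γ (1, s)) := by
  refine (isPreconnected_Icc (a := (0 : ℝ)) (b := 1)).induction₂'
    (fun t t' => Eqv (knot fun s => Γ (t, s)) (knot fun s => Γ (t', s))) (fun t ht => ?_)
    (fun _ _ _ _ _ _ => Eqv.trans) ⟨le_rfl, zero_le_one⟩ ⟨zero_le_one, le_rfl⟩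
  obtain ⟨δ, hδ, hd⟩ := move_near (h t ht)
  have ev : ∀ᶠ t' in 𝓝 t, ∀ s ∈ Icc (0 : ℝ) 1, ‖Γ (t', s) - Γ (t, s)‖ < δ := by
    refine isCompact_Icc.eventually_forall_of_forall_eventually
      (P := fun t' s => ‖Γ (t', s) - Γ (t, s)‖ < δ) fun s _ => ?_
    have c : Continuous fun z : ℝ × ℝ => ‖Γ (z.1, z.2) - Γ (t, z.2)‖ := by fun_prop
    exact c.continuousAt.eventually_lt continuousAt_const (by simpa using hδ)
  refine (ev.filter_mono nhdsWithin_le_nhds).mono fun t' ht' => ?_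
  have := (hd (fun s => Γ (t', s)) (by fun_prop) ht').2
  exact ⟨this, this.symm⟩

/-- Straight homotopy. -/
theorem move_leash {w : ℤ} {γ γ' : ℝ → ℂ} (h : Adm w γ) (h' : Adm w γ')
    (hl : ∀ s ∈ Icc (0 : ℝ) 1, ∀ t ∈ Icc (0 : ℝ) 1, ∀ k m : ℤ,
      ((1 - t : ℝ) : ℂ) * γ s + (t : ℂ) * γ' s ≠ k + m * I) : Eqv (knot γ) (knot γ') := by
  have hγ := h.cont
  have hγ' := h'.cont
  have := move_homotopy (w := w)
    (fun x : ℝ × ℝ => ((1 - x.1 : ℝ) : ℂ) * γ x.2 + (x.1 : ℂ) * γ' x.2) (by fun_prop)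
    fun t ht => ⟨by fun_prop, fun s hs => hl s hs t ht, by
      simp only [add_im, mul_im, ofReal_re, ofReal_im, zero_mul, add_zero]
      have a := h.bot
      have b := h'.bot
      rcases ht.1.eq_or_lt with h0 | h0
      · subst h0; simpa using a
      · constructor <;> linarith only [a, ht, b, h0, a.1, a.2, b.1, b.2, ht.2, mul_nonneg_of_nonpos_of_nonpos (le_of_lt (Mathlib.Tactic.Linarith.sub_neg_of_lt a.left)) (Mathlib.Tactic.Linarith.sub_nonpos_of_le ht.right), mul_pos_of_neg_of_neg (Mathlib.Tactic.Linarith.sub_neg_of_lt b.left) (Mathlib.Tactic.Linarith.sub_neg_of_lt h0), mul_nonneg_of_nonpos_of_nonpos (le_of_lt (Mathlib.Tactic.Linarith.sub_neg_of_lt a.right)) (Mathlib.Tactic.Linarith.sub_nonpos_of_le ht.right), mul_pos_of_neg_of_neg (Mathlib.Tactic.Linarith.sub_neg_of_lt b.right) (Mathlib.Tactic.Linarith.sub_neg_of_lt h0)], by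
      simp only [add_re, mul_re, ofReal_re, ofReal_im, zero_mul, sub_zero]
      have a := h.top
      have b := h'.top
      rcases ht.1.eq_or_lt with h0 | h0
      · subst h0; simpa using a
      · constructor <;> linarith only [a, ht, b, h0, a.1, a.2, b.1, b.2, ht.2, mul_nonneg_of_nonpos_of_nonpos (le_of_lt (Mathlib.Tactic.Linarith.sub_neg_of_lt a.left)) (Mathlib.Tactic.Linarith.sub_nonpos_of_le ht.right), mul_pos_of_neg_of_neg (Mathlib.Tactic.Linarith.sub_neg_of_lt b.left) (Mathlib.Tactic.Linarith.sub_neg_of_lt h0), mul_nonneg_of_nonpos_of_nonpos (le_of_lt (Mathlib.Tactic.Linarith.sub_neg_of_lt a.right)) (Mathlib.Tactic.Linarith.sub_nonpos_of_le ht.right), mul_pos_of_neg_of_neg (Mathlib.Tactic.Linarith.sub_neg_of_lt b.right) (Mathlib.Tactic.Linarith.sub_neg_of_lt h0)]⟩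
  simpa using this

/-- Change of parameter, by the homotopy `γ ((1 - t) * s + t * σ s)`. -/
theorem move_reparam {w : ℤ} {γ : ℝ → ℂ} (h : Adm w γ) {σ : ℝ → ℝ} (hσ : Continuous σ)
    (h0 : σ 0 = 0) (h1 : σ 1 = 1) (hm : ∀ s ∈ Icc (0 : ℝ) 1, σ s ∈ Icc (0 : ℝ) 1) :
    Adm w (fun s => γ (σ s)) ∧ Eqv (knot γ) (knot fun s => γ (σ s)) := by
  have hγ := h.cont
  have hA : ∀ t ∈ Icc (0 : ℝ) 1, Adm w fun s => γ ((1 - t) * s + t * σ s) := fun t ht => by
    refine ⟨by fun_prop, fun s hs => h.avoid _ ⟨?_, ?_⟩, ?_, ?_⟩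
    · linarith only [ht, hm, hs, ht.1, ht.2, hs.1, (hm s hs).1, mul_nonneg_of_nonpos_of_nonpos (Mathlib.Tactic.Linarith.sub_nonpos_of_le ht.left) (Mathlib.Tactic.Linarith.sub_nonpos_of_le (hm s hs).left), mul_nonneg_of_nonpos_of_nonpos (Mathlib.Tactic.Linarith.sub_nonpos_of_le ht.right) (Mathlib.Tactic.Linarith.sub_nonpos_of_le hs.left)]
    · nlinarith [ht.1, ht.2, hs.2, (hm s hs).2]
    · simpa [h0] using h.bot
    · simpa [h1] using h.top
  have := move_homotopy (w := w) (fun x : ℝ × ℝ => γ ((1 - x.1) * x.2 + x.1 * σ x.2))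
    (by fun_prop) hA
  exact ⟨by simpa using hA 1 ⟨zero_le_one, le_rfl⟩, by simpa using this⟩

end OneOne
end

-- merged part: Pool.Agent.Work.MP_d5331a_gt.OO.Em
section
/-!
The lemmas on the map `E` and on pushed down cocycles, under the determinant condition only.
-/

set_option autoImplicit false

open Complex Set Filter Topology

namespace Neuwirth

namespace Dt

open Nest

/-- The matrix of angles is unimodular. -/
def Det (N : Nest) : Prop := N.a * N.d - N.b * N.c = 1 ∨ N.a * N.d - N.b * N.c = -1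

variable {N : Nest} (hN : Det N)
include hN

theorem Emap_det : ((N.a : ℝ) * N.d - N.b * N.c) ^ 2 = 1 := by
  have : (N.a * N.d - N.b * N.c) ^ 2 = 1 := by rcases hN with h | h <;> rw [h] <;> norm_num
  exact_mod_cast this

theorem unang_fst (u v : ℝ) : N.a * (N.unang u v).re + N.b * (N.unang u v).im = u := by
  have := Emap_det hN
  simp only [unang, add_re, add_im, ofReal_re, ofReal_im, mul_re, mul_im, I_re, I_im]
  linear_combination u * this

theorem unang_snd (u v : ℝ) : N.c * (N.unang u v).re + N.d * (N.unang u v).im = v := by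
  have := Emap_det hN
  simp only [unang, add_re, add_im, ofReal_re, ofReal_im, mul_re, mul_im, I_re, I_im]
  linear_combination v * this

theorem unang_self (ζ : ℂ) :
    N.unang (N.a * ζ.re + N.b * ζ.im) (N.c * ζ.re + N.d * ζ.im) = ζ := by
  have := Emap_det hN
  refine Complex.ext ?_ ?_
  · simp only [unang, add_re, ofReal_re, ofReal_im, mul_re, I_re, I_im]
    linear_combination ζ.re * this
  · simp only [unang, add_im, ofReal_re, ofReal_im, mul_im, I_re, I_im]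
    linear_combination ζ.im * this

theorem E_sec (x : ℂ × ℝ) (p : S3) : N.E (N.sec x p) = p := by
  have hp := Real.pi_pos
  have h1 : Real.pi * (N.sec x p).2 / (2 * (N.l + 1)) = Real.arcsin ‖p.1.2‖ := by
    simp only [sec, rho]
    field_simp
  have h2 := p.2
  have h3 : ‖p.1.2‖ ≤ 1 := by nlinarith only [h2, norm_nonneg p.1.2, sq_nonneg ‖p.1.1‖]
  refine Subtype.ext (Prod.ext ?_ ?_)
  · have h4 : 1 - ‖p.1.2‖ ^ 2 = ‖p.1.1‖ ^ 2 := by linarith only [h2]
    rw [Emap_fst, h1, Real.cos_arcsin, h4, Real.sqrt_sq (norm_nonneg _)]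
    simp only [sec]
    rw [unang_fst hN, norm_mul_exp_al]
  · rw [Emap_snd, h1, Real.sin_arcsin (by linarith [norm_nonneg p.1.2]) h3]
    simp only [sec]
    rw [unang_snd hN, norm_mul_exp_al]

theorem sec_E_self {x : ℂ × ℝ} (h0 : 0 ≤ x.2) (h1 : x.2 ≤ N.l + 1) : N.sec x (N.E x) = x := by
  obtain ⟨a1, a2⟩ := Emap_ang (N := N) h0 h1
  have hp := Real.pi_pos
  rw [sec, rho_E h0 h1, Emap_fst, Emap_snd,
    Emap_al_self (Real.cos_nonneg_of_mem_Icc ⟨by linarith only [a1, hp], a2⟩),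
    Emap_al_self (Real.sin_nonneg_of_nonneg_of_le_pi a1 (by linarith only [a2, hp])), unang_self hN]

theorem E_eq {x y : ℂ × ℝ} (h0 : 0 < x.2) (h1 : x.2 < N.l + 1) (h0' : 0 ≤ y.2)
    (h1' : y.2 ≤ N.l + 1) (h : N.E x = N.E y) : ∃ k m : ℤ, y = x + vec k m := by
  have h2 : y.2 = x.2 := by rw [← rho_E h0' h1', ← h, rho_E h0.le h1.le]
  obtain ⟨a1, a2⟩ := Emap_pos (N := N) h0 h1
  have h3 := congrArg (fun p : S3 => p.1.1) h.symm
  have h4 := congrArg (fun p : S3 => p.1.2) h.symm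
  simp only [Emap_fst, Emap_snd, h2] at h3 h4
  obtain ⟨k, hk⟩ := Emap_inj (ofReal_ne_zero.2 a1.ne') h3
  obtain ⟨m, hm⟩ := Emap_inj (ofReal_ne_zero.2 a2.ne') h4
  refine ⟨(N.a * N.d - N.b * N.c) * (N.d * k - N.b * m),
    (N.a * N.d - N.b * N.c) * (N.a * m - N.c * k), Prod.ext ?_ (by rw [Emap_vec2, h2])⟩
  rw [← unang_self hN y.1, hk, hm, Emap_unang_add, unang_self hN]
  simp only [unang, vec, Prod.fst_add]
  push_cast
  ring

theorem sec_add (x : ℂ × ℝ) (p : S3) (k m : ℤ) :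
    N.sec (x + vec k m) p = N.sec x p + vec k m := by
  refine Prod.ext ?_ (by rw [Emap_vec2]; rfl)
  have h1 := unang_self hN ((k : ℂ) + m * I)
  simp only [add_re, add_im, intCast_re, intCast_im, mul_re, mul_im, I_re, I_im, mul_zero, mul_one,
    sub_zero, add_zero, zero_add] at h1
  simp only [sec]
  rw [Emap_vec, Emap_vec, Emap_al_int, Emap_al_int, Emap_unang_add]
  push_cast
  rw [h1]
  rfl

theorem sec_E {x : ℂ × ℝ} (h0 : 0 < x.2) (h1 : x.2 < N.l + 1) :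
    ∀ᶠ y in 𝓝 x, N.sec x (N.E y) = y := by
  have c1 : Continuous fun y : ℂ × ℝ => N.a * y.1.re + N.b * y.1.im := by fun_prop
  have c2 : Continuous fun y : ℂ × ℝ => N.c * y.1.re + N.d * y.1.im := by fun_prop
  filter_upwards [Metric.tendsto_nhds.1 (c1.tendsto x) (1 / 2) (by norm_num),
    Metric.tendsto_nhds.1 (c2.tendsto x) (1 / 2) (by norm_num),
    (continuous_snd.tendsto x).eventually (Ioo_mem_nhds h0 h1)] with y a1 a2 a3
  obtain ⟨b1, b2⟩ := Emap_pos (N := N) a3.1 a3.2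
  rw [sec, rho_E a3.1.le a3.2.le, Emap_fst, Emap_snd, al_eq b1 a1, al_eq b2 a2, unang_self hN]

theorem sec_continuousAt {x : ℂ × ℝ} (h0 : 0 < x.2) (h1 : x.2 < N.l + 1) :
    ∀ᶠ p in 𝓝 (N.E x), ContinuousAt (N.sec x) p := by
  obtain ⟨b1, b2⟩ := Emap_pos (N := N) h0 h1
  have c1 : Continuous fun p : S3 => p.1.1 := continuous_fst.comp continuous_subtype_val
  have c2 : Continuous fun p : S3 => p.1.2 := continuous_snd.comp continuous_subtype_val
  filter_upwards [(c1.tendsto (N.E x)).eventually (al_continuousAt b1),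
    (c2.tendsto (N.E x)).eventually (al_continuousAt b2)] with p a1 a2
  have d1 := ContinuousAt.comp (f := fun p : S3 => p.1.1) a1.1 c1.continuousAt
  have d2 := ContinuousAt.comp (f := fun p : S3 => p.1.2) a2.1 c2.continuousAt
  exact ((Emap_unang_cont (N := N)).continuousAt.comp (d1.prodMk d2)).prodMk
    continuous_rho.continuousAt

/-- `E` is a local homeomorphism, injective modulo nothing on a small neighbourhood. -/
theorem exists_Eloc {x : ℂ × ℝ} (h0 : 0 < x.2) (h1 : x.2 < N.l + 1) :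
    ∃ ψ : OpenPartialHomeomorph (ℂ × ℝ) S3, x ∈ ψ.source ∧ (∀ y, ψ y = N.E y) ∧
      ∀ y ∈ ψ.source, 0 < y.2 ∧ y.2 < N.l + 1 := by
  obtain ⟨U, hU, oU, xU⟩ := eventually_nhds_iff.1 ((sec_E hN h0 h1).and
    ((continuous_snd.tendsto x).eventually (Ioo_mem_nhds h0 h1)))
  obtain ⟨V, hV, oV, xV⟩ := eventually_nhds_iff.1 (sec_continuousAt hN h0 h1)
  have cV : ContinuousOn (N.sec x) V := fun p hp => (hV p hp).continuousWithinAt
  exact ⟨{ toFun := N.E
           invFun := N.sec x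
           source := U ∩ N.E ⁻¹' V
           target := V ∩ N.sec x ⁻¹' U
           map_source' := fun y hy => ⟨hy.2, by rw [mem_preimage, (hU y hy.1).1]; exact hy.1⟩
           map_target' := fun p hp => ⟨hp.2, by rw [mem_preimage, E_sec hN]; exact hp.1⟩
           left_inv' := fun y hy => (hU y hy.1).1
           right_inv' := fun p _ => E_sec hN x p
           open_source := oU.inter (oV.preimage continuous_E)
           open_target := cV.isOpen_inter_preimage oV oU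
           continuousOn_toFun := continuous_E.continuousOn
           continuousOn_invFun := cV.mono inter_subset_left },
    ⟨xU, xV⟩, fun _ => rfl, fun y hy => (hU y hy.1).2⟩

/-- Membership in the image of an invariant set. -/
theorem E_mem_image {St : Set (ℂ × ℝ)} (hinv : ∀ x k m, x ∈ St → x + vec k m ∈ St)
    (hr : ∀ x ∈ St, 0 ≤ x.2 ∧ x.2 ≤ N.l + 1) {x : ℂ × ℝ} (h0 : 0 < x.2) (h1 : x.2 < N.l + 1) :
    N.E x ∈ N.E '' St ↔ x ∈ St := by
  refine ⟨?_, fun h => mem_image_of_mem _ h⟩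
  rintro ⟨y, hy, e⟩
  obtain ⟨k, m, rfl⟩ := E_eq hN h0 h1 (hr y hy).1 (hr y hy).2 e.symm
  have h2 := hinv _ (-k) (-m) hy
  have h3 : x + vec k m + vec (-k) (-m) = x := by
    refine Prod.ext ?_ (by rw [Emap_vec2, Emap_vec2])
    simp only [vec, Prod.fst_add]
    push_cast
    ring
  rwa [h3] at h2

theorem down_loc {G : Type*} (L : ℂ × ℝ → ℂ × ℝ → G)
    (hL : ∀ x z k m, L (x + vec k m) (z + vec k m) = L x z) {x : ℂ × ℝ} (h0 : 0 < x.2)
    (h1 : x.2 < N.l + 1) : ∀ᶠ y in 𝓝 x, N.down L (N.E x) (N.E y) = L x y := by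
  obtain ⟨k, m, h⟩ := E_eq hN (y := N.sec 0 (N.E x)) h0 h1 (rho_mem _).1 (rho_mem _).2
    (E_sec hN _ _).symm
  filter_upwards [sec_E hN h0 h1] with y hy
  rw [down, h, sec_add hN, hy, hL]

theorem Down_tendsto {St : Set (ℂ × ℝ)} (hinv : ∀ x k m, x ∈ St → x + vec k m ∈ St)
    (hr : ∀ x ∈ St, 0 ≤ x.2 ∧ x.2 ≤ N.l + 1) {x : ℂ × ℝ} {p : S3} (h0 : 0 < N.rho p)
    (h1 : N.rho p < N.l + 1) (hc : ContinuousAt (N.sec x) p) :
    Tendsto (N.sec x) (𝓝[N.E '' St] p) (𝓝[St] (N.sec x p)) := by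
  refine tendsto_nhdsWithin_iff.2 ⟨hc.mono_left nhdsWithin_le_nhds, ?_⟩
  filter_upwards [nhdsWithin_le_nhds (continuous_rho.continuousAt.eventually (Ioo_mem_nhds h0 h1)),
    self_mem_nhdsWithin] with q hq hq'
  refine (E_mem_image hN hinv hr (x := N.sec x q) hq.1 hq.2).1 ?_
  rwa [E_sec hN]

theorem Down_fst (x : ℂ × ℝ) (p : S3) : N.a * (N.sec x p).1.re + N.b * (N.sec x p).1.im =
    al (N.a * x.1.re + N.b * x.1.im) p.1.1 := unang_fst hN _ _

theorem Down_snd (x : ℂ × ℝ) (p : S3) : N.c * (N.sec x p).1.re + N.d * (N.sec x p).1.im =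
    al (N.c * x.1.re + N.d * x.1.im) p.1.2 := unang_snd hN _ _

theorem down_cocy {G : Type*} [Group G] (St : Set (ℂ × ℝ)) (L : ℂ × ℝ → ℂ × ℝ → G)
    (hinv : ∀ x k m, x ∈ St → x + vec k m ∈ St) (hr : ∀ x ∈ St, 0 ≤ x.2 ∧ x.2 ≤ N.l + 1)
    (hL : ∀ x z k m, L (x + vec k m) (z + vec k m) = L x z) (hc : CocyOn St L)
    (τ : ℤ → G) (hτ : ∀ k m, τ (k + m) = τ k * τ m)
    (hbot : (∃ x ∈ St, x.2 = 0) → ∀ y z : ℂ × ℝ, 0 ≤ y.2 → y.2 < 1 / 2 → 0 ≤ z.2 → z.2 < 1 / 2 →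
      L y z = (τ ⌊N.a * y.1.re + N.b * y.1.im⌋)⁻¹ * τ ⌊N.a * z.1.re + N.b * z.1.im⌋)
    (htop : (∃ x ∈ St, x.2 = N.l + 1) → ∀ y z : ℂ × ℝ, N.l + 1 / 2 < y.2 → y.2 ≤ N.l + 1 →
      N.l + 1 / 2 < z.2 → z.2 ≤ N.l + 1 →
      L y z = (τ ⌊N.c * y.1.re + N.d * y.1.im⌋)⁻¹ * τ ⌊N.c * z.1.re + N.d * z.1.im⌋) :
    CocyOn (N.E '' St) (N.down L) := by
  have hself : ∀ p, N.sec (N.sec 0 p) p = N.sec 0 p := fun p => by
    have := sec_E_self hN (x := N.sec 0 p) (rho_mem _).1 (rho_mem _).2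
    rwa [E_sec hN] at this
  refine ⟨fun p => by rw [down, hself, hc.1], ?_⟩
  rintro _ ⟨x, hx, rfl⟩
  have hρ := rho_E (hr x hx).1 (hr x hx).2
  have hl : (0 : ℝ) ≤ N.l := Nat.cast_nonneg _
  rcases (hr x hx).1.eq_or_lt with h0 | h0
  · have hb := hbot ⟨x, hx, h0.symm⟩
    have h2 : ∀ z w, N.rho z < 1 / 2 → N.rho w < 1 / 2 → N.down L z w = _ := fun z w hz hw =>
      hb (N.sec 0 z) (N.sec (N.sec 0 z) w) (rho_mem z).1 hz (rho_mem w).1 hw
    simp only [Down_fst hN] at h2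
    have h3 : N.rho (N.E x) < 1 / 2 := by rw [hρ, ← h0]; norm_num
    have h4 : (N.E x).1.1 ≠ 0 := by simp [E, ← h0]
    refine nhdsWithin_le_nhds ?_
    filter_upwards [Down_angle τ hτ (π := fun p => p.1.1) (by fun_prop) _ h4,
      eventually_eventually_nhds.2 (continuous_rho.continuousAt.eventually (gt_mem_nhds h3))]
      with z k1 k2
    refine nhdsWithin_le_nhds ?_
    filter_upwards [k1, k2] with w k3 k4
    rw [h2 _ _ h3 k4, h2 _ _ h3 k2.self_of_nhds, h2 _ _ k2.self_of_nhds k4]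
    exact k3
  rcases (hr x hx).2.eq_or_lt with h1 | h1
  · have hb := htop ⟨x, hx, h1⟩
    have h2 : ∀ z w, N.l + 1 / 2 < N.rho z → N.l + 1 / 2 < N.rho w → N.down L z w = _ :=
      fun z w hz hw => hb (N.sec 0 z) (N.sec (N.sec 0 z) w) hz (rho_mem z).2 hw (rho_mem w).2
    simp only [Down_snd hN] at h2
    have h3 : N.l + 1 / 2 < N.rho (N.E x) := by rw [hρ, h1]; linarith only []
    have h4 : (N.E x).1.2 ≠ 0 := fun h => by
      rw [rho, h, norm_zero, Real.arcsin_zero, mul_zero] at h3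
      linarith
    refine nhdsWithin_le_nhds ?_
    filter_upwards [Down_angle τ hτ (π := fun p => p.1.2) (by fun_prop) _ h4,
      eventually_eventually_nhds.2 (continuous_rho.continuousAt.eventually (lt_mem_nhds h3))]
      with z k1 k2
    refine nhdsWithin_le_nhds ?_
    filter_upwards [k1, k2] with w k3 k4
    rw [h2 _ _ h3 k4, h2 _ _ h3 k2.self_of_nhds, h2 _ _ k2.self_of_nhds k4]
    exact k3
  rw [← hρ] at h0 h1
  generalize hp : N.E x = p at h0 h1
  have h2 : N.sec 0 p ∈ St := (E_mem_image hN hinv hr (x := N.sec 0 p) h0 h1).1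
    ⟨x, hx, hp.trans (E_sec hN _ _).symm⟩
  have h3 := sec_continuousAt hN (x := N.sec 0 p) h0 h1
  rw [E_sec hN] at h3
  have h4 := Down_tendsto hN hinv hr h0 h1 h3.self_of_nhds
  rw [hself] at h4
  filter_upwards [h4.eventually (hc.2 _ h2), nhdsWithin_le_nhds h3,
    nhdsWithin_le_nhds (continuous_rho.continuousAt.eventually (Ioo_mem_nhds h0 h1))]
    with z k1 k2 k3
  filter_upwards [(Down_tendsto hN hinv hr k3.1 k3.2 k2).eventually k1, nhdsWithin_le_nhds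
    (k2.eventually (down_loc hN L hL (x := N.sec (N.sec 0 p) z) k3.1 k3.2))] with w k4 k5
  rw [E_sec hN, E_sec hN] at k5
  rw [k5]
  exact k4

/-- The local form of the holonomy of a pushed down cocycle, pulled back to a subset. -/
theorem hol_up {G : Type*} [Group G] (L : ℂ × ℝ → ℂ × ℝ → G)
    (hL : ∀ x z k m, L (x + vec k m) (z + vec k m) = L x z) {V : Set S3} (Φ : Hol ↥V G)
    (hΦ : Φ.Loc fun p z => N.down L p z) {Z : Set (ℂ × ℝ)}
    (hZ : ∀ x ∈ Z, 0 < x.2 ∧ x.2 < N.l + 1) (f : C(↥Z, ↥V)) (hf : ∀ x, (f x : S3) = N.E x) :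
    (Φ.comap f).Loc fun x y => L x y := by
  intro x
  obtain ⟨U, hU, h⟩ := hΦ (f x)
  refine ⟨_, inter_mem (f.continuous.continuousAt hU) (continuous_subtype_val.continuousAt.eventually
    (down_loc hN L hL (hZ x x.2).1 (hZ x x.2).2)), fun y z p hp => ?_⟩
  have h1 : N.down L (N.E x) (N.E y) = L x y := p.source ▸ (hp 0).2
  have h2 : N.down L (N.E x) (N.E z) = L x z := p.target ▸ (hp 1).2
  refine (h _ _ (p.map f.continuous) fun s => (hp s).1).trans ?_
  simp only [hf, h1, h2]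

end Dt

end Neuwirth
end

-- merged part: Pool.Agent.Work.MP_d5331a_gt.A1.Up
section
/-!
Knots in level position. Level `i` (for `1 ≤ i ≤ l`) is the closed geodesic of direction
`lam i = p i + q i * I` through `β (i - 1)` and `β i = β (i - 1) + lam i / 2` on the torus of depth
`i`; consecutive levels are joined by one twisted band at `β j`.

The definitions mirror those of the file `Up` of the directory `OO`. New: the coordinates of region
`r` are stored at the index `w r`, the walls are sheared so that they miss the neighbouring necks,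
and the upper half of a band of slab `j` makes `k j` additional half turns.
-/

set_option autoImplicit false

open Complex Set Classical

namespace AllOne

open Neuwirth OneOne

/-- Data of a knot in level position. -/
structure Lev where
  l : ℕ
  p : ℕ → ℤ
  q : ℕ → ℤ
  C : ℕ → ℤ
  D : ℕ → ℤ
  e : ℕ → ℝ
  f : ℕ → ℝ
  k : ℕ → ℕ
  ω : ℕ → ℂ
  a : ℕ → ℝ
  b : ℕ → ℝ
  ε : ℝ

/-- Arcs: a gap crossing the time of a wall, a neck arc, or an arc of a wall inside a tube. -/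
inductive Arc
  | tm (i : ℕ) (a m : ℤ)
  | nk (j : ℕ) (β : ℂ) (σ : ℝ)
  | sp (j : ℕ) (β : ℂ) (σ : ℝ) (n : ℕ)

/-- Label of a wall of region `j`. -/
noncomputable def labD (j : ℕ) (k : ℤ) : Grp := T k * S (j, 0) * T (-k)

/-- The integer sign. -/
noncomputable def sgz (σ : ℝ) : ℤ := if σ = 1 then 1 else -1

/-- The index of the half turn that contains `y`. -/
noncomputable def hh (σ y : ℝ) : ℤ := if (Even ⌊y⌋ ↔ σ = 1) then ⌊y⌋ else ⌈y⌉ - 1

namespace Lev

variable (M : Lev)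

/-- Only the depth and the matrix of angles of these data are used. -/
def nest : Nest where
  l := M.l
  n := fun _ => 1
  q := fun _ => 0
  α := fun _ _ => 0
  e := fun _ => 1
  B := fun _ => ∅
  ε := 1
  a := 0
  b := 1
  c := 1
  d := 0

/-- The point of the 3-sphere with coordinates `(ζ, ρ)`. -/
noncomputable def E (x : ℂ × ℝ) : S3 := M.nest.E x

noncomputable def lam (i : ℕ) : ℂ := M.p i + M.q i * I

noncomputable def u (i : ℕ) : ℂ := M.lam i / (‖M.lam i‖ : ℝ)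

noncomputable def β (j : ℕ) : ℂ := (∑ i ∈ Finset.Icc 1 j, M.lam i) / 2

/-- The centres of the bands of slab `j`. -/
def B (j : ℕ) : Set ℂ := {x | 1 ≤ j ∧ j < M.l ∧ ∃ k m : ℤ, x = M.β j + (k + m * I)}

noncomputable def L (i : ℕ) (ζ : ℂ) : ℝ := M.q i * ζ.re - M.p i * ζ.im

noncomputable def tm (i : ℕ) (ζ : ℂ) : ℝ := M.C i * ζ.re + M.D i * ζ.im

/-- The angle of a band of slab `j` at height `s`. -/
noncomputable def ang (j : ℕ) (s : ℝ) : ℝ := 2 * (M.a j * min s 0 + M.b j * max s 0)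

/-- The direction of a band of slab `j` at height `s`. -/
noncomputable def dir (j : ℕ) (s : ℝ) : ℂ := M.ω j * exp ((M.ang j s : ℂ) * I)

/-- The value of `tm r` on `lam i`. -/
def nn (r i : ℕ) : ℤ := M.C r * M.p i + M.D r * M.q i

/-- The value of `L r` on `lam i`. -/
def qq (r i : ℕ) : ℤ := M.q r * M.p i - M.p r * M.q i

/-- The knot in the coordinates `(ζ, ρ)`. -/
def knotUp : Set (ℂ × ℝ) :=
  {x | ∃ i : ℕ, 1 ≤ i ∧ i ≤ M.l ∧ x.2 = i ∧ (∃ k : ℤ, M.L i (x.1 - M.β i) = k) ∧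
    ∀ β ∈ M.B (i - 1) ∪ M.B i, M.ε ≤ ‖x.1 - β‖} ∪
  {x | ∃ j : ℕ, ∃ β ∈ M.B j, ∃ s σ : ℝ, |s| ≤ 1 / 2 ∧ (σ = 1 ∨ σ = -1) ∧
    x = (β + ((σ * (M.ε / 2 + M.ε * |s|) : ℝ) : ℂ) * M.dir j s, j + 1 / 2 + s)}

/-- The knot in the 3-sphere. -/
def knot : Set S3 := M.E '' M.knotUp

/-- The index at which the coordinates of region `r` are stored. -/
def w (r : ℕ) : ℕ := M.l + 1 + r

/-- The scale of the shear of the walls. -/
def wq (r : ℕ) : ℤ := |M.qq (M.w r) r| + |M.qq (M.w r) (r + 1)| + 1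

/-- The conditions on the data. -/
structure Good : Prop where
  one_le : 1 ≤ M.l
  bez : ∀ i, M.C i * M.p i + M.D i * M.q i = 1
  sign : ∀ j, M.e j = 1 ∨ M.e j = -1
  signf : ∀ j, M.f j = 1 ∨ M.f j = -1
  norm_ω : ∀ j, ‖M.ω j‖ = 1
  start : ∀ j, 1 ≤ j → j < M.l → M.dir j (-(1 / 2)) = -M.e j * M.u j
  stop : ∀ j, 1 ≤ j → j < M.l → M.dir j (1 / 2) = M.f j * M.u (j + 1)
  ε_pos : 0 < M.ε
  small : ∀ i, i ≤ M.l → 64 * M.ε * (|M.p i| + |M.q i| + |M.C i| + |M.D i| : ℤ) ≤ 1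

/-- The conditions under which the surface is essential. -/
class Ess : Prop where
  fe : ∀ j, 1 ≤ j → j < M.l → M.f j = M.e j * (-1) ^ M.k j
  tm_ω : ∀ j, 1 ≤ j → j < M.l → M.tm (M.w j) (M.ω j) = 0
  n1 : ∀ j, 1 ≤ j → j < M.l → 0 < M.nn (M.w j) j
  n2 : ∀ j, 1 ≤ j → j < M.l → 0 < M.nn (M.w j) (j + 1)
  one : ∀ j, 1 ≤ j → j < M.l → M.nn (M.w j) j = 1 ∨ M.nn (M.w j) (j + 1) = 1
  a_mem : ∀ j, 1 ≤ j → j < M.l → 0 < M.e j * M.a j ∧ M.e j * M.a j < Real.pi
  b_mem : ∀ j, 1 ≤ j → j < M.l →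
    M.k j * Real.pi < M.e j * M.b j ∧ M.e j * M.b j < (M.k j + 1) * Real.pi
  taut : ∀ j, 1 ≤ j → j < M.l → 1 ≤ M.k j ∨ M.e j * M.qq j (j + 1) ≤ 0 ∨
    2 * (M.nn (M.w j) j + M.nn (M.w j) (j + 1) : ℤ) ≤ M.e j * M.qq j (j + 1)
  smallw : ∀ r, 1 ≤ r → r < M.l → 64 * M.ε * (|M.p (M.w r)| + |M.q (M.w r)| +
    (|M.C (M.w r)| + |M.D (M.w r)|) * M.wq r : ℤ) ≤ 1

/-- The conditions under which one half of the knot is a path. -/
class Pth : Prop where
  fe : ∀ j, 1 ≤ j → j < M.l → M.f j = M.e j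
  smallb : ∀ j, 1 ≤ j → j < M.l → ∀ i, i ≤ M.l →
    2 * M.ε * (1 + 2 * |M.a j| + 2 * |M.b j|) * (|M.C i| + |M.D i| : ℤ) ≤ 1

/-- `1 - r / ε` at distance `r < ε` from a band of slab `j`, zero elsewhere. -/
noncomputable def bump (j : ℕ) (ζ : ℂ) : ℝ :=
  if h : ∃ β, β ∈ M.B j ∧ ‖ζ - β‖ < M.ε then 1 - ‖ζ - h.choose‖ / M.ε else 0

/-- The centre of the band near `ζ` that meets sheet `i`, or `ζ` itself. -/
noncomputable def ctr (i : ℕ) (ζ : ℂ) : ℂ :=
  if h : ∃ β, β ∈ M.B (i - 1) ∪ M.B i ∧ ‖ζ - β‖ < M.ε then h.choose else ζ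

/-- The twist (`s = 1`) that straightens the knot on sheet `i`, and its inverse (`s = -1`). -/
noncomputable def tw (i : ℕ) (s : ℝ) (ζ : ℂ) : ℂ :=
  M.ctr i ζ + (ζ - M.ctr i ζ) *
    exp (((2 * s * (M.b (i - 1) * M.bump (i - 1) ζ - M.a i * M.bump i ζ) : ℝ) : ℂ) * I)

/-- The coordinate whose integer levels are the strands of the knot on sheet `i`. -/
noncomputable def lin (i : ℕ) (ζ : ℂ) : ℝ := M.L i (M.tw i 1 ζ - M.β i)

/-- The depth of sheet `i`. -/
noncomputable def hgt (i : ℕ) (ζ : ℂ) : ℝ :=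
  i + min (M.bump i ζ) (1 / 2) - min (M.bump (i - 1) ζ) (1 / 2)

def Sheet (i : ℕ) : Set (ℂ × ℝ) :=
  {x | M.bump i x.1 ≤ 1 / 2 ∧ M.bump (i - 1) x.1 ≤ 1 / 2 ∧ x.2 = M.hgt i x.1}

/-- The surface. -/
def FUp : Set (ℂ × ℝ) := {x | ∃ i, 1 ≤ i ∧ i ≤ M.l ∧ x ∈ M.Sheet i}

/-- The surface minus the knot. -/
def YUp : Set (ℂ × ℝ) := M.FUp \ M.knotUp

def Reg (j : ℕ) : Set (ℂ × ℝ) :=
  {x | M.bump j x.1 ≤ 1 / 2 ∧ (j = 0 ∨ M.hgt j x.1 ≤ x.2) ∧ (j = M.l ∨ x.2 ≤ M.hgt (j + 1) x.1)}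

/-- The side of parity `c`. -/
def SideUp (c : ℕ) : Set (ℂ × ℝ) :=
  {x | 0 ≤ x.2 ∧ x.2 ≤ M.l + 1 ∧ ∃ j, j ≤ M.l ∧ j % 2 = c ∧ x ∈ M.Reg j}

/-- The part of sheet `i` between two neighbouring strands. -/
def Gap (i : ℕ) (a : ℤ) : Set (ℂ × ℝ) :=
  {x | x ∈ M.Sheet i ∧ a < M.lin i x.1 ∧ M.lin i x.1 < a + 1}

/-- The vector from a band to a point, in the rotating frame of the band. -/
noncomputable def unt (j : ℕ) (β : ℂ) (x : ℂ × ℝ) : ℂ :=
  (x.1 - β) * (starRingEnd ℂ) (M.dir j (x.2 - j - 1 / 2))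

/-- One of the two strips into which the knot cuts the tube of the band `β` of slab `j`. -/
def Strip (j : ℕ) (β : ℂ) (σ : ℝ) : Set (ℂ × ℝ) :=
  {x | |x.2 - j - 1 / 2| < 1 / 2 ∧ ‖x.1 - β‖ = M.ε / 2 + M.ε * |x.2 - j - 1 / 2| ∧
    0 < σ * (M.unt j β x).im}

/-- The index of the strand of level `i` through `β`. -/
noncomputable def ind (i : ℕ) (β : ℂ) : ℤ := ⌊M.L i (β - M.β i)⌋

/-- The gap of sheet `j` that contains the outer half of a strip. -/
noncomputable def go (j : ℕ) (β : ℂ) (σ : ℝ) : ℤ :=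
  M.ind j β - if σ * M.e j = 1 then 0 else 1

/-- The gap of sheet `j + 1` that contains the inner half of a strip. -/
noncomputable def gi (j : ℕ) (β : ℂ) (σ : ℝ) : ℤ :=
  M.ind (j + 1) β - if σ * M.f j = 1 then 1 else 0

/-- The shear of the walls of region `r`. -/
noncomputable def shear (r : ℕ) (ζ : ℂ) : ℝ :=
  max 0 (moveDZ (M.L (M.w r) (ζ - M.β r)) - 1 / 4) / M.wq r

/-- The time of region `r`. -/
noncomputable def tt (r : ℕ) (ζ : ℂ) : ℝ := M.tm (M.w r) (ζ - M.β r) + M.shear r ζ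

/-- The integer time of region `r`. -/
noncomputable def ti (r : ℕ) (ζ : ℂ) : ℤ :=
  if 1 ≤ r ∧ r < M.l then ⌊M.tt r ζ⌋ else 0

/-- The change of `ti r` along the lattice vector `k + m i`. -/
def tiZ (r : ℕ) (k m : ℤ) : ℤ := if 1 ≤ r ∧ r < M.l then M.C (M.w r) * k + M.D (M.w r) * m else 0

/-- The angle used in region `r`. -/
noncomputable def ph (r : ℕ) (ζ : ℂ) : ℝ :=
  if r = 0 then ζ.im else if r = M.l then ζ.re else M.L (M.w r) (ζ - M.β r)

/-- The change of `ph r` along the lattice vector `k + m i`. -/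
def phZ (r : ℕ) (k m : ℤ) : ℤ :=
  if r = 0 then m else if r = M.l then k else M.q (M.w r) * k - M.p (M.w r) * m

/-- The surface in the 3-sphere. -/
def surf : Set S3 := M.E '' M.FUp

/-- The sides in the 3-sphere. -/
def side (c : ℕ) : Set S3 := M.E '' M.SideUp c

/-- Label of the disc spanning the neck of the band `β` of slab `j`. -/
noncomputable def labE (j : ℕ) (β : ℂ) : Grp :=
  T ⌊M.ph (j - 1) β⌋ * S (j, 0) * T (-⌊M.ph (j + 1) β⌋)

/-- The chamber of a point of the side `c`. -/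
noncomputable def ch (c : ℕ) (x : ℂ × ℝ) : ℕ × ℤ := (J c (sh x.2), M.ti (J c (sh x.2)) x.1)

/-- The label of the wall through a point of the side `c`. -/
noncomputable def wl (c : ℕ) (x : ℂ × ℝ) : Grp :=
  if x.2 + 1 / 2 = sh x.2 ∧ sh x.2 % 2 = c then M.labE (sh x.2 - 1) (M.ctr (sh x.2) x.1)
  else labD (J c (sh x.2)) ⌊M.ph (J c (sh x.2)) x.1⌋

noncomputable def pot (c : ℕ) (x : ℂ × ℝ) : Grp := T ⌊M.ph (J c (sh x.2)) x.1⌋

/-- The cocycle of the side `c` in the coordinates `(ζ, ρ)`. -/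
noncomputable def Lt (c : ℕ) (x z : ℂ × ℝ) : Grp :=
  if M.ch c z = M.ch c x then (M.pot c x)⁻¹ * M.pot c z
  else if J c (sh z.2) = Nest.Jm c x then (M.pot c x)⁻¹ * (M.wl c x)⁻¹ * M.pot c z else 1

/-- The angle between a wall and a point of a strip. -/
noncomputable def phi (j : ℕ) (β : ℂ) (σ : ℝ) (x : ℂ × ℝ) : ℝ :=
  arg (((σ * M.e j * (M.unt j β x).re : ℝ) : ℂ) + ((σ * (M.unt j β x).im : ℝ) : ℂ) * I) +
    2 * (M.e j * M.b j) * (x.2 - j - 1 / 2)

/-- The strip of a point of a tube. -/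
noncomputable def sgn (j : ℕ) (x : ℂ × ℝ) : ℝ :=
  if 0 < (M.unt j (M.ctr (j + 1) x.1) x).im then 1 else -1

/-- The number of walls between a point of a tube and the outside. -/
noncomputable def ext (j : ℕ) (β : ℂ) (σ : ℝ) (x : ℂ × ℝ) : ℤ :=
  sgz σ * max (M.k j - hh σ (M.phi j β σ x / Real.pi)) 0

noncomputable def xt (c : ℕ) (x : ℂ × ℝ) : ℤ :=
  if sh x.2 % 2 ≠ c ∧ 2 ≤ sh x.2 then
    M.ext (sh x.2 - 1) (M.ctr (sh x.2 - 1 + 1) x.1) (M.sgn (sh x.2 - 1) x) x else 0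

/-- The cell of a point of the surface minus the knot. -/
noncomputable def cell (c : ℕ) (x : ℂ × ℝ) : ℕ × ℤ × ℤ × ℤ :=
  (sh x.2, ⌊M.lin (sh x.2) x.1⌋, M.ti (J c (sh x.2)) x.1, M.xt c x)

/-- The time of region `r` on a neck arc. -/
noncomputable def tin (r j : ℕ) (β : ℂ) (σ : ℝ) : ℤ :=
  M.ti r β - if r = j ∧ σ ≠ 1 then 1 else 0

/-- The position of the gap `(i, a)` on the wall of time `m` of region `r`. -/
def kap (r i : ℕ) (a m : ℤ) : ℤ := (a + M.qq (M.w r) i * m) / M.nn (M.w r) i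

noncomputable def src (c : ℕ) : Arc → ℕ × ℤ × ℤ × ℤ
  | .tm i a m => (i, a, m - 1, 0)
  | .nk j β σ => (j, M.go j β σ, M.tin (J c j) j β σ, 0)
  | .sp j β σ n => (j + 1, M.gi j β σ, M.ti j β - 1,
      sgz σ * (M.k j - n + if (Even n ↔ σ = 1) then 1 else 0))

noncomputable def tgt (c : ℕ) : Arc → ℕ × ℤ × ℤ × ℤ
  | .tm i a m => (i, a, m, 0)
  | .nk j β σ => (j + 1, M.gi j β σ, M.tin (J c (j + 1)) j β σ,
      if j % 2 = c then sgz σ * M.k j else 0)
  | .sp j β σ n => (j + 1, M.gi j β σ, M.ti j β,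
      sgz σ * (M.k j - n + if (Even n ↔ σ = 1) then 0 else 1))

def valid (c : ℕ) : Arc → Prop
  | .tm i _ _ => 1 ≤ i ∧ i ≤ M.l ∧ 1 ≤ J c i ∧ J c i < M.l
  | .nk j β σ => β ∈ M.B j ∧ (σ = 1 ∨ σ = -1)
  | .sp j β σ n => β ∈ M.B j ∧ (σ = 1 ∨ σ = -1) ∧ j % 2 = c ∧ 1 ≤ n ∧ n ≤ M.k j

/-- The position of an arc inside a tube on its wall. -/
noncomputable def spx (j : ℕ) (β : ℂ) (σ : ℝ) (n : ℕ) : ℤ :=
  ⌊M.ph j β⌋ - if (Even n ↔ σ * M.e j = 1) then 0 else 1

noncomputable def lab (c : ℕ) : Arc → Grp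
  | .tm i a m => labD (J c i) (M.kap (J c i) i a m)
  | .nk j β _ => if j % 2 = c then 1 else M.labE j β
  | .sp j β σ n => labD j (M.spx j β σ n)

end Lev

end AllOne
end

-- merged part: Pool.Agent.Work.MP_d5331a_gt.A1.Val
section
/-!
Values of plane paths that avoid the lattice. The gate `(c, n)` is the open segment of the column
`re = c` between the heights `n` and `n + 1`; crossing it to the right multiplies the value by
`g c n`. The gates belong to the cells on their right.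
-/

set_option autoImplicit false

open Complex Set Filter Topology

namespace AllOne

variable {G : Type} [Group G]

/-- `W` is a potential for the sequence `γ`. -/
def Pot (γ W : ℤ → G) : Prop := ∀ c, W (c - 1) * γ c = W c

theorem exists_pot (γ : ℤ → G) (c₀ : ℤ) (U : G) : ∃ W, Pot γ W ∧ W c₀ = U := by
  let a : ℕ → G := fun n => Nat.rec 1 (fun k x => x * γ (k + 1)) n
  let b : ℕ → G := fun n => Nat.rec 1 (fun k x => x * (γ (-k))⁻¹) n
  let W : ℤ → G := fun c => if 0 ≤ c then a c.toNat else b (-c).toNat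
  have hW : Pot γ W := fun c => by
    rcases lt_trichotomy c 0 with h | rfl | h
    · obtain ⟨n, rfl⟩ : ∃ n : ℕ, c = -(n + 1 : ℕ) := ⟨(-c - 1).toNat, by omega⟩
      have e1 : (-(-((n + 1 : ℕ) : ℤ) - 1)).toNat = n + 1 + 1 := by omega
      have e2 : (-(-((n + 1 : ℕ) : ℤ))).toNat = n + 1 := by omega
      simp only [W, if_neg (show ¬ 0 ≤ -((n + 1 : ℕ) : ℤ) - 1 by omega),
        if_neg (show ¬ 0 ≤ -((n + 1 : ℕ) : ℤ) by omega), e1, e2]
      exact inv_mul_cancel_right _ _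
    · simp [W, a, b]
    · obtain ⟨n, rfl⟩ : ∃ n : ℕ, c = n + 1 := ⟨(c - 1).toNat, by omega⟩
      have e1 : ((n : ℤ) + 1).toNat = n + 1 := by omega
      simp only [W, add_sub_cancel_right, if_pos (show (0 : ℤ) ≤ n by omega),
        if_pos (show (0 : ℤ) ≤ n + 1 by omega), e1, Int.toNat_natCast]
      rfl
  exact ⟨fun c => U * (W c₀)⁻¹ * W c, fun c => by rw [mul_assoc, hW c], by simp⟩

theorem Pot.up {γ γ' W W' : ℤ → G} (h : Pot γ W) (h' : Pot γ' W') {c₀ c : ℤ} (e : W c₀ = W' c₀)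
    (hc : c₀ ≤ c) (hγ : ∀ x, c₀ < x → x ≤ c → γ x = γ' x) : W c = W' c := by
  induction c, hc using Int.leInduction with
  | base => exact e
  | succ c hc ih =>
    rw [← h (c + 1), ← h' (c + 1), add_sub_cancel_right, ih fun x h1 h2 => hγ x h1 (by omega),
      hγ _ (by omega) le_rfl]

theorem Pot.down {γ γ' W W' : ℤ → G} (h : Pot γ W) (h' : Pot γ' W') {c₀ c : ℤ} (e : W c₀ = W' c₀)
    (hc : c ≤ c₀) (hγ : ∀ x, c < x → x ≤ c₀ → γ x = γ' x) : W c = W' c := by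
  induction c, hc using Int.leInductionDown with
  | base => exact e
  | pred c hc ih =>
    have h1 := h c
    rw [ih fun x h1 h2 => hγ x (by omega) h2, hγ c (by omega) hc, ← h' c] at h1
    exact mul_right_cancel h1

theorem Pot.eq {γ W W' : ℤ → G} (h : Pot γ W) (h' : Pot γ W') {c₀ : ℤ} (e : W c₀ = W' c₀)
    (c : ℤ) : W c = W' c :=
  (le_total c₀ c).elim (fun hc => h.up h' e hc fun _ _ _ => rfl)
    fun hc => h.down h' e hc fun _ _ _ => rfl

/-- The path avoids the lattice. -/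
def Av (f : ℝ → ℂ) (a b : ℝ) : Prop := ∀ s ∈ Icc a b, ∀ k m : ℤ, f s ≠ k + m * I

theorem Av.im {f : ℝ → ℂ} {a b : ℝ} (h : Av f a b) {s : ℝ} (hs : s ∈ Icc a b) {c : ℤ}
    (e : (f s).re = c) : (⌊(f s).im⌋ : ℝ) < (f s).im :=
  (Int.floor_le _).lt_of_ne fun h1 => h s hs c ⌊(f s).im⌋ (Complex.ext (by simp [e]) (by simp [h1]))

variable (g : ℤ → ℤ → G)

/-- `h` follows the value along the path. -/
def Lift (f : ℝ → ℂ) (h : ℝ → G) (a b : ℝ) : Prop :=
  ∀ s ∈ Icc a b, ∀ᶠ t in 𝓝[Icc a b] s,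
    h t = if ⌊(f t).re⌋ = ⌊(f s).re⌋ then h s else h s * (g ⌊(f s).re⌋ ⌊(f s).im⌋)⁻¹

/-- The path changes the value `U` into the value `V`. -/
def Val (f : ℝ → ℂ) (a b : ℝ) (U V : G) : Prop := ∃ h, Lift g f h a b ∧ h a = U ∧ h b = V

variable {g}

theorem Val.congr {f f' : ℝ → ℂ} {a b : ℝ} {U V : G} (h : Val g f a b U V)
    (e : ∀ s ∈ Icc a b, f' s = f s) : Val g f' a b U V := by
  obtain ⟨h, h1, h2⟩ := h
  refine ⟨h, fun s hs => ?_, h2⟩
  filter_upwards [h1 s hs, self_mem_nhdsWithin] with t ht ht'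
  rwa [e s hs, e t ht']

theorem Val.trans {f : ℝ → ℂ} {a b c : ℝ} {U V X : G} (hab : a ≤ b) (hbc : b ≤ c)
    (h : Val g f a b U V) (h' : Val g f b c V X) : Val g f a c U X := by
  obtain ⟨h, h1, rfl, h3⟩ := h
  obtain ⟨k, k1, k2, rfl⟩ := h'
  have e1 : ∀ s ∈ Icc a b, (if s ≤ b then h s else k s) = h s := fun s hs => if_pos hs.2
  have e2 : ∀ s ∈ Icc b c, (if s ≤ b then h s else k s) = k s := fun s hs => by
    split_ifs with h4
    · rw [le_antisymm h4 hs.1, h3, k2]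
    · rfl
  refine ⟨fun s => if s ≤ b then h s else k s, fun s hs => ?_, if_pos hab, e2 c ⟨hbc, le_rfl⟩⟩
  rw [← Icc_union_Icc_eq_Icc hab hbc, nhdsWithin_union, eventually_sup]
  constructor
  · by_cases h4 : s ∈ Icc a b
    · filter_upwards [h1 s h4, self_mem_nhdsWithin] with t ht ht'
      rwa [e1 s h4, e1 t ht']
    · rw [← isClosed_Icc.closure_eq, mem_closure_iff_nhdsWithin_neBot, not_neBot] at h4
      simp [h4]
  · by_cases h4 : s ∈ Icc b c
    · filter_upwards [k1 s h4, self_mem_nhdsWithin] with t ht ht'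
      rwa [e2 s h4, e2 t ht']
    · rw [← isClosed_Icc.closure_eq, mem_closure_iff_nhdsWithin_neBot, not_neBot] at h4
      simp [h4]

theorem Val.comp {f : ℝ → ℂ} {a b a' b' : ℝ} {U V : G} (h : Val g f a' b' U V) {σ : ℝ → ℝ}
    (hσ : Continuous σ) (ha : σ a = a') (hb : σ b = b') (hm : MapsTo σ (Icc a b) (Icc a' b')) :
    Val g (fun s => f (σ s)) a b U V := by
  obtain ⟨h, h1, rfl, rfl⟩ := h
  exact ⟨fun s => h (σ s), fun s hs => (hσ.continuousWithinAt.tendsto_nhdsWithin hm).eventually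
    (h1 _ (hm hs)), by simp only [ha], by simp only [hb]⟩

theorem floor_near {x : ℝ → ℝ} (hx : Continuous x) (s : ℝ) :
    ∀ᶠ t in 𝓝 s, ⌊x t⌋ = ⌊x s⌋ ∨ (x s = ⌊x s⌋ ∧ ⌊x s⌋ - 1 < x t ∧ x t < ⌊x s⌋) := by
  rcases (Int.floor_le (x s)).eq_or_lt with h | h
  · filter_upwards [hx.continuousAt.eventually (Ioo_mem_nhds (a := (⌊x s⌋ : ℝ) - 1) (by linarith)
      (Int.lt_floor_add_one _))] with t ht
    rcases le_or_gt (⌊x s⌋ : ℝ) (x t) with h1 | h1
    · exact Or.inl (Int.floor_eq_iff.2 ⟨h1, ht.2⟩)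
    · exact Or.inr ⟨h.symm, ht.1, h1⟩
  · filter_upwards [hx.continuousAt.eventually (Ioo_mem_nhds h (Int.lt_floor_add_one _))] with t ht
    exact Or.inl (Int.floor_eq_iff.2 ⟨ht.1.le, ht.2⟩)

theorem floor_pred {x : ℝ} {c : ℤ} (h1 : (c : ℝ) - 1 < x) (h2 : x < c) : ⌊x⌋ = c - 1 :=
  Int.floor_eq_iff.2 ⟨by push_cast; linarith, by push_cast; linarith⟩

/-- A path inside a channel. -/
theorem Val.chan {f : ℝ → ℂ} (hf : Continuous f) {a b : ℝ} {lo : ℤ → ℤ} {W : ℤ → G}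
    (hW : Pot (fun c => g c (lo c)) W)
    (h : ∀ s ∈ Icc a b, ∀ c : ℤ, (f s).re = c → lo c < (f s).im ∧ (f s).im < lo c + 1) :
    Val g f a b (W ⌊(f a).re⌋) (W ⌊(f b).re⌋) := by
  refine ⟨fun s => W ⌊(f s).re⌋, fun s hs => ?_, rfl, rfl⟩
  filter_upwards [nhdsWithin_le_nhds
    (floor_near (x := fun s => (f s).re) (continuous_re.comp hf) s)] with t ht
  split_ifs with h1
  · rw [h1]
  · obtain ⟨h2, h3, h4⟩ := ht.resolve_left h1
    obtain ⟨h5, h6⟩ := h s hs _ h2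
    rw [floor_pred h3 h4, Int.floor_eq_iff.2 ⟨h5.le, h6⟩, eq_mul_inv_iff_mul_eq]
    exact hW _

/-- A path inside an open cell. -/
theorem Val.cell {f : ℝ → ℂ} (hf : Continuous f) {a b : ℝ} (hab : a ≤ b) {c : ℤ}
    (h : ∀ s ∈ Icc a b, c < (f s).re ∧ (f s).re < c + 1) (U : G) : Val g f a b U U := by
  obtain ⟨W, hW, rfl⟩ := exists_pot (fun c => g c 0) c U
  have h1 := Val.chan hf (lo := fun _ => 0) hW (a := a) (b := b) fun s hs c' e => by
    obtain ⟨h1, h2⟩ := h s hs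
    rw [e] at h1 h2
    have h3 : c < c' := by exact_mod_cast h1
    have h4 : c' < c + 1 := by exact_mod_cast h2
    omega
  rwa [Int.floor_eq_iff.2 ⟨(h a ⟨le_rfl, hab⟩).1.le, (h a ⟨le_rfl, hab⟩).2⟩,
    Int.floor_eq_iff.2 ⟨(h b ⟨hab, le_rfl⟩).1.le, (h b ⟨hab, le_rfl⟩).2⟩] at h1

theorem floor_neg_of {x : ℝ} (h : (⌊x⌋ : ℝ) < x) : ⌊-x⌋ = -1 - ⌊x⌋ :=
  Int.floor_eq_iff.2 ⟨by push_cast; linarith [Int.lt_floor_add_one x], by push_cast; linarith⟩

/-- Reflection in the real axis. -/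
theorem Val.conj {f : ℝ → ℂ} (hf : Continuous f) {a b : ℝ} (ha : Av f a b) {U V : G}
    (h : Val (fun c n => g c (-1 - n)) f a b U V) :
    Val g (fun s => (starRingEnd ℂ) (f s)) a b U V := by
  obtain ⟨h, h1, h2⟩ := h
  refine ⟨h, fun s hs => ?_, h2⟩
  filter_upwards [h1 s hs, nhdsWithin_le_nhds
    (floor_near (x := fun s => (f s).re) (continuous_re.comp hf) s)] with t ht ht'
  simp only [conj_re, conj_im]
  split_ifs at ht ⊢ with h3
  · exact ht
  · rw [ht, floor_neg_of (ha.im hs (ht'.resolve_left h3).1)]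

/-- Reflection in the imaginary axis. -/
theorem Val.mirror {f : ℝ → ℂ} (hf : Continuous f) {a b : ℝ} (ha : Av f a b) {U V : G}
    (h : Val (fun c n => (g (-c) n)⁻¹) f a b U V) (h0 : (⌊(f a).re⌋ : ℝ) ≠ (f a).re)
    (h1 : (⌊(f b).re⌋ : ℝ) ≠ (f b).re) : Val g (fun s => -(starRingEnd ℂ) (f s)) a b U V := by
  obtain ⟨h, h2, rfl, rfl⟩ := h
  refine ⟨fun s => if (⌊(f s).re⌋ : ℝ) = (f s).re then h s * g (-⌊(f s).re⌋) ⌊(f s).im⌋ else h s,
    fun s hs => ?_, if_neg h0, if_neg h1⟩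
  simp only [neg_re, neg_im, conj_re, conj_im, neg_neg]
  have c1 : Continuous fun s => (f s).re := continuous_re.comp hf
  rcases (Int.floor_le (f s).re).eq_or_lt with e | e
  · have e1 : ⌊-(f s).re⌋ = -⌊(f s).re⌋ := by
      conv_lhs => rw [← e, ← Int.cast_neg, Int.floor_intCast]
    filter_upwards [h2 s hs, nhdsWithin_le_nhds (c1.continuousAt.eventually (Ioo_mem_nhds
      (a := (⌊(f s).re⌋ : ℝ) - 1) (by linarith) (Int.lt_floor_add_one _))),
      nhdsWithin_le_nhds ((continuous_im.comp hf).continuousAt.eventually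
        (Ioo_mem_nhds (ha.im hs e.symm) (Int.lt_floor_add_one _)))] with t t1 t2 t3
    rw [if_pos e, e1]
    rcases lt_trichotomy (f t).re ⌊(f s).re⌋ with k | k | k
    · have k1 := floor_pred t2.1 k
      have k2 : (⌊(f t).re⌋ : ℝ) < (f t).re := by rw [k1]; push_cast; exact t2.1
      rw [if_neg k2.ne, floor_neg_of k2, k1, if_pos (by ring), t1, if_neg (by omega), inv_inv]
    · have k1 : ⌊(f t).re⌋ = ⌊(f s).re⌋ := by rw [k, Int.floor_intCast]
      have k2 : ⌊(f t).im⌋ = ⌊(f s).im⌋ := Int.floor_eq_iff.2 ⟨t3.1.le, t3.2⟩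
      rw [if_pos (by rw [k1, k]), if_pos (by rw [k, ← Int.cast_neg, Int.floor_intCast]), t1,
        if_pos k1, k1, k2]
    · have k1 : ⌊(f t).re⌋ = ⌊(f s).re⌋ := Int.floor_eq_iff.2 ⟨k.le, t2.2⟩
      have k2 : (⌊(f t).re⌋ : ℝ) < (f t).re := by rw [k1]; exact k
      rw [if_neg k2.ne, floor_neg_of k2, k1, if_neg (by omega), t1, if_pos k1,
        mul_inv_cancel_right]
  · filter_upwards [h2 s hs, nhdsWithin_le_nhds (c1.continuousAt.eventually
      (Ioo_mem_nhds e (Int.lt_floor_add_one _)))] with t t1 t2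
    have k1 : ⌊(f t).re⌋ = ⌊(f s).re⌋ := Int.floor_eq_iff.2 ⟨t2.1.le, t2.2⟩
    have k2 : (⌊(f t).re⌋ : ℝ) < (f t).re := by rw [k1]; exact t2.1
    rw [if_neg k2.ne, if_neg e.ne, floor_neg_of k2, floor_neg_of e, k1, if_pos rfl, t1, if_pos k1]

theorem hh_mem (σ : ℝ) {y : ℝ} {n : ℤ} (h1 : n < y) (h2 : y < n + 1) : hh σ y = n := by
  have e1 : ⌊y⌋ = n := Int.floor_eq_iff.2 ⟨h1.le, h2⟩
  have e2 : ⌈y⌉ = n + 1 := Int.ceil_eq_iff.2 ⟨by push_cast; linarith, by push_cast; linarith⟩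
  rw [hh, e1, e2]
  split_ifs <;> simp

theorem hh_one_int (n : ℤ) : hh 1 n = if Even n then n else n - 1 := by
  simp only [hh, Int.floor_intCast, Int.ceil_intCast, iff_true]

/-- The letters met on a circle round the peg `(c, y)`; the sector `σ` consists of the angles
between `σ π` and `(σ + 1) π`, measured from the downward direction. -/
def rg (g : ℤ → ℤ → G) (c y σ : ℤ) : G := if Even σ then g c (y - 1) else (g c y)⁻¹

theorem sin_sector {y : ℝ} {n : ℤ} (h1 : n < y / Real.pi) (h2 : y / Real.pi < n + 1) :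
    (Even n → 0 < Real.sin y) ∧ (¬ Even n → Real.sin y < 0) := by
  have hp := Real.pi_pos
  have h3 : 0 < Real.sin (y - n * Real.pi) := Real.sin_pos_of_pos_of_lt_pi
    (by linarith only [hp, h1, (lt_div_iff₀ hp).1 h1]) (by linarith [(div_lt_iff₀ hp).1 h2])
  rw [Real.sin_sub_int_mul_pi] at h3
  refine ⟨fun h => ?_, fun h => ?_⟩
  · rwa [h.neg_one_zpow, one_mul] at h3
  · rw [(Int.not_even_iff_odd.1 h).neg_one_zpow] at h3
    linarith

/-- An arc round a peg. -/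
theorem Val.arc {f : ℝ → ℂ} {a b : ℝ} {c y : ℤ} {A : ℤ → G} (hA : Pot (rg g c y) A)
    {r φ : ℝ → ℝ} (hφ : Continuous φ) (hr : ∀ s ∈ Icc a b, 0 < r s ∧ r s < 1)
    (h1 : ∀ s ∈ Icc a b, (f s).re = c + r s * Real.sin (φ s))
    (h2 : ∀ s ∈ Icc a b, (f s).im = y - r s * Real.cos (φ s)) :
    Val g f a b (A (hh 1 (φ a / Real.pi))) (A (hh 1 (φ b / Real.pi))) := by
  have hp := Real.pi_pos
  have k1 : ∀ s ∈ Icc a b, 0 ≤ Real.sin (φ s) → ⌊(f s).re⌋ = c := fun s hs h => by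
    rw [h1 s hs, Int.floor_eq_iff]
    constructor <;> linarith only [h, hr, hs, hr s hs, Real.sin_le_one (φ s), mul_nonneg_of_nonpos_of_nonpos (Mathlib.Tactic.Linarith.sub_nonpos_of_le h) (le_of_lt (Mathlib.Tactic.Linarith.sub_neg_of_lt (hr s hs).left)), mul_nonneg_of_nonpos_of_nonpos (le_of_lt (Mathlib.Tactic.Linarith.sub_neg_of_lt (hr s hs).left)) (Mathlib.Tactic.Linarith.sub_nonpos_of_le (Real.sin_le_one (φ s)))]
  have k2 : ∀ s ∈ Icc a b, Real.sin (φ s) < 0 → ⌊(f s).re⌋ = c - 1 := fun s hs h => by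
    rw [h1 s hs]
    apply floor_pred <;> linarith only [h, hr, hs, hr s hs, Real.neg_one_le_sin (φ s), mul_pos_of_neg_of_neg (Mathlib.Tactic.Linarith.sub_neg_of_lt h) (Mathlib.Tactic.Linarith.sub_neg_of_lt (hr s hs).right), mul_pos_of_neg_of_neg (Mathlib.Tactic.Linarith.sub_neg_of_lt h) (Mathlib.Tactic.Linarith.sub_neg_of_lt (hr s hs).left)]
  have k3 : ∀ s ∈ Icc a b, ∀ n : ℤ, n < φ s / Real.pi → φ s / Real.pi < n + 1 →
      ⌊(f s).re⌋ = if Even n then c else c - 1 := fun s hs n e1 e2 => by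
    split_ifs with h
    · exact k1 s hs ((sin_sector e1 e2).1 h).le
    · exact k2 s hs ((sin_sector e1 e2).2 h)
  have c1 : Continuous fun s => φ s / Real.pi := hφ.div_const _
  refine ⟨fun s => A (hh 1 (φ s / Real.pi)), fun s hs => ?_, rfl, rfl⟩
  rcases (Int.floor_le (φ s / Real.pi)).eq_or_lt with e | e
  · generalize ⌊φ s / Real.pi⌋ = n at e
    have e1 : φ s = n * Real.pi := by rw [e, div_mul_cancel₀ _ hp.ne']
    have e2 : ⌊(f s).re⌋ = c := k1 s hs (by rw [e1, Real.sin_int_mul_pi])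
    have e3 : ⌊(f s).im⌋ = if Even n then y - 1 else y := by
      rw [h2 s hs, e1, Real.cos_int_mul_pi]
      split_ifs with h
      · rw [h.neg_one_zpow]
        apply floor_pred <;> linarith only [hr, hs, hr s hs]
      · rw [(Int.not_even_iff_odd.1 h).neg_one_zpow, Int.floor_eq_iff]
        constructor <;> linarith only [hr, hs, hr s hs]
    filter_upwards [nhdsWithin_le_nhds (c1.continuousAt.eventually (Ioo_mem_nhds
      (a := (n : ℝ) - 1) (b := n + 1) (by linarith) (by linarith))), self_mem_nhdsWithin]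
      with t t1 ht
    have e4 := hA n
    rw [e2, e3, ← e, hh_one_int]
    rcases lt_trichotomy (φ t / Real.pi) n with k | k | k
    · have k4 : ((n - 1 : ℤ) : ℝ) < φ t / Real.pi := by push_cast; exact t1.1
      have k5 : φ t / Real.pi < (n - 1 : ℤ) + 1 := by push_cast; linarith only [k]
      rw [hh_mem 1 k4 k5, k3 t ht _ k4 k5]
      by_cases h : Even n
      · simp only [h, Int.even_sub_one, not_true, if_true, if_false, rg] at e4 ⊢
        rw [if_neg (by omega), ← e4, mul_inv_cancel_right]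
      · simp only [h, Int.even_sub_one, not_false_iff, if_true, if_false]
    · rw [k1 t ht (by rw [(div_eq_iff hp.ne').1 k, Real.sin_int_mul_pi]), if_pos rfl, k, hh_one_int]
    · rw [hh_mem 1 k t1.2, k3 t ht _ k t1.2]
      by_cases h : Even n
      · simp only [h, if_true]
      · simp only [h, if_false, rg] at e4 ⊢
        rw [if_neg (by omega), e4]
  · have e' := Int.lt_floor_add_one (φ s / Real.pi)
    filter_upwards [nhdsWithin_le_nhds (c1.continuousAt.eventually (Ioo_mem_nhds e e')),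
      self_mem_nhdsWithin] with t t1 ht
    rw [k3 t ht _ t1.1 t1.2, k3 s hs _ e e', if_pos rfl, hh_mem 1 t1.1 t1.2, hh_mem 1 e e']

end AllOne
end

-- merged part: Pool.Agent.Work.MP_d5331a_gt.A1.Lin
section
/-!
Linear algebra of the data.
-/

set_option autoImplicit false

open Complex Set

namespace AllOne

open Neuwirth OneOne

namespace Lev

variable {M : Lev}

theorem det (M : Lev) : Dt.Det M.nest := Or.inr (by simp [nest])

theorem nest_l (M : Lev) : M.nest.l = M.l := rfl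

theorem E_eq_pt (x : ℂ × ℝ) : M.E x = pt x.1 (x.2 / (M.l + 1)) := by
  have h : Real.pi * x.2 / (2 * ((M.l : ℝ) + 1)) = Real.pi * (x.2 / (M.l + 1)) / 2 := by
    field_simp
  refine Subtype.ext (Prod.ext ?_ ?_) <;> simp [E, Nest.E, nest, pt, h]

theorem L_add (i : ℕ) (x y : ℂ) : M.L i (x + y) = M.L i x + M.L i y := by
  simp only [L, add_re, add_im]; ring

theorem L_sub (i : ℕ) (x y : ℂ) : M.L i (x - y) = M.L i x - M.L i y := by
  simp only [L, sub_re, sub_im]; ring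

theorem L_neg (i : ℕ) (x : ℂ) : M.L i (-x) = -M.L i x := by
  simp only [L, neg_re, neg_im]; ring

theorem L_zero (i : ℕ) : M.L i 0 = 0 := by simp [L]

theorem L_real_mul (i : ℕ) (t : ℝ) (x : ℂ) : M.L i (t * x) = t * M.L i x := by
  simp only [L, re_ofReal_mul, im_ofReal_mul]; ring

theorem L_half (i : ℕ) (x : ℂ) : M.L i (x / 2) = M.L i x / 2 := by
  simp only [L, div_ofNat_re, div_ofNat_im]; ring

theorem L_vec (i : ℕ) (k m : ℤ) : M.L i (k + m * I) = ((M.q i * k - M.p i * m : ℤ) : ℝ) := by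
  simp [L]

theorem L_lam (r i : ℕ) : M.L r (M.lam i) = M.qq r i := by
  rw [lam, L_vec, qq]

theorem qq_self (i : ℕ) : M.qq i i = 0 := by rw [qq]; ring

theorem tm_add (i : ℕ) (x y : ℂ) : M.tm i (x + y) = M.tm i x + M.tm i y := by
  simp only [tm, add_re, add_im]; ring

theorem tm_sub (i : ℕ) (x y : ℂ) : M.tm i (x - y) = M.tm i x - M.tm i y := by
  simp only [tm, sub_re, sub_im]; ring

theorem tm_neg (i : ℕ) (x : ℂ) : M.tm i (-x) = -M.tm i x := by
  simp only [tm, neg_re, neg_im]; ring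

theorem tm_zero (i : ℕ) : M.tm i 0 = 0 := by simp [tm]

theorem tm_real_mul (i : ℕ) (t : ℝ) (x : ℂ) : M.tm i (t * x) = t * M.tm i x := by
  simp only [tm, re_ofReal_mul, im_ofReal_mul]; ring

theorem tm_half (i : ℕ) (x : ℂ) : M.tm i (x / 2) = M.tm i x / 2 := by
  simp only [tm, div_ofNat_re, div_ofNat_im]; ring

theorem tm_vec (i : ℕ) (k m : ℤ) : M.tm i (k + m * I) = ((M.C i * k + M.D i * m : ℤ) : ℝ) := by
  simp [tm]

theorem tm_lam (r i : ℕ) : M.tm r (M.lam i) = M.nn r i := by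
  rw [lam, tm_vec, nn]

theorem continuous_L (i : ℕ) : Continuous (M.L i) := by unfold L; fun_prop

theorem continuous_tm (i : ℕ) : Continuous (M.tm i) := by unfold tm; fun_prop

theorem continuous_ang (j : ℕ) : Continuous (M.ang j) := by unfold ang; fun_prop

theorem continuous_dir (j : ℕ) : Continuous (M.dir j) := by unfold dir ang; fun_prop

theorem continuous_unt (j : ℕ) (β : ℂ) : Continuous (M.unt j β) := by
  have := continuous_dir (M := M) j
  unfold unt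
  exact (continuous_fst.sub continuous_const).mul (continuous_conj.comp (this.comp (by fun_prop)))

theorem dir_zero (j : ℕ) : M.dir j 0 = M.ω j := by simp [dir, ang]

theorem ang_nonpos (j : ℕ) {s : ℝ} (h : s ≤ 0) : M.ang j s = 2 * M.a j * s := by
  rw [ang, min_eq_left h, max_eq_right h]; ring

theorem ang_nonneg (j : ℕ) {s : ℝ} (h : 0 ≤ s) : M.ang j s = 2 * M.b j * s := by
  rw [ang, min_eq_right h, max_eq_left h]; ring

theorem β_zero : M.β 0 = 0 := by simp [β]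

theorem β_succ (j : ℕ) : M.β (j + 1) = M.β j + M.lam (j + 1) / 2 := by
  rw [β, β, Finset.sum_Icc_succ_top (by omega), add_div]

theorem two_β (j : ℕ) : ∃ k m : ℤ, 2 * M.β j = k + m * I := by
  induction j with
  | zero => exact ⟨0, 0, by simp [β_zero]⟩
  | succ j ih =>
    obtain ⟨k, m, h⟩ := ih
    refine ⟨k + M.p (j + 1), m + M.q (j + 1), ?_⟩
    rw [β_succ, mul_add, h, lam]
    push_cast
    ring

theorem L_eq_im (i : ℕ) (ζ : ℂ) : M.L i ζ = -((starRingEnd ℂ) (M.lam i) * ζ).im := by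
  simp [L, lam]
  ring

theorem abs_L_le (i : ℕ) (ζ : ℂ) : |M.L i ζ| ≤ ((|M.p i| + |M.q i| : ℤ) : ℝ) * ‖ζ‖ := by
  have h1 := abs_re_le_norm ζ
  have h2 := abs_im_le_norm ζ
  have h3 := abs_sub (M.q i * ζ.re) (M.p i * ζ.im)
  rw [abs_mul, abs_mul] at h3
  push_cast
  have h4 := mul_le_mul_of_nonneg_left h1 (abs_nonneg (M.q i : ℝ))
  have h5 := mul_le_mul_of_nonneg_left h2 (abs_nonneg (M.p i : ℝ))
  rw [L]
  linarith

theorem abs_tm_le (i : ℕ) (ζ : ℂ) : |M.tm i ζ| ≤ ((|M.C i| + |M.D i| : ℤ) : ℝ) * ‖ζ‖ := by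
  have h1 := abs_re_le_norm ζ
  have h2 := abs_im_le_norm ζ
  have h3 := abs_add_le (M.C i * ζ.re) (M.D i * ζ.im)
  rw [abs_mul, abs_mul] at h3
  push_cast
  have h4 := mul_le_mul_of_nonneg_left h1 (abs_nonneg (M.C i : ℝ))
  have h5 := mul_le_mul_of_nonneg_left h2 (abs_nonneg (M.D i : ℝ))
  rw [tm]
  linarith

theorem band_range {j : ℕ} {β : ℂ} (hβ : β ∈ M.B j) : 1 ≤ j ∧ j < M.l := ⟨hβ.1, hβ.2.1⟩

theorem β_mem {j : ℕ} (h1 : 1 ≤ j) (h2 : j < M.l) : M.β j ∈ M.B j := ⟨h1, h2, 0, 0, by simp⟩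

theorem band_add {j : ℕ} {β : ℂ} (k m : ℤ) : β + (k + m * I) ∈ M.B j ↔ β ∈ M.B j := by
  refine and_congr_right fun _ => and_congr_right fun _ => ⟨?_, ?_⟩
  · rintro ⟨k', m', h⟩
    exact ⟨k' - k, m' - m, by push_cast; linear_combination h⟩
  · rintro ⟨k', m', h⟩
    exact ⟨k' + k, m' + m, by push_cast; linear_combination h⟩

theorem band_diff {j : ℕ} {β β' : ℂ} (hβ : β ∈ M.B j) (hβ' : β' ∈ M.B j) :
    ∃ k m : ℤ, β' = β + (k + m * I) := by
  obtain ⟨-, -, k, m, h⟩ := hβ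
  obtain ⟨-, -, k', m', h'⟩ := hβ'
  exact ⟨k' - k, m' - m, by push_cast; linear_combination h' - h⟩

theorem band_neg {j : ℕ} {β : ℂ} (hβ : β ∈ M.B j) : -β ∈ M.B j := by
  obtain ⟨h1, h2, k, m, h⟩ := hβ
  obtain ⟨k', m', h'⟩ := two_β (M := M) j
  exact ⟨h1, h2, -k - k', -m - m', by push_cast; linear_combination -h - h'⟩

variable (hM : M.Good)
include hM

theorem nn_self (i : ℕ) : M.nn i i = 1 := hM.bez i

theorem L_change (r i : ℕ) (ζ : ℂ) : M.L i ζ = M.nn r i * M.L r ζ - M.qq r i * M.tm r ζ := by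
  have h : (M.C r : ℝ) * M.p r + M.D r * M.q r = 1 := by exact_mod_cast hM.bez r
  simp only [L, tm, nn, qq]
  push_cast
  linear_combination (M.p i * ζ.im - M.q i * ζ.re) * h

theorem eq_zero_of_tm_L (r : ℕ) {ζ : ℂ} (h1 : M.tm r ζ = 0) (h2 : M.L r ζ = 0) : ζ = 0 := by
  have h : (M.C r : ℝ) * M.p r + M.D r * M.q r = 1 := by exact_mod_cast hM.bez r
  simp only [L, tm] at h1 h2
  refine Complex.ext ?_ ?_
  · rw [zero_re]; linear_combination M.p r * h1 + M.D r * h2 - ζ.re * h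
  · rw [zero_im]; linear_combination M.q r * h1 - M.C r * h2 - ζ.im * h

/-- Every vector in the coordinates `(tm r, L r)`. -/
theorem eq_coord (r : ℕ) (ζ : ℂ) :
    ζ = (M.tm r ζ : ℝ) * M.lam r + (M.L r ζ : ℝ) * ((M.D r : ℂ) + (-M.C r : ℤ) * I) := by
  have h : (M.C r : ℝ) * M.p r + M.D r * M.q r = 1 := by exact_mod_cast hM.bez r
  refine Complex.ext ?_ ?_
  · simp [L, tm, lam]; linear_combination (-ζ.re) * h
  · simp [L, tm, lam]; linear_combination (-ζ.im) * h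

theorem int_zero (r : ℕ) {k m : ℤ} (h1 : M.C r * k + M.D r * m = 0)
    (h2 : M.q r * k - M.p r * m = 0) : k = 0 ∧ m = 0 :=
  ⟨by linear_combination M.p r * h1 + M.D r * h2 - k * hM.bez r,
    by linear_combination M.q r * h1 - M.C r * h2 - m * hM.bez r⟩

theorem one_le_norm_lam (i : ℕ) : 1 ≤ ‖M.lam i‖ := by
  have h := hM.bez i
  by_cases hp : M.p i = 0
  · have hq : M.q i ≠ 0 := fun hq => by simp [hp, hq] at h
    have h1 : (1 : ℝ) ≤ |(M.q i : ℝ)| := by exact_mod_cast Int.one_le_abs hq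
    exact h1.trans (by simpa [lam] using abs_im_le_norm (M.lam i))
  · have h1 : (1 : ℝ) ≤ |(M.p i : ℝ)| := by exact_mod_cast Int.one_le_abs hp
    exact h1.trans (by simpa [lam] using abs_re_le_norm (M.lam i))

theorem norm_lam_pos (i : ℕ) : 0 < ‖M.lam i‖ := one_pos.trans_le (one_le_norm_lam hM i)

theorem norm_u (i : ℕ) : ‖M.u i‖ = 1 := by
  rw [u, norm_div, norm_real, norm_norm, div_self (norm_lam_pos hM i).ne']

theorem lam_eq (i : ℕ) : M.lam i = (‖M.lam i‖ : ℝ) * M.u i := by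
  have : ((‖M.lam i‖ : ℝ) : ℂ) ≠ 0 := ofReal_ne_zero.2 (norm_lam_pos hM i).ne'
  rw [u]
  field_simp

theorem L_u_mul (i : ℕ) (w : ℂ) : M.L i (M.u i * w) = -(‖M.lam i‖ * w.im) := by
  have h0 : ((‖M.lam i‖ : ℝ) : ℂ) ≠ 0 := ofReal_ne_zero.2 (norm_lam_pos hM i).ne'
  have h : (starRingEnd ℂ) (M.lam i) * (M.u i * w) = (‖M.lam i‖ : ℝ) * w := by
    rw [u, ← mul_assoc, ← mul_div_assoc, conj_mul']
    field_simp
  rw [L_eq_im, h, im_ofReal_mul]

theorem norm_dir (j : ℕ) (s : ℝ) : ‖M.dir j s‖ = 1 := by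
  rw [dir, norm_mul, hM.norm_ω, norm_exp_ofReal_mul_I, mul_one]

theorem dir_mul_conj (j : ℕ) (s : ℝ) : M.dir j s * (starRingEnd ℂ) (M.dir j s) = 1 := by
  rw [mul_conj', norm_dir hM]; simp

theorem norm_unt (j : ℕ) (β : ℂ) (x : ℂ × ℝ) : ‖M.unt j β x‖ = ‖x.1 - β‖ := by
  rw [unt, norm_mul, RCLike.norm_conj, norm_dir hM, mul_one]

theorem unt_mul_dir (j : ℕ) (β : ℂ) (x : ℂ × ℝ) :
    M.unt j β x * M.dir j (x.2 - j - 1 / 2) = x.1 - β := by
  rw [unt, mul_assoc, mul_comm _ (M.dir _ _), dir_mul_conj hM, mul_one]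

theorem eps_le : 128 * M.ε ≤ 1 := by
  have h := hM.bez 0
  have h1 : 1 ≤ |M.p 0| + |M.q 0| := by
    by_contra h1
    have h2 : M.p 0 = 0 := by have := abs_nonneg (M.q 0); exact abs_nonpos_iff.1 (by omega)
    have h3 : M.q 0 = 0 := by have := abs_nonneg (M.p 0); exact abs_nonpos_iff.1 (by omega)
    simp [h2, h3] at h
  have h2 : 1 ≤ |M.C 0| + |M.D 0| := by
    by_contra h1
    have h2 : M.C 0 = 0 := by have := abs_nonneg (M.D 0); exact abs_nonpos_iff.1 (by omega)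
    have h3 : M.D 0 = 0 := by have := abs_nonneg (M.C 0); exact abs_nonpos_iff.1 (by omega)
    simp [h2, h3] at h
  have h3 : (2 : ℝ) ≤ (|M.p 0| + |M.q 0| + |M.C 0| + |M.D 0| : ℤ) := by
    exact_mod_cast (by omega : 2 ≤ |M.p 0| + |M.q 0| + |M.C 0| + |M.D 0|)
  have h4 := hM.small 0 (Nat.zero_le _)
  (refine le_of_not_gt fun h_nl => ?_; linarith only [h_nl, h3, h4, hM.ε_pos, mul_nonneg_of_nonpos_of_nonpos (Mathlib.Tactic.Linarith.sub_nonpos_of_le h3) (le_of_lt (Mathlib.Tactic.Linarith.sub_neg_of_lt h_nl))])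

theorem L_small {i : ℕ} (hi : i ≤ M.l) {ζ : ℂ} (h : ‖ζ‖ ≤ 4 * M.ε) : |M.L i ζ| ≤ 1 / 16 := by
  have h1 := abs_L_le (M := M) i ζ
  have h2 := hM.small i hi
  have h3 : ((|M.p i| + |M.q i| : ℤ) : ℝ) ≤ (|M.p i| + |M.q i| + |M.C i| + |M.D i| : ℤ) := by
    have := abs_nonneg (M.C i); have := abs_nonneg (M.D i)
    exact_mod_cast (by omega)
  have h4 : (0 : ℝ) ≤ (|M.p i| + |M.q i| : ℤ) := by positivity
  have h5 := mul_le_mul_of_nonneg_left h h4
  linarith only [h1, h2, h5, h3, hM, hM.ε_pos, mul_nonneg_of_nonpos_of_nonpos (Mathlib.Tactic.Linarith.sub_nonpos_of_le h3) (le_of_lt (Mathlib.Tactic.Linarith.sub_neg_of_lt hM.ε_pos))]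

theorem tm_small {i : ℕ} (hi : i ≤ M.l) {ζ : ℂ} (h : ‖ζ‖ ≤ 4 * M.ε) : |M.tm i ζ| ≤ 1 / 16 := by
  have h1 := abs_tm_le (M := M) i ζ
  have h2 := hM.small i hi
  have h3 : ((|M.C i| + |M.D i| : ℤ) : ℝ) ≤ (|M.p i| + |M.q i| + |M.C i| + |M.D i| : ℤ) := by
    have := abs_nonneg (M.p i); have := abs_nonneg (M.q i)
    exact_mod_cast (by omega)
  have h4 : (0 : ℝ) ≤ (|M.C i| + |M.D i| : ℤ) := by positivity
  have h5 := mul_le_mul_of_nonneg_left h h4
  linarith only [h1, h2, h5, h3, hM, hM.ε_pos, mul_nonneg_of_nonpos_of_nonpos (Mathlib.Tactic.Linarith.sub_nonpos_of_le h3) (le_of_lt (Mathlib.Tactic.Linarith.sub_neg_of_lt hM.ε_pos))]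

theorem norm_lam_small {i : ℕ} (hi : i ≤ M.l) : 64 * M.ε * ‖M.lam i‖ ≤ 1 := by
  have h1 : ‖M.lam i‖ ≤ (|M.p i| + |M.q i| + |M.C i| + |M.D i| : ℤ) := by
    have h2 := norm_le_abs_re_add_abs_im (M.lam i)
    have h3 := abs_nonneg (M.C i : ℝ)
    have h4 := abs_nonneg (M.D i : ℝ)
    simp only [lam, add_re, add_im, intCast_re, intCast_im, mul_re, mul_im, I_re, I_im, mul_zero,
      mul_one, sub_zero, add_zero, zero_add] at h2
    push_cast
    rw [lam]
    linarith only [h3, h4, h2]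
  exact (mul_le_mul_of_nonneg_left h1 (by linarith [hM.ε_pos])).trans (hM.small i hi)

omit hM in
theorem Lin_sin {e x : ℝ} (he : e = 1 ∨ e = -1) (h0 : 0 < e * x) (h1 : e * x < Real.pi) :
    0 < e * Real.sin x := by
  have h := Real.sin_pos_of_pos_of_lt_pi h0 h1
  rcases he with rfl | rfl
  · simpa using h
  · simpa using h

omit hM in
theorem Lin_sin' {k : ℕ} {x : ℝ} (h0 : k * Real.pi ≤ x) (h1 : x ≤ (k + 1) * Real.pi) :
    0 ≤ (-1) ^ k * Real.sin x := by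
  have h := Real.sin_nonneg_of_nonneg_of_le_pi (x := x - k * Real.pi) (by linarith) (by linarith)
  rwa [Real.sin_sub_nat_mul_pi] at h

omit hM in
theorem wq_pos (r : ℕ) : 1 ≤ M.wq r := by
  have := abs_nonneg (M.qq (M.w r) r)
  have := abs_nonneg (M.qq (M.w r) (r + 1))
  rw [wq]
  omega

omit hM in
theorem abs_qq_le {r i : ℕ} (hi : i = r ∨ i = r + 1) : |M.qq (M.w r) i| ≤ M.wq r := by
  have := abs_nonneg (M.qq (M.w r) r)
  have := abs_nonneg (M.qq (M.w r) (r + 1))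
  rw [wq]
  rcases hi with rfl | rfl <;> omega

/-- The determinant of two levels in the coordinates of a region. -/
theorem qq_change (r i j : ℕ) : M.qq i j = M.nn r i * M.qq r j - M.qq r i * M.nn r j := by
  have h := L_change hM r i (M.lam j)
  rw [L_lam, L_lam, tm_lam] at h
  exact_mod_cast h

theorem not_even (r i : ℕ) : Odd (M.nn r i) ∨ Odd (M.qq r i) := by
  by_contra h
  rw [not_or, Int.not_odd_iff_even, Int.not_odd_iff_even] at h
  obtain ⟨⟨a, ha⟩, b, hb⟩ := h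
  have h1 : M.p i = M.nn r i * M.p r + M.qq r i * M.D r := by
    rw [nn, qq]; linear_combination (-M.p i) * hM.bez r
  have h2 : M.q i = M.nn r i * M.q r - M.qq r i * M.C r := by
    rw [nn, qq]; linear_combination (-M.q i) * hM.bez r
  have h4 : 2 * (M.C i * (a * M.p r + b * M.D r) + M.D i * (a * M.q r - b * M.C r)) = 1 := by
    rw [← hM.bez i, h1, h2, ha, hb]; ring
  omega

variable [hS : M.Ess]

omit hM in
theorem nn_pos' {r i : ℕ} (h1 : 1 ≤ r) (h2 : r < M.l) (hi : i = r ∨ i = r + 1) :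
    0 < M.nn (M.w r) i := by
  rcases hi with rfl | rfl
  · exact hS.n1 i h1 h2
  · exact hS.n2 r h1 h2

theorem Lw_small {r : ℕ} (h1 : 1 ≤ r) (h2 : r < M.l) {ζ : ℂ} (h : ‖ζ‖ ≤ 4 * M.ε) :
    |M.L (M.w r) ζ| ≤ 1 / 16 := by
  have h0 := abs_L_le (M := M) (M.w r) ζ
  have h2 := hS.smallw r h1 h2
  have h3 : ((|M.p (M.w r)| + |M.q (M.w r)| : ℤ) : ℝ) ≤ (|M.p (M.w r)| + |M.q (M.w r)| +
      (|M.C (M.w r)| + |M.D (M.w r)|) * M.wq r : ℤ) := by
    have := mul_nonneg (add_nonneg (abs_nonneg (M.C (M.w r))) (abs_nonneg (M.D (M.w r))))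
      (zero_le_one.trans (wq_pos (M := M) r))
    exact_mod_cast (by omega)
  have h4 : (0 : ℝ) ≤ (|M.p (M.w r)| + |M.q (M.w r)| : ℤ) := by positivity
  have h5 := mul_le_mul_of_nonneg_left h h4
  linarith only [h0, h2, h5, h3, hM, hM.ε_pos, mul_nonneg_of_nonpos_of_nonpos (Mathlib.Tactic.Linarith.sub_nonpos_of_le h3) (le_of_lt (Mathlib.Tactic.Linarith.sub_neg_of_lt hM.ε_pos))]

theorem tmw_small {r : ℕ} (h1 : 1 ≤ r) (h2 : r < M.l) {ζ : ℂ} (h : ‖ζ‖ ≤ 4 * M.ε) :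
    |M.tm (M.w r) ζ| * M.wq r ≤ 1 / 16 := by
  have h0 := abs_tm_le (M := M) (M.w r) ζ
  have h2 := hS.smallw r h1 h2
  have h6 : (1 : ℝ) ≤ M.wq r := by exact_mod_cast wq_pos (M := M) r
  have h3 : ((|M.C (M.w r)| + |M.D (M.w r)| : ℤ) : ℝ) * M.wq r ≤ (|M.p (M.w r)| + |M.q (M.w r)| +
      (|M.C (M.w r)| + |M.D (M.w r)|) * M.wq r : ℤ) := by
    have := add_nonneg (abs_nonneg (M.p (M.w r))) (abs_nonneg (M.q (M.w r)))
    exact_mod_cast (by omega)
  have h4 : (0 : ℝ) ≤ (|M.C (M.w r)| + |M.D (M.w r)| : ℤ) := by positivity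
  have h5 := mul_le_mul_of_nonneg_right (h0.trans (mul_le_mul_of_nonneg_left h h4))
    (zero_le_one.trans h6)
  linarith only [h2, h5, h3, hM, hM.ε_pos, mul_nonneg_of_nonpos_of_nonpos (Mathlib.Tactic.Linarith.sub_nonpos_of_le h3) (le_of_lt (Mathlib.Tactic.Linarith.sub_neg_of_lt hM.ε_pos))]

theorem tmw_small' {r : ℕ} (h1 : 1 ≤ r) (h2 : r < M.l) {ζ : ℂ} (h : ‖ζ‖ ≤ 4 * M.ε) :
    |M.tm (M.w r) ζ| ≤ 1 / 16 := by
  have h6 : (1 : ℝ) ≤ M.wq r := by exact_mod_cast wq_pos (M := M) r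
  exact (le_mul_of_one_le_right (abs_nonneg _) h6).trans (tmw_small hM h1 h2 h)

/-- The lower half of a band stays to the right of the direction of the lower level. -/
theorem L_dir_outer {j : ℕ} (h1 : 1 ≤ j) (h2 : j < M.l) {s : ℝ} (hs : -(1 / 2) < s) (hs' : s ≤ 0) :
    0 < M.L j (M.dir j s) := by
  obtain ⟨a1, a2⟩ := hS.a_mem j h1 h2
  have h3 : M.dir j s = M.dir j (-(1 / 2)) * exp (((M.a j * (1 + 2 * s) : ℝ) : ℂ) * I) := by
    rw [dir, dir, mul_assoc, ← exp_add, ← add_mul, ← ofReal_add, ang_nonpos j hs',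
      ang_nonpos j (by norm_num)]
    congr 4
    ring
  rw [h3, hM.start j h1 h2, mul_assoc, ← ofReal_neg, L_real_mul, L_u_mul hM, exp_ofReal_mul_I_im]
  have h4 := Lin_sin (hM.sign j) (x := M.a j * (1 + 2 * s)) (by linarith only [hs, a1, mul_pos_of_neg_of_neg (Mathlib.Tactic.Linarith.sub_neg_of_lt hs) (Mathlib.Tactic.Linarith.sub_neg_of_lt a1)]) (by linarith only [a2, hs', a1, mul_nonneg_of_nonpos_of_nonpos (Mathlib.Tactic.Linarith.sub_nonpos_of_le hs') (le_of_lt (Mathlib.Tactic.Linarith.sub_neg_of_lt a1))])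
  linarith only [h4, hM, norm_lam_pos hM j, mul_pos_of_neg_of_neg (Mathlib.Tactic.Linarith.sub_neg_of_lt h4) (Mathlib.Tactic.Linarith.sub_neg_of_lt (norm_lam_pos hM j))]

/-- The end of the upper half of a band stays to the right of the direction of the upper level. -/
theorem L_dir_inner {j : ℕ} (h1 : 1 ≤ j) (h2 : j < M.l) {s : ℝ} (hs : 0 ≤ s) (hs' : s ≤ 1 / 2)
    (hk : M.k j * Real.pi ≤ 2 * (M.e j * M.b j) * (1 / 2 - s)) :
    0 ≤ M.L (j + 1) (M.dir j s) := by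
  obtain ⟨a1, a2⟩ := hS.b_mem j h1 h2
  have h0 : 0 ≤ M.k j * Real.pi := by positivity
  have h3 : M.dir j s = M.dir j (1 / 2) * exp (((-(M.b j * (1 - 2 * s)) : ℝ) : ℂ) * I) := by
    rw [dir, dir, mul_assoc, ← exp_add, ← add_mul, ← ofReal_add, ang_nonneg j hs,
      ang_nonneg j (by norm_num)]
    congr 4
    ring
  rw [h3, hM.stop j h1 h2, mul_assoc, L_real_mul, L_u_mul hM, exp_ofReal_mul_I_im, Real.sin_neg,
    hS.fe j h1 h2]
  have h4 := Lin_sin' (k := M.k j) (x := M.e j * (M.b j * (1 - 2 * s))) (by linarith only [hk]) (by linarith only [a2, hs, a1, h0, mul_nonneg_of_nonpos_of_nonpos (Mathlib.Tactic.Linarith.sub_nonpos_of_le hs) (le_of_lt (Mathlib.Tactic.Linarith.sub_neg_of_lt a1)), mul_nonneg_of_nonpos_of_nonpos (Mathlib.Tactic.Linarith.sub_nonpos_of_le hs) (Mathlib.Tactic.Linarith.sub_nonpos_of_le h0)])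
  have h5 : Real.sin (M.e j * (M.b j * (1 - 2 * s))) = M.e j * Real.sin (M.b j * (1 - 2 * s)) := by
    rcases hM.sign j with h | h <;> simp [h]
  rw [h5] at h4
  linarith only [hM, h4, mul_nonneg (norm_lam_pos hM (j + 1)).le h4]

theorem L_ω_pos {j : ℕ} (h1 : 1 ≤ j) (h2 : j < M.l) : 0 < M.L (M.w j) (M.ω j) := by
  have h3 : 0 < M.L j (M.ω j) := by
    simpa [dir_zero] using L_dir_outer hM h1 h2 (s := 0) (by norm_num) le_rfl
  rw [L_change hM (M.w j), hS.tm_ω j h1 h2, mul_zero, sub_zero] at h3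
  exact (mul_pos_iff_of_pos_left (by exact_mod_cast hS.n1 j h1 h2)).1 h3

omit hM in
theorem tm_ω_mul {j : ℕ} (h1 : 1 ≤ j) (h2 : j < M.l) (z : ℂ) :
    M.tm (M.w j) (z * M.ω j) = z.im * M.tm (M.w j) (M.ω j * I) := by
  have h := hS.tm_ω j h1 h2
  simp only [tm, mul_re, mul_im, I_re, I_im] at h ⊢
  linear_combination z.re * h

theorem tm_ω_I_pos {j : ℕ} (h1 : 1 ≤ j) (h2 : j < M.l) : 0 < M.tm (M.w j) (M.ω j * I) := by
  have h3 := L_ω_pos hM h1 h2
  have h4 := eq_coord hM (M.w j) (M.ω j)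
  rw [hS.tm_ω j h1 h2, ofReal_zero, zero_mul, zero_add] at h4
  generalize M.w j = r at h3 h4 ⊢
  have h5 : (M.C r : ℝ) * M.p r + M.D r * M.q r = 1 := by exact_mod_cast hM.bez r
  have h6 : 0 < (M.C r : ℝ) ^ 2 + (M.D r : ℝ) ^ 2 := by
    by_contra h6
    have h7 : (M.C r : ℝ) = 0 := by nlinarith [sq_nonneg (M.C r : ℝ), sq_nonneg (M.D r : ℝ)]
    have h8 : (M.D r : ℝ) = 0 := by nlinarith [sq_nonneg (M.C r : ℝ), sq_nonneg (M.D r : ℝ)]
    simp [h7, h8] at h5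
  rw [h4, mul_assoc, tm_real_mul]
  refine mul_pos h3 ?_
  simp [tm]
  linarith only [h6]

end Lev

end AllOne
end

-- merged part: Pool.Agent.Work.MP_d5331a_gt.A1.PathDef
section
/-!
One half of a knot in level position as a path. The parameter `τ` runs through `[0, 2 l - 1]`;
the piece `2 i ≤ τ ≤ 2 i + 1` lies on level `i + 1`, the piece `2 j - 1 ≤ τ ≤ 2 j` is an edge of a
band of slab `j`.
-/

set_option autoImplicit false

open Complex Set

namespace AllOne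

open Neuwirth OneOne

/-- Clamp to the unit interval. -/
noncomputable def cl (x : ℝ) : ℝ := max 0 (min x 1)

namespace Lev

variable (M : Lev)

/-- The path that uses the edges `ed j` near the bands. -/
noncomputable def pth (ed : ℕ → ℝ → ℂ) (τ : ℝ) : ℂ :=
  M.ε * M.u 1 +
    ∑ i ∈ Finset.range M.l, (cl (τ - 2 * i) : ℂ) * (M.lam (i + 1) / 2 - 2 * M.ε * M.u (i + 1)) +
    ∑ j ∈ Finset.Ico 1 M.l, (ed j (cl (τ - (2 * j - 1)) - 1 / 2) - ed j (-(1 / 2)))

/-- The depth along the path. -/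
noncomputable def dep (τ : ℝ) : ℝ := 1 + ∑ j ∈ Finset.Ico 1 M.l, cl (τ - (2 * j - 1))

/-- The edges of the bands of the knot. -/
noncomputable def edK (j : ℕ) (s : ℝ) : ℂ :=
  ((M.e j * (M.ε / 2 + M.ε * |s|) : ℝ) : ℂ) * M.dir j s

/-- The edges are continuous and have the right end points. -/
structure Ends (ed : ℕ → ℝ → ℂ) : Prop where
  cont : ∀ j, Continuous (ed j)
  start : ∀ j, 1 ≤ j → j < M.l → ed j (-(1 / 2)) = -(M.ε * M.u j)
  stop : ∀ j, 1 ≤ j → j < M.l → ed j (1 / 2) = M.ε * M.u (j + 1)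

/-- The difference of the two strands, on the unit interval. -/
noncomputable def gam (ed : ℕ → ℝ → ℂ) (s : ℝ) : ℂ := 2 * M.pth ed (s * (2 * M.l - 1))

/-- The tent function. -/
noncomputable def tent (x : ℝ) : ℝ := max 0 (1 - 2 * |x|)

/-- A function on level `i` that increases along both halves of the knot. -/
noncomputable def tG (i : ℕ) (ζ : ℂ) : ℝ :=
  max (M.ε / ‖M.lam i‖) (min |M.tm i (ζ - M.β (i - 1)) - round (M.tm i (ζ - M.β (i - 1)))|
    (1 / 2 - M.ε / ‖M.lam i‖))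

/-- The vertical displacement that tilts the levels. -/
noncomputable def tδ (x : ℂ × ℝ) : ℝ :=
  (∑ i ∈ Finset.Icc 1 M.l, tent (x.2 - i) * M.tG i x.1) / 4

/-- The depth along the path after tilting. -/
noncomputable def dep' (τ : ℝ) : ℝ := M.dep τ + M.tδ (M.pth M.edK τ, M.dep τ)

end Lev

end AllOne
end

-- merged part: Pool.Agent.Work.MP_d5331a_gt.OO.Push
section
/-!
Pushing a core circle of the 3-sphere onto a parallel curve.

Plan for `push_bot`. Let `r₀ = sin (π s₀ / 2) < r₁ = sin (π s₁ / 2) < 1`,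
`X = ℝ × closedBall (0 : ℂ) 1`, `q (y, w) = (√(1 - ‖w‖ ^ 2) * exp (2 π i y), w)`; this is a quotient
map (`quot_of_compact`, `y ∈ [-1, 1]`), and `q (im ζ, sin (π s / 2) * exp (2 π i re ζ)) = pt ζ s`.
Put `m y w = w + r₀ * max 0 (1 - ‖w‖ / r₁) * exp (2 π i κ y)`: it is the identity plus an
`r₀ / r₁`-Lipschitz map, hence bijective (`exists_contr_inv`), it is the identity for `‖w‖ ≥ r₁`, so
it preserves the open and the closed unit disc and the unit circle pointwise. Apply `descend` to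
`H (y, w) = (y, m y w)` (`q (y, w) = q (y', w')` iff `w = w'` and, when `‖w‖ < 1`, `y' - y ∈ ℤ`;
`κ` is invariant under integer shifts). On the ray of angle `κ y` the map `m y` is
`r ↦ r + r₀ * max 0 (1 - r / r₁)`, so `π s = 2 / π * arcsin (r + r₀ * max 0 (1 - r / r₁))` with
`r = sin (π s / 2)`.
`push_top`: conjugate by the exchange of the two coordinates, which sends `pt ζ s` to
`pt (im ζ + re ζ * I) (1 - s)`.
-/

set_option autoImplicit false

open Complex Set Topology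

namespace OneOne

open Neuwirth

/-- The point of the unit circle of angle `y` turns. -/
noncomputable def pushE (y : ℝ) : ℂ := exp (((2 * Real.pi * y : ℝ) : ℂ) * I)

theorem pushE_norm (y : ℝ) : ‖pushE y‖ = 1 := norm_exp_ofReal_mul_I _

theorem pushE_cont : Continuous pushE := by
  unfold pushE
  fun_prop

theorem pushE_eq {y y' : ℝ} : pushE y = pushE y' ↔ ∃ k : ℤ, y' = y + k := by
  rw [eq_comm, pushE, pushE, exp_eq_exp_iff_exists_int]
  refine exists_congr fun k => ⟨fun h => ?_, fun h => ?_⟩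
  · have h1 := congrArg im h
    simp at h1
    exact mul_left_cancel₀ Real.two_pi_pos.ne' (by linarith only [h1])
  · rw [h]
    push_cast
    ring

theorem pushE_surj (z : ℂ) : ∃ y ∈ Icc (-1 : ℝ) 1, z = (‖z‖ : ℝ) * pushE y := by
  have h := Real.two_pi_pos
  refine ⟨arg z / (2 * Real.pi), ⟨?_, ?_⟩, ?_⟩
  · rw [le_div_iff₀ h]
    linarith only [h, neg_pi_lt_arg z]
  · rw [div_le_iff₀ h]
    linarith [arg_le_pi z]
  · rw [pushE, mul_div_cancel₀ _ h.ne', norm_mul_exp_arg_mul_I]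

/-- Coordinates on the 3-sphere by an angle and a point of the disc. -/
noncomputable def pushQ (x : {x : ℝ × ℂ // ‖x.2‖ ≤ 1}) : S3 :=
  ⟨((√(1 - ‖x.1.2‖ ^ 2) : ℝ) * pushE x.1.1, x.1.2), by
    have h := x.2
    have h' := norm_nonneg x.1.2
    simp only [norm_mul, pushE_norm, mul_one, norm_real, Real.norm_eq_abs, sq_abs]
    rw [Real.sq_sqrt (by nlinarith)]
    ring⟩

theorem pushQ_quot : IsQuotientMap pushQ := by
  have hc : Continuous pushQ := by
    refine Continuous.subtype_mk ?_ _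
    have := pushE_cont
    fun_prop
  refine quot_of_compact hc (A := Subtype.val ⁻¹' (Icc (-1 : ℝ) 1 ×ˢ Metric.closedBall 0 1))
    ((IsClosed.isClosedEmbedding_subtypeVal (isClosed_le continuous_snd.norm continuous_const)
      ).isCompact_preimage (isCompact_Icc.prod (isCompact_closedBall _ _))) fun p => ?_
  obtain ⟨y, hy, h⟩ := pushE_surj p.1.1
  have h1 := p.2
  have h2 : ‖p.1.2‖ ≤ 1 := by nlinarith only [h1, norm_nonneg p.1.2, sq_nonneg ‖p.1.1‖]
  refine ⟨⟨(y, p.1.2), h2⟩, ⟨hy, mem_closedBall_zero_iff.2 h2⟩, Subtype.ext (Prod.ext ?_ rfl)⟩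
  change ((√(1 - ‖p.1.2‖ ^ 2) : ℝ) : ℂ) * pushE y = _
  rw [show 1 - ‖p.1.2‖ ^ 2 = ‖p.1.1‖ ^ 2 by linarith, Real.sqrt_sq (norm_nonneg _), ← h]

theorem pushQ_eq {x x' : {x : ℝ × ℂ // ‖x.2‖ ≤ 1}} : pushQ x = pushQ x' ↔
    x.1.2 = x'.1.2 ∧ (‖x.1.2‖ < 1 → ∃ k : ℤ, x'.1.1 = x.1.1 + k) := by
  rw [Subtype.ext_iff, Prod.ext_iff, and_comm]
  refine and_congr_right fun h => ?_
  have h' : x.1.2 = x'.1.2 := h
  change ((√(1 - ‖x.1.2‖ ^ 2) : ℝ) : ℂ) * pushE x.1.1 = (√(1 - ‖x'.1.2‖ ^ 2) : ℝ) * pushE x'.1.1 ↔ _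
  rw [← h', ← pushE_eq]
  rcases x.2.lt_or_eq with k | k
  · have : ((√(1 - ‖x.1.2‖ ^ 2) : ℝ) : ℂ) ≠ 0 :=
      ofReal_ne_zero.2 (Real.sqrt_pos.2 (by nlinarith only [k, norm_nonneg x.1.2])).ne'
    simp only [mul_right_inj' this, k, true_imp_iff]
  · simp [k]

theorem pushQ_pt {ζ : ℂ} {s : ℝ} (hs : s ∈ Icc (0 : ℝ) 1) {x : {x : ℝ × ℂ // ‖x.2‖ ≤ 1}}
    (h1 : x.1.1 = ζ.im) (h2 : x.1.2 = (Real.sin (Real.pi * s / 2) : ℝ) * pushE ζ.re) :
    pushQ x = pt ζ s := by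
  refine Subtype.ext (Prod.ext ?_ h2)
  change ((√(1 - ‖x.1.2‖ ^ 2) : ℝ) : ℂ) * pushE x.1.1 =
    (Real.cos (Real.pi * s / 2) : ℝ) * pushE ζ.im
  have := Real.pi_pos
  rw [h1, h2, norm_mul, pushE_norm, mul_one, norm_real, Real.norm_eq_abs, sq_abs,
    Real.cos_eq_sqrt_one_sub_sin_sq (by linarith only [this, hs, hs.1, mul_nonneg_of_nonpos_of_nonpos (le_of_lt (Mathlib.Tactic.Linarith.sub_neg_of_lt this)) (Mathlib.Tactic.Linarith.sub_nonpos_of_le hs.left)]) (by linarith only [this, hs, hs.2, mul_nonneg_of_nonpos_of_nonpos (le_of_lt (Mathlib.Tactic.Linarith.sub_neg_of_lt this)) (Mathlib.Tactic.Linarith.sub_nonpos_of_le hs.right)])]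

/-- The length of the push. -/
noncomputable def pushG (a b r : ℝ) : ℝ := a * max 0 (1 - r / b)

theorem pushG_lip {a b : ℝ} (ha : 0 < a) (hb : 0 < b) (r t : ℝ) :
    |pushG a b r - pushG a b t| ≤ a / b * |r - t| := by
  rw [pushG, pushG, ← mul_sub, abs_mul, abs_of_pos ha, max_comm 0, max_comm 0, div_mul_eq_mul_div,
    mul_div_assoc]
  refine mul_le_mul_of_nonneg_left ((abs_max_sub_max_le_abs _ _ _).trans_eq ?_) ha.le
  rw [show 1 - r / b - (1 - t / b) = -(r - t) / b by ring, abs_div, abs_neg, abs_of_pos hb]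

theorem pushG_zero {a b r : ℝ} (hb : 0 < b) (h : b ≤ r) : pushG a b r = 0 := by
  rw [pushG, max_eq_left (sub_nonpos.2 ((one_le_div hb).2 h)), mul_zero]

theorem pushG_mono {a b : ℝ} (ha : 0 < a) (hab : a < b) : StrictMono fun r => r + pushG a b r := by
  intro r t h
  have h1 := (abs_le.1 (pushG_lip ha (ha.trans hab) r t)).2
  rw [abs_sub_comm, abs_of_pos (sub_pos.2 h)] at h1
  have h2 : a / b < 1 := (div_lt_one (ha.trans hab)).2 hab
  dsimp only
  linarith only [h1, h, h2, mul_pos_of_neg_of_neg (Mathlib.Tactic.Linarith.sub_neg_of_lt h) (Mathlib.Tactic.Linarith.sub_neg_of_lt h2)]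

theorem pushG_le {a b r : ℝ} (ha : 0 < a) (hab : a < b) (h : r ≤ b) : r + pushG a b r ≤ b := by
  simpa only [pushG_zero (ha.trans hab) le_rfl, add_zero] using (pushG_mono ha hab).monotone h

theorem pushG_nonneg {a b r : ℝ} (ha : 0 < a) : 0 ≤ pushG a b r :=
  mul_nonneg ha.le (le_max_left _ _)

/-- The push of the disc in the direction `θ`. -/
noncomputable def pushM (a b θ : ℝ) (w : ℂ) : ℂ := w + (pushG a b ‖w‖ : ℝ) * pushE θ

theorem pushM_bij {a b : ℝ} (ha : 0 < a) (hab : a < b) (θ : ℝ) :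
    Function.Bijective (pushM a b θ) := by
  refine exists_contr_inv ((div_lt_one (ha.trans hab)).2 hab) fun x y => ?_
  rw [← sub_mul, norm_mul, pushE_norm, mul_one, ← ofReal_sub, norm_real, Real.norm_eq_abs]
  exact (pushG_lip ha (ha.trans hab) _ _).trans
    (mul_le_mul_of_nonneg_left (abs_norm_sub_norm_le _ _) (div_pos ha (ha.trans hab)).le)

theorem pushM_alt {a b : ℝ} (ha : 0 < a) (hab : a < b) (w : ℂ) :
    (‖w‖ ≤ b ∧ ∀ θ, ‖pushM a b θ w‖ ≤ b) ∨ ∀ θ, pushM a b θ w = w := by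
  refine (le_total ‖w‖ b).imp (fun h => ⟨h, fun θ => (norm_add_le _ _).trans ?_⟩) fun h θ => ?_
  · rw [norm_mul, pushE_norm, mul_one, norm_real, Real.norm_of_nonneg (pushG_nonneg ha)]
    exact pushG_le ha hab h
  · rw [pushM, pushG_zero (ha.trans hab) h, ofReal_zero, zero_mul, add_zero]

theorem push_disc {a b : ℝ} (ha : 0 < a) (hab : a < b) (hb : b < 1) (κ : ℝ → ℝ)
    (hκ : Continuous κ) (hper : ∀ y, ∀ k : ℤ, κ (y + k) = κ y) :
    ∃ h : S3 ≃ₜ S3, ∀ x x' : {x : ℝ × ℂ // ‖x.2‖ ≤ 1}, x'.1.1 = x.1.1 →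
      x'.1.2 = pushM a b (κ x.1.1) x.1.2 → h (pushQ x) = pushQ x' := by
  have h1 : ∀ θ w, ‖pushM a b θ w‖ ≤ 1 ↔ ‖w‖ ≤ 1 := fun θ w => by
    rcases pushM_alt ha hab w with k | k
    · exact iff_of_true ((k.2 θ).trans hb.le) (k.1.trans hb.le)
    · rw [k]
  have h2 : ∀ θ w, ‖pushM a b θ w‖ < 1 ↔ ‖w‖ < 1 := fun θ w => by
    rcases pushM_alt ha hab w with k | k
    · exact iff_of_true ((k.2 θ).trans_lt hb) (k.1.trans_lt hb)
    · rw [k]
  have h3 : ∀ θ w, ¬ ‖w‖ < 1 → pushM a b θ w = w := fun θ w hw =>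
    (pushM_alt ha hab w).resolve_left (fun k => hw (k.1.trans_lt hb)) θ
  obtain ⟨h, hh⟩ := descend pushQ_quot
    (H := fun x => ⟨(x.1.1, pushM a b (κ x.1.1) x.1.2), (h1 _ _).2 x.2⟩) (by
      refine Continuous.subtype_mk ?_ _
      have := pushE_cont
      unfold pushM pushG
      fun_prop) (fun x y => by
      simp only [pushQ_eq, h2]
      by_cases hx : ‖x.1.2‖ < 1
      · simp only [hx, true_imp_iff]
        refine and_congr_left ?_
        rintro ⟨k, hk⟩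
        rw [hk, hper, (pushM_bij ha hab _).1.eq_iff]
      · simp only [hx, false_imp_iff, and_true, h3 _ _ hx]
        refine ⟨fun e => ?_, fun e => ?_⟩
        · rw [e, h2] at hx
          rw [e, h3 _ _ hx]
        · rw [← e, h3 _ _ hx]) fun y => by
      obtain ⟨w, hw⟩ := (pushM_bij ha hab (κ y.1.1)).2 y.1.2
      exact ⟨⟨(y.1.1, w), (h1 _ _).1 (hw ▸ y.2)⟩, congrArg pushQ (Subtype.ext (Prod.ext rfl hw))⟩
  exact ⟨h, fun x x' e e' => (hh x).trans (congrArg pushQ (Subtype.ext (Prod.ext e.symm e'.symm)))⟩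

theorem push_sin : StrictMonoOn (fun s => Real.sin (Real.pi * s / 2)) (Icc 0 1) := by
  intro s hs t ht h
  have := Real.pi_pos
  exact Real.strictMonoOn_sin ⟨by linarith only [this, hs, hs.1, mul_nonneg_of_nonpos_of_nonpos (le_of_lt (Mathlib.Tactic.Linarith.sub_neg_of_lt this)) (Mathlib.Tactic.Linarith.sub_nonpos_of_le hs.left)], by nlinarith [hs.2]⟩
    ⟨by nlinarith [ht.1], by nlinarith [ht.2]⟩ (by nlinarith)

theorem push_sin_nonneg {s : ℝ} (hs : s ∈ Icc (0 : ℝ) 1) : 0 ≤ Real.sin (Real.pi * s / 2) := by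
  have := Real.pi_pos
  exact Real.sin_nonneg_of_nonneg_of_le_pi (by linarith only [this, hs, hs.1, mul_nonneg_of_nonpos_of_nonpos (le_of_lt (Mathlib.Tactic.Linarith.sub_neg_of_lt this)) (Mathlib.Tactic.Linarith.sub_nonpos_of_le hs.left)]) (by nlinarith [hs.2])

theorem push_arcsin {s : ℝ} (hs : s ∈ Icc (0 : ℝ) 1) :
    2 / Real.pi * Real.arcsin (Real.sin (Real.pi * s / 2)) = s := by
  have := Real.pi_pos
  rw [Real.arcsin_sin (by linarith only [this, hs, hs.1, mul_nonneg_of_nonpos_of_nonpos (le_of_lt (Mathlib.Tactic.Linarith.sub_neg_of_lt this)) (Mathlib.Tactic.Linarith.sub_nonpos_of_le hs.left)]) (by nlinarith [hs.2])]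
  field_simp

theorem push_inv {r : ℝ} (h0 : 0 ≤ r) (h1 : r ≤ 1) : 2 / Real.pi * Real.arcsin r ∈ Icc (0 : ℝ) 1 ∧
    Real.sin (Real.pi * (2 / Real.pi * Real.arcsin r) / 2) = r := by
  have := Real.pi_pos
  refine ⟨⟨mul_nonneg (by positivity) (Real.arcsin_nonneg.2 h0), ?_⟩, ?_⟩
  · rw [div_mul_eq_mul_div, div_le_one this]
    linarith only [Real.arcsin_le_pi_div_two r]
  · rw [show Real.pi * (2 / Real.pi * Real.arcsin r) / 2 = Real.arcsin r by field_simp,
      Real.sin_arcsin (by linarith) h1]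

/-- The exchange of the two coordinates. -/
def pushSw : S3 ≃ₜ S3 where
  toFun p := ⟨p.1.swap, (add_comm _ _).trans p.2⟩
  invFun p := ⟨p.1.swap, (add_comm _ _).trans p.2⟩
  left_inv _ := rfl
  right_inv _ := rfl
  continuous_toFun := Continuous.subtype_mk (by fun_prop) _
  continuous_invFun := Continuous.subtype_mk (by fun_prop) _

theorem pushSw_pt (ζ : ℂ) (s : ℝ) : pushSw (pt ζ s) = pt (ζ.im + ζ.re * I) (1 - s) := by
  have e : Real.pi * (1 - s) / 2 = Real.pi / 2 - Real.pi * s / 2 := by ring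
  have e1 : ((ζ.im : ℂ) + ζ.re * I).re = ζ.im := by simp
  have e2 : ((ζ.im : ℂ) + ζ.re * I).im = ζ.re := by simp
  refine Subtype.ext ?_
  simp only [pt, e, e1, e2, Real.cos_pi_div_two_sub, Real.sin_pi_div_two_sub]
  rfl

theorem push_bot {s₀ s₁ : ℝ} (h0 : 0 < s₀) (h01 : s₀ < s₁) (h1 : s₁ < 1) (κ : ℝ → ℝ)
    (hκ : Continuous κ) (hper : ∀ y, ∀ k : ℤ, κ (y + k) = κ y) :
    ∃ (h : S3 ≃ₜ S3) (f : ℝ → ℝ), Continuous f ∧ StrictMonoOn f (Icc 0 1) ∧ f 0 = s₀ ∧
      (∀ s ∈ Icc s₁ 1, f s = s) ∧ ∀ ζ : ℂ, ∀ s ∈ Icc (0 : ℝ) 1,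
        ((∃ k : ℤ, ζ.re = κ ζ.im + k) ∨ s₁ ≤ s) → h (pt ζ s) = pt ζ (f s) := by
  have m0 : s₀ ∈ Icc (0 : ℝ) 1 := ⟨h0.le, (h01.trans h1).le⟩
  have m1 : s₁ ∈ Icc (0 : ℝ) 1 := ⟨(h0.trans h01).le, h1.le⟩
  have ha : 0 < Real.sin (Real.pi * s₀ / 2) := by
    simpa using push_sin (left_mem_Icc.2 zero_le_one) m0 h0
  have hab : Real.sin (Real.pi * s₀ / 2) < Real.sin (Real.pi * s₁ / 2) := push_sin m0 m1 h01
  have hb : Real.sin (Real.pi * s₁ / 2) < 1 := by
    simpa using push_sin m1 (right_mem_Icc.2 zero_le_one) h1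
  have e0 := push_arcsin m0
  have hz : ∀ s ∈ Icc s₁ 1, ∀ a, pushG a (Real.sin (Real.pi * s₁ / 2))
      (Real.sin (Real.pi * s / 2)) = 0 := fun s hs a =>
    pushG_zero (ha.trans hab) (push_sin.monotoneOn m1 ⟨m1.1.trans hs.1, hs.2⟩ hs.1)
  generalize Real.sin (Real.pi * s₀ / 2) = a at *
  generalize Real.sin (Real.pi * s₁ / 2) = b at *
  obtain ⟨h, hh⟩ := push_disc ha hab hb κ hκ hper
  have hg : ∀ s ∈ Icc (0 : ℝ) 1,
      0 ≤ Real.sin (Real.pi * s / 2) + pushG a b (Real.sin (Real.pi * s / 2)) ∧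
      Real.sin (Real.pi * s / 2) + pushG a b (Real.sin (Real.pi * s / 2)) ≤ 1 := fun s hs =>
    ⟨add_nonneg (push_sin_nonneg hs) (pushG_nonneg ha), by
      simpa only [pushG_zero (ha.trans hab) hb.le, add_zero] using
        (pushG_mono ha hab).monotone (Real.sin_le_one (Real.pi * s / 2))⟩
  refine ⟨h, fun s => 2 / Real.pi * Real.arcsin
    (Real.sin (Real.pi * s / 2) + pushG a b (Real.sin (Real.pi * s / 2))), ?_,
    fun s hs t ht hst => ?_, ?_, fun s hs => ?_, fun ζ s hs hc => ?_⟩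
  · refine continuous_const.mul (Real.continuous_arcsin.comp ?_)
    unfold pushG
    fun_prop
  · exact mul_lt_mul_of_pos_left (Real.strictMonoOn_arcsin ⟨by linarith only [h0, h01, h1, hg, hs, (hg s hs).1], (hg s hs).2⟩
      ⟨by linarith only [h0, h01, h1, hg, ht, (hg t ht).1], (hg t ht).2⟩ (pushG_mono ha hab (push_sin hs ht hst)))
      (div_pos two_pos Real.pi_pos)
  · simpa [pushG] using e0
  · simp only [hz s hs, add_zero]
    exact push_arcsin ⟨m1.1.trans hs.1, hs.2⟩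
  have n : ∀ r : ℝ, 0 ≤ r → ‖(r : ℂ) * pushE ζ.re‖ = r := fun r hr => by
    rw [norm_mul, pushE_norm, mul_one, norm_real, Real.norm_of_nonneg hr]
  obtain ⟨k1, k2⟩ := push_inv (hg s hs).1 (hg s hs).2
  rw [← pushQ_pt hs (x := ⟨(ζ.im, _), (n _ (push_sin_nonneg hs)).trans_le (Real.sin_le_one _)⟩)
    rfl rfl, ← pushQ_pt k1 (x := ⟨(ζ.im, _), (n _ (push_sin_nonneg k1)).trans_le
      (Real.sin_le_one _)⟩) rfl rfl]
  refine hh _ _ rfl ?_
  dsimp only
  rw [k2, pushM, n _ (push_sin_nonneg hs), ofReal_add, add_mul]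
  rcases hc with hc | hc
  · rw [pushE_eq.2 hc]
  · rw [hz s ⟨hc, hs.2⟩, ofReal_zero, zero_mul, zero_mul]

theorem push_top {s₀ s₁ : ℝ} (h0 : s₀ < 1) (h01 : s₁ < s₀) (h1 : 0 < s₁) (κ : ℝ → ℝ)
    (hκ : Continuous κ) (hper : ∀ y, ∀ k : ℤ, κ (y + k) = κ y) :
    ∃ (h : S3 ≃ₜ S3) (f : ℝ → ℝ), Continuous f ∧ StrictMonoOn f (Icc 0 1) ∧ f 1 = s₀ ∧
      (∀ s ∈ Icc 0 s₁, f s = s) ∧ ∀ ζ : ℂ, ∀ s ∈ Icc (0 : ℝ) 1,
        ((∃ k : ℤ, ζ.im = κ ζ.re + k) ∨ s ≤ s₁) → h (pt ζ s) = pt ζ (f s) := by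
  obtain ⟨h, f, h2, h3, h4, h5, h6⟩ := push_bot (s₀ := 1 - s₀) (s₁ := 1 - s₁) (by linarith)
    (by linarith) (by linarith) κ hκ hper
  refine ⟨pushSw.trans (h.trans pushSw), fun s => 1 - f (1 - s), by fun_prop,
    fun s hs t ht hst => ?_, ?_, fun s hs => ?_, fun ζ s hs hc => ?_⟩
  · exact sub_lt_sub_left (h3 ⟨by linarith [ht.2], by linarith [ht.1]⟩
      ⟨by linarith [hs.2], by linarith [hs.1]⟩ (by linarith)) 1
  · simp only [sub_self, h4, sub_sub_cancel]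
  · simp only [h5 (1 - s) ⟨by linarith [hs.2], by linarith [hs.1]⟩, sub_sub_cancel]
  · rw [Homeomorph.trans_apply, Homeomorph.trans_apply, pushSw_pt,
      h6 _ _ ⟨by linarith [hs.2], by linarith [hs.1]⟩
        (hc.imp (fun k => by simpa using k) fun k => by linarith), pushSw_pt]
    simp

end OneOne
end

-- merged part: Pool.Agent.Work.MP_d5331a_gt.OO.Braid
section
/-!
From the symmetric form to the form of the statement.

Plan. `transl` with `c s = z (max s₀ (min s s₁))` sends `symKnot z s₀ s₁ v` to the union `K₁` of the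
strands over `2 * z s` and `0` (`s₀ ≤ s ≤ s₁`) and the arcs `τ * z s₀` at latitude `s₀` and
`2 * v - τ * (v - z s₁)` at latitude `s₁`, `0 ≤ τ ≤ 2`. Let `η' = min η ((s₁ - s₀) / 3)` and
`κ₀ y = arcsin (sin (2 π y)) / (2 π)` (continuous, 1-periodic, `κ₀ y = y` for `|y| ≤ 1 / 4`).
Take `push_bot` for `s₀ < s₀ + η'` with `κ y = re (z s₀) / im (z s₀) * κ₀ y`, giving `h₁, f₁`, and
`push_top` for `s₁ - η' < s₁` with `κ' x = im d / re d * κ₀ x`, `d = v - z s₁`, giving `h₂, f₂`.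
Then `f = f₁ ∘ f₂` is continuous and strictly increasing from `[0, 1]` onto `[s₀, s₁]`; it maps
`[0, s₀ + η']` into `[s₀, s₀ + η']` (there `f₂ s = s`), `[s₁ - η', 1]` into `[s₁ - η', s₁]` (there
`f₁ (f₂ s) = f₂ s`) and is the identity in between. With `γ' s = 2 * z (f s)` the map `h₁ ∘ h₂` sends
`pt (γ' s) s` to `pt (γ' s) (f s)` and `pt 0 s` to `pt 0 (f s)`; it sends
`pt (y * I) 0 = pt (κ y + y * I) 0` (`pt_eq_iff`) to `pt ((y / im (z s₀)) * z s₀) s₀`, and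
`pt x 1 = pt (x + (b + κ' x) * I) 1` to the corresponding point of the upper arc. So it maps
`knot γ'` onto `K₁`. Finally `γ' = γ ∘ σ` with `σ s = (f s - s₀) / (s₁ - s₀)`, and `move_reparam`.
-/

set_option autoImplicit false

open Complex Set Topology

namespace OneOne

open Neuwirth

theorem Braid_tri : ∃ κ : ℝ → ℝ, Continuous κ ∧ (∀ y, ∀ k : ℤ, κ (y + k) = κ y) ∧
    ∀ y, -(1 / 4) ≤ y → y ≤ 1 / 4 → κ y = y := by
  refine ⟨fun y => Real.arcsin (Real.sin (2 * Real.pi * y)) / (2 * Real.pi), by fun_prop,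
    fun y k => ?_, fun y h1 h2 => ?_⟩
  · simp only
    rw [mul_add, mul_comm (2 * Real.pi) (k : ℝ), Real.sin_add_int_mul_two_pi]
  · have := Real.pi_pos
    simp only
    rw [Real.arcsin_sin (by linarith only [h1, this, mul_nonneg_of_nonpos_of_nonpos (Mathlib.Tactic.Linarith.sub_nonpos_of_le h1) (le_of_lt (Mathlib.Tactic.Linarith.sub_neg_of_lt this))]) (by linarith only [h2, this, mul_nonneg_of_nonpos_of_nonpos (Mathlib.Tactic.Linarith.sub_nonpos_of_le h2) (le_of_lt (Mathlib.Tactic.Linarith.sub_neg_of_lt this))])]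
    field_simp

theorem Braid_im {f : ℝ → ℝ} (hf : Continuous f) {p q p' q' : ℝ} (h : p ≤ q)
    (hm : ∀ s ∈ Icc p q, f s ∈ Icc p' q') (he : (f p = p' ∧ f q = q') ∨ (f q = p' ∧ f p = q')) :
    f '' Icc p q = Icc p' q' := by
  refine Subset.antisymm (image_subset_iff.2 hm) ?_
  rcases he with ⟨rfl, rfl⟩ | ⟨rfl, rfl⟩
  exacts [intermediate_value_Icc h hf.continuousOn, intermediate_value_Icc' h hf.continuousOn]

/-- both core circles are pushed -/
theorem Braid_push {s₀ a b s₁ : ℝ} (h0 : 0 < s₀) (h1 : s₀ < a) (h2 : a ≤ b) (h3 : b < s₁)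
    (h4 : s₁ < 1) (κ κ' : ℝ → ℝ) (hκ : Continuous κ) (hper : ∀ y, ∀ k : ℤ, κ (y + k) = κ y)
    (hκ' : Continuous κ') (hper' : ∀ y, ∀ k : ℤ, κ' (y + k) = κ' y) :
    ∃ (h : S3 ≃ₜ S3) (f : ℝ → ℝ), Continuous f ∧ f 0 = s₀ ∧ f 1 = s₁ ∧
      (∀ s ∈ Icc (0 : ℝ) 1, f s ∈ Icc s₀ s₁ ∧ (s ≤ a → f s ≤ a) ∧ (b ≤ s → b ≤ f s)) ∧
      ∀ ζ : ℂ, ∀ s ∈ Icc (0 : ℝ) 1, (s ≤ a → ∃ k : ℤ, ζ.re = κ ζ.im + k) →
        (b ≤ s → ∃ k : ℤ, ζ.im = κ' ζ.re + k) → h (pt ζ s) = pt ζ (f s) := by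
  obtain ⟨h₁, f₁, c1, m1, e1, i1, p1⟩ := push_bot h0 h1 (by linarith) κ hκ hper
  obtain ⟨h₂, f₂, c2, m2, e2, i2, p2⟩ := push_top h4 h3 (by linarith) κ' hκ' hper'
  have ha : a ∈ Icc (0 : ℝ) 1 := ⟨by linarith, by linarith⟩
  have hb : b ∈ Icc (0 : ℝ) 1 := ⟨by linarith, by linarith⟩
  have k1 : ∀ s ∈ Icc (0 : ℝ) 1, s ≤ a → f₁ s ∈ Icc s₀ a := fun s hs h =>
    ⟨e1 ▸ m1.monotoneOn (left_mem_Icc.2 zero_le_one) hs hs.1,
      (m1.monotoneOn hs ha h).trans (i1 a ⟨le_rfl, ha.2⟩).le⟩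
  have k2 : ∀ s ∈ Icc (0 : ℝ) 1, b ≤ s → f₂ s ∈ Icc b s₁ := fun s hs h =>
    ⟨(i2 b ⟨hb.1, le_rfl⟩).ge.trans (m2.monotoneOn hb hs h),
      e2 ▸ m2.monotoneOn hs (right_mem_Icc.2 zero_le_one) hs.2⟩
  refine ⟨h₂.trans h₁, fun s => f₁ (f₂ s), c1.comp c2, ?_, ?_, fun s hs => ?_,
    fun ζ s hs q1 q2 => ?_⟩
  · simp only [i2 0 ⟨le_rfl, hb.1⟩, e1]
  · simp only [e2, i1 s₁ ⟨by linarith, h4.le⟩]
  · rcases le_total s b with h | h
    · simp only [i2 s ⟨hs.1, h⟩]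
      rcases le_total s a with h' | h'
      · have := k1 s hs h'
        refine ⟨⟨this.1, by linarith [this.2]⟩, fun _ => this.2, fun k => ?_⟩
        rw [i1 s ⟨h2.trans k, hs.2⟩]
        exact k
      · rw [i1 s ⟨h', hs.2⟩]
        exact ⟨⟨by linarith, by linarith⟩, id, id⟩
    · have := k2 s hs h
      simp only [i1 (f₂ s) ⟨h2.trans this.1, this.2.trans h4.le⟩]
      refine ⟨⟨by linarith [this.1], this.2⟩, fun k => ?_, fun _ => this.1⟩
      rw [i2 s ⟨hs.1, k.trans h2⟩]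
      exact k
  · rw [Homeomorph.trans_apply, p2 ζ s hs ((le_total b s).imp_left q2)]
    rcases le_total s b with h | h
    · simp only [i2 s ⟨hs.1, h⟩]
      exact p1 ζ s hs ((le_total s a).imp_left q1)
    · have := k2 s hs h
      exact p1 ζ _ ⟨by linarith [this.1], this.2.trans h4.le⟩ (Or.inr (h2.trans this.1))

theorem braid {z : ℝ → ℂ} (hz : Continuous z) {s₀ s₁ η : ℝ} (h0 : 0 < s₀) (h01 : s₀ < s₁)
    (h1 : s₁ < 1) (hη : 0 < η) {v : ℂ} {w b : ℤ} (hv : 2 * v = w + b * I)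
    (hbot : ∀ s ∈ Icc s₀ (s₀ + η), s ≤ s₁ →
      (∃ t : ℝ, z s = t * z s₀) ∧ 0 < (z s).im ∧ (z s).im ≤ 1 / 8)
    (htop : ∀ s ∈ Icc (s₁ - η) s₁, s₀ ≤ s →
      (∃ t : ℝ, v - z s = t * (v - z s₁)) ∧ 0 < (v - z s).re ∧ (v - z s).re ≤ 1 / 8)
    (hA : Adm w fun s => 2 * z (s₀ + s * (s₁ - s₀))) :
    Eqv (symKnot z s₀ s₁ v) (knot fun s => 2 * z (s₀ + s * (s₁ - s₀))) := by
  obtain ⟨κ, c0, p0, i0⟩ := Braid_tri
  obtain ⟨ε, e1, e2, e3⟩ : ∃ ε, 0 < ε ∧ ε ≤ η ∧ ε ≤ (s₁ - s₀) / 3 :=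
    ⟨_, lt_min hη (by linarith only [h01]), min_le_left _ _, min_le_right _ _⟩
  obtain ⟨d, hd⟩ : ∃ d, d = v - z s₁ := ⟨_, rfl⟩
  obtain ⟨-, u1, u2⟩ := hbot s₀ ⟨le_rfl, by linarith⟩ h01.le
  obtain ⟨-, d1, d2⟩ := htop s₁ ⟨by linarith only [hη], le_rfl⟩ h01.le
  rw [← hd] at htop d1 d2
  obtain ⟨h, f, cf, f0, f1, fm, hh⟩ := Braid_push (a := s₀ + ε) (b := s₁ - ε) h0 (by linarith only [e1])
    (by linarith only [e1, e3]) (by linarith only [e1]) h1 (fun y => (z s₀).re / (z s₀).im * κ y)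
    (fun x => d.im / d.re * κ x) (by fun_prop) (fun y k => by simp only [p0]) (by fun_prop)
    (fun y k => by simp only [p0])
  have kb : ∀ τ : ℝ, 0 ≤ τ * (z s₀).im → τ * (z s₀).im ≤ 1 / 4 → ∃ k : ℤ,
      (τ * z s₀).re = (z s₀).re / (z s₀).im * κ (τ * z s₀).im + k := fun τ a1 a2 => ⟨0, by
    rw [re_ofReal_mul, im_ofReal_mul, i0 _ (by linarith only [u1, u2, a1]) a2]
    field_simp
    simp⟩
  have hre : ∀ τ : ℝ, (2 * v - τ * d).re = -(τ * d.re) + w := fun τ => by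
    rw [hv]; simp; ring
  have kt : ∀ τ : ℝ, 0 ≤ τ * d.re → τ * d.re ≤ 1 / 4 → ∃ k : ℤ,
      (2 * v - τ * d).im = d.im / d.re * κ (2 * v - τ * d).re + k := fun τ a1 a2 => ⟨b, by
    rw [hre, p0, i0 _ (by linarith only [a2]) (by linarith only [u1, u2, a1]), hv]
    field_simp
    simp
    ring⟩
  have hf : f '' Icc 0 1 = Icc s₀ s₁ :=
    Braid_im cf zero_le_one (fun s hs => (fm s hs).1) (Or.inl ⟨f0, f1⟩)
  have hI : ∀ s ∈ Icc s₀ s₁, s ∈ Icc (0 : ℝ) 1 := fun s hs =>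
    ⟨h0.le.trans hs.1, hs.2.trans h1.le⟩
  obtain ⟨g, hg⟩ := transl z hz
  have a1 : h '' (pt 0 '' Icc 0 1) = g '' ((fun s => pt (-z s) s) '' Icc s₀ s₁) := by
    rw [← hf, image_image, image_image, image_image]
    refine image_congr fun s hs => ?_
    have := i0 0 (by norm_num) (by norm_num)
    rw [hg _ _ (hI _ (fm s hs).1), neg_add_cancel,
      hh 0 s hs (fun _ => ⟨0, by simp [this]⟩) fun _ => ⟨0, by simp [this]⟩]
  have a2 : h '' ((fun s => pt (2 * z (f s)) s) '' Icc 0 1) =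
      g '' ((fun s => pt (z s) s) '' Icc s₀ s₁) := by
    rw [← hf, image_image, image_image, image_image]
    refine image_congr fun s hs => ?_
    obtain ⟨m1, m2, m3⟩ := fm s hs
    rw [hg _ _ (hI _ m1), ← two_mul]
    refine hh _ s hs (fun k => ?_) fun k => ?_
    · obtain ⟨⟨t, t1⟩, t2, t3⟩ := hbot (f s) ⟨m1.1, by linarith only [e2, m2, k, m2 k]⟩ m1.2
      rw [t1, im_ofReal_mul] at t2 t3
      have := kb (2 * t) (by linarith only [t2]) (by linarith only [t3])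
      rwa [ofReal_mul, ofReal_ofNat, mul_assoc, ← t1] at this
    · obtain ⟨⟨t, t1⟩, t2, t3⟩ := htop (f s) ⟨by linarith only [e2, m3, k, m3 k], m1.2⟩ m1.1
      rw [t1, re_ofReal_mul] at t2 t3
      have := kt (2 * t) (by linarith only [t2]) (by linarith only [t3])
      rwa [ofReal_mul, ofReal_ofNat, mul_assoc, ← t1, ← mul_sub, sub_sub_cancel] at this
  have a3 : h '' ((fun y : ℝ => pt (y * I) 0) '' Icc 0 (2 * z (f 0)).im) =
      g '' ((fun t : ℝ => pt (t * z s₀) s₀) '' Icc (-1) 1) := by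
    have b1 : (2 * z (f 0)).im = 2 * (z s₀).im := by simp [f0]
    rw [b1, ← Braid_im (f := fun t => (t + 1) * (z s₀).im) (p := -1) (q := 1) (by fun_prop)
      (by norm_num) (fun t ht => ⟨by linarith only [mul_le_mul_of_nonneg_right ht.1 u1.le],
        by linarith only [mul_le_mul_of_nonneg_right ht.2 u1.le]⟩)
      (Or.inl ⟨by ring, by ring⟩), image_image, image_image, image_image]
    refine image_congr fun t ht => ?_
    have z0 : (0 : ℝ) ∈ Icc (0 : ℝ) 1 := left_mem_Icc.2 zero_le_one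
    rw [hg _ _ (hI _ (left_mem_Icc.2 h01.le)),
      (pt_eq_iff (ζ' := ((t + 1 : ℝ) : ℂ) * z s₀) z0 z0).2
        ⟨rfl, fun _ => ⟨0, by simp⟩, fun k => absurd k (lt_irrefl _)⟩,
      hh _ 0 z0 (fun _ => kb _ (by linarith only [mul_le_mul_of_nonneg_right ht.1 u1.le])
        (by linarith only [mul_le_mul_of_nonneg_right ht.2 u1.le, u2]))
        fun k => absurd k (by linarith only [h0, e1, e3, k]), f0, ofReal_add, ofReal_one, add_mul, one_mul]
  have a4 : h '' ((fun x : ℝ => pt x 1) '' Icc (2 * z (f 1)).re ⌈(2 * z (f 1)).re⌉) =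
      g '' ((fun t : ℝ => pt (v + t * (z s₁ - v)) s₁) '' Icc (-1) 1) := by
    have b1 : (2 * z (f 1)).re = -(2 * d.re) + w := by
      rw [← hre 2, f1, hd, ofReal_ofNat, ← mul_sub, sub_sub_cancel]
    have b2 : ⌈-(2 * d.re) + w⌉ = w := Int.ceil_eq_iff.2 ⟨by linarith only [u1, u2, d2], by linarith only [d1]⟩
    rw [b1, b2, ← Braid_im (f := fun t => -((t + 1) * d.re) + w) (p := -1) (q := 1) (by fun_prop)
      (by norm_num) (fun t ht => ⟨by linarith only [mul_le_mul_of_nonneg_right ht.2 d1.le],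
        by linarith only [mul_le_mul_of_nonneg_right ht.1 d1.le]⟩)
      (Or.inr ⟨by ring, by ring⟩), image_image, image_image, image_image]
    refine image_congr fun t ht => ?_
    have z1 : (1 : ℝ) ∈ Icc (0 : ℝ) 1 := right_mem_Icc.2 zero_le_one
    rw [hg _ _ (hI _ (right_mem_Icc.2 h01.le)),
      (pt_eq_iff (ζ' := 2 * v - ((t + 1 : ℝ) : ℂ) * d) z1 z1).2
        ⟨rfl, fun k => absurd k (lt_irrefl _), fun _ => ⟨0, by
          rw [hre, ofReal_re, Int.cast_zero, add_zero]⟩⟩,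
      hh _ 1 z1 (fun k => absurd k (by linarith only [h1, e1, e3, k]))
        fun _ => kt _ (by linarith only [mul_le_mul_of_nonneg_right ht.1 d1.le])
          (by linarith only [mul_le_mul_of_nonneg_right ht.2 d1.le, d2]), f1, hd]
    congr 1
    push_cast
    ring
  have a5 : h '' knot (fun s => 2 * z (f s)) = g '' symKnot z s₀ s₁ v := by
    simp only [knot, symKnot, image_union]
    rw [a1, a2, a3, a4, union_comm (g '' ((fun s => pt (-z s) s) '' Icc s₀ s₁))]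
  have hp := sub_pos.2 h01
  have a6 := (move_reparam hA (σ := fun s => (f s - s₀) / (s₁ - s₀)) (by fun_prop)
    (by simp [f0]) (by simp only [f1, div_self hp.ne']) fun s hs =>
      ⟨div_nonneg (sub_nonneg.2 (fm s hs).1.1) hp.le,
        (div_le_one hp).2 (sub_le_sub_right (fm s hs).1.2 _)⟩).2
  simp only [div_mul_cancel₀ _ hp.ne', add_sub_cancel] at a6
  exact (Eqv.trans ⟨g, rfl⟩ (Eqv.symm ⟨h, a5⟩)).trans a6.symm

end OneOne
end
end

-- merged part: Pool.Agent.Work.MP_d5331a_gt.A1.Faith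
section
-- merged part: Pool.Agent.Work.MP_d5331a_gt.A1.Path
section
/-!
The pieces of the path, and the knot as a union of four arcs.

Plan. `pth_level`, `pth_band`: all clamps are `0` or `1` except one; induction on the index with
`β_succ` (split the sums with `Finset.sum_range_succ`, `Finset.sum_Ico_succ_top`; it may be easier to
prove first the formulas for the truncated sums `∑ i ∈ range n`, `∑ j ∈ Ico 1 n` by induction on
`n ≤ l`). `pieces`: `⌊τ⌋` is even or odd.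
`knot_eq`: a point of level `i + 1` is `β i + t * lam (i + 1) + (lattice vector)` with
`-1 / 2 ≤ t ≤ 1 / 2` (`eq_coord`, `L_lam`, `qq_self`, `β_succ`); `2 * β i` is a lattice vector
(`two_β`), so the points with `t ≤ 0` are negatives of points with `t ≥ 0` modulo the lattice.
The distance condition says `ε ≤ t * ‖lam‖` (if `1 ≤ i`) and `ε ≤ (1 / 2 - t) * ‖lam‖` (if
`i + 1 < l`). Conversely a point `β i + t * lam` with these inequalities is at distance `≥ ε` from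
all bands of the slabs `i`, `i + 1`: the difference is `t' * lam - v`; if `L v ≠ 0` use `L_small`,
otherwise `v` is an integer multiple of `lam`. On bands, `σ = e j` gives the path and `σ = -e j`
its negative (`band_neg`). Use `E_eq_pt` and `pt_add`.
`knot_torus`: for `l = 1` there are no bands.
-/

set_option autoImplicit false

open Complex Set

namespace AllOne

open Neuwirth OneOne

namespace Lev

variable {M : Lev}

theorem Path_cl_cont : Continuous cl := by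
  unfold cl
  fun_prop

theorem Path_cl_zero {x : ℝ} (h : x ≤ 0) : cl x = 0 := max_eq_left ((min_le_left _ _).trans h)

theorem Path_cl_one {x : ℝ} (h : 1 ≤ x) : cl x = 1 := by
  rw [cl, min_eq_right h, max_eq_right zero_le_one]

theorem Path_cl_mem {x : ℝ} (h0 : 0 ≤ x) (h1 : x ≤ 1) : cl x = x := by
  rw [cl, min_eq_left h1, max_eq_right h0]

theorem Path_trunc {A : Type} [AddCommMonoid A] {f g : ℕ → A} {s t : Finset ℕ} (h : s ⊆ t)
    (h1 : ∀ i ∈ s, f i = g i) (h2 : ∀ i ∈ t, i ∉ s → f i = 0) :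
    ∑ i ∈ t, f i = ∑ i ∈ s, g i := by
  rw [← Finset.sum_subset h h2]
  exact Finset.sum_congr rfl h1

theorem Path_tel (M : Lev) (n : ℕ) : M.ε * M.u 1 +
    ∑ i ∈ Finset.range n, (M.lam (i + 1) / 2 - 2 * M.ε * M.u (i + 1)) +
    ∑ j ∈ Finset.Ico 1 (n + 1), (M.ε * M.u (j + 1) + M.ε * M.u j) =
      M.β n + M.ε * M.u (n + 1) := by
  induction n with
  | zero => simp [β_zero]
  | succ n ih =>
    rw [Finset.sum_range_succ, Finset.sum_Ico_succ_top (Nat.le_add_left 1 n), β_succ]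
    linear_combination ih

theorem Path_E_add (ζ : ℂ) (ρ : ℝ) (k m : ℤ) : M.E (ζ + (k + m * I), ρ) = M.E (ζ, ρ) := by
  rw [E_eq_pt, E_eq_pt]
  exact pt_add _ _ _ _

theorem Path_neg {ζ : ℂ} {ρ : ℝ} (h : (ζ, ρ) ∈ M.knotUp) : (-ζ, ρ) ∈ M.knotUp := by
  rcases h with ⟨i, i1, i2, hρ, ⟨k, hk⟩, hd⟩ | ⟨j, β, hβ, s, σ, hs, hσ, hx⟩
  · obtain ⟨a, b, h2⟩ := two_β (M := M) i
    refine Or.inl ⟨i, i1, i2, hρ, ⟨-k - (M.q i * a - M.p i * b), ?_⟩, fun β hβ => ?_⟩
    · have h3 : -ζ - M.β i = -(ζ - M.β i) - (a + b * I) := by linear_combination -h2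
      have hk' : M.L i (ζ - M.β i) = k := hk
      show M.L i (-ζ - M.β i) = _
      rw [h3, L_sub, L_neg, L_vec, hk']
      push_cast
      ring
    · have := hd (-β) (hβ.imp band_neg band_neg)
      show M.ε ≤ ‖-ζ - β‖
      rwa [← norm_neg, show -(ζ - -β) = -ζ - β by ring] at this
  · obtain ⟨h1, h2⟩ := Prod.mk.inj hx
    refine Or.inr ⟨j, -β, band_neg hβ, s, -σ, hs, ?_, Prod.ext ?_ h2⟩
    · rcases hσ with h | h <;> rw [h] <;> norm_num
    · show -ζ = _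
      rw [h1]
      push_cast
      ring

theorem continuous_pth {ed : ℕ → ℝ → ℂ} (h : M.Ends ed) : Continuous (M.pth ed) := by
  have h1 := h.cont
  have h2 := Path_cl_cont
  unfold pth
  fun_prop

theorem continuous_dep : Continuous M.dep := by
  have h2 := Path_cl_cont
  unfold dep
  fun_prop

theorem pth_level {ed : ℕ → ℝ → ℂ} (h : M.Ends ed) {i : ℕ} (hi : i < M.l) {t : ℝ}
    (ht : t ∈ Icc (0 : ℝ) 1) : M.pth ed (2 * i + t) = M.β i + M.ε * M.u (i + 1) +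
      t * (M.lam (i + 1) / 2 - 2 * M.ε * M.u (i + 1)) := by
  obtain ⟨t0, t1⟩ := ht
  rw [pth, Path_trunc (Finset.range_subset_range.2 (Nat.succ_le_of_lt hi)) (fun _ _ => rfl)
      (fun k _ hk => ?_), Finset.sum_range_succ,
    Path_trunc (s := Finset.range i) (g := fun k => M.lam (k + 1) / 2 - 2 * M.ε * M.u (k + 1))
      subset_rfl (fun k hk => ?_) (fun k h1 h2 => absurd h1 h2),
    Path_trunc (g := fun k => M.ε * M.u (k + 1) + M.ε * M.u k)
      (Finset.Ico_subset_Ico le_rfl (Nat.succ_le_of_lt hi)) (fun k hk => ?_) (fun k hk hk' => ?_),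
    add_sub_cancel_left, Path_cl_mem t0 t1]
  · linear_combination Path_tel M i
  · obtain ⟨k1, k2⟩ := Finset.mem_Ico.1 hk
    have : (k : ℝ) ≤ i := by exact_mod_cast Nat.lt_succ_iff.1 k2
    rw [Path_cl_one (by linarith only [t0, this]), show (1 : ℝ) - 1 / 2 = 1 / 2 by norm_num,
      h.start k k1 (by omega), h.stop k k1 (by omega), sub_neg_eq_add]
  · have k1 : i + 1 ≤ k := by
      rw [Finset.mem_Ico] at hk hk'
      omega
    have : (i : ℝ) + 1 ≤ k := by exact_mod_cast k1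
    rw [Path_cl_zero (by linarith only [t1, this]), zero_sub, sub_self]
  · have : (k : ℝ) + 1 ≤ i := by exact_mod_cast Finset.mem_range.1 hk
    rw [Path_cl_one (by linarith only [t0, this]), ofReal_one, one_mul]
  · have k1 : i + 1 ≤ k := by
      rw [Finset.mem_range] at hk
      omega
    have : (i : ℝ) + 1 ≤ k := by exact_mod_cast k1
    rw [Path_cl_zero (by linarith only [t1, this]), ofReal_zero, zero_mul]

theorem dep_level {i : ℕ} (hi : i < M.l) {t : ℝ} (ht : t ∈ Icc (0 : ℝ) 1) :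
    M.dep (2 * i + t) = i + 1 := by
  obtain ⟨t0, t1⟩ := ht
  rw [dep, Path_trunc (g := fun _ => (1 : ℝ))
      (Finset.Ico_subset_Ico le_rfl (Nat.succ_le_of_lt hi)) (fun k hk => ?_) (fun k hk hk' => ?_)]
  · simp [add_comm]
  · obtain ⟨k1, k2⟩ := Finset.mem_Ico.1 hk
    have : (k : ℝ) ≤ i := by exact_mod_cast Nat.lt_succ_iff.1 k2
    exact Path_cl_one (by linarith only [t0, this])
  · have k1 : i + 1 ≤ k := by
      rw [Finset.mem_Ico] at hk hk'
      omega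
    have : (i : ℝ) + 1 ≤ k := by exact_mod_cast k1
    exact Path_cl_zero (by linarith only [t1, this])

theorem pth_band {ed : ℕ → ℝ → ℂ} (h : M.Ends ed) {j : ℕ} (h1 : 1 ≤ j) (h2 : j < M.l) {s : ℝ}
    (hs : |s| ≤ 1 / 2) : M.pth ed (2 * j - 1 / 2 + s) = M.β j + ed j s := by
  obtain ⟨s0, s1⟩ := abs_le.1 hs
  have h3 := Path_tel M j
  rw [Finset.sum_Ico_succ_top h1] at h3
  rw [pth, Path_trunc (g := fun k => M.lam (k + 1) / 2 - 2 * M.ε * M.u (k + 1))
      (Finset.range_subset_range.2 h2.le) (fun k hk => ?_) (fun k _ hk => ?_),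
    Path_trunc (Finset.Ico_subset_Ico le_rfl (Nat.succ_le_of_lt h2)) (fun _ _ => rfl)
      (fun k hk hk' => ?_), Finset.sum_Ico_succ_top h1,
    Path_trunc (s := Finset.Ico 1 j) (g := fun k => M.ε * M.u (k + 1) + M.ε * M.u k)
      subset_rfl (fun k hk => ?_) (fun k h1 h2 => absurd h1 h2),
    Path_cl_mem (by linarith only [s0]) (by linarith only [s1]), h.start j h1 h2,
    show 2 * (j : ℝ) - 1 / 2 + s - (2 * j - 1) - 1 / 2 = s by ring]
  · linear_combination h3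
  · obtain ⟨k1, k2⟩ := Finset.mem_Ico.1 hk
    have : (k : ℝ) + 1 ≤ j := by exact_mod_cast k2
    rw [Path_cl_one (by linarith only [s0, this]), show (1 : ℝ) - 1 / 2 = 1 / 2 by norm_num,
      h.start k k1 (by omega), h.stop k k1 (by omega), sub_neg_eq_add]
  · have k1 : j + 1 ≤ k := by
      rw [Finset.mem_Ico] at hk hk'
      omega
    have : (j : ℝ) + 1 ≤ k := by exact_mod_cast k1
    rw [Path_cl_zero (by linarith only [s1, this]), zero_sub, sub_self]
  · have : (k : ℝ) + 1 ≤ j := by exact_mod_cast Finset.mem_range.1 hk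
    rw [Path_cl_one (by linarith only [s0, this]), ofReal_one, one_mul]
  · have k1 : j ≤ k := by
      rw [Finset.mem_range] at hk
      omega
    have : (j : ℝ) ≤ k := by exact_mod_cast k1
    rw [Path_cl_zero (by linarith only [s1, this]), ofReal_zero, zero_mul]

theorem dep_band {j : ℕ} (h1 : 1 ≤ j) (h2 : j < M.l) {s : ℝ} (hs : |s| ≤ 1 / 2) :
    M.dep (2 * j - 1 / 2 + s) = j + 1 / 2 + s := by
  obtain ⟨s0, s1⟩ := abs_le.1 hs
  rw [dep, Path_trunc (Finset.Ico_subset_Ico le_rfl (Nat.succ_le_of_lt h2)) (fun _ _ => rfl)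
      (fun k hk hk' => ?_), Finset.sum_Ico_succ_top h1,
    Path_trunc (s := Finset.Ico 1 j) (g := fun _ => (1 : ℝ))
      subset_rfl (fun k hk => ?_) (fun k h1 h2 => absurd h1 h2),
    Path_cl_mem (by linarith only [s0]) (by linarith only [s1]), Finset.sum_const, Nat.card_Ico, nsmul_eq_mul,
    Nat.cast_sub h1]
  · push_cast
    ring
  · obtain ⟨k1, k2⟩ := Finset.mem_Ico.1 hk
    have : (k : ℝ) + 1 ≤ j := by exact_mod_cast k2
    exact Path_cl_one (by linarith only [s0, this])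
  · have k1 : j + 1 ≤ k := by
      rw [Finset.mem_Ico] at hk hk'
      omega
    have : (j : ℝ) + 1 ≤ k := by exact_mod_cast k1
    exact Path_cl_zero (by linarith only [s1, this])

theorem pieces (hl : 1 ≤ M.l) {τ : ℝ} (hτ : τ ∈ Icc (0 : ℝ) (2 * M.l - 1)) :
    (∃ i < M.l, ∃ t ∈ Icc (0 : ℝ) 1, τ = 2 * i + t) ∨
    ∃ j : ℕ, 1 ≤ j ∧ j < M.l ∧ ∃ s : ℝ, |s| ≤ 1 / 2 ∧ τ = 2 * j - 1 / 2 + s := by
  obtain ⟨τ0, τ1⟩ := hτ
  have h1 := Nat.floor_le τ0
  have h2 := Nat.lt_floor_add_one τ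
  obtain ⟨i, hi | hi⟩ := Nat.even_or_odd' ⌊τ⌋₊
  · rw [hi] at h1 h2
    push_cast at h1 h2
    have h3 : i < M.l := by exact_mod_cast (by linarith only [τ1, h1] : (i : ℝ) < M.l)
    exact Or.inl ⟨i, h3, τ - 2 * i, ⟨by linarith only [h1], by linarith only [h2]⟩, by ring⟩
  · rw [hi] at h1 h2
    push_cast at h1 h2
    have h3 : i < M.l := by exact_mod_cast (by linarith only [τ1, h1] : (i : ℝ) < M.l)
    rcases (Nat.succ_le_of_lt h3).eq_or_lt with h4 | h4
    · have h5 : (i : ℝ) + 1 = M.l := by exact_mod_cast h4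
      exact Or.inl ⟨i, h3, 1, ⟨zero_le_one, le_rfl⟩, by linarith only [h1, τ1, h5]⟩
    · refine Or.inr ⟨i + 1, Nat.le_add_left 1 i, h4, τ - 2 * i - 3 / 2,
        abs_le.2 ⟨by linarith only [h1], by linarith only [h2]⟩, ?_⟩
      push_cast
      ring

variable (hM : M.Good)
include hM

theorem Path_far {i : ℕ} (hi : i ≤ M.l) {x : ℝ} (h1 : M.ε ≤ |x|) (h2 : |x| ≤ ‖M.lam i‖ - M.ε)
    (k m : ℤ) : M.ε ≤ ‖x * M.u i - (k + m * I)‖ := by
  have hε := hM.ε_pos
  have hu : M.L i (M.u i) = 0 := by simpa using L_u_mul hM i 1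
  by_cases h : M.q i * k - M.p i * m = 0
  · have h3 := eq_coord hM i (k + m * I)
    rw [L_vec, tm_vec, h, Int.cast_zero, ofReal_zero, zero_mul, add_zero] at h3
    generalize M.C i * k + M.D i * m = n at h3
    have h4 : x * M.u i - (k + m * I) = (x - n * ‖M.lam i‖ : ℝ) * M.u i := by
      have e3 := lam_eq hM i
      rw [h3]
      push_cast
      linear_combination -(n : ℂ) * e3
    rw [h4, norm_mul, norm_u hM, mul_one, norm_real, Real.norm_eq_abs]
    rcases eq_or_ne n 0 with rfl | hn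
    · simpa using h1
    · have h5 : (1 : ℝ) ≤ |(n : ℝ)| := by exact_mod_cast Int.one_le_abs hn
      have h6 := abs_sub_abs_le_abs_sub (n * ‖M.lam i‖) x
      rw [abs_mul, abs_norm, abs_sub_comm] at h6
      have h7 := mul_le_mul_of_nonneg_right h5 (norm_nonneg (M.lam i))
      linarith only [h2, h6, h7]
  · by_contra h3
    have h4 := L_small hM hi (ζ := x * M.u i - (k + m * I)) (by linarith)
    rw [L_sub, L_real_mul, hu, L_vec, mul_zero, zero_sub, abs_neg] at h4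
    have h5 : (1 : ℝ) ≤ |((M.q i * k - M.p i * m : ℤ) : ℝ)| := by exact_mod_cast Int.one_le_abs h
    linarith only [h4, h5]

theorem Path_lev_mem {i : ℕ} (hi : i < M.l) {r : ℝ}
    (h1 : 1 ≤ i → M.ε ≤ |r| ∧ |r| ≤ ‖M.lam (i + 1)‖ - M.ε)
    (h2 : i + 1 < M.l → M.ε ≤ |r - ‖M.lam (i + 1)‖ / 2| ∧
      |r - ‖M.lam (i + 1)‖ / 2| ≤ ‖M.lam (i + 1)‖ - M.ε) :
    (M.β i + r * M.u (i + 1), (i : ℝ) + 1) ∈ M.knotUp := by
  have e3 := lam_eq hM (i + 1)
  have h3 : M.β i + r * M.u (i + 1) - M.β (i + 1) =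
      (r - ‖M.lam (i + 1)‖ / 2 : ℝ) * M.u (i + 1) := by
    rw [β_succ]
    push_cast
    linear_combination -e3 / 2
  refine Or.inl ⟨i + 1, Nat.le_add_left 1 i, hi, by simp, ⟨0, ?_⟩, ?_⟩
  · have hu : M.L (i + 1) (M.u (i + 1)) = 0 := by simpa using L_u_mul hM (i + 1) 1
    show M.L (i + 1) (M.β i + r * M.u (i + 1) - M.β (i + 1)) = _
    rw [h3, L_real_mul, hu, mul_zero, Int.cast_zero]
  · rintro _ (⟨j1, -, k, m, rfl⟩ | ⟨-, j2, k, m, rfl⟩)
    · show M.ε ≤ ‖M.β i + r * M.u (i + 1) - (M.β i + (k + m * I))‖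
      rw [add_sub_add_left_eq_sub]
      exact Path_far hM hi (h1 j1).1 (h1 j1).2 k m
    · show M.ε ≤ ‖M.β i + r * M.u (i + 1) - (M.β (i + 1) + (k + m * I))‖
      rw [← sub_sub, h3]
      exact Path_far hM hi (h2 j2).1 (h2 j2).2 k m

theorem Path_dec (i : ℕ) {ζ : ℂ} {k : ℤ} (hk : M.L (i + 1) (ζ - M.β (i + 1)) = k) :
    ∃ (r : ℝ) (a b : ℤ), |r| ≤ ‖M.lam (i + 1)‖ / 2 ∧
      ζ = M.β i + r * M.u (i + 1) + (a + b * I) := by
  have h1 := eq_coord hM (i + 1) (ζ - M.β (i + 1))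
  rw [hk] at h1
  generalize M.tm (i + 1) (ζ - M.β (i + 1)) = t at h1
  have e3 := lam_eq hM (i + 1)
  have e4 : M.lam (i + 1) = M.p (i + 1) + M.q (i + 1) * I := rfl
  refine ⟨(t + 1 / 2 - round (t + 1 / 2)) * ‖M.lam (i + 1)‖,
    round (t + 1 / 2) * M.p (i + 1) + k * M.D (i + 1),
    round (t + 1 / 2) * M.q (i + 1) - k * M.C (i + 1), ?_, ?_⟩
  · rw [abs_mul, abs_norm]
    have := mul_le_mul_of_nonneg_right (abs_sub_round (t + 1 / 2)) (norm_nonneg (M.lam (i + 1)))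
    linarith only [this]
  · rw [β_succ] at h1
    generalize round (t + 1 / 2) = n
    push_cast at h1 ⊢
    linear_combination h1 + ((t : ℂ) + 1 / 2 - n) * e3 + (n : ℂ) * e4

variable [hP : M.Pth]

theorem ends_K : M.Ends M.edK := by
  refine ⟨fun j => ?_, fun j h1 h2 => ?_, fun j h1 h2 => ?_⟩
  · have := continuous_dir (M := M) j
    unfold edK
    fun_prop
  · rw [edK, hM.start j h1 h2, abs_neg, abs_of_pos (by norm_num)]
    rcases hM.sign j with h | h <;> rw [h] <;> push_cast <;> ring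
  · rw [edK, hM.stop j h1 h2, hP.fe j h1 h2, abs_of_pos (by norm_num)]
    rcases hM.sign j with h | h <;> rw [h] <;> push_cast <;> ring

theorem Path_pth_lev {i : ℕ} (hi : i < M.l) {t : ℝ} (ht : t ∈ Icc (0 : ℝ) 1) :
    M.pth M.edK (2 * i + t) =
      M.β i + (M.ε + t * (‖M.lam (i + 1)‖ / 2 - 2 * M.ε) : ℝ) * M.u (i + 1) := by
  have e3 := lam_eq hM (i + 1)
  rw [pth_level (ends_K hM) hi ht]
  push_cast
  linear_combination (t : ℂ) / 2 * e3

theorem Path_pth_mem {τ : ℝ} (hτ : τ ∈ Icc (0 : ℝ) (2 * M.l - 1)) :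
    (M.pth M.edK τ, M.dep τ) ∈ M.knotUp := by
  have hε := hM.ε_pos
  have hε' := eps_le hM
  rcases pieces hM.one_le hτ with ⟨i, hi, t, ht, rfl⟩ | ⟨j, j1, j2, s, hs, rfl⟩
  · have hN := one_le_norm_lam hM (i + 1)
    have h1 : 0 ≤ t * (‖M.lam (i + 1)‖ / 2 - 2 * M.ε) := mul_nonneg ht.1 (by linarith only [hε, hε', hN])
    have h2 : t * (‖M.lam (i + 1)‖ / 2 - 2 * M.ε) ≤ ‖M.lam (i + 1)‖ / 2 - 2 * M.ε :=
      mul_le_of_le_one_left (by linarith only [hε, hε', hN]) ht.2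
    rw [Path_pth_lev hM hi ht, dep_level hi ht]
    refine Path_lev_mem hM hi (fun _ => ?_) fun _ => ?_
    · rw [abs_of_nonneg (by linarith only [hε, h1])]
      constructor <;> linarith only [h1, hε, hε', hN, h2]
    · rw [abs_of_nonpos (by linarith only [hε, h2])]
      constructor <;> linarith only [h2, hε, hε', hN, h1]
  · rw [pth_band (ends_K hM) j1 j2 hs, dep_band j1 j2 hs]
    exact Or.inr ⟨j, _, β_mem j1 j2, s, M.e j, hs, hM.sign j, rfl⟩

theorem Path_sub {i : ℕ} (hi : i < M.l) {r : ℝ} (r0 : 0 ≤ r) (r1 : r ≤ ‖M.lam (i + 1)‖ / 2)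
    (d1 : 1 ≤ i → M.ε ≤ r) (d2 : i + 1 < M.l → r ≤ ‖M.lam (i + 1)‖ / 2 - M.ε) :
    M.E (M.β i + r * M.u (i + 1), i + 1) ∈
      (fun τ => M.E (M.pth M.edK τ, M.dep τ)) '' Icc 0 (2 * M.l - 1) ∪
      (fun τ => M.E (-M.pth M.edK τ, M.dep τ)) '' Icc 0 (2 * M.l - 1) ∪
      (fun t : ℝ => M.E (t * (M.ε * M.u 1), 1)) '' Icc (-1) 1 ∪
      (fun t : ℝ => M.E (M.β M.l + t * -(M.ε * M.u M.l), M.l)) '' Icc (-1) 1 ∧
    M.E (-(M.β i + r * M.u (i + 1)), i + 1) ∈
      (fun τ => M.E (M.pth M.edK τ, M.dep τ)) '' Icc 0 (2 * M.l - 1) ∪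
      (fun τ => M.E (-M.pth M.edK τ, M.dep τ)) '' Icc 0 (2 * M.l - 1) ∪
      (fun t : ℝ => M.E (t * (M.ε * M.u 1), 1)) '' Icc (-1) 1 ∪
      (fun t : ℝ => M.E (M.β M.l + t * -(M.ε * M.u M.l), M.l)) '' Icc (-1) 1 := by
  have hε := hM.ε_pos
  have hε' := eps_le hM
  have hN := one_le_norm_lam hM (i + 1)
  rcases lt_or_ge r M.ε with h1 | h1
  · obtain rfl : i = 0 := by
      by_contra h
      exact absurd (d1 (by omega)) (not_le.2 h1)
    obtain ⟨t, rfl⟩ : ∃ t, r = t * M.ε := ⟨r / M.ε, (div_mul_cancel₀ r hε.ne').symm⟩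
    have t0 : 0 ≤ t := nonneg_of_mul_nonneg_left r0 hε
    have t1 : t ≤ 1 := by (refine le_of_not_gt fun h_nl => ?_; linarith only [h_nl, h1, hε, mul_pos_of_neg_of_neg (Mathlib.Tactic.Linarith.sub_neg_of_lt hε) (Mathlib.Tactic.Linarith.sub_neg_of_lt h_nl)])
    refine ⟨Or.inl (Or.inr ⟨t, ⟨by linarith only [hε, hε', t0], t1⟩, congrArg M.E (Prod.ext ?_ (by simp))⟩),
      Or.inl (Or.inr ⟨-t, ⟨by linarith only [t1], by linarith only [hε, hε', t0]⟩, congrArg M.E (Prod.ext ?_ (by simp))⟩)⟩ <;>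
    · rw [β_zero]
      push_cast
      ring
  rcases lt_or_ge (‖M.lam (i + 1)‖ / 2 - M.ε) r with h2 | h2
  · have hl : M.l = i + 1 := by
      by_contra h
      exact absurd (d2 (by omega)) (not_le.2 h2)
    obtain ⟨t, ht⟩ : ∃ t, ‖M.lam (i + 1)‖ / 2 - r = t * M.ε :=
      ⟨_, (div_mul_cancel₀ _ hε.ne').symm⟩
    have t0 : 0 ≤ t := nonneg_of_mul_nonneg_left (by linarith only [r1, ht]) hε
    have t1 : t ≤ 1 := by (refine le_of_not_gt fun h_nl => ?_; linarith only [h_nl, h2, ht, hε, mul_pos_of_neg_of_neg (Mathlib.Tactic.Linarith.sub_neg_of_lt hε) (Mathlib.Tactic.Linarith.sub_neg_of_lt h_nl)])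
    have e3 := lam_eq hM (i + 1)
    have ht' : ((‖M.lam (i + 1)‖ / 2 - r : ℝ) : ℂ) = (t * M.ε : ℝ) := congrArg _ ht
    obtain ⟨k, m, h3⟩ := two_β (M := M) (i + 1)
    rw [β_succ] at h3
    push_cast at ht'
    refine ⟨Or.inr ⟨t, ⟨by linarith only [hε, hε', t0], t1⟩, congrArg M.E (Prod.ext ?_ (by simp [hl]))⟩,
      Or.inr ⟨-t, ⟨by linarith only [t1], by linarith only [hε, hε', t0]⟩, ?_⟩⟩
    · rw [hl, β_succ]
      linear_combination e3 / 2 + M.u (i + 1) * ht'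
    · rw [← Path_E_add _ _ k m]
      refine congrArg M.E (Prod.ext ?_ (by simp [hl]))
      rw [hl, β_succ]
      push_cast
      linear_combination h3 - e3 / 2 - M.u (i + 1) * ht'
  · have h3 : 0 < ‖M.lam (i + 1)‖ / 2 - 2 * M.ε := by linarith only [hε, hε', hN]
    obtain ⟨t, ht⟩ : ∃ t, r - M.ε = t * (‖M.lam (i + 1)‖ / 2 - 2 * M.ε) :=
      ⟨_, (div_mul_cancel₀ _ h3.ne').symm⟩
    have t0 : 0 ≤ t := nonneg_of_mul_nonneg_left (by linarith only [h1, ht]) h3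
    have t1 : t ≤ 1 := le_of_mul_le_mul_right (by linarith only [h2, ht]) h3
    have hi' : (i : ℝ) + 1 ≤ M.l := by exact_mod_cast hi
    have i0 : (0 : ℝ) ≤ i := Nat.cast_nonneg i
    have hτ : 2 * (i : ℝ) + t ∈ Icc (0 : ℝ) (2 * M.l - 1) := ⟨by linarith only [t0], by linarith only [t1, hi']⟩
    have h4 := Path_pth_lev hM hi ⟨t0, t1⟩
    rw [← ht, add_sub_cancel] at h4
    refine ⟨Or.inl (Or.inl (Or.inl ⟨_, hτ, ?_⟩)), Or.inl (Or.inl (Or.inr ⟨_, hτ, ?_⟩))⟩ <;>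
    · beta_reduce
      rw [h4, dep_level hi ⟨t0, t1⟩]

theorem knot_eq : M.knot =
    (fun τ => M.E (M.pth M.edK τ, M.dep τ)) '' Icc 0 (2 * M.l - 1) ∪
    (fun τ => M.E (-M.pth M.edK τ, M.dep τ)) '' Icc 0 (2 * M.l - 1) ∪
    (fun t : ℝ => M.E (t * (M.ε * M.u 1), 1)) '' Icc (-1) 1 ∪
    (fun t : ℝ => M.E (M.β M.l + t * -(M.ε * M.u M.l), M.l)) '' Icc (-1) 1 := by
  have hε := hM.ε_pos
  have hε' := eps_le hM
  refine Subset.antisymm ?_ (union_subset (union_subset (union_subset ?_ ?_) ?_) ?_)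
  · rintro _ ⟨⟨ζ, ρ⟩, ⟨i, i1, i2, hρ, ⟨k, hk⟩, hd⟩ | ⟨j, β, hβ, s, σ, hs, hσ, hx⟩, rfl⟩
    · obtain ⟨i, rfl⟩ : ∃ n, i = n + 1 := ⟨i - 1, by omega⟩
      have hρ' : ρ = i + 1 := by exact_mod_cast hρ
      subst hρ'
      obtain ⟨r, a, b, hr, rfl⟩ := Path_dec hM i hk
      have hN : ∀ x : ℝ, ‖(x : ℂ) * M.u (i + 1)‖ = |x| := fun x => by
        rw [norm_mul, norm_u hM, mul_one, norm_real, Real.norm_eq_abs]
      have d1 : 1 ≤ i → M.ε ≤ |r| := fun h => by
        have := hd (M.β i + (a + b * I)) (Or.inl ⟨h, i2, a, b, rfl⟩)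
        rwa [show M.β i + r * M.u (i + 1) + (a + b * I) - (M.β i + (a + b * I)) =
          r * M.u (i + 1) by ring, hN] at this
      have d2 : i + 1 < M.l → |r| ≤ ‖M.lam (i + 1)‖ / 2 - M.ε := fun h => by
        have e1 := hd (M.β (i + 1) + (a + b * I)) (Or.inr ⟨i1, h, a, b, rfl⟩)
        have e2 := hd (M.β (i + 1) + ((a - M.p (i + 1) : ℤ) + (b - M.q (i + 1) : ℤ) * I))
          (Or.inr ⟨i1, h, _, _, rfl⟩)
        have e3 := lam_eq hM (i + 1)
        have e4 : M.lam (i + 1) = M.p (i + 1) + M.q (i + 1) * I := rfl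
        rw [show M.β i + r * M.u (i + 1) + (a + b * I) - (M.β (i + 1) + (a + b * I)) =
          (r - ‖M.lam (i + 1)‖ / 2 : ℝ) * M.u (i + 1) by
            rw [β_succ]; push_cast; linear_combination -e3 / 2, hN] at e1
        rw [show M.β i + r * M.u (i + 1) + (a + b * I) -
          (M.β (i + 1) + ((a - M.p (i + 1) : ℤ) + (b - M.q (i + 1) : ℤ) * I)) =
          (r + ‖M.lam (i + 1)‖ / 2 : ℝ) * M.u (i + 1) by
            rw [β_succ]; push_cast; linear_combination e3 / 2 - e4, hN] at e2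
        obtain ⟨r0, r1⟩ := abs_le.1 hr
        rw [abs_of_nonpos (by linarith only [r1])] at e1
        rw [abs_of_nonneg (by linarith only [r0])] at e2
        exact abs_le.2 ⟨by linarith only [e2], by linarith only [e1]⟩
      have h1 := Path_sub hM i2 (abs_nonneg r) hr d1 d2
      rw [Path_E_add]
      rcases le_total 0 r with h | h
      · rw [abs_of_nonneg h] at h1
        exact h1.1
      · obtain ⟨k', m', h2⟩ := two_β (M := M) i
        rw [abs_of_nonpos h] at h1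
        rw [show M.β i + r * M.u (i + 1) = -(M.β i + (-r : ℝ) * M.u (i + 1)) + (k' + m' * I) by
          push_cast; linear_combination h2, Path_E_add]
        exact h1.2
    · obtain ⟨j1, j2, a, b, rfl⟩ := hβ
      obtain ⟨s0, s1⟩ := abs_le.1 hs
      have j1' : (1 : ℝ) ≤ j := by exact_mod_cast j1
      have j2' : (j : ℝ) + 1 ≤ M.l := by exact_mod_cast j2
      have hτ : 2 * (j : ℝ) - 1 / 2 + s ∈ Icc (0 : ℝ) (2 * M.l - 1) := ⟨by linarith only [hε, hε', s0, j1'], by linarith only [hε, hε', s1, j2']⟩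
      have hσ' : σ = M.e j ∨ σ = -M.e j := by
        rcases hσ with h | h <;> rcases hM.sign j with h' | h' <;> rw [h, h'] <;> norm_num
      rw [hx]
      rcases hσ' with rfl | rfl
      · refine Or.inl (Or.inl (Or.inl ⟨_, hτ, ?_⟩))
        beta_reduce
        rw [pth_band (ends_K hM) j1 j2 hs, dep_band j1 j2 hs, ← Path_E_add _ _ a b, edK,
          add_right_comm]
      · obtain ⟨k', m', h2⟩ := two_β (M := M) j
        refine Or.inl (Or.inl (Or.inr ⟨_, hτ, ?_⟩))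
        beta_reduce
        rw [pth_band (ends_K hM) j1 j2 hs, dep_band j1 j2 hs, ← Path_E_add _ _ (a + k') (b + m'),
          edK]
        refine congrArg (fun z => M.E (z, _)) ?_
        push_cast
        linear_combination -h2
  · rintro _ ⟨τ, hτ, rfl⟩
    exact ⟨_, Path_pth_mem hM hτ, rfl⟩
  · rintro _ ⟨τ, hτ, rfl⟩
    exact ⟨_, Path_neg (Path_pth_mem hM hτ), rfl⟩
  · rintro _ ⟨t, ⟨t0, t1⟩, rfl⟩
    have hN := one_le_norm_lam hM (0 + 1)
    have h1 := Path_lev_mem hM (i := 0) hM.one_le (r := t * M.ε) (fun h => absurd h (by omega))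
      fun _ => by
        rw [abs_of_nonpos (by linarith only [hε', hN, hε, t1, mul_pos_of_neg_of_neg (Mathlib.Tactic.Linarith.sub_neg_of_lt hε) (Mathlib.Tactic.Linarith.sub_neg_of_lt hε), mul_nonneg_of_nonpos_of_nonpos (le_of_lt (Mathlib.Tactic.Linarith.sub_neg_of_lt hε)) (Mathlib.Tactic.Linarith.sub_nonpos_of_le hε'), mul_nonneg_of_nonpos_of_nonpos (le_of_lt (Mathlib.Tactic.Linarith.sub_neg_of_lt hε)) (Mathlib.Tactic.Linarith.sub_nonpos_of_le t1)])]
        constructor <;> linarith only [hε', hN, hε, t1, t0, mul_pos_of_neg_of_neg (Mathlib.Tactic.Linarith.sub_neg_of_lt hε) (Mathlib.Tactic.Linarith.sub_neg_of_lt hε), mul_nonneg_of_nonpos_of_nonpos (le_of_lt (Mathlib.Tactic.Linarith.sub_neg_of_lt hε)) (Mathlib.Tactic.Linarith.sub_nonpos_of_le hε'), mul_nonneg_of_nonpos_of_nonpos (le_of_lt (Mathlib.Tactic.Linarith.sub_neg_of_lt hε)) (Mathlib.Tactic.Linarith.sub_nonpos_of_le t1), mul_nonneg_of_nonpos_of_nonpos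 (le_of_lt (Mathlib.Tactic.Linarith.sub_neg_of_lt hε)) (Mathlib.Tactic.Linarith.sub_nonpos_of_le t0)]
    refine ⟨_, h1, congrArg M.E (Prod.ext ?_ (by simp))⟩
    rw [β_zero]
    push_cast
    ring
  · rintro _ ⟨t, ⟨t0, t1⟩, rfl⟩
    obtain ⟨i, hi⟩ : ∃ n, M.l = n + 1 := ⟨M.l - 1, by have := hM.one_le; omega⟩
    have hN := one_le_norm_lam hM (i + 1)
    have h1 := Path_lev_mem hM (i := i) (by omega) (r := ‖M.lam (i + 1)‖ / 2 - t * M.ε)
      (fun _ => by
        rw [abs_of_nonneg (by linarith only [hε', hN, hε, t1, mul_pos_of_neg_of_neg (Mathlib.Tactic.Linarith.sub_neg_of_lt hε) (Mathlib.Tactic.Linarith.sub_neg_of_lt hε), mul_nonneg_of_nonpos_of_nonpos (le_of_lt (Mathlib.Tactic.Linarith.sub_neg_of_lt hε)) (Mathlib.Tactic.Linarith.sub_nonpos_of_le hε'), mul_nonneg_of_nonpos_of_nonpos (le_of_lt (Mathlib.Tactic.Linarith.sub_neg_of_lt hε)) (Mathlib.Tactic.Linarith.sub_nonpos_of_le t1)])]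
        constructor <;> linarith only [hε', hN, hε, t1, t0, mul_pos_of_neg_of_neg (Mathlib.Tactic.Linarith.sub_neg_of_lt hε) (Mathlib.Tactic.Linarith.sub_neg_of_lt hε), mul_nonneg_of_nonpos_of_nonpos (le_of_lt (Mathlib.Tactic.Linarith.sub_neg_of_lt hε)) (Mathlib.Tactic.Linarith.sub_nonpos_of_le hε'), mul_nonneg_of_nonpos_of_nonpos (le_of_lt (Mathlib.Tactic.Linarith.sub_neg_of_lt hε)) (Mathlib.Tactic.Linarith.sub_nonpos_of_le t1), mul_nonneg_of_nonpos_of_nonpos (le_of_lt (Mathlib.Tactic.Linarith.sub_neg_of_lt hε)) (Mathlib.Tactic.Linarith.sub_nonpos_of_le t0)]) fun h => absurd h (by omega)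
    refine ⟨_, h1, congrArg M.E (Prod.ext ?_ (by simp [hi]))⟩
    have e3 := lam_eq hM (i + 1)
    rw [hi, β_succ]
    push_cast
    linear_combination -e3 / 2

omit hP in
theorem knot_torus (hl : M.l = 1) : M.knot = torusKnot (M.p 1) (M.q 1) := by
  have h2 : ∀ ζ : ℂ, M.E (ζ, 1) = pt ζ (1 / 2) := fun ζ => by
    rw [E_eq_pt, hl]
    norm_num
  have h3 : M.lam 1 = M.p 1 + M.q 1 * I := rfl
  refine Subset.antisymm ?_ ?_
  · rintro _ ⟨⟨ζ, ρ⟩, ⟨i, i1, i2, hρ, ⟨k, hk⟩, -⟩ | ⟨j, β, hβ, -⟩, rfl⟩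
    · obtain rfl : i = 0 + 1 := by omega
      have hρ' : ρ = 1 := by simpa using hρ
      subst hρ'
      obtain ⟨r, a, b, -, rfl⟩ := Path_dec hM 0 hk
      refine ⟨r / ‖M.lam 1‖, ?_⟩
      rw [Path_E_add, h2, β_zero, zero_add, zero_add, u, ← h3]
      push_cast
      rw [div_mul_eq_mul_div, mul_div_assoc]
    · have := band_range hβ
      omega
  · rintro _ ⟨t, rfl⟩
    refine ⟨(t * M.lam 1, 1), Or.inl ⟨1, le_rfl, hl.ge, by simp, ⟨0, ?_⟩, ?_⟩, h2 _⟩
    · rw [L_sub, L_real_mul, β_succ, β_zero, zero_add, L_half, L_lam, qq_self]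
      simp
    · rintro β (hβ | hβ) <;> have := band_range hβ <;> omega

end Lev

end AllOne
end

-- merged part: Pool.Agent.Work.MP_d5331a_gt.A1.Faith
section
/-!
Moving the end points of a path, and a system of gates whose values determine the knot.
-/

set_option autoImplicit false

open Complex Set Filter Topology

namespace AllOne

open Neuwirth OneOne Lev

theorem cl_mem (x : ℝ) : cl x ∈ Icc (0 : ℝ) 1 :=
  ⟨le_max_left _ _, max_le zero_le_one (min_le_right _ _)⟩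

theorem Val.const {G : Type} [Group G] {g : ℤ → ℤ → G} {f : ℝ → ℂ} {a b : ℝ} {z : ℂ}
    (h : ∀ s ∈ Icc a b, f s = z) (U : G) : Val g f a b U U := by
  refine ⟨fun _ => U, fun s hs => ?_, rfl, rfl⟩
  filter_upwards [self_mem_nhdsWithin] with t ht
  rw [h s hs, h t ht, if_pos rfl]

/-- The path `γ` with segments towards `a₀` and `a₁` attached. -/
noncomputable def std (γ : ℝ → ℂ) (a₀ a₁ : ℂ) (t s : ℝ) : ℂ :=
  γ (cl (3 * s - 1)) + ((t * (1 - cl (6 * s - 1)) : ℝ) * (a₀ - γ 0) +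
    (t * cl (6 * s - 4) : ℝ) * (a₁ - γ 1))

section std

variable {γ : ℝ → ℂ} {a₀ a₁ : ℂ} {t s : ℝ} {w : ℤ}

theorem std_lo (h : s ≤ 1 / 3) :
    std γ a₀ a₁ t s = γ 0 + (t * (1 - cl (6 * s - 1)) : ℝ) * (a₀ - γ 0) := by
  rw [std, Path_cl_zero (x := 3 * s - 1) (by linarith only [h]), Path_cl_zero (x := 6 * s - 4) (by linarith only [h])]
  simp

theorem std_mid (h : 1 / 3 ≤ s) (h' : s ≤ 2 / 3) : std γ a₀ a₁ t s = γ (3 * s - 1) := by
  rw [std, Path_cl_mem (by linarith only [h]) (by linarith only [h']), Path_cl_one (x := 6 * s - 1) (by linarith only [h]),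
    Path_cl_zero (x := 6 * s - 4) (by linarith only [h'])]
  simp

theorem std_hi (h : 2 / 3 ≤ s) :
    std γ a₀ a₁ t s = γ 1 + (t * cl (6 * s - 4) : ℝ) * (a₁ - γ 1) := by
  rw [std, Path_cl_one (x := 3 * s - 1) (by linarith only [h]), Path_cl_one (x := 6 * s - 1) (by linarith only [h])]
  simp

theorem std_start (h : s ≤ 1 / 6) : std γ a₀ a₁ 1 s = a₀ := by
  rw [std_lo (by linarith only [h]), Path_cl_zero (by linarith only [h])]
  simp

theorem std_end (h : 5 / 6 ≤ s) : std γ a₀ a₁ 1 s = a₁ := by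
  rw [std_hi (by linarith only [h]), Path_cl_one (by linarith)]
  simp

theorem std_cont (h : Continuous γ) : Continuous fun x : ℝ × ℝ => std γ a₀ a₁ x.1 x.2 := by
  have := Path_cl_cont
  unfold std
  fun_prop

theorem conv_mem {x y r a b : ℝ} (hx : a < x ∧ x < b) (hy : a < y ∧ y < b) (h0 : 0 ≤ r)
    (h1 : r ≤ 1) : a < x + r * (y - x) ∧ x + r * (y - x) < b := by
  rcases le_total x y with h | h
  · constructor <;> linarith only [hx, h0, h, hy, h1, mul_nonneg h0 (sub_nonneg.2 h), mul_nonneg (sub_nonneg.2 h1) (sub_nonneg.2 h)]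
  · constructor <;> linarith only [hy, h1, h, hx, h0, mul_nonneg h0 (sub_nonneg.2 h), mul_nonneg (sub_nonneg.2 h1) (sub_nonneg.2 h)]

theorem std_lo_im (h : Adm w γ) (h0 : 0 < a₀.im ∧ a₀.im < 1) (ht : t ∈ Icc (0 : ℝ) 1)
    (hs : s ≤ 1 / 3) : 0 < (std γ a₀ a₁ t s).im ∧ (std γ a₀ a₁ t s).im < 1 := by
  obtain ⟨c0, c1⟩ := cl_mem (6 * s - 1)
  rw [std_lo hs, add_im, im_ofReal_mul, sub_im]
  exact conv_mem h.bot h0 (mul_nonneg ht.1 (by linarith only [c1])) (by (refine le_of_not_gt fun h_nl => ?_; linarith only [h_nl, ht, h0, c0, ht.1, ht.2, mul_pos_of_neg_of_neg (Mathlib.Tactic.Linarith.sub_neg_of_lt h0.left) (Mathlib.Tactic.Linarith.sub_neg_of_lt h_nl), mul_pos_of_neg_of_neg (Mathlib.Tactic.Linarith.sub_neg_of_lt h0.right) (Mathlib.Tactic.Linarith.sub_neg_of_lt h_nl), mul_nonneg_of_nonpos_of_nonpos (Mathlib.Tactic.Linarith.sub_nonpos_of_le c0) (Mathlib.Tactic.Linarith.sub_nonpos_of_le ht.left)]))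

theorem std_hi_re (h : Adm w γ) (h1 : (w : ℝ) - 1 < a₁.re ∧ a₁.re < w) (ht : t ∈ Icc (0 : ℝ) 1)
    (hs : 2 / 3 ≤ s) : (w : ℝ) - 1 < (std γ a₀ a₁ t s).re ∧ (std γ a₀ a₁ t s).re < w := by
  obtain ⟨c0, c1⟩ := cl_mem (6 * s - 4)
  rw [std_hi hs, add_re, re_ofReal_mul, sub_re]
  exact conv_mem h.top h1 (mul_nonneg ht.1 c0) (by (refine le_of_not_gt fun h_nl => ?_; linarith only [h_nl, c1, h1, c0, ht, ht.1, ht.2, mul_pos_of_neg_of_neg (Mathlib.Tactic.Linarith.sub_neg_of_lt h1.left) (Mathlib.Tactic.Linarith.sub_neg_of_lt h_nl), mul_pos_of_neg_of_neg (Mathlib.Tactic.Linarith.sub_neg_of_lt h1.right) (Mathlib.Tactic.Linarith.sub_neg_of_lt h_nl), mul_nonneg_of_nonpos_of_nonpos (Mathlib.Tactic.Linarith.sub_nonpos_of_le c0) (Mathlib.Tactic.Linarith.sub_nonpos_of_le ht.right)]))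

theorem not_int {x : ℝ} {c k : ℤ} (h1 : (c : ℝ) < x) (h2 : x < c + 1) : x ≠ k := by
  rintro rfl
  have h3 : c < k := by exact_mod_cast h1
  have h4 : k < c + 1 := by exact_mod_cast h2
  omega

theorem std_adm (h : Adm w γ) (h0 : 0 < a₀.im ∧ a₀.im < 1) (h1 : (w : ℝ) - 1 < a₁.re ∧ a₁.re < w)
    (ht : t ∈ Icc (0 : ℝ) 1) : Adm w (std γ a₀ a₁ t) := by
  refine ⟨(std_cont h.cont).comp (Continuous.prodMk_right t), fun s hs k m e => ?_,
    std_lo_im h h0 ht (by norm_num), std_hi_re h h1 ht (by norm_num)⟩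
  rcases le_total s (1 / 3) with c | c
  · obtain ⟨c1, c2⟩ := std_lo_im (a₁ := a₁) h h0 ht c
    exact not_int (c := 0) (k := m) (by simpa using c1) (by simpa using c2) (by simp [e])
  rcases le_total s (2 / 3) with d | d
  · exact h.avoid _ ⟨by linarith only [c], by linarith⟩ k m ((std_mid c d).symm.trans e)
  · obtain ⟨c1, c2⟩ := std_hi_re (a₀ := a₀) h h1 ht d
    exact not_int (c := w - 1) (k := k) (by simpa using c1) (by simpa using c2) (by simp [e])

theorem std_eqv (h : Adm w γ) (h0 : 0 < a₀.im ∧ a₀.im < 1)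
    (h1 : (w : ℝ) - 1 < a₁.re ∧ a₁.re < w) : Eqv (knot γ) (knot (std γ a₀ a₁ 1)) := by
  have hc := Path_cl_cont
  have e1 := (move_reparam h (σ := fun s => cl (3 * s - 1)) (by fun_prop)
    (Path_cl_zero (by norm_num)) (Path_cl_one (by norm_num)) fun s _ => cl_mem _).2
  have e2 := move_homotopy (w := w) (fun x => std γ a₀ a₁ x.1 x.2) (std_cont h.cont)
    fun t ht => std_adm h h0 h1 ht
  refine e1.trans (Eqv.trans (Eqv.of_eq (knot_congr fun s _ => ?_)) e2)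
  simp [std]

theorem std_val {G : Type} [Group G] {g : ℤ → ℤ → G} {W : ℤ → G} (hW : Pot (fun c => g c 0) W)
    (h : Adm w γ) (h0 : 0 < a₀.im ∧ a₀.im < 1) (h1 : (w : ℝ) - 1 < a₁.re ∧ a₁.re < w) {V : G}
    (hV : Val g γ 0 1 (W ⌊(γ 0).re⌋) V) :
    Val g (std γ a₀ a₁ 1) (1 / 6) (5 / 6) (W ⌊a₀.re⌋) V := by
  have o : (1 : ℝ) ∈ Icc (0 : ℝ) 1 := ⟨zero_le_one, le_rfl⟩
  have hc := (std_adm h h0 h1 o).cont
  have e1 := Val.chan (g := g) hc (lo := fun _ => 0) hW (a := 1 / 6) (b := 1 / 3)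
    fun s hs c _ => by simpa using std_lo_im h h0 o hs.2
  rw [std_start le_rfl, std_mid le_rfl (by norm_num), show (3 : ℝ) * (1 / 3) - 1 = 0 by norm_num]
    at e1
  have e2 : Val g (std γ a₀ a₁ 1) (1 / 3) (2 / 3) _ V :=
    (hV.comp (σ := fun s => 3 * s - 1) (by fun_prop) (by norm_num) (by norm_num)
      fun s hs => ⟨by linarith only [hs, hs.1], by linarith [hs.2]⟩).congr fun s hs => std_mid hs.1 hs.2
  have e3 := Val.cell (g := g) hc (a := 2 / 3) (b := 5 / 6) (by norm_num) (c := w - 1)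
    (fun s hs => by simpa using std_hi_re h h1 o hs.1) V
  exact (e1.trans (by norm_num) (by norm_num) e2).trans (by norm_num) (by norm_num) e3

end std

/-- The plane minus the lattice. -/
def Xs : Set ℂ := {z | ∀ k m : ℤ, z ≠ k + m * I}

theorem Xs_conn : IsPathConnected Xs := by
  have h : Xs = (range fun x : ℤ × ℤ => (x.1 : ℂ) + x.2 * I)ᶜ := by
    ext z
    simp only [Xs, mem_setOf_eq, mem_compl_iff, mem_range, not_exists, Prod.forall]
    exact forall₂_congr fun _ _ => ne_comm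
  rw [h]
  exact (countable_range _).isPathConnected_compl_of_one_lt_rank (by
    rw [Complex.rank_real_complex]
    exact Cardinal.one_lt_two)

theorem star_simply {S : Set ℂ} {z : ℂ} (hz : z ∈ S) (h : StarConvex ℝ z S) :
    IsSimplyConnected S := by
  refine isSimplyConnected_of_contraction S z hz (fun x => x.2 + (x.1 : ℂ) * (z - x.2))
    (by fun_prop) (fun t ht x hx => ?_) (by simp) (by simp)
  have := h hx ht.1 (sub_nonneg.2 ht.2) (by ring)
  convert this using 1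
  simp only [real_smul]
  push_cast
  ring

theorem seg_path {S : Set ℂ} (hS : S ⊆ Xs) {a b : ↥Xs} (h : segment ℝ a.1 b.1 ⊆ S) :
    ∃ p : Path a b, ∀ s, (p s).1 ∈ S :=
  exists_path_val hS (JoinedIn.of_segment_subset h)

/-- The cells. -/
def Cel (c : ℤ) : Set ℂ := {z | z ∈ Xs ∧ ⌊z.re⌋ = c}

/-- The two boxes next to a gate. -/
def Box (c n : ℤ) : Set ℂ := {z | (c : ℝ) - 1 < z.re ∧ z.re < c + 1 ∧ n < z.im ∧ z.im < n + 1}

theorem box_sub (c n : ℤ) : Box c n ⊆ Xs := fun z hz k m e =>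
  not_int (k := m) hz.2.2.1 hz.2.2.2 (by simp [e])

theorem box_convex (c n : ℤ) : Convex ℝ (Box c n) :=
  (convex_halfSpace_re_gt _).inter ((convex_halfSpace_re_lt _).inter
    ((convex_halfSpace_im_gt _).inter (convex_halfSpace_im_lt _)))

theorem cel_mid (c : ℤ) (y : ℝ) : (c + 1 / 2 : ℝ) + y * I ∈ Cel c := by
  refine ⟨fun k m e => not_int (x := c + 1 / 2) (c := c) (k := k) (by linarith only []) (by linarith only []) ?_, ?_⟩
  · simpa using congrArg re e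
  · rw [Int.floor_eq_iff]
    constructor <;> simp <;> norm_num

theorem cel_star (c : ℤ) (y : ℝ) : StarConvex ℝ (((c + 1 / 2 : ℝ) : ℂ) + y * I) (Cel c) := by
  intro z hz a b ha hb hab
  rcases ha.eq_or_lt with rfl | ha
  · rw [zero_add] at hab
    simpa [hab] using hz
  obtain ⟨h1, h2⟩ := Int.floor_eq_iff.1 hz.2
  have e : (a • (((c + 1 / 2 : ℝ) : ℂ) + y * I) + b • z).re = a * (c + 1 / 2) + b * z.re := by
    simp [mul_add]
  have h3 : (c : ℝ) < a * (c + 1 / 2) + b * z.re := by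
    have : (c : ℝ) = a * c + b * c := by rw [← add_mul, hab, one_mul]
    linarith only [ha, this, h1, hb, mul_le_mul_of_nonneg_left h1 hb]
  have h4 : a * (c + 1 / 2) + b * z.re < c + 1 := by
    have : (c : ℝ) + 1 = a * (c + 1) + b * (c + 1) := by rw [← add_mul, hab, one_mul]
    linarith only [ha, this, h2, hb, mul_le_mul_of_nonneg_left h2.le hb]
  rw [← e] at h3 h4
  exact ⟨fun k m e' => not_int (k := k) h3 h4 (by rw [e']; simp), Int.floor_eq_iff.2 ⟨h3.le, h4⟩⟩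

theorem exists_gates : ∃ (G : Type) (_ : Group G) (g : ℤ → ℤ → G) (Ξ : Hol ↥Xs G),
    (∀ (y : ↥Xs) (γ : Path y y), Ξ.H γ = 1 → γ.Homotopic (Path.refl y)) ∧
    ∀ z : ↥Xs, ∃ U ∈ 𝓝 z, ∀ (a b : ↥Xs) (p : Path a b), (∀ s, p s ∈ U) → Ξ.H p =
      (if ⌊a.1.re⌋ = ⌊z.1.re⌋ then 1 else (g ⌊z.1.re⌋ ⌊z.1.im⌋)⁻¹)⁻¹ *
        if ⌊b.1.re⌋ = ⌊z.1.re⌋ then 1 else (g ⌊z.1.re⌋ ⌊z.1.im⌋)⁻¹ := by
  haveI : PathConnectedSpace ↥Xs := isPathConnected_iff_pathConnectedSpace.1 Xs_conn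
  obtain ⟨G, _, Ψ, hΨ⟩ := exists_univ ↥Xs (Classical.arbitrary _)
  choose k hk using fun c : ℤ => Ψ.exists_gauge (S := Subtype.val ⁻¹' Cel c) fun _ =>
    isSimplyConnected_preimage_val (fun _ h => h.1) (star_simply (cel_mid c 0) (cel_star c 0))
  let Ξ : Hol ↥Xs G :=
    ⟨fun {a b} p => k ⌊a.1.re⌋ a * Ψ.H p * (k ⌊b.1.re⌋ b)⁻¹, fun p q => by simp [Ψ.trans, mul_assoc],
      fun p q e => by rw [Ψ.homot p q e]⟩
  have h1 : ∀ (c : ℤ) (a b : ↥Xs) (p : Path a b), (∀ s, (p s).1 ∈ Cel c) → Ξ.H p = 1 := by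
    intro c a b p hp
    have ha : ⌊a.1.re⌋ = c := p.source ▸ (hp 0).2
    have hb : ⌊b.1.re⌋ = c := p.target ▸ (hp 1).2
    simp only [Ξ, ha, hb, hk c a b p hp]
    group
  choose j hj using fun c n : ℤ => Ξ.exists_gauge (S := Subtype.val ⁻¹' Box c n) fun ⟨z, hz⟩ =>
    isSimplyConnected_preimage_val (box_sub c n)
      (star_simply hz ((box_convex c n).starConvex hz))
  let mid : ℤ → ℤ → ↥Xs := fun c n => ⟨_, (cel_mid c (n + 1 / 2)).1⟩
  have h2 : ∀ (c c' n : ℤ) (a : ↥Xs), (c' = c ∨ c' = c - 1) → a.1 ∈ Box c n → ⌊a.1.re⌋ = c' →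
      j c n a = j c n (mid c' n) := by
    intro c c' n a hc ha ha'
    have hm : (mid c' n).1 ∈ Box c n := by
      have e1 : (mid c' n).1.re = c' + 1 / 2 := by simp [mid]
      have e2 : (mid c' n).1.im = n + 1 / 2 := by simp [mid]
      refine ⟨?_, ?_, by linarith only [e2], by linarith only [e2]⟩ <;> rcases hc with rfl | rfl <;> rw [e1] <;>
        push_cast <;> linarith only []
    obtain ⟨p, hp⟩ := seg_path (S := Box c n ∩ Cel c') (inter_subset_left.trans (box_sub c n))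
      (a := mid c' n) (b := a) (subset_inter ((box_convex c n).segment_subset hm ha)
        ((cel_star c' _).segment_subset ⟨a.2, ha'⟩))
    have e := (hj c n _ _ p fun s => (hp s).1).symm.trans (h1 c' _ _ p fun s => (hp s).2)
    exact (inv_mul_eq_one.1 e).symm
  refine ⟨G, inferInstance, fun c n => (j c n (mid (c - 1) n))⁻¹ * j c n (mid c n), Ξ,
    fun y γ h => hΨ y γ ?_, fun z => ?_⟩
  · simpa [Ξ] using h
  have c1 : Continuous fun z : ↥Xs => z.1.re := by fun_prop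
  have c2 : Continuous fun z : ↥Xs => z.1.im := by fun_prop
  rcases (Int.floor_le z.1.re).eq_or_lt with e | e
  · have e' : (⌊z.1.im⌋ : ℝ) < z.1.im := (Int.floor_le _).lt_of_ne fun h =>
      z.2 ⌊z.1.re⌋ ⌊z.1.im⌋ (Complex.ext (by simp [e]) (by simp [h]))
    refine ⟨Subtype.val ⁻¹' Box ⌊z.1.re⌋ ⌊z.1.im⌋, ?_, fun a b p hp => ?_⟩
    · filter_upwards [c1.continuousAt.eventually (Ioo_mem_nhds (a := (⌊z.1.re⌋ : ℝ) - 1)
        (by linarith) (Int.lt_floor_add_one _)),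
        c2.continuousAt.eventually (Ioo_mem_nhds e' (Int.lt_floor_add_one _))] with t t1 t2
      exact ⟨t1.1, t1.2, t2⟩
    generalize ⌊z.1.re⌋ = c at hp ⊢
    generalize ⌊z.1.im⌋ = n at hp ⊢
    have h3 : ∀ a : ↥Xs, a.1 ∈ Box c n → j c n a = j c n (mid c n) *
        if ⌊a.1.re⌋ = c then 1 else ((j c n (mid (c - 1) n))⁻¹ * j c n (mid c n))⁻¹ := by
      intro a ha
      split_ifs with h
      · rw [h2 c c n a (Or.inl rfl) ha h, mul_one]
      · rw [h2 c (c - 1) n a (Or.inr rfl) ha (floor_pred ha.1 (not_le.1 fun h' =>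
          h (Int.floor_eq_iff.2 ⟨h', ha.2.1⟩)))]
        group
    rw [hj c n a b p hp, h3 a (p.source ▸ hp 0), h3 b (p.target ▸ hp 1)]
    group
  · refine ⟨{t | ⌊t.1.re⌋ = ⌊z.1.re⌋}, ?_, fun a b p hp => ?_⟩
    · filter_upwards [c1.continuousAt.eventually (Ioo_mem_nhds e (Int.lt_floor_add_one _))] with t ht
      exact Int.floor_eq_iff.2 ⟨ht.1.le, ht.2⟩
    · have ha : ⌊a.1.re⌋ = ⌊z.1.re⌋ := p.source ▸ hp 0
      have hb : ⌊b.1.re⌋ = ⌊z.1.re⌋ := p.target ▸ hp 1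
      rw [h1 _ a b p fun s => ⟨(p s).2, hp s⟩, if_pos ha, if_pos hb]
      simp

theorem exists_faith : ∃ (G : Type) (_ : Group G) (g : ℤ → ℤ → G), ∀ (w : ℤ) (γ γ' : ℝ → ℂ)
    (W : ℤ → G) (V : G), Pot (fun c => g c 0) W → Adm w γ → Adm w γ' →
      Val g γ 0 1 (W ⌊(γ 0).re⌋) V → Val g γ' 0 1 (W ⌊(γ' 0).re⌋) V → Eqv (knot γ) (knot γ') := by
  obtain ⟨G, _, g, Ξ, h1, h2⟩ := exists_gates
  have key : ∀ (a b : ↥Xs) (p : Path a b) (γ : ℝ → ℂ) (U V : G), (∀ s, (p s).1 = γ s) →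
      Val g γ 0 1 U V → Ξ.H p = U⁻¹ * V := by
    rintro a b p γ _ _ hp ⟨h, hh, rfl, rfl⟩
    have e := (Ξ.comap p.toContinuousMap).eq_of_loc (fun s => h s) (fun s => ?_) Path.id
    · rw [← Ξ.cast p p.source p.target]
      exact e
    obtain ⟨U, hU, hU'⟩ := h2 (p s)
    have e1 := hh s s.2
    rw [← map_nhds_subtype_val, eventually_map] at e1
    refine ⟨_, inter_mem (p.continuous.continuousAt.preimage_mem_nhds hU) e1, fun x y q hq => ?_⟩
    have hx := (q.source ▸ hq 0 :).2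
    have hy := (q.target ▸ hq 1 :).2
    simp only [mem_setOf_eq, ← hp] at hx hy
    refine (hU' _ _ _ fun t => (hq t).1).trans ?_
    simp only [hx, hy, Path.coe_toContinuousMap]
    split_ifs <;> group
  refine ⟨G, inferInstance, g, fun w γ γ' W V hW hγ hγ' v v' => ?_⟩
  have o : (1 : ℝ) ∈ Icc (0 : ℝ) 1 := ⟨zero_le_one, le_rfl⟩
  have hδ := std_adm hγ' hγ.bot hγ.top o
  have v'' : Val g (std γ' (γ 0) (γ 1) 1) 0 1 (W ⌊(γ 0).re⌋) V :=
    ((Val.const (fun s hs => std_start hs.2) _).trans (by norm_num) (by norm_num)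
      (std_val hW hγ' hγ.bot hγ.top v')).trans (by norm_num) (by norm_num)
      (Val.const (fun s hs => std_end hs.1) _)
  refine Eqv.trans ?_ (std_eqv hγ' hγ.bot hγ.top).symm
  have d0 : std γ' (γ 0) (γ 1) 1 0 = γ 0 := std_start (by norm_num)
  have d1 : std γ' (γ 0) (γ 1) 1 1 = γ 1 := std_end (by norm_num)
  generalize std γ' (γ 0) (γ 1) 1 = δ at hδ v'' d0 d1
  let a : ↥Xs := ⟨γ 0, hγ.avoid 0 ⟨le_rfl, zero_le_one⟩⟩
  let b : ↥Xs := ⟨γ 1, hγ.avoid 1 o⟩
  let p : Path a b := ⟨⟨fun s => ⟨γ s, hγ.avoid s s.2⟩,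
    (hγ.cont.comp continuous_subtype_val).subtype_mk _⟩, rfl, rfl⟩
  let q : Path a b := ⟨⟨fun s => ⟨δ s, hδ.avoid s s.2⟩,
    (hδ.cont.comp continuous_subtype_val).subtype_mk _⟩, Subtype.ext d0, Subtype.ext d1⟩
  have e1 : (p.trans q.symm).Homotopic (Path.refl a) := h1 _ _ (by
    rw [Ξ.trans, Ξ.symm, key a b p γ _ _ (fun _ => rfl) v, key a b q δ _ _ (fun _ => rfl) v'',
      mul_inv_cancel])
  have e2 : p.Homotopic q :=
    ((Path.Homotopic.trans_refl p).symm.trans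
      ((Path.Homotopic.refl p).hcomp (Path.Homotopic.symm_trans q).symm)).trans
      ((Path.Homotopic.trans_assoc p q.symm q).symm.trans
        ((e1.hcomp (Path.Homotopic.refl q)).trans (Path.Homotopic.refl_trans q)))
  obtain ⟨F⟩ := e2
  let π : ℝ → unitInterval := projIcc 0 1 zero_le_one
  have hπ : Continuous π := continuous_projIcc
  have π0 : π 0 = 0 := projIcc_left _
  have π1 : π 1 = 1 := projIcc_right _
  have hc : Continuous fun x : ℝ × ℝ => (F (π x.1, π x.2)).1 := by fun_prop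
  have e3 := move_homotopy (w := w) _ hc fun t _ =>
    ⟨hc.comp (Continuous.prodMk_right t), fun s _ => (F _).2,
      by simpa only [π0, F.source] using hγ.bot, by simpa only [π1, F.target] using hγ.top⟩
  refine (Eqv.of_eq (knot_congr fun s hs => ?_)).trans (e3.trans (Eqv.of_eq (knot_congr fun s hs => ?_)))
  · simp only [π0, π, projIcc_of_mem _ hs]
    exact (congrArg Subtype.val (F.apply_zero ⟨s, hs⟩)).symm
  · simp only [π1, π, projIcc_of_mem _ hs]
    exact congrArg Subtype.val (F.apply_one ⟨s, hs⟩)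

end AllOne
end
end

-- merged part: Pool.Agent.Work.MP_d5331a_gt.A1.Flip
section
/-!
The word of a path, and the two reflections that shorten it.
-/

set_option autoImplicit false

open Complex Set Filter Topology

namespace AllOne

open Neuwirth OneOne Lev

/-- The cell to the left of a gate. -/
def gs (d : ℤ × ℤ) : ℤ := d.1 - 1

/-- The cell to the right of a gate. -/
def gt (d : ℤ × ℤ) : ℤ := d.1

/-- The value of a word. -/
def wv {G : Type} [Group G] (g : ℤ → ℤ → G) (L : List ((ℤ × ℤ) × Bool)) : G :=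
  (L.map (dval fun d => g d.1 d.2)).prod

theorem wv_nil {G : Type} [Group G] (g : ℤ → ℤ → G) : wv g [] = 1 := rfl

theorem wv_cons {G : Type} [Group G] (g : ℤ → ℤ → G) (d : (ℤ × ℤ) × Bool) (L : List _) :
    wv g (d :: L) = (if d.2 then g d.1.1 d.1.2 else (g d.1.1 d.1.2)⁻¹) * wv g L := by
  simp [wv, dval]

theorem wv_append {G : Type} [Group G] (g : ℤ → ℤ → G) (L L' : List _) :
    wv g (L ++ L') = wv g L * wv g L' := by
  simp [wv]

theorem walk_app {A C : Type*} {src tgt : A → C} {u v z : C} {L L' : List (A × Bool)}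
    (h : Walk src tgt u L v) (h' : Walk src tgt v L' z) : Walk src tgt u (L ++ L') z := by
  induction h with
  | nil => exact h'
  | cons d _ ih => exact Walk.cons d (ih h')

theorem walk_split {A C : Type*} {src tgt : A → C} {u z : C} {L L' : List (A × Bool)}
    (h : Walk src tgt u (L ++ L') z) : ∃ v, Walk src tgt u L v ∧ Walk src tgt v L' z := by
  induction L generalizing u with
  | nil => exact ⟨u, Walk.nil u, h⟩
  | cons d L ih =>
    obtain ⟨rfl, h1⟩ := walk_inv _ _ h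
    obtain ⟨v, h2, h3⟩ := ih h1
    exact ⟨v, Walk.cons d h2, h3⟩

theorem walk_nil {A C : Type*} {src tgt : A → C} {u v : C} (h : Walk src tgt u [] v) : u = v := by
  generalize hL : ([] : List (A × Bool)) = L at h
  cases h with
  | nil => rfl
  | cons => cases hL

/-- The path is described by the word `L` that starts in the cell `u`. -/
def Rep (w : ℤ) (γ : ℝ → ℂ) (u : ℤ) (L : List ((ℤ × ℤ) × Bool)) : Prop :=
  Adm w γ ∧ Walk gs gt u L (w - 1) ∧ ∀ (G : Type) [Group G] (g : ℤ → ℤ → G) (W : ℤ → G),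
    Pot (fun c => g c 0) W → Val g γ 0 1 (W ⌊(γ 0).re⌋) (W u * wv g L)

theorem exists_rep {w : ℤ} {γ : ℝ → ℂ} (h : Adm w γ) : ∃ u L, Rep w γ u L := by
  have hc := h.cont
  let P : ℝ → ℝ → Prop := fun a b => ∃ L, Walk gs gt ⌊(γ a).re⌋ L ⌊(γ b).re⌋ ∧
    ∀ (G : Type) [Group G] (g : ℤ → ℤ → G) (U : G), Val g γ a b U (U * wv g L)
  obtain ⟨t, t0, tm, ⟨N, t1⟩, ht⟩ := exists_monotone_Icc_subset_open_cover_Icc zero_le_one
    (c := fun d : ℤ × ℤ => {s : Icc (0 : ℝ) 1 | ((d.1 : ℝ) - 1 < (γ s).re ∧ (γ s).re < d.1 + 1 ∧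
      d.2 < (γ s).im ∧ (γ s).im < d.2 + 1) ∨ (d.1 < (γ s).re ∧ (γ s).re < d.1 + 1)})
    (fun d => by
      refine IsOpen.union (IsOpen.and ?_ (IsOpen.and ?_ (IsOpen.and ?_ ?_))) (IsOpen.and ?_ ?_) <;>
        exact isOpen_lt (by fun_prop) (by fun_prop))
    (fun s _ => by
      refine mem_iUnion.2 ⟨(⌊(γ s).re⌋, ⌊(γ s).im⌋), ?_⟩
      rcases (Int.floor_le (γ s).re).eq_or_lt with e | e
      · exact Or.inl ⟨by linarith, Int.lt_floor_add_one _, Av.im h.avoid s.2 e.symm,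
          Int.lt_floor_add_one _⟩
      · exact Or.inr ⟨e, Int.lt_floor_add_one _⟩)
  have step : ∀ n, P (t n) (t (n + 1)) := fun n => by
    obtain ⟨⟨c, m⟩, hd⟩ := ht n
    have hab : (t n : ℝ) ≤ t (n + 1) := tm n.le_succ
    have h1 : ∀ s ∈ Icc (t n : ℝ) (t (n + 1)), ((c : ℝ) - 1 < (γ s).re ∧ (γ s).re < c + 1 ∧
        m < (γ s).im ∧ (γ s).im < m + 1) ∨ (c < (γ s).re ∧ (γ s).re < c + 1) := fun s hs =>
      hd (a := ⟨s, (t n).2.1.trans hs.1, hs.2.trans (t (n + 1)).2.2⟩) hs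
    generalize (t n : ℝ) = a, (t (n + 1) : ℝ) = b at hab h1
    have h2 : ∀ s ∈ Icc a b, ⌊(γ s).re⌋ = c ∨ ⌊(γ s).re⌋ = c - 1 := fun s hs => by
      have h3 : (c : ℝ) - 1 < (γ s).re ∧ (γ s).re < c + 1 := by
        rcases h1 s hs with h | h
        · exact ⟨h.1, h.2.1⟩
        · exact ⟨by linarith [h.1], h.2⟩
      rcases le_or_gt (c : ℝ) (γ s).re with h4 | h4
      · exact Or.inl (Int.floor_eq_iff.2 ⟨h4, h3.2⟩)
      · exact Or.inr (floor_pred h3.1 h4)
    have h3 : ∀ (G : Type) [Group G] (g : ℤ → ℤ → G) (U : G), ∃ W : ℤ → G, W ⌊(γ a).re⌋ = U ∧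
        W (c - 1) * g c m = W c ∧ Val g γ a b U (W ⌊(γ b).re⌋) := fun G _ g U => by
      obtain ⟨W, hW, rfl⟩ := exists_pot (fun c => g c m) ⌊(γ a).re⌋ U
      exact ⟨W, rfl, hW c, Val.chan hc (lo := fun _ => m) hW fun s hs c' e =>
        ((h1 s hs).resolve_right fun h => not_int h.1 h.2 e).2.2⟩
    simp only [P]
    rcases h2 a ⟨le_rfl, hab⟩ with e1 | e1 <;> rcases h2 b ⟨hab, le_rfl⟩ with e2 | e2 <;>
      rw [e1, e2] at h3 ⊢
    · refine ⟨[], Walk.nil _, fun G _ g U => ?_⟩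
      obtain ⟨W, rfl, -, v⟩ := h3 G g U
      rwa [wv_nil, mul_one]
    · refine ⟨[((c, m), false)], Walk.cons ((c, m), false) (Walk.nil _), fun G _ g U => ?_⟩
      obtain ⟨W, rfl, e, v⟩ := h3 G g U
      simpa [wv_cons, wv_nil, ← e] using v
    · refine ⟨[((c, m), true)], Walk.cons ((c, m), true) (Walk.nil _), fun G _ g U => ?_⟩
      obtain ⟨W, rfl, e, v⟩ := h3 G g U
      simpa [wv_cons, wv_nil, e] using v
    · refine ⟨[], Walk.nil _, fun G _ g U => ?_⟩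
      obtain ⟨W, rfl, -, v⟩ := h3 G g U
      rwa [wv_nil, mul_one]
  have key : ∀ n, P 0 (t n) := fun n => by
    induction n with
    | zero =>
      rw [t0]
      exact ⟨[], Walk.nil _, fun G _ g U => by
        rw [wv_nil, mul_one]
        exact Val.const (z := γ 0) (fun s hs => by rw [le_antisymm hs.2 hs.1]) U⟩
    | succ n ih =>
      obtain ⟨L, w1, v1⟩ := ih
      obtain ⟨L', w2, v2⟩ := step n
      refine ⟨L ++ L', walk_app w1 w2, fun G _ g U => ?_⟩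
      rw [wv_append, ← mul_assoc]
      exact (v1 G g U).trans (t n).2.1 (tm n.le_succ) (v2 G g _)
  obtain ⟨L, w1, v1⟩ := key N
  rw [t1 N le_rfl] at w1 v1
  rw [floor_pred h.top.1 h.top.2] at w1
  exact ⟨_, L, h, w1, fun G _ g W _ => v1 G g _⟩

variable {w u : ℤ} {γ : ℝ → ℂ}

theorem Rep.red {L L' : List ((ℤ × ℤ) × Bool)} {d : (ℤ × ℤ) × Bool}
    (h : Rep w γ u (L ++ d :: (d.1, !d.2) :: L')) : Rep w γ u (L ++ L') := by
  obtain ⟨h1, h2, h3⟩ := h
  obtain ⟨v, w1, w2⟩ := walk_split h2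
  obtain ⟨rfl, w3⟩ := walk_inv _ _ w2
  have w4 := (walk_inv _ _ w3).2
  refine ⟨h1, walk_app w1 ?_, fun G _ g W hW => ?_⟩
  · obtain ⟨d, b⟩ := d
    cases b <;> exact w4
  · have := h3 G g W hW
    obtain ⟨d, b⟩ := d
    cases b <;> simpa [wv_append, wv_cons] using this

theorem Rep.zero {L : List ((ℤ × ℤ) × Bool)} {c : ℤ} {b : Bool}
    (h : Rep w γ u (((c, 0), b) :: L)) : ∃ u', Rep w γ u' L := by
  obtain ⟨h1, h2, h3⟩ := h
  obtain ⟨rfl, w1⟩ := walk_inv _ _ h2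
  refine ⟨_, h1, w1, fun G _ g W hW => ?_⟩
  have := h3 G g W hW
  have e := hW c
  cases b
  · simpa [wv_cons, dsrc, dtgt, gs, gt, ← mul_assoc, ← e] using this
  · simpa [wv_cons, dsrc, dtgt, gs, gt, ← mul_assoc, e] using this

theorem homeo_bot {c κ : ℝ → ℝ} (hc : Continuous c) (hκ : Continuous κ) (h0 : c 0 = 0)
    (hper : ∀ y, ∀ k : ℤ, κ (y + k) = κ y) : ∃ h : S3 ≃ₜ S3, ∀ ζ, ∀ s ∈ Icc (0 : ℝ) 1,
      h (pt ζ s) = pt ((starRingEnd ℂ) ζ + (c s * κ ζ.re : ℝ) * I) s := by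
  refine descend_pt (fun x => ((starRingEnd ℂ) x.1 + (c x.2 * κ x.1.re : ℝ) * I, x.2))
    (by fun_prop) (fun _ h => h) ?_ fun y hy => ?_
  · rintro ⟨ζ, s⟩ ⟨ζ', s'⟩ hs hs'
    rw [pt_eq_iff hs hs', pt_eq_iff hs hs']
    refine and_congr_right ?_
    rintro (rfl : s = s')
    simp only [add_im, add_re, conj_im, conj_re, mul_I_im, mul_I_re, ofReal_re, ofReal_im, neg_zero,
      add_zero]
    refine and_congr_left fun h => imp_congr_right fun _ => ?_
    have e : c s * κ ζ'.re = c s * κ ζ.re := by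
      rcases hs.1.eq_or_lt with e | e
      · rw [← (show (0 : ℝ) = s from e), h0, zero_mul, zero_mul]
      · obtain ⟨k, hk⟩ := h e
        rw [hk, hper]
    rw [e]
    exact ⟨fun ⟨m, hm⟩ => ⟨-m, by push_cast; linarith only [hm]⟩, fun ⟨m, hm⟩ => ⟨-m, by push_cast; linarith⟩⟩
  · refine ⟨((starRingEnd ℂ) y.1 + (c y.2 * κ y.1.re : ℝ) * I, y.2), hy, ?_⟩
    congr 1
    apply Complex.ext <;> simp

theorem homeo_top {c κ : ℝ → ℝ} (hc : Continuous c) (hκ : Continuous κ) (h0 : c 1 = 0)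
    (hper : ∀ y, ∀ k : ℤ, κ (y + k) = κ y) : ∃ h : S3 ≃ₜ S3, ∀ ζ, ∀ s ∈ Icc (0 : ℝ) 1,
      h (pt ζ s) = pt (-(starRingEnd ℂ) ζ + (c s * κ ζ.im : ℝ)) s := by
  obtain ⟨h, hh⟩ := homeo_bot (c := fun s => c (1 - s)) (by fun_prop) hκ (by simpa using h0) hper
  refine ⟨pushSw.trans (h.trans pushSw), fun ζ s hs => ?_⟩
  simp only [Homeomorph.trans_apply]
  rw [pushSw_pt, hh _ _ ⟨by linarith [hs.2], by linarith [hs.1]⟩, pushSw_pt, sub_sub_cancel]
  congr 1
  apply Complex.ext <;> simp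

theorem sym_eqv (h : Adm w γ) (u b : ℤ) (h0 : ∀ s ≤ 1 / 12, γ s = γ 0) (h0' : (γ 0).im ≤ 1 / 4)
    (h1 : ∀ s, 11 / 12 ≤ s → γ s = γ 1) (h1' : w - 1 / 4 ≤ (γ 1).re) :
    Eqv (symKnot (fun s => (γ (2 * s - 1 / 2) - u) / 2) (1 / 4) (3 / 4) ((w - u + b * I) / 2))
      (knot γ) := by
  have hc := h.cont
  have e : (fun s : ℝ => 2 * ((γ (2 * (1 / 4 + s * (3 / 4 - 1 / 4)) - 1 / 2) - u) / 2)) =
      fun s => γ s + (-u : ℤ) := funext fun s => by
    rw [show 2 * (1 / 4 + s * (3 / 4 - 1 / 4)) - 1 / 2 = s by ring]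
    push_cast
    ring
  have e1 := braid (z := fun s => (γ (2 * s - 1 / 2) - u) / 2) (by fun_prop) (s₀ := 1 / 4)
    (s₁ := 3 / 4) (η := 1 / 24) (by norm_num) (by norm_num) (by norm_num) (by norm_num)
    (v := (w - u + b * I) / 2) (w := w + -u) (b := b) (by push_cast; ring) (fun s hs _ => ?_)
    (fun s hs _ => ?_) (e ▸ h.add_int (-u))
  · rwa [e, knot_add_int] at e1
  · rw [h0 (2 * s - 1 / 2) (by linarith only [hs, hs.2]), h0 (2 * (1 / 4) - 1 / 2) (by norm_num)]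
    refine ⟨⟨1, by simp⟩, ?_⟩
    simp only [div_ofNat_im, sub_im, intCast_im]
    constructor <;> linarith only [h, h0', h.bot.1]
  · rw [h1 (2 * s - 1 / 2) (by linarith only [hs, hs.1]), h1 (2 * (3 / 4) - 1 / 2) (by norm_num)]
    refine ⟨⟨1, by simp⟩, ?_⟩
    simp only [div_ofNat_re, sub_re, add_re, intCast_re, mul_I_re, intCast_im]
    constructor <;> linarith only [h, h1', h.top.2]

theorem sym_map {h : S3 ≃ₜ S3} {F : ℂ → ℝ → ℂ} (hh : ∀ ζ, ∀ s ∈ Icc (0 : ℝ) 1, h (pt ζ s) = pt (F ζ s) s)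
    {z z' : ℝ → ℂ} {v v' : ℂ}
    (h1 : ∀ s ∈ Icc (1 / 4 : ℝ) (3 / 4), F (z s) s = z' s ∧ F (-z s) s = -z' s)
    (h2 : ∀ t ∈ Icc (-1 : ℝ) 1, F (t * z (1 / 4)) (1 / 4) = t * z' (1 / 4))
    (h3 : ∀ t ∈ Icc (-1 : ℝ) 1, F (v + t * (z (3 / 4) - v)) (3 / 4) = v' + t * (z' (3 / 4) - v')) :
    Eqv (symKnot z (1 / 4) (3 / 4) v) (symKnot z' (1 / 4) (3 / 4) v') := by
  have hI : ∀ s ∈ Icc (1 / 4 : ℝ) (3 / 4), s ∈ Icc (0 : ℝ) 1 := fun s hs =>
    ⟨by linarith only [hs, hs.1], by linarith [hs.2]⟩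
  refine ⟨h, ?_⟩
  simp only [symKnot, image_union, image_image]
  congr 1
  · congr 1
    · congr 1
      · exact image_congr fun s hs => by rw [hh _ _ (hI s hs), (h1 s hs).1]
      · exact image_congr fun s hs => by rw [hh _ _ (hI s hs), (h1 s hs).2]
    · exact image_congr fun t ht => by rw [hh _ _ (by norm_num), h2 t ht]
  · exact image_congr fun t ht => by rw [hh _ _ (by norm_num), h3 t ht]

theorem walk_map {F : (ℤ × ℤ) × Bool → (ℤ × ℤ) × Bool} {f : ℤ → ℤ}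
    (h : ∀ d, dsrc gs gt (F d) = f (dsrc gs gt d) ∧ dtgt gs gt (F d) = f (dtgt gs gt d))
    {u v : ℤ} {L : List ((ℤ × ℤ) × Bool)} (hw : Walk gs gt u L v) :
    Walk gs gt (f u) (L.map F) (f v) := by
  induction hw with
  | nil => exact Walk.nil _
  | cons d _ ih =>
    rw [← (h d).1]
    exact Walk.cons _ ((h d).2 ▸ ih)

theorem Rep.flip_bot {L : List ((ℤ × ℤ) × Bool)} (h : Rep w γ u L) :
    ∃ γ', Rep w γ' u (L.map fun d => ((d.1.1, -1 - d.1.2), d.2)) ∧ Eqv (knot γ) (knot γ') := by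
  obtain ⟨h1, h2, h3⟩ := h
  have hc := Path_cl_cont
  have a0 : 0 < ((u + 1 / 8 : ℝ) + (1 / 8 : ℝ) * I).im ∧ ((u + 1 / 8 : ℝ) + (1 / 8 : ℝ) * I).im < 1 := by
    norm_num
  have a1 : (w : ℝ) - 1 < ((w - 1 / 8 : ℝ) : ℂ).re ∧ ((w - 1 / 8 : ℝ) : ℂ).re < w := by
    rw [ofReal_re]
    constructor <;> linarith only []
  have e1 := std_eqv h1 a0 a1
  have hA := std_adm h1 a0 a1 (t := 1) ⟨zero_le_one, le_rfl⟩
  have v1 := fun (G : Type) [Group G] (g : ℤ → ℤ → G) (W : ℤ → G) hW =>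
    std_val hW h1 a0 a1 (h3 G g W hW)
  have d0 : ∀ s ≤ 1 / 6, std γ _ _ 1 s = (u + 1 / 8 : ℝ) + (1 / 8 : ℝ) * I :=
    fun s => std_start (a₁ := (w - 1 / 8 : ℝ))
  have d1 : ∀ s, 5 / 6 ≤ s → std γ _ _ 1 s = (w - 1 / 8 : ℝ) :=
    fun s => std_end (a₀ := (u + 1 / 8 : ℝ) + (1 / 8 : ℝ) * I)
  generalize std γ _ _ 1 = δ at e1 hA v1 d0 d1
  have hδ := hA.cont
  let γ' : ℝ → ℂ := fun s => (starRingEnd ℂ) (δ s) + ((1 - cl (12 * s - 1)) / 4 : ℝ) * I
  have g1 : ∀ s, 1 / 6 ≤ s → γ' s = (starRingEnd ℂ) (δ s) := fun s hs => by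
    simp [γ', Path_cl_one (show 1 ≤ 12 * s - 1 by linarith only [hs])]
  have g2 : ∀ s ≤ 1 / 6, (γ' s).re = u + 1 / 8 := fun s hs => by simp [γ', d0 s hs]
  have g3 : ∀ s ≤ 1 / 12, γ' s = (u + 1 / 8 : ℝ) + (1 / 8 : ℝ) * I := fun s hs => by
    simp only [γ', d0 s (by linarith only [hs]), Path_cl_zero (show 12 * s - 1 ≤ 0 by linarith only [hs])]
    apply Complex.ext <;> simp
    norm_num
  have g4 : ∀ s, 5 / 6 ≤ s → γ' s = (w - 1 / 8 : ℝ) := fun s hs => by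
    rw [g1 s (by linarith only [hs]), d1 s hs, conj_ofReal]
  have hA' : Adm w γ' := by
    refine ⟨by fun_prop, fun s hs k m e => ?_, g3 0 (by norm_num) ▸ a0, g4 1 (by norm_num) ▸ a1⟩
    rcases le_total s (1 / 6) with c | c
    · exact not_int (c := u) (k := k) (x := (γ' s).re) (by linarith only [g2 s c])
        (by linarith only [g2 s c]) (by simp [e])
    · refine hA.avoid s hs k (-m) ?_
      rw [← conj_conj (δ s), ← g1 s c, e]
      simp
  have f0 : ⌊(((u + 1 / 8 : ℝ) : ℂ) + (1 / 8 : ℝ) * I).re⌋ = u := by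
    rw [Int.floor_eq_iff]
    constructor <;> simp <;> norm_num
  refine ⟨γ', ⟨hA', walk_map (f := id) (F := fun d => ((d.1.1, -1 - d.1.2), d.2))
    (fun d => ⟨rfl, rfl⟩) h2, fun G _ g W hW => ?_⟩, ?_⟩
  · obtain ⟨W', hW', e⟩ := exists_pot (fun c => g c (-1 - 0)) u (W u)
    have v2 := (v1 G (fun c n => g c (-1 - n)) W' hW').conj hδ fun s hs =>
      hA.avoid s ⟨by linarith only [hs.1], by linarith only [hs.2]⟩
    have e2 : wv g (L.map fun d => ((d.1.1, -1 - d.1.2), d.2)) = wv (fun c n => g c (-1 - n)) L := by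
      rw [wv, List.map_map]
      rfl
    rw [f0, e] at v2
    rw [g3 0 (by norm_num), f0, e2]
    exact ((Val.cell hA'.cont (a := 0) (b := 1 / 6) (by norm_num) (c := u)
      (fun s hs => by constructor <;> linarith only [g2 s hs.2]) _).trans (by norm_num) (by norm_num)
      (v2.congr fun s hs => g1 s hs.1)).trans (by norm_num) (by norm_num)
      (Val.const (fun s hs => g4 s hs.1) _)
  · obtain ⟨κ, k1, k2, k3⟩ := Braid_tri
    obtain ⟨h, hh⟩ := homeo_bot (c := fun s => 2 * (1 - cl (12 * (2 * s - 1 / 2) - 1)) * cl (4 * s))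
      (by fun_prop) k1 (by simp [Path_cl_zero]) k2
    have e2 := sym_eqv hA u 0 (fun s hs => by rw [d0 s (by linarith only [hs]), d0 0 (by norm_num)])
      (by rw [d0 0 (by norm_num)]; norm_num)
      (fun s hs => by rw [d1 s (by linarith only [hs]), d1 1 (by norm_num)])
      (by rw [d1 1 (by norm_num), ofReal_re]; linarith only [])
    have e3 := sym_eqv hA' u 0 (fun s hs => by rw [g3 s hs, g3 0 (by norm_num)])
      (by rw [g3 0 (by norm_num)]; norm_num)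
      (fun s hs => by rw [g4 s (by linarith only [hs]), g4 1 (by norm_num)])
      (by rw [g4 1 (by norm_num), ofReal_re]; linarith only [])
    refine e1.trans (e2.symm.trans (Eqv.trans (sym_map hh (fun s hs => ?_) (fun t ht => ?_)
      fun t ht => ?_) e3))
    · rw [Path_cl_one (x := 4 * s) (by linarith only [hs.1])]
      rcases le_total (2 * s - 1 / 2) (1 / 6) with c | c
      · have r : ((δ (2 * s - 1 / 2) - u) / 2).re = 1 / 16 := by
          rw [d0 _ c]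
          simp
          norm_num
        rw [neg_re, r, k3 _ (by norm_num) (by norm_num), k3 _ (by norm_num) (by norm_num)]
        simp only [γ', map_div₀, map_sub, map_neg, map_intCast, map_ofNat]
        push_cast
        constructor <;> ring
      · rw [g1 _ c, Path_cl_one (show 1 ≤ 12 * (2 * s - 1 / 2) - 1 by linarith only [c])]
        simp [map_ofNat]
    · have r : ((t : ℂ) * ((δ (2 * (1 / 4) - 1 / 2) - u) / 2)).re = t / 16 := by
        rw [d0 _ (by norm_num)]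
        simp
        ring
      rw [r, k3 _ (by linarith only [ht.1]) (by linarith only [ht.2]), Path_cl_one (x := 4 * (1 / 4)) (by norm_num)]
      simp only [γ', map_div₀, map_sub, map_mul, conj_ofReal, map_intCast, map_ofNat]
      push_cast
      ring
    · rw [g1 _ (by norm_num), Path_cl_one (x := 12 * (2 * (3 / 4) - 1 / 2) - 1) (by norm_num)]
      simp [map_ofNat]

theorem Rep.flip_top {L : List ((ℤ × ℤ) × Bool)} {n : ℤ} (h : Rep w γ u (L ++ [((w, n), false)])) :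
    ∃ γ', Rep (-w) γ' (-u - 1) (L.map fun d => ((-d.1.1, d.1.2), !d.2)) ∧
      Eqv (knot γ) (knot γ') := by
  obtain ⟨h1, h2, h3⟩ := h
  have hc := Path_cl_cont
  have a0 : 0 < ((u + 1 / 2 : ℝ) + (1 / 8 : ℝ) * I).im ∧ ((u + 1 / 2 : ℝ) + (1 / 8 : ℝ) * I).im < 1 := by
    norm_num
  have r0 : ((u + 1 / 2 : ℝ) + (1 / 8 : ℝ) * I).re = u + 1 / 2 := by simp
  have r1 : ((w - 1 / 8 : ℝ) + (n + 7 / 8 : ℝ) * I).re = w - 1 / 8 := by simp
  have a1 : (w : ℝ) - 1 < ((w - 1 / 8 : ℝ) + (n + 7 / 8 : ℝ) * I).re ∧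
      ((w - 1 / 8 : ℝ) + (n + 7 / 8 : ℝ) * I).re < w := by
    rw [r1]
    constructor <;> linarith only []
  have e1 := std_eqv h1 a0 a1
  have hA := std_adm h1 a0 a1 (t := 1) ⟨zero_le_one, le_rfl⟩
  have v1 := fun (G : Type) [Group G] (g : ℤ → ℤ → G) (W : ℤ → G) hW =>
    std_val hW h1 a0 a1 (h3 G g W hW)
  have d0 : ∀ s ≤ 1 / 6, std γ _ _ 1 s = (u + 1 / 2 : ℝ) + (1 / 8 : ℝ) * I :=
    fun s => std_start (a₁ := (w - 1 / 8 : ℝ) + (n + 7 / 8 : ℝ) * I)
  have d1 : ∀ s, 5 / 6 ≤ s → std γ _ _ 1 s = (w - 1 / 8 : ℝ) + (n + 7 / 8 : ℝ) * I :=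
    fun s => std_end (a₀ := (u + 1 / 2 : ℝ) + (1 / 8 : ℝ) * I)
  generalize std γ _ _ 1 = δ at e1 hA v1 d0 d1
  have hδ := hA.cont
  let γ' : ℝ → ℂ := fun s => -(starRingEnd ℂ) (δ s) - (cl (12 * s - 10) / 4 : ℝ)
  have g1 : ∀ s ≤ 5 / 6, γ' s = -(starRingEnd ℂ) (δ s) := fun s hs => by
    simp [γ', Path_cl_zero (show 12 * s - 10 ≤ 0 by linarith only [hs])]
  have g2 : ∀ s, 5 / 6 ≤ s → (γ' s).im = n + 7 / 8 := fun s hs => by
    simp [γ', d1 s hs, map_ofNat]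
  have g3 : ∀ s ≤ 1 / 6, γ' s = (-u - 1 / 2 : ℝ) + (1 / 8 : ℝ) * I := fun s hs => by
    rw [g1 s (by linarith only [hs]), d0 s hs]
    apply Complex.ext <;> simp
    ring
  have g4 : ∀ s, 11 / 12 ≤ s → γ' s = (-w - 1 / 8 : ℝ) + (n + 7 / 8 : ℝ) * I := fun s hs => by
    simp only [γ', d1 s (by linarith only [hs]), Path_cl_one (show 1 ≤ 12 * s - 10 by linarith only [hs])]
    apply Complex.ext <;> simp [map_ofNat]
    ring
  have g5 : (γ' 1).re = -w - 1 / 8 := by rw [g4 1 (by norm_num)]; simp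
  have hA' : Adm (-w) γ' := by
    refine ⟨by fun_prop, fun s hs k m e => ?_, by rw [g3 0 (by norm_num)]; norm_num,
      by rw [g5]; push_cast; constructor <;> linarith only []⟩
    rcases le_total s (5 / 6) with c | c
    · refine hA.avoid s hs (-k) m ?_
      rw [← conj_conj (δ s), ← neg_neg ((starRingEnd ℂ) (δ s)), ← g1 s c, e]
      simp [add_comm]
    · exact not_int (c := n) (k := m) (x := (γ' s).im) (by linarith only [g2 s c])
        (by linarith only [g2 s c]) (by simp [e])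
  obtain ⟨v, w1, w2⟩ := walk_split h2
  obtain rfl : v = w := (walk_inv _ _ w2).1
  refine ⟨γ', ⟨hA', walk_map (f := fun c => -c - 1) (fun ⟨d, b⟩ => ?_) w1, fun G _ g W hW => ?_⟩, ?_⟩
  · cases b <;> simp [dsrc, dtgt, gs, gt]
  · have f0 : ⌊(u : ℝ) + 1 / 2⌋ = u := Int.floor_eq_iff.2 ⟨by linarith only [], by linarith only []⟩
    have f1 : ⌊(v : ℝ) - 1 / 8⌋ = v - 1 := floor_pred (by linarith only []) (by linarith only [])
    have v2 := (v1 G (fun c n => (g (-c) n)⁻¹) (fun c => W (-c - 1)) fun c => by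
      beta_reduce
      rw [show -(c - 1) - 1 = -c by ring, ← hW (-c), mul_inv_cancel_right]).mirror hδ
      (fun s hs => hA.avoid s ⟨by linarith only [hs.1], by linarith only [hs.2]⟩)
      (by rw [d0 _ le_rfl, r0, f0]; linarith only []) (by rw [d1 _ le_rfl, r1, f1]; push_cast; linarith only [])
    have e2 : wv g (L.map fun d => ((-d.1.1, d.1.2), !d.2)) = wv (fun c n => (g (-c) n)⁻¹) L := by
      rw [wv, List.map_map]
      congr 2
      funext ⟨d, b⟩
      cases b <;> simp [dval]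
    obtain ⟨W', hW', e⟩ := exists_pot (fun c => g c n) (-v - 1)
      (W (-u - 1) * wv (fun c n => (g (-c) n)⁻¹) L)
    have v3 := Val.chan hA'.cont (lo := fun _ => n) hW' (a := 5 / 6) (b := 1) fun s hs _ _ => by
      constructor <;> linarith only [g2 s hs.1]
    have f2 : ⌊(γ' 0).re⌋ = -u - 1 := by
      rw [g3 0 (by norm_num), Int.floor_eq_iff]
      constructor <;> simp <;> linarith only []
    have f3 : ⌊(γ' (5 / 6)).re⌋ = -v := by
      rw [g1 _ le_rfl, d1 _ le_rfl, neg_re, conj_re, r1, Int.floor_eq_iff]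
      constructor <;> push_cast <;> linarith only []
    have f4 : ⌊(γ' 1).re⌋ = -v - 1 := by
      rw [g5]
      apply floor_pred <;> push_cast <;> linarith only []
    rw [f3, f4, ← hW' (-v), e] at v3
    rw [r0, f0, wv_append, wv_cons, wv_nil, ← mul_assoc] at v2
    simp only [Bool.false_eq_true, if_false, inv_inv, mul_one] at v2
    rw [f2, e2]
    exact ((Val.const (fun s hs => g3 s hs.2) _).trans (by norm_num) (by norm_num)
      (v2.congr fun s hs => g1 s hs.2)).trans (by norm_num) (by norm_num) v3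
  · obtain ⟨κ, k1, k2, k3⟩ := Braid_tri
    obtain ⟨h, hh⟩ := homeo_top (c := fun s => 2 * cl (12 * (2 * s - 1 / 2) - 10) * cl (4 - 4 * s))
      (κ := fun y => κ (y - (n + 1) / 2)) (by fun_prop) (by fun_prop) (by simp [Path_cl_zero])
      fun y k => by rw [add_sub_right_comm, k2]
    have e2 := sym_eqv hA 0 (n + 1) (fun s hs => by rw [d0 s (by linarith only [hs]), d0 0 (by norm_num)])
      (by rw [d0 0 (by norm_num)]; norm_num)
      (fun s hs => by rw [d1 s (by linarith only [hs]), d1 1 (by norm_num)])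
      (by rw [d1 1 (by norm_num), r1]; linarith only [])
    have e3 := sym_eqv hA' 0 (n + 1) (fun s hs => by rw [g3 s (by linarith only [hs]), g3 0 (by norm_num)])
      (by rw [g3 0 (by norm_num)]; norm_num) (fun s hs => by rw [g4 s hs, g4 1 (by norm_num)])
      (by rw [g5]; push_cast; linarith only [])
    refine e1.trans (e2.symm.trans (Eqv.trans (sym_map hh (fun s hs => ?_) (fun t ht => ?_)
      fun t ht => ?_) e3))
    · rw [Path_cl_one (x := 4 - 4 * s) (by linarith only [hs.2])]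
      rcases le_total (2 * s - 1 / 2) (5 / 6) with c | c
      · rw [g1 _ c, Path_cl_zero (show 12 * (2 * s - 1 / 2) - 10 ≤ 0 by linarith only [c])]
        simp [neg_div, map_ofNat]
      · have r : ((δ (2 * s - 1 / 2) - (0 : ℤ)) / 2).im = (n + 1) / 2 - 1 / 16 := by
          rw [d1 _ c]
          simp
          ring
        have r' : -(((n : ℝ) + 1) / 2 - 1 / 16) - (n + 1) / 2 = 1 / 16 + (-(n + 1) : ℤ) := by
          push_cast
          ring
        rw [neg_im, r, r', k2, sub_sub_cancel_left, k3 _ (by norm_num) (by norm_num),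
          k3 _ (by norm_num) (by norm_num)]
        simp only [γ', map_div₀, map_sub, map_neg, map_intCast, map_ofNat]
        push_cast
        constructor <;> ring
    · rw [g1 _ (by norm_num), Path_cl_zero (x := 12 * (2 * (1 / 4) - 1 / 2) - 10) (by norm_num)]
      simp [neg_div, map_ofNat]
    · have r : (((v : ℂ) - (0 : ℤ) + (n + 1 : ℤ) * I) / 2 + (t : ℂ) * ((δ (2 * (3 / 4) - 1 / 2) -
          (0 : ℤ)) / 2 - (v - (0 : ℤ) + (n + 1 : ℤ) * I) / 2)).im - (n + 1) / 2 = -(t / 16) := by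
        rw [d1 _ (by norm_num)]
        simp
        ring
      rw [r, k3 _ (by linarith only [ht.2]) (by linarith only [ht.1]),
        Path_cl_one (x := 4 - 4 * (3 / 4)) (by norm_num)]
      simp only [γ', map_div₀, map_sub, map_add, map_mul, conj_ofReal, map_intCast, map_ofNat,
        conj_I, Path_cl_one (x := 12 * (2 * (3 / 4) - 1 / 2) - 10) (by norm_num)]
      push_cast
      ring

end AllOne
end
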