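import Pool.Agent.Work.MP_d5331a_gt.OO.Stmt
import Pool.Agent.Work.MP_d5331a_gt.A1.Flip
import Pool.Agent.Work.MP_d5331a_gt.NonComm

-- merged part: Pool.Agent.Work.MP_d5331a_gt.OO.Transport
section
-- merged part: Pool.Agent.Work.MP_d5331a_gt.OO.Up
section
/-!
Knots in level position. Level `i` (for `1 ≤ i ≤ l`) is the closed geodesic of direction
`lam i = p i + q i * I` through `β (i - 1)` and `β i = β (i - 1) + lam i / 2` on the torus of depth
`i`; consecutive levels are joined by one twisted band at `β j`.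

The definitions mirror those of the file `Up` of the parent directory. New: every region `r` has
its own time `tm r (ζ - β r)` and angle `L r (ζ - β r)`; the pair `(tm r, L r)` is a unimodular
system of coordinates. Bands of slabs that are not adjacent may have the same centre.
-/

set_option autoImplicit false

open Complex Set Classical

namespace OneOne

open Neuwirth

/-- Data of a knot in level position. -/
structure Lev where
  l : ℕ
  p : ℕ → ℤ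
  q : ℕ → ℤ
  C : ℕ → ℤ
  D : ℕ → ℤ
  e : ℕ → ℝ
  ω : ℕ → ℂ
  a : ℕ → ℝ
  b : ℕ → ℝ
  ε : ℝ

/-- Arcs: a gap crossing the time of a wall, or a neck arc. -/
inductive Arc
  | tm (i : ℕ) (a m : ℤ)
  | nk (j : ℕ) (β : ℂ) (σ : ℝ)

/-- Label of a wall of region `j`. -/
noncomputable def labD (j : ℕ) (k : ℤ) : Grp := T k * S (j, 0) * T (-k)

namespace Lev

variable (M : Lev)

/-- Only the depth and the matrix of angles of these data are used. -/
def nest : Nest where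
  l := M.l
  n := fun _ => 1
  q := fun _ => 0
  α := fun _ _ => 0
  e := fun _ => 1
  B := fun _ => ∅
  ε := 1
  a := 0
  b := 1
  c := 1
  d := 0

/-- The point of the 3-sphere with coordinates `(ζ, ρ)`. -/
noncomputable def E (x : ℂ × ℝ) : S3 := M.nest.E x

noncomputable def lam (i : ℕ) : ℂ := M.p i + M.q i * I

noncomputable def u (i : ℕ) : ℂ := M.lam i / (‖M.lam i‖ : ℝ)

noncomputable def β (j : ℕ) : ℂ := (∑ i ∈ Finset.Icc 1 j, M.lam i) / 2

/-- The centres of the bands of slab `j`. -/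
def B (j : ℕ) : Set ℂ := {x | 1 ≤ j ∧ j < M.l ∧ ∃ k m : ℤ, x = M.β j + (k + m * I)}

noncomputable def L (i : ℕ) (ζ : ℂ) : ℝ := M.q i * ζ.re - M.p i * ζ.im

noncomputable def tm (i : ℕ) (ζ : ℂ) : ℝ := M.C i * ζ.re + M.D i * ζ.im

/-- The angle of a band of slab `j` at height `s`. -/
noncomputable def ang (j : ℕ) (s : ℝ) : ℝ := 2 * (M.a j * min s 0 + M.b j * max s 0)

/-- The direction of a band of slab `j` at height `s`. -/
noncomputable def dir (j : ℕ) (s : ℝ) : ℂ := M.ω j * exp ((M.ang j s : ℂ) * I)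

/-- The value of `tm r` on `lam i`. -/
def nn (r i : ℕ) : ℤ := M.C r * M.p i + M.D r * M.q i

/-- The value of `L r` on `lam i`. -/
def qq (r i : ℕ) : ℤ := M.q r * M.p i - M.p r * M.q i

/-- The knot in the coordinates `(ζ, ρ)`. -/
def knotUp : Set (ℂ × ℝ) :=
  {x | ∃ i : ℕ, 1 ≤ i ∧ i ≤ M.l ∧ x.2 = i ∧ (∃ k : ℤ, M.L i (x.1 - M.β i) = k) ∧
    ∀ β ∈ M.B (i - 1) ∪ M.B i, M.ε ≤ ‖x.1 - β‖} ∪
  {x | ∃ j : ℕ, ∃ β ∈ M.B j, ∃ s σ : ℝ, |s| ≤ 1 / 2 ∧ (σ = 1 ∨ σ = -1) ∧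
    x = (β + ((σ * (M.ε / 2 + M.ε * |s|) : ℝ) : ℂ) * M.dir j s, j + 1 / 2 + s)}

/-- The knot in the 3-sphere. -/
def knot : Set S3 := M.E '' M.knotUp

/-- The conditions on the data. -/
structure Good : Prop where
  one_le : 1 ≤ M.l
  bez : ∀ i, M.C i * M.p i + M.D i * M.q i = 1
  nn_pos : ∀ j, 1 ≤ j → j < M.l → 0 < M.nn j (j + 1)
  nn_odd : ∀ j, 1 ≤ j → j < M.l → Odd (M.nn j (j + 1))
  sign : ∀ j, M.e j = 1 ∨ M.e j = -1
  norm_ω : ∀ j, ‖M.ω j‖ = 1
  tm_ω : ∀ j, M.tm j (M.ω j) = 0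
  start : ∀ j, 1 ≤ j → j < M.l → M.dir j (-(1 / 2)) = -M.e j * M.u j
  stop : ∀ j, 1 ≤ j → j < M.l → M.dir j (1 / 2) = M.e j * M.u (j + 1)
  a_mem : ∀ j, 1 ≤ j → j < M.l → 0 < M.e j * M.a j ∧ M.e j * M.a j < Real.pi
  b_mem : ∀ j, 1 ≤ j → j < M.l → 0 < M.e j * M.b j ∧ M.e j * M.b j < Real.pi
  taut : ∀ j, 1 ≤ j → j < M.l → M.e j * M.qq j (j + 1) ≤ 0
  ε_pos : 0 < M.ε
  small : ∀ i, i ≤ M.l → 64 * M.ε * (|M.p i| + |M.q i| + |M.C i| + |M.D i| : ℤ) ≤ 1

/-- `1 - r / ε` at distance `r < ε` from a band of slab `j`, zero elsewhere. -/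
noncomputable def bump (j : ℕ) (ζ : ℂ) : ℝ :=
  if h : ∃ β, β ∈ M.B j ∧ ‖ζ - β‖ < M.ε then 1 - ‖ζ - h.choose‖ / M.ε else 0

/-- The centre of the band near `ζ` that meets sheet `i`, or `ζ` itself. -/
noncomputable def ctr (i : ℕ) (ζ : ℂ) : ℂ :=
  if h : ∃ β, β ∈ M.B (i - 1) ∪ M.B i ∧ ‖ζ - β‖ < M.ε then h.choose else ζ

/-- The twist (`s = 1`) that straightens the knot on sheet `i`, and its inverse (`s = -1`). -/
noncomputable def tw (i : ℕ) (s : ℝ) (ζ : ℂ) : ℂ :=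
  M.ctr i ζ + (ζ - M.ctr i ζ) *
    exp (((2 * s * (M.b (i - 1) * M.bump (i - 1) ζ - M.a i * M.bump i ζ) : ℝ) : ℂ) * I)

/-- The coordinate whose integer levels are the strands of the knot on sheet `i`. -/
noncomputable def lin (i : ℕ) (ζ : ℂ) : ℝ := M.L i (M.tw i 1 ζ - M.β i)

/-- The depth of sheet `i`. -/
noncomputable def hgt (i : ℕ) (ζ : ℂ) : ℝ :=
  i + min (M.bump i ζ) (1 / 2) - min (M.bump (i - 1) ζ) (1 / 2)

def Sheet (i : ℕ) : Set (ℂ × ℝ) :=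
  {x | M.bump i x.1 ≤ 1 / 2 ∧ M.bump (i - 1) x.1 ≤ 1 / 2 ∧ x.2 = M.hgt i x.1}

/-- The surface. -/
def FUp : Set (ℂ × ℝ) := {x | ∃ i, 1 ≤ i ∧ i ≤ M.l ∧ x ∈ M.Sheet i}

/-- The surface minus the knot. -/
def YUp : Set (ℂ × ℝ) := M.FUp \ M.knotUp

def Reg (j : ℕ) : Set (ℂ × ℝ) :=
  {x | M.bump j x.1 ≤ 1 / 2 ∧ (j = 0 ∨ M.hgt j x.1 ≤ x.2) ∧ (j = M.l ∨ x.2 ≤ M.hgt (j + 1) x.1)}

/-- The side of parity `c`. -/
def SideUp (c : ℕ) : Set (ℂ × ℝ) :=
  {x | 0 ≤ x.2 ∧ x.2 ≤ M.l + 1 ∧ ∃ j, j ≤ M.l ∧ j % 2 = c ∧ x ∈ M.Reg j}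

/-- The part of sheet `i` between two neighbouring strands. -/
def Gap (i : ℕ) (a : ℤ) : Set (ℂ × ℝ) :=
  {x | x ∈ M.Sheet i ∧ a < M.lin i x.1 ∧ M.lin i x.1 < a + 1}

/-- The vector from a band to a point, in the rotating frame of the band. -/
noncomputable def unt (j : ℕ) (β : ℂ) (x : ℂ × ℝ) : ℂ :=
  (x.1 - β) * (starRingEnd ℂ) (M.dir j (x.2 - j - 1 / 2))

/-- One of the two strips into which the knot cuts the tube of the band `β` of slab `j`. -/
def Strip (j : ℕ) (β : ℂ) (σ : ℝ) : Set (ℂ × ℝ) :=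
  {x | |x.2 - j - 1 / 2| < 1 / 2 ∧ ‖x.1 - β‖ = M.ε / 2 + M.ε * |x.2 - j - 1 / 2| ∧
    0 < σ * (M.unt j β x).im}

/-- The index of the strand of level `i` through `β`. -/
noncomputable def ind (i : ℕ) (β : ℂ) : ℤ := ⌊M.L i (β - M.β i)⌋

/-- The gap of sheet `j` that contains the outer half of a strip. -/
noncomputable def go (j : ℕ) (β : ℂ) (σ : ℝ) : ℤ :=
  M.ind j β - if σ * M.e j = 1 then 0 else 1

/-- The gap of sheet `j + 1` that contains the inner half of a strip. -/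
noncomputable def gi (j : ℕ) (β : ℂ) (σ : ℝ) : ℤ :=
  M.ind (j + 1) β - if σ * M.e j = 1 then 1 else 0

/-- The integer time of region `r`. -/
noncomputable def ti (r : ℕ) (ζ : ℂ) : ℤ :=
  if 1 ≤ r ∧ r < M.l then ⌊M.tm r (ζ - M.β r)⌋ else 0

/-- The change of `ti r` along the lattice vector `k + m i`. -/
def tiZ (r : ℕ) (k m : ℤ) : ℤ := if 1 ≤ r ∧ r < M.l then M.C r * k + M.D r * m else 0

/-- The angle used in region `r`. -/
noncomputable def ph (r : ℕ) (ζ : ℂ) : ℝ :=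
  if r = 0 then ζ.im else if r = M.l then ζ.re else M.L r (ζ - M.β r)

/-- The change of `ph r` along the lattice vector `k + m i`. -/
def phZ (r : ℕ) (k m : ℤ) : ℤ :=
  if r = 0 then m else if r = M.l then k else M.q r * k - M.p r * m

/-- The surface in the 3-sphere. -/
def surf : Set S3 := M.E '' M.FUp

/-- The sides in the 3-sphere. -/
def side (c : ℕ) : Set S3 := M.E '' M.SideUp c

/-- Label of the disc spanning the neck of the band `β` of slab `j`. -/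
noncomputable def labE (j : ℕ) (β : ℂ) : Grp :=
  T ⌊M.ph (j - 1) β⌋ * S (j, 0) * T (-⌊M.ph (j + 1) β⌋)

/-- The chamber of a point of the side `c`. -/
noncomputable def ch (c : ℕ) (x : ℂ × ℝ) : ℕ × ℤ := (J c (sh x.2), M.ti (J c (sh x.2)) x.1)

/-- The label of the wall through a point of the side `c`. -/
noncomputable def wl (c : ℕ) (x : ℂ × ℝ) : Grp :=
  if x.2 + 1 / 2 = sh x.2 ∧ sh x.2 % 2 = c then M.labE (sh x.2 - 1) (M.ctr (sh x.2) x.1)
  else labD (J c (sh x.2)) ⌊M.ph (J c (sh x.2)) x.1⌋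

noncomputable def pot (c : ℕ) (x : ℂ × ℝ) : Grp := T ⌊M.ph (J c (sh x.2)) x.1⌋

/-- The cocycle of the side `c` in the coordinates `(ζ, ρ)`. -/
noncomputable def Lt (c : ℕ) (x z : ℂ × ℝ) : Grp :=
  if M.ch c z = M.ch c x then (M.pot c x)⁻¹ * M.pot c z
  else if J c (sh z.2) = Nest.Jm c x then (M.pot c x)⁻¹ * (M.wl c x)⁻¹ * M.pot c z else 1

/-- The cell of a point of the surface minus the knot. -/
noncomputable def cell (c : ℕ) (x : ℂ × ℝ) : ℕ × ℤ × ℤ :=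
  (sh x.2, ⌊M.lin (sh x.2) x.1⌋, M.ti (J c (sh x.2)) x.1)

/-- The time of region `r` on a neck arc. -/
noncomputable def tin (r j : ℕ) (β : ℂ) (σ : ℝ) : ℤ :=
  M.ti r β - if r = j ∧ σ ≠ 1 then 1 else 0

/-- The position of the gap `(i, a)` on the wall of time `m` of region `r`. -/
def kap (r i : ℕ) (a m : ℤ) : ℤ := (a + M.qq r i * m) / M.nn r i

noncomputable def src (c : ℕ) : Arc → ℕ × ℤ × ℤ
  | .tm i a m => (i, a, m - 1)
  | .nk j β σ => (j, M.go j β σ, M.tin (J c j) j β σ)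

noncomputable def tgt (c : ℕ) : Arc → ℕ × ℤ × ℤ
  | .tm i a m => (i, a, m)
  | .nk j β σ => (j + 1, M.gi j β σ, M.tin (J c (j + 1)) j β σ)

def valid (c : ℕ) : Arc → Prop
  | .tm i _ _ => 1 ≤ i ∧ i ≤ M.l ∧ 1 ≤ J c i ∧ J c i < M.l
  | .nk j β σ => β ∈ M.B j ∧ (σ = 1 ∨ σ = -1)

noncomputable def lab (c : ℕ) : Arc → Grp
  | .tm i a m => labD (J c i) (M.kap (J c i) i a m)
  | .nk j β _ => if j % 2 = c then 1 else M.labE j β

end Lev

end OneOne
end

-- merged part: Pool.Agent.Work.MP_d5331a_gt.A1.Bump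
section
/-!
Bumps, centres, twists and the sheared walls. Port of the file `Bump` of the directory `OO`.
-/

set_option autoImplicit false

open Complex Set

namespace AllOne

open Neuwirth OneOne

namespace Lev

variable {M : Lev} (hM : M.Good)
include hM
omit hM in
theorem Bump_half (n : ℤ) : ¬ |(n : ℝ) + 1 / 2| ≤ 1 / 16 := by
  intro h
  rw [abs_le] at h
  have h1 : (-1 : ℤ) < n := by exact_mod_cast (by linarith only [h] : (-1 : ℝ) < n)
  have h2 : n < (0 : ℤ) := by exact_mod_cast (by linarith only [h] : (n : ℝ) < 0)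
  omega

omit hM in
theorem Bump_int {n : ℤ} (h : |(n : ℝ)| < 1) : n = 0 :=
  Int.abs_lt_one_iff.1 (by exact_mod_cast h)

theorem Bump_adj {j : ℕ} {β β' : ℂ} (hβ : β ∈ M.B j) (hβ' : β' ∈ M.B (j + 1))
    (h : ‖β' - β‖ < 4 * M.ε) : False := by
  obtain ⟨-, -, k, m, rfl⟩ := hβ
  obtain ⟨-, h2, k', m', rfl⟩ := hβ'
  have h3 := tm_small hM h2.le h.le
  have e : M.β (j + 1) + (k' + m' * I) - (M.β j + (k + m * I)) =
      (((k' - k : ℤ) : ℂ) + (m' - m : ℤ) * I) + M.lam (j + 1) / 2 := by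
    rw [β_succ]
    push_cast
    ring
  rw [e, tm_add, tm_vec, tm_half, tm_lam, nn_self hM, Int.cast_one] at h3
  exact Bump_half _ h3


theorem band_unique {j j' : ℕ} {β β' : ℂ} (hβ : β ∈ M.B j) (hβ' : β' ∈ M.B j')
    (h1 : j ≤ j' + 1) (h2 : j' ≤ j + 1) (h : ‖β - β'‖ < 4 * M.ε) : j = j' ∧ β = β' := by
  rcases (by omega : j = j' ∨ j' = j + 1 ∨ j = j' + 1) with rfl | rfl | rfl
  · obtain ⟨k, m, rfl⟩ := band_diff hβ hβ'
    rw [sub_add_cancel_left, norm_neg] at h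
    have h3 : ‖(k : ℂ) + m * I‖ < 1 := by linarith only [h, hM, eps_le hM, hM.ε_pos]
    have h4 : k = 0 := Bump_int (by simpa using (abs_re_le_norm _).trans_lt h3)
    have h5 : m = 0 := Bump_int (by simpa using (abs_im_le_norm _).trans_lt h3)
    exact ⟨rfl, by simp [h4, h5]⟩
  · exact (Bump_adj hM hβ hβ' (by rwa [norm_sub_rev])).elim
  · exact (Bump_adj hM hβ' hβ h).elim
theorem Bump_close {j j' : ℕ} {β β' ζ : ℂ} (hβ : β ∈ M.B j) (hβ' : β' ∈ M.B j')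
    (h1 : j ≤ j' + 1) (h2 : j' ≤ j + 1) (h : ‖ζ - β‖ < 2 * M.ε) (h' : ‖ζ - β'‖ < M.ε) :
    j = j' ∧ β = β' := by
  refine band_unique hM hβ hβ' h1 h2 ?_
  have h3 := norm_sub_le_norm_sub_add_norm_sub β ζ β'
  rw [norm_sub_rev β ζ] at h3
  linarith only [h, h', h3, hM, hM.ε_pos]


theorem bump_near {j : ℕ} {β ζ : ℂ} (hβ : β ∈ M.B j) (h : ‖ζ - β‖ < 2 * M.ε) :
    M.bump j ζ = max 0 (1 - ‖ζ - β‖ / M.ε) := by
  unfold bump
  split_ifs with h'
  · have h0 := (Bump_close hM hβ h'.choose_spec.1 (by omega) (by omega) h h'.choose_spec.2).2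
    have h1 := h'.choose_spec.2
    rw [← h0] at h1
    rw [← h0, max_eq_right]
    exact sub_nonneg.2 ((div_le_one hM.ε_pos).2 h1.le)
  · rw [max_eq_left]
    exact sub_nonpos.2 ((one_le_div hM.ε_pos).2 (not_lt.1 fun h1 => h' ⟨β, hβ, h1⟩))

theorem bump_other {j j' : ℕ} {β ζ : ℂ} (hβ : β ∈ M.B j) (h : ‖ζ - β‖ < 2 * M.ε)
    (hj : j' = j + 1 ∨ j = j' + 1) : M.bump j' ζ = 0 := by
  refine dif_neg ?_
  rintro ⟨β', hβ', h'⟩
  have := (Bump_close hM hβ hβ' (by omega) (by omega) h h').1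
  omega
omit hM in
theorem Bump_mem {i : ℕ} {β : ℂ} :
    β ∈ M.B (i - 1) ∪ M.B i ↔ ∃ j, β ∈ M.B j ∧ (i = j ∨ i = j + 1) := by
  refine ⟨?_, ?_⟩
  · rintro (h | h)
    exacts [⟨i - 1, h, by omega⟩, ⟨i, h, Or.inl rfl⟩]
  · rintro ⟨j, h, rfl | rfl⟩
    exacts [Or.inr h, Or.inl h]


theorem ctr_near {i j : ℕ} {β ζ : ℂ} (hβ : β ∈ M.B j) (hi : i = j ∨ i = j + 1)
    (h : ‖ζ - β‖ < M.ε) : M.ctr i ζ = β := by
  have h' : ∃ β, β ∈ M.B (i - 1) ∪ M.B i ∧ ‖ζ - β‖ < M.ε := ⟨β, Bump_mem.2 ⟨j, hβ, hi⟩, h⟩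
  obtain ⟨h1, h2⟩ := h'.choose_spec
  obtain ⟨j', h3, h4⟩ := Bump_mem.1 h1
  rw [ctr, dif_pos h']
  exact (Bump_close hM hβ h3 (by omega) (by omega) (by linarith [hM.ε_pos]) h2).2.symm

theorem tw_near {i j : ℕ} {β ζ : ℂ} (hβ : β ∈ M.B j) (hi : i = j ∨ i = j + 1)
    (h : ‖ζ - β‖ < 2 * M.ε) (s : ℝ) : M.tw i s ζ = β + (ζ - β) *
      exp (((2 * s * (M.b (i - 1) * M.bump (i - 1) ζ - M.a i * M.bump i ζ) : ℝ) : ℂ) * I) := by
  rcases lt_or_ge ‖ζ - β‖ M.ε with h1 | h1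
  · rw [tw, ctr_near hM hβ hi h1]
  · have h2 : ∀ j', j' ≤ j + 1 → j ≤ j' + 1 → M.bump j' ζ = 0 := by
      intro j' h3 h4
      rcases eq_or_ne j' j with rfl | hj
      · rw [bump_near hM hβ h]
        exact max_eq_left (sub_nonpos.2 ((one_le_div hM.ε_pos).2 h1))
      · exact bump_other hM hβ h (by omega)
    simp [tw, h2 (i - 1) (by omega) (by omega), h2 i (by omega) (by omega)]

omit hM in
theorem bump_far {j : ℕ} {ζ : ℂ} (h : ∀ β ∈ M.B j, M.ε ≤ ‖ζ - β‖) : M.bump j ζ = 0 := by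
  refine dif_neg ?_
  rintro ⟨β, hβ, h'⟩
  exact h'.not_ge (h β hβ)

omit hM in
theorem ctr_far {i : ℕ} {ζ : ℂ} (h : ∀ β ∈ M.B (i - 1) ∪ M.B i, M.ε ≤ ‖ζ - β‖) :
    M.ctr i ζ = ζ := by
  refine dif_neg ?_
  rintro ⟨β, hβ, h'⟩
  exact h'.not_ge (h β hβ)

omit hM in
theorem tw_far {i : ℕ} {ζ : ℂ} (h : M.bump (i - 1) ζ = 0) (h' : M.bump i ζ = 0) (s : ℝ) :
    M.tw i s ζ = ζ := by
  simp [tw, h, h']

omit hM in
theorem exists_of_bump_ne {j : ℕ} {ζ : ℂ} (h : M.bump j ζ ≠ 0) :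
    ∃ β ∈ M.B j, ‖ζ - β‖ < M.ε := by
  by_contra h'
  exact h (bump_far fun β hβ => not_lt.1 fun h1 => h' ⟨β, hβ, h1⟩)

theorem bump_nonneg (j : ℕ) (ζ : ℂ) : 0 ≤ M.bump j ζ := by
  unfold bump
  split_ifs with h
  · exact sub_nonneg.2 ((div_le_one hM.ε_pos).2 h.choose_spec.2.le)
  · exact le_rfl

theorem bump_le_one (j : ℕ) (ζ : ℂ) : M.bump j ζ ≤ 1 := by
  unfold bump
  split_ifs with h
  · exact sub_le_self _ (div_nonneg (norm_nonneg _) hM.ε_pos.le)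
  · exact zero_le_one

omit hM in
theorem bump_zero (ζ : ℂ) : M.bump 0 ζ = 0 := by
  exact bump_far fun β hβ => absurd (band_range hβ).1 (by omega)

omit hM in
theorem bump_of_le {j : ℕ} (hj : M.l ≤ j) (ζ : ℂ) : M.bump j ζ = 0 := by
  exact bump_far fun β hβ => absurd (band_range hβ).2 (by omega)

/-- Bumps of adjacent slabs have disjoint supports. -/
theorem bump_eq_zero_or {j j' : ℕ} (hj : j' = j + 1 ∨ j = j' + 1) (ζ : ℂ) :
    M.bump j ζ = 0 ∨ M.bump j' ζ = 0 := by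
  refine or_iff_not_imp_left.2 fun h => ?_
  obtain ⟨β, hβ, h1⟩ := exists_of_bump_ne h
  exact bump_other hM hβ (by linarith [hM.ε_pos]) hj

theorem bump_le_half {j : ℕ} {ζ : ℂ} :
    M.bump j ζ ≤ 1 / 2 ↔ ∀ β ∈ M.B j, M.ε / 2 ≤ ‖ζ - β‖ := by
  have h0 := hM.ε_pos
  refine ⟨fun h β hβ => not_lt.1 fun h1 => ?_, fun h => ?_⟩
  · rw [bump_near hM hβ (by linarith only [h0, h1])] at h
    have h2 := (le_max_right _ _).trans h
    have h3 : ‖ζ - β‖ / M.ε < 1 / 2 := (div_lt_iff₀ h0).2 (by linarith only [h1])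
    linarith only [h2, h3]
  · unfold bump
    split_ifs with h'
    · have h3 : 1 / 2 ≤ ‖ζ - h'.choose‖ / M.ε :=
        (le_div_iff₀ h0).2 (by linarith only [h', h, h _ h'.choose_spec.1])
      linarith only [h', h3]
    · norm_num
omit hM in
theorem Bump_loc (S : Set ℂ) (ζ₀ : ℂ) : (∃ β ∈ S, ‖ζ₀ - β‖ < 2 * M.ε) ∨
    ∀ ζ, ‖ζ - ζ₀‖ < M.ε → ∀ β ∈ S, M.ε ≤ ‖ζ - β‖ := by
  refine or_iff_not_imp_left.2 fun h ζ hζ β hβ => ?_
  have h1 : 2 * M.ε ≤ ‖ζ₀ - β‖ := not_lt.1 fun h1 => h ⟨β, hβ, h1⟩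
  have h2 := norm_sub_le_norm_sub_add_norm_sub ζ₀ ζ β
  rw [norm_sub_rev ζ₀ ζ] at h2
  linarith

theorem Bump_cases (S : Set ℂ) (ζ : ℂ) : (∃ β ∈ S, ‖ζ - β‖ < 2 * M.ε) ∨
    ∀ β ∈ S, M.ε ≤ ‖ζ - β‖ :=
  (Bump_loc S ζ).imp_right fun h => h ζ (by simpa using hM.ε_pos)

omit hM in
theorem Bump_ev {β ζ₀ : ℂ} {r : ℝ} (h : ‖ζ₀ - β‖ < r) : ∀ᶠ ζ in nhds ζ₀, ‖ζ - β‖ < r :=
  (isOpen_lt (by fun_prop) continuous_const).mem_nhds h

omit hM in
theorem Bump_tw_far {i : ℕ} {ζ : ℂ} (h : ∀ β ∈ M.B (i - 1) ∪ M.B i, M.ε ≤ ‖ζ - β‖) (s : ℝ) :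
    M.tw i s ζ = ζ :=
  tw_far (bump_far fun β hβ => h β (Or.inl hβ)) (bump_far fun β hβ => h β (Or.inr hβ)) s

theorem Bump_norm_tw {i j : ℕ} {β ζ : ℂ} (hβ : β ∈ M.B j) (hi : i = j ∨ i = j + 1)
    (h : ‖ζ - β‖ < 2 * M.ε) (s : ℝ) : ‖M.tw i s ζ - β‖ = ‖ζ - β‖ := by
  rw [tw_near hM hβ hi h, add_sub_cancel_left, norm_mul, norm_exp_ofReal_mul_I, mul_one]


theorem continuous_bump (j : ℕ) : Continuous (M.bump j) := by
  refine continuous_iff_continuousAt.2 fun ζ₀ => ?_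
  rcases Bump_loc (M := M) (M.B j) ζ₀ with ⟨β, hβ, h⟩ | h
  · have h1 : Continuous fun ζ : ℂ => max 0 (1 - ‖ζ - β‖ / M.ε) := by fun_prop
    exact h1.continuousAt.congr ((Bump_ev h).mono fun ζ hζ => (bump_near hM hβ hζ).symm)
  · exact continuousAt_const.congr ((Bump_ev (β := ζ₀) (by simpa using hM.ε_pos)).mono
      fun ζ hζ => (bump_far (h ζ hζ)).symm)

theorem continuous_tw (i : ℕ) (s : ℝ) : Continuous (M.tw i s) := by
  refine continuous_iff_continuousAt.2 fun ζ₀ => ?_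
  rcases Bump_loc (M := M) (M.B (i - 1) ∪ M.B i) ζ₀ with ⟨β, hβ, h⟩ | h
  · obtain ⟨j, hβ, hi⟩ := Bump_mem.1 hβ
    have h2 := continuous_bump hM (i - 1)
    have h3 := continuous_bump hM i
    have h1 : Continuous fun ζ : ℂ => β + (ζ - β) * exp (((2 * s *
      (M.b (i - 1) * M.bump (i - 1) ζ - M.a i * M.bump i ζ) : ℝ) : ℂ) * I) := by fun_prop
    exact h1.continuousAt.congr ((Bump_ev h).mono fun ζ hζ => (tw_near hM hβ hi hζ s).symm)
  · exact continuousAt_id.congr ((Bump_ev (β := ζ₀) (by simpa using hM.ε_pos)).mono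
      fun ζ hζ => (Bump_tw_far (h ζ hζ) s).symm)

theorem continuous_lin (i : ℕ) : Continuous (M.lin i) := by
  exact (continuous_L i).comp ((continuous_tw hM i 1).sub continuous_const)

theorem continuous_hgt (i : ℕ) : Continuous (M.hgt i) := by
  have h2 := continuous_bump hM (i - 1)
  have h3 := continuous_bump hM i
  unfold hgt
  fun_prop

theorem bump_tw {i j : ℕ} (hi : i = j ∨ i = j + 1) (s : ℝ) (ζ : ℂ) :
    M.bump j (M.tw i s ζ) = M.bump j ζ := by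
  rcases Bump_cases hM (M.B (i - 1) ∪ M.B i) ζ with ⟨β, hβ, h⟩ | h
  · obtain ⟨j', hβ, hi'⟩ := Bump_mem.1 hβ
    have h1 := Bump_norm_tw hM hβ hi' h s
    rcases eq_or_ne j j' with rfl | hj
    · rw [bump_near hM hβ h, bump_near hM hβ (h1.trans_lt h), h1]
    · rw [bump_other hM hβ h (by omega), bump_other hM hβ (h1.trans_lt h) (by omega)]
  · rw [Bump_tw_far h]

theorem hgt_tw (i : ℕ) (s : ℝ) (ζ : ℂ) : M.hgt i (M.tw i s ζ) = M.hgt i ζ := by
  rw [hgt, hgt, bump_tw hM (Or.inl rfl), bump_tw hM (j := i - 1) (by omega)]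

theorem tw_tw (i : ℕ) (s : ℝ) (ζ : ℂ) : M.tw i (-s) (M.tw i s ζ) = ζ := by
  rcases Bump_cases hM (M.B (i - 1) ∪ M.B i) ζ with ⟨β, hβ, h⟩ | h
  · obtain ⟨j, hβ, hi⟩ := Bump_mem.1 hβ
    rw [tw_near hM hβ hi ((Bump_norm_tw hM hβ hi h s).trans_lt h), bump_tw hM (Or.inl rfl),
      bump_tw hM (j := i - 1) (by omega), tw_near hM hβ hi h, add_sub_cancel_left,
      mul_assoc (ζ - β), ← exp_add, ← add_mul, ← ofReal_add, mul_neg, neg_mul, add_neg_cancel]
    simp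
  · rw [Bump_tw_far h s, Bump_tw_far h]

theorem tw_tw' (i : ℕ) (ζ : ℂ) : M.tw i 1 (M.tw i (-1) ζ) = ζ := by
  simpa using tw_tw hM i (-1) ζ
omit hM in
theorem Bump_far_add {j : ℕ} {ζ : ℂ} (h : ∀ β ∈ M.B j, M.ε ≤ ‖ζ - β‖) (k m : ℤ) :
    ∀ β ∈ M.B j, M.ε ≤ ‖ζ + (k + m * I) - β‖ := by
  intro β hβ
  have h1 := h (β - (k + m * I)) ((band_add k m).1 (by rwa [sub_add_cancel]))
  rwa [← sub_add, ← add_sub_right_comm] at h1


theorem bump_add (j : ℕ) (ζ : ℂ) (k m : ℤ) : M.bump j (ζ + (k + m * I)) = M.bump j ζ := by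
  rcases Bump_cases hM (M.B j) ζ with ⟨β, hβ, h⟩ | h
  · have h1 := (band_add k m).2 hβ
    have h2 := congrArg norm (add_sub_add_right_eq_sub ζ β (k + m * I))
    rw [bump_near hM hβ h, bump_near hM h1 (h2.trans_lt h), h2]
  · rw [bump_far h, bump_far (Bump_far_add h k m)]

theorem ctr_add (i : ℕ) (ζ : ℂ) (k m : ℤ) :
    M.ctr i (ζ + (k + m * I)) = M.ctr i ζ + (k + m * I) := by
  by_cases h : ∃ β ∈ M.B (i - 1) ∪ M.B i, ‖ζ - β‖ < M.ε
  · obtain ⟨β, hβ, h⟩ := h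
    obtain ⟨j, hβ, hi⟩ := Bump_mem.1 hβ
    rw [ctr_near hM hβ hi h,
      ctr_near hM ((band_add k m).2 hβ) hi (by rwa [add_sub_add_right_eq_sub])]
  · have h' : ∀ β ∈ M.B (i - 1) ∪ M.B i, M.ε ≤ ‖ζ - β‖ :=
      fun β hβ => not_lt.1 fun h1 => h ⟨β, hβ, h1⟩
    rw [ctr_far h', ctr_far]
    rintro β (hβ | hβ)
    exacts [Bump_far_add (fun β hβ => h' β (Or.inl hβ)) k m β hβ,
      Bump_far_add (fun β hβ => h' β (Or.inr hβ)) k m β hβ]

theorem tw_add (i : ℕ) (s : ℝ) (ζ : ℂ) (k m : ℤ) :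
    M.tw i s (ζ + (k + m * I)) = M.tw i s ζ + (k + m * I) := by
  rw [tw, tw, ctr_add hM, bump_add hM, bump_add hM]
  ring

theorem lin_add (i : ℕ) (ζ : ℂ) (k m : ℤ) :
    M.lin i (ζ + (k + m * I)) = M.lin i ζ + ((M.q i * k - M.p i * m : ℤ) : ℝ) := by
  rw [lin, lin, tw_add hM, add_sub_right_comm, L_add, L_vec]

theorem hgt_add (i : ℕ) (ζ : ℂ) (k m : ℤ) : M.hgt i (ζ + (k + m * I)) = M.hgt i ζ := by
  simp only [hgt, bump_add hM]

omit hM in
theorem ind_add (i : ℕ) (β : ℂ) (k m : ℤ) :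
    M.ind i (β + (k + m * I)) = M.ind i β + (M.q i * k - M.p i * m) := by
  rw [ind, ind, add_sub_right_comm, L_add, L_vec, Int.floor_add_intCast]

omit hM in
theorem Bump_L_shift {i j : ℕ} (hi : i = j ∨ i = j + 1) (ζ : ℂ) :
    M.L i (ζ - M.β i) = M.L i (ζ - M.β j) := by
  rcases hi with rfl | rfl
  · rfl
  · rw [β_succ, ← sub_sub, L_sub _ _ (_ / 2), L_half, L_lam, qq_self]
    simp

omit hM in
theorem ind_eq {i j : ℕ} {β : ℂ} (hβ : β ∈ M.B j) (hi : i = j ∨ i = j + 1) :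
    (M.ind i β : ℝ) = M.L i (β - M.β i) := by
  obtain ⟨-, -, k, m, rfl⟩ := hβ
  rw [ind, Bump_L_shift hi, add_sub_cancel_left, L_vec, Int.floor_intCast]

theorem lin_near {i j : ℕ} {β ζ : ℂ} (hβ : β ∈ M.B j) (hi : i = j ∨ i = j + 1)
    (h : ‖ζ - β‖ < 2 * M.ε) :
    M.lin i ζ = M.ind i β + M.L i ((ζ - β) *
      exp (((2 * (M.b (i - 1) * M.bump (i - 1) ζ - M.a i * M.bump i ζ) : ℝ) : ℂ) * I)) := by
  rw [lin, ind_eq hβ hi, tw_near hM hβ hi h, add_sub_right_comm, L_add, mul_one]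

theorem Bump_L_u (i : ℕ) : M.L i (M.u i) = 0 := by simpa using L_u_mul hM i 1

omit hM in
theorem dz_add (x : ℝ) (k : ℤ) : moveDZ (x + k) = moveDZ x := by
  have h := moveDZ_lip (x + k) x k
  rw [sub_self, abs_zero, abs_nonpos_iff, sub_eq_zero] at h
  exact h

omit hM in
theorem dz_le (x : ℝ) (k : ℤ) : moveDZ x ≤ |x - k| := round_le x k

omit hM in
theorem dz_half (x : ℝ) : moveDZ x ≤ 1 / 2 := abs_sub_round x

omit hM in
theorem dz_eq_half (k : ℤ) : moveDZ (k + 1 / 2) = 1 / 2 := by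
  refine le_antisymm (dz_half _) ?_
  rw [moveDZ]
  rcases le_or_gt (round ((k : ℝ) + 1 / 2)) k with h | h
  · have h2 : ((round ((k : ℝ) + 1 / 2) : ℤ) : ℝ) ≤ k := by exact_mod_cast h
    linarith only [h2, le_abs_self ((k : ℝ) + 1 / 2 - round ((k : ℝ) + 1 / 2))]
  · have h2 : (k : ℝ) + 1 ≤ ((round ((k : ℝ) + 1 / 2) : ℤ) : ℝ) := by exact_mod_cast h
    linarith only [h2, neg_abs_le ((k : ℝ) + 1 / 2 - round ((k : ℝ) + 1 / 2))]

omit hM in
theorem wq_pos' (r : ℕ) : (1 : ℝ) ≤ M.wq r := by exact_mod_cast wq_pos (M := M) r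

omit hM in
theorem shear_mul (r : ℕ) (ζ : ℂ) :
    M.shear r ζ * M.wq r = max 0 (moveDZ (M.L (M.w r) (ζ - M.β r)) - 1 / 4) :=
  div_mul_cancel₀ _ (one_pos.trans_le (wq_pos' r)).ne'

omit hM in
theorem shear_nonneg (r : ℕ) (ζ : ℂ) : 0 ≤ M.shear r ζ :=
  div_nonneg (le_max_left _ _) (zero_le_one.trans (wq_pos' r))

omit hM in
theorem shear_le (r : ℕ) (ζ : ℂ) : M.shear r ζ ≤ 1 / 4 := by
  refine (le_mul_of_one_le_right (shear_nonneg r ζ) (wq_pos' (M := M) r)).trans ?_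
  rw [shear_mul]
  exact max_le (by norm_num) (by linarith only [dz_half (M.L (M.w r) (ζ - M.β r))])

omit hM in
theorem continuous_tt (r : ℕ) : Continuous (M.tt r) := by
  have h1 := continuous_tm (M := M) (M.w r)
  have h2 := continuous_L (M := M) (M.w r)
  have h3 := continuous_moveDZ
  unfold tt shear
  fun_prop

omit hM in
theorem tt_add (r : ℕ) (ζ : ℂ) (k m : ℤ) :
    M.tt r (ζ + (k + m * I)) = M.tt r ζ + ((M.C (M.w r) * k + M.D (M.w r) * m : ℤ) : ℝ) := by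
  rw [tt, tt, shear, shear, add_sub_right_comm, tm_add, tm_vec, L_add, L_vec, dz_add]
  ring

variable [hS : M.Ess]

theorem shear_near {r : ℕ} {β ζ : ℂ} (hβ : β ∈ M.B r) (h : ‖ζ - β‖ ≤ 4 * M.ε) :
    M.shear r ζ = 0 := by
  obtain ⟨h1, h2, k, m, rfl⟩ := hβ
  have h3 := Lw_small hM h1 h2 h
  have h4 := dz_le (M.L (M.w r) (ζ - M.β r)) (M.q (M.w r) * k - M.p (M.w r) * m)
  rw [← L_vec, ← L_sub, sub_sub] at h4
  rw [shear, max_eq_left (by linarith only [h3, h4]), zero_div]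

/-- The walls of a region miss the bands of the adjacent slabs. -/
theorem tt_adj {r j : ℕ} {β : ℂ} (hβ : β ∈ M.B j) (h1 : 1 ≤ r) (h2 : r < M.l)
    (hr : r = j + 1 ∨ j = r + 1) :
    ∃ m : ℤ, ∀ ζ, ‖ζ - β‖ ≤ 4 * M.ε → m < M.tt r ζ ∧ M.tt r ζ < m + 1 := by
  obtain ⟨i, k, m, e⟩ : ∃ (i : ℕ) (k m : ℤ), β - M.β r = M.lam i / 2 + (k + m * I) := by
    obtain ⟨-, -, k, m, rfl⟩ := hβ
    rcases hr with rfl | rfl
    · refine ⟨j + 1, k - M.p (j + 1), m - M.q (j + 1), ?_⟩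
      rw [β_succ, lam]
      push_cast
      ring
    · exact ⟨r + 1, k, m, by rw [β_succ]; ring⟩
  have e1 : ∀ ζ, M.tm (M.w r) (ζ - M.β r) = M.tm (M.w r) (ζ - β) + (M.nn (M.w r) i / 2 +
      (M.C (M.w r) * k + M.D (M.w r) * m : ℤ)) := fun ζ => by
    rw [← tm_vec, ← tm_lam, ← tm_half, ← tm_add, ← e, ← tm_add, sub_add_sub_cancel]
  have e2 : ∀ ζ, M.L (M.w r) (ζ - M.β r) = M.L (M.w r) (ζ - β) + (M.qq (M.w r) i / 2 +
      (M.q (M.w r) * k - M.p (M.w r) * m : ℤ)) := fun ζ => by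
    rw [← L_vec, ← L_lam, ← L_half, ← L_add, ← e, ← L_add, sub_add_sub_cancel]
  generalize M.C (M.w r) * k + M.D (M.w r) * m = A at e1
  generalize M.q (M.w r) * k - M.p (M.w r) * m = B at e2
  rcases Int.even_or_odd' (M.nn (M.w r) i) with ⟨c, hc | hc⟩
  · obtain ⟨d, hd⟩ := (not_even hM (M.w r) i).resolve_left (by
      rw [Int.not_odd_iff_even, hc]; exact even_two_mul c)
    refine ⟨c + A, fun ζ hζ => ?_⟩
    have h3 := tmw_small hM h1 h2 hζ
    have h3' := abs_le.1 (tmw_small' hM h1 h2 hζ)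
    have h4 := Lw_small hM h1 h2 hζ
    have h5 := moveDZ_lip (M.L (M.w r) (ζ - M.β r)) ((d + B : ℤ) + 1 / 2) 0
    rw [dz_eq_half] at h5
    have h6 : M.L (M.w r) (ζ - M.β r) - (((d + B : ℤ) : ℝ) + 1 / 2 + (0 : ℤ)) =
        M.L (M.w r) (ζ - β) := by
      rw [e2, hd]
      push_cast
      ring
    rw [h6] at h5
    have h7 : 3 / 16 ≤ M.shear r ζ * M.wq r := by
      rw [shear_mul]
      exact le_max_of_le_right (by linarith only [h4, h5, (abs_le.1 h5).1])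
    have h8 : |M.tm (M.w r) (ζ - β)| < M.shear r ζ :=
      lt_of_mul_lt_mul_right (by linarith only [h3, h7]) (zero_le_one.trans (wq_pos' (M := M) r))
    have h9 := shear_le (M := M) r ζ
    rw [tt, e1, hc]
    push_cast
    constructor <;> linarith only [h8, h3', h9, (abs_lt.1 h8).1]
  · refine ⟨c + A, fun ζ hζ => ?_⟩
    have h3' := abs_le.1 (tmw_small' hM h1 h2 hζ)
    have h9 := shear_le (M := M) r ζ
    have h8 := shear_nonneg (M := M) r ζ
    rw [tt, e1, hc]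
    push_cast
    constructor <;> linarith only [h3', h8, h9]

/-- the twisted direction of a band on a sheet -/
theorem Bump_dir {r i : ℕ} (hi : i = r ∨ i = r + 1) {β ζ : ℂ} (hβ : β ∈ M.B r)
    (h : ‖ζ - β‖ < 2 * M.ε) (h1 : M.bump i ζ ≤ 1 / 2) (h2 : M.bump (i - 1) ζ ≤ 1 / 2)
    (hk : i = r + 1 → M.k r * Real.pi ≤ 2 * (M.e r * M.b r) * (1 / 2 - M.bump r ζ)) :
    0 ≤ M.L i (M.ω r *
      exp (((2 * (M.b (i - 1) * M.bump (i - 1) ζ - M.a i * M.bump i ζ) : ℝ) : ℂ) * I)) := by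
  obtain ⟨r1, r2⟩ := band_range hβ
  have h0 := bump_nonneg hM r ζ
  rcases hi with rfl | rfl
  · have e : 2 * (M.b (i - 1) * M.bump (i - 1) ζ - M.a i * M.bump i ζ) = M.ang i (-M.bump i ζ) := by
      rw [bump_other hM hβ h (j' := i - 1) (by omega), ang_nonpos i (by linarith only [h0])]
      ring
    rw [e, ← dir]
    rcases h1.eq_or_lt with h3 | h3
    · rw [h3, hM.start i r1 r2, ← ofReal_neg, L_real_mul, Bump_L_u hM, mul_zero]
    · exact (L_dir_outer hM r1 r2 (by linarith only [h3]) (by linarith only [h0])).le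
  · rw [Nat.add_sub_cancel] at h2 ⊢
    have e : 2 * (M.b r * M.bump r ζ - M.a (r + 1) * M.bump (r + 1) ζ) = M.ang r (M.bump r ζ) := by
      rw [bump_other hM hβ h (j' := r + 1) (Or.inl rfl), ang_nonneg r h0]
      ring
    rw [e, ← dir]
    exact L_dir_inner hM r1 r2 h0 h2 (hk rfl)

/-- A point of a wall near a band lies on the line through the centre of the band. -/
theorem wall_near {r : ℕ} {β ζ : ℂ} (hβ : β ∈ M.B r) (h : ‖ζ - β‖ ≤ 4 * M.ε) {m : ℤ}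
    (ht : M.tt r ζ = m) : M.tm (M.w r) (β - M.β r) = m ∧ ∃ t : ℝ, ζ - β = t * M.ω r := by
  obtain ⟨h1, h2⟩ := band_range hβ
  rw [tt, shear_near hM hβ h, add_zero] at ht
  have t1 := tmw_small' hM h1 h2 h
  have t2 : M.tm (M.w r) (ζ - β) = m - M.tm (M.w r) (β - M.β r) := by
    rw [← ht, ← tm_sub, sub_sub_sub_cancel_right]
  have t3 : M.tm (M.w r) (β - M.β r) = m := by
    obtain ⟨-, -, k, m', rfl⟩ := hβ
    rw [add_sub_cancel_left, tm_vec] at t2 ⊢
    rw [t2, ← Int.cast_sub] at t1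
    rw [← sub_eq_zero.1 (Bump_int (t1.trans_lt (by norm_num)))]
  rw [t3, sub_self] at t2
  have w0 := L_ω_pos hM h1 h2
  refine ⟨t3, M.L (M.w r) (ζ - β) / M.L (M.w r) (M.ω r),
    sub_eq_zero.1 (eq_zero_of_tm_L hM (M.w r) ?_ ?_)⟩
  · rw [tm_sub, tm_real_mul, hS.tm_ω r h1 h2, t2, mul_zero, sub_zero]
  · rw [L_sub, L_real_mul, div_mul_cancel₀ _ w0.ne', sub_self]

omit hM hS in
theorem Lw_band {r : ℕ} {β : ℂ} (hβ : β ∈ M.B r) : ∃ K : ℤ, M.L (M.w r) (β - M.β r) = K := by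
  obtain ⟨-, -, k, m, rfl⟩ := hβ
  exact ⟨_, by rw [add_sub_cancel_left, L_vec]⟩

/-- On a wall, the gap of a point determines its position between the bands. -/
theorem floor_ph_eq {r i : ℕ} (h1 : 1 ≤ r) (h2 : r < M.l) (hi : i = r ∨ i = r + 1) {a m : ℤ}
    {x : ℂ × ℝ} (hx : x ∈ M.Gap i a) (ht : M.tt r x.1 = m)
    (hk : i = r + 1 → M.k r * Real.pi ≤ 2 * (M.e r * M.b r) * (x.2 - r - 1 / 2)) :
    ⌊M.L (M.w r) (x.1 - M.β r)⌋ = M.kap r i a m := by
  obtain ⟨⟨hb1, hb2, hb3⟩, g1, g2⟩ := hx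
  have hn' : (0 : ℤ) < M.nn (M.w r) i := nn_pos' h1 h2 hi
  have hn : (1 : ℝ) ≤ M.nn (M.w r) i := by exact_mod_cast hn'
  have hK1 := Int.floor_le (M.L (M.w r) (x.1 - M.β r))
  have hK2 := Int.lt_floor_add_one (M.L (M.w r) (x.1 - M.β r))
  generalize ⌊M.L (M.w r) (x.1 - M.β r)⌋ = K at hK1 hK2 ⊢
  have hε := hM.ε_pos
  obtain ⟨v, h3, h4, h5⟩ : ∃ v : ℝ, M.lin i x.1 = v - M.qq (M.w r) i * m ∧
      K * M.nn (M.w r) i ≤ v ∧ v ≤ (K + 1) * M.nn (M.w r) i := by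
    rcases Bump_cases hM (M.B (i - 1) ∪ M.B i) x.1 with ⟨β, hβ, h⟩ | h
    · obtain ⟨j, hβ, hj⟩ := Bump_mem.1 hβ
      obtain rfl : r = j := by
        by_contra hne
        obtain ⟨m', hm'⟩ := tt_adj hM hβ h1 h2 (by omega)
        obtain ⟨c1, c2⟩ := hm' x.1 (by linarith only [hε, h])
        rw [ht] at c1 c2
        have c3 : m' < m := by exact_mod_cast c1
        have c4 : m < m' + 1 := by exact_mod_cast c2
        omega
      obtain ⟨t3, t, ht'⟩ := wall_near hM hβ (by linarith only [hε, h]) ht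
      have w0 := L_ω_pos hM h1 h2
      have l1 := lin_near hM hβ hi h
      have l2 := Bump_dir hM hi hβ h hb1 hb2 fun e => by
        have e1 := hk e
        rw [hb3, hgt, min_eq_left hb1, min_eq_left hb2, e, Nat.add_sub_cancel,
          bump_other hM hβ h (j' := r + 1) (Or.inl rfl)] at e1
        push_cast at e1
        linarith only [e1]
      have l3 := L_small hM (i := i) (by omega) (ζ := (x.1 - β) *
        exp (((2 * (M.b (i - 1) * M.bump (i - 1) x.1 - M.a i * M.bump i x.1) : ℝ) : ℂ) * I))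
        (by rw [norm_mul, norm_exp_ofReal_mul_I]; linarith only [hε, h])
      have l4 := Lw_small hM h1 h2 (ζ := x.1 - β) (by linarith only [hε, h])
      obtain ⟨k0, hk0⟩ := Lw_band hβ
      have l5 : M.L (M.w r) (x.1 - M.β r) = k0 + M.L (M.w r) (x.1 - β) := by
        rw [← hk0, ← L_add]
        congr 1
        ring
      rw [ind_eq hβ hi, Bump_L_shift hi, L_change hM (M.w r), t3, hk0] at l1
      rw [l5] at hK1 hK2
      rw [ht', mul_assoc, L_real_mul] at l1 l3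
      rw [ht', L_real_mul] at l4 hK1 hK2
      generalize M.L i (M.ω r * _) = c at l1 l2 l3
      generalize M.L (M.w r) (M.ω r) = w at w0 l4 hK1 hK2
      rw [abs_le] at l3 l4
      refine ⟨M.nn (M.w r) i * k0 + t * c, by rw [l1]; ring, ?_⟩
      rcases le_or_gt 0 t with t0 | t0
      · have a1 := mul_nonneg t0 w0.le
        have a2 := mul_nonneg t0 l2
        have a3 : K < k0 + 1 := by exact_mod_cast (by linarith only [g1, g2, l4, hK1] : (K : ℝ) < k0 + 1)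
        have a4 : k0 < K + 1 := by exact_mod_cast (by linarith only [hK2, a1] : (k0 : ℝ) < K + 1)
        obtain rfl : K = k0 := by omega
        constructor <;> linarith only [a2, g1, g2, hn, l3]
      · have a1 := mul_neg_of_neg_of_pos t0 w0
        have a2 := mul_nonpos_of_nonpos_of_nonneg t0.le l2
        have a3 : K < k0 := by exact_mod_cast (by linarith only [hK1, a1] : (K : ℝ) < k0)
        have a4 : k0 < K + 1 + 1 := by exact_mod_cast (by linarith only [l4, hK2, a1] : (k0 : ℝ) < K + 1 + 1)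
        obtain rfl : k0 = K + 1 := by omega
        push_cast
        constructor <;> linarith only [hn, l3, l4, a1, a2]
    · have s0 := shear_nonneg (M := M) r x.1
      have s1 : |(M.qq (M.w r) i : ℝ) * M.shear r x.1| ≤ moveDZ (M.L (M.w r) (x.1 - M.β r)) := by
        have s2 : |(M.qq (M.w r) i : ℝ)| ≤ M.wq r := by exact_mod_cast abs_qq_le (M := M) hi
        rw [abs_mul, abs_of_nonneg s0, mul_comm]
        refine (mul_le_mul_of_nonneg_left s2 s0).trans ?_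
        rw [shear_mul]
        exact max_le (moveDZ_nonneg _) (by linarith only [g1, g2])
      have s3 := s1.trans (dz_le _ K)
      have s4 := s1.trans (dz_le _ (K + 1))
      rw [abs_of_nonneg (a := _ - (K : ℝ)) (by linarith only [hK1])] at s3
      rw [abs_of_nonpos (a := _ - ((K + 1 : ℤ) : ℝ)) (by push_cast; linarith only [hK2])] at s4
      push_cast at s4
      refine ⟨M.nn (M.w r) i * M.L (M.w r) (x.1 - M.β r) + M.qq (M.w r) i * M.shear r x.1,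
        ?_, ?_, ?_⟩
      · rw [lin, Bump_tw_far h, Bump_L_shift hi, L_change hM (M.w r), ← ht, tt]
        ring
      · linarith only [s3, hn, hK1, (abs_le.1 s3).1, mul_le_mul_of_nonneg_right hn (sub_nonneg.2 hK1)]
      · linarith only [s4, hn, hK2, (abs_le.1 s4).2, mul_le_mul_of_nonneg_right hn (sub_nonneg.2 hK2.le)]
  have h6 : ((K * M.nn (M.w r) i : ℤ) : ℝ) < ((a + M.qq (M.w r) i * m + 1 : ℤ) : ℝ) := by
    push_cast
    linarith only [g2, h3, h4]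
  have h7 : ((a + M.qq (M.w r) i * m : ℤ) : ℝ) < (((K + 1) * M.nn (M.w r) i : ℤ) : ℝ) := by
    push_cast
    linarith only [g1, h3, h5]
  have h8 := (Int.le_ediv_iff_mul_le hn').2 (Int.lt_add_one_iff.1 (Int.cast_lt.1 h6))
  have h9 := (Int.ediv_lt_iff_lt_mul hn').2 (Int.cast_lt.1 h7)
  rw [kap]
  omega

end Lev

end AllOne
end

-- merged part: Pool.Agent.Work.MP_d5331a_gt.OO.Transport
section
/-!
The conclusion is invariant under homeomorphisms of the 3-sphere.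

Plan. For `h : S3 ≃ₜ S3` take `F' = h '' F`. Charts: `h.symm.toOpenPartialHomeomorph.trans φ`.
`h` restricts to homeomorphisms `e₁ : ↥(F \ K) ≃ₜ ↥(F' \ K')` and `e₂ : ↥Kᶜ ≃ₜ ↥K'ᶜ`
(`Homeomorph.sets`, `Homeomorph.subtype`) with `incl F' K' ∘ e₁ = e₂ ∘ incl F K`. It is convenient to
restate injectivity on loops: `FundamentalGroup.map f x` is injective iff every loop `γ` at `x`
whose image is homotopic to the constant loop is homotopic to the constant loop (see the end of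
`glue` in the file `Glue` of the parent directory), and to move loops and homotopies with
`Path.map`, `Path.Homotopic.map`, `Path.map_map`, `Path.cast`. A homeomorphism induces an
injective homomorphism of fundamental groups, so two elements that do not commute are sent to two
elements that do not commute.
-/

set_option autoImplicit false

open Set

namespace OneOne

open Neuwirth

theorem Transport_null {X Y : Type} [TopologicalSpace X] [TopologicalSpace Y] (g : C(X, Y))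
    {x : X} {y : Y} {γ : Path x x} {δ : Path y y} (hγ : γ.Homotopic (Path.refl x))
    (hδ : ∀ t, δ t = g (γ t)) : δ.Homotopic (Path.refl y) := by
  have hy : y = g x := by simpa using hδ 0
  subst hy
  have e : δ = γ.map g.continuous := Path.ext (funext hδ)
  rw [e]
  exact hγ.map g

theorem Transport_iff {X Y : Type} [TopologicalSpace X] [TopologicalSpace Y] (f : C(X, Y))
    (x : X) : Function.Injective (FundamentalGroup.map f x) ↔
      ∀ γ : Path x x, (γ.map f.continuous).Homotopic (Path.refl _) →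
        γ.Homotopic (Path.refl x) := by
  rw [injective_iff_map_eq_one]
  constructor
  · intro h γ e
    exact Quotient.exact (h (Quotient.mk _ γ) (Quotient.sound e))
  · intro h γ
    induction γ using Quotient.inductionOn with
    | _ γ => exact fun e => Quotient.sound (h γ (Quotient.exact e))

theorem Neu.of_eqv {K K' : Set S3} (h : Eqv K K') (hK : Neu K) : Neu K' := by
  obtain ⟨h, rfl⟩ := h
  obtain ⟨F, h1, h2, h3, h4, h5, x, a, b, hab⟩ := hK
  have hm : ∀ (A : Set S3) (y : S3), y ∈ h '' A ↔ h.symm y ∈ A := fun A y => by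
    rw [h.image_eq_preimage_symm]
    rfl
  have hm' : ∀ (A : Set S3) (y : S3), h y ∈ h '' A ↔ y ∈ A := fun A y =>
    h.injective.mem_set_image
  let f₁ : C(↥(F \ K), ↥(h '' F \ h '' K)) :=
    ⟨fun y => ⟨h y, (hm' F y).2 y.2.1, fun k => y.2.2 ((hm' K y).1 k)⟩, by fun_prop⟩
  let g₁ : C(↥(h '' F \ h '' K), ↥(F \ K)) :=
    ⟨fun y => ⟨h.symm y, (hm F y).1 y.2.1, fun k => y.2.2 ((hm K y).2 k)⟩, by fun_prop⟩
  let g₂ : C(↥(h '' K)ᶜ, ↥Kᶜ) := ⟨fun y => ⟨h.symm y, fun k => y.2 ((hm K y).2 k)⟩, by fun_prop⟩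
  refine ⟨h '' F, h1.image h.continuous, image_mono h2, fun y hy => ?_, ?_, fun y => ?_,
    f₁ x, FundamentalGroup.map f₁ x a, FundamentalGroup.map f₁ x b, fun e => hab ?_⟩
  · obtain ⟨φ, k1, k2⟩ := h3 _ ((hm F y).1 hy)
    refine ⟨h.symm.toOpenPartialHomeomorph.trans φ, ⟨mem_univ _, k1⟩, fun z hz => ?_⟩
    rw [hm, hm]
    exact k2 _ hz.2
  · rw [← image_sdiff h.injective]
    exact h4.image _ h.continuous.continuousOn
  · rw [Transport_iff]
    intro γ e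
    have e1 : ((γ.map g₁.continuous).map (incl F K).continuous).Homotopic (Path.refl _) :=
      Transport_null g₂ e fun _ => rfl
    exact Transport_null f₁ ((Transport_iff _ _).1 (h5 _) _ e1) fun t =>
      Subtype.ext (h.apply_symm_apply _).symm
  · have hi : Function.Injective (FundamentalGroup.map f₁ x) :=
      (Transport_iff _ _).2 fun γ e => Transport_null g₁ e fun t =>
        Subtype.ext (h.symm_apply_apply _).symm
    apply hi
    rw [map_mul, map_mul]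
    exact e

end OneOne
end
end

-- merged part: Pool.Agent.Work.MP_d5331a_gt.A1.Comb
section
-- merged part: Pool.Agent.Work.MP_d5331a_gt.A1.Tm
section
/-!
Times and angles of the regions.
-/

set_option autoImplicit false

open Complex Set Filter Topology

namespace AllOne

open Neuwirth OneOne

namespace Lev

variable {M : Lev}

theorem ti_mid {r : ℕ} (h1 : 1 ≤ r) (h2 : r < M.l) (ζ : ℂ) : M.ti r ζ = ⌊M.tt r ζ⌋ :=
  if_pos ⟨h1, h2⟩

theorem ti_end {r : ℕ} (h : ¬ (1 ≤ r ∧ r < M.l)) (ζ : ℂ) : M.ti r ζ = 0 := if_neg h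

theorem ph_mid {r : ℕ} (h1 : 1 ≤ r) (h2 : r < M.l) (ζ : ℂ) : M.ph r ζ = M.L (M.w r) (ζ - M.β r) := by
  rw [ph, if_neg (by omega), if_neg (by omega)]

theorem phZ_mid {r : ℕ} (h1 : 1 ≤ r) (h2 : r < M.l) (k m : ℤ) :
    M.phZ r k m = M.q (M.w r) * k - M.p (M.w r) * m := by
  rw [phZ, if_neg (by omega), if_neg (by omega)]

theorem ti_add (r : ℕ) (ζ : ℂ) (k m : ℤ) :
    M.ti r (ζ + (k + m * I)) = M.ti r ζ + M.tiZ r k m := by
  unfold ti tiZ
  split_ifs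
  · rw [tt_add, Int.floor_add_intCast]
  · rfl

theorem ph_add (r : ℕ) (ζ : ℂ) (k m : ℤ) :
    M.ph r (ζ + (k + m * I)) = M.ph r ζ + M.phZ r k m := by
  unfold ph phZ
  split_ifs
  · simp
  · simp
  · rw [add_sub_right_comm, L_add, L_vec]

variable (hM : M.Good)
include hM

theorem vec_zero {r : ℕ} (h1 : 1 ≤ r) (h2 : r < M.l) {k m : ℤ} (h : M.phZ r k m = 0)
    (h' : M.tiZ r k m = 0) : k = 0 ∧ m = 0 := by
  rw [phZ_mid h1 h2] at h
  rw [tiZ, if_pos ⟨h1, h2⟩] at h'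
  exact int_zero hM (M.w r) h' h

omit hM in
theorem ph_band {r : ℕ} {β : ℂ} (hβ : β ∈ M.B r) : M.L (M.w r) (β - M.β r) = ⌊M.ph r β⌋ := by
  obtain ⟨K, hK⟩ := Lw_band hβ
  rw [ph_mid hβ.1 hβ.2.1, hK, Int.floor_intCast]

variable [hS : M.Ess]

theorem tm_band {r : ℕ} {β : ℂ} (hβ : β ∈ M.B r) : M.tm (M.w r) (β - M.β r) = M.ti r β := by
  have h := shear_near hM hβ (ζ := β) (by simpa using hM.ε_pos.le)
  obtain ⟨h1, h2, k, m, rfl⟩ := hβ
  rw [ti_mid h1 h2, tt, h, add_zero, add_sub_cancel_left, tm_vec, Int.floor_intCast]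

theorem tt_near {r : ℕ} {β ζ : ℂ} (hβ : β ∈ M.B r) (h : ‖ζ - β‖ ≤ 4 * M.ε) :
    M.tt r ζ = M.tm (M.w r) (ζ - β) + M.ti r β := by
  rw [tt, shear_near hM hβ h, add_zero, ← tm_band hM hβ, ← tm_add, sub_add_sub_cancel]

theorem ti_other {r j : ℕ} {β ζ : ℂ} (hβ : β ∈ M.B j) (hr : r = j + 1 ∨ j = r + 1)
    (h : ‖ζ - β‖ ≤ 4 * M.ε) : M.ti r ζ = M.ti r β := by
  by_cases h0 : 1 ≤ r ∧ r < M.l
  · obtain ⟨m, hm⟩ := tt_adj hM hβ h0.1 h0.2 hr
    have h1 := hm ζ h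
    have h2 := hm β (by simpa using hM.ε_pos.le)
    rw [ti_mid h0.1 h0.2, ti_mid h0.1 h0.2, (Int.floor_eq_iff (z := m)).2 ⟨h1.1.le, h1.2⟩,
      (Int.floor_eq_iff (z := m)).2 ⟨h2.1.le, h2.2⟩]
  · rw [ti_end h0, ti_end h0]

theorem ti_strip {r j : ℕ} {β ζ : ℂ} {σ : ℝ} (hβ : β ∈ M.B j) (hσ : σ = 1 ∨ σ = -1)
    (h1 : r ≤ j + 1) (h2 : j ≤ r + 1) (h : ‖ζ - β‖ ≤ 4 * M.ε)
    (h' : 0 < σ * M.tm (M.w j) (ζ - β)) : M.ti r ζ = M.tin r j β σ := by
  by_cases e : r = j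
  · subst e
    obtain ⟨r1, r2⟩ := band_range hβ
    have h3 := abs_le.1 (tmw_small' hM r1 r2 h)
    rw [ti_mid r1 r2 ζ, tt_near hM hβ h, tin, Int.floor_eq_iff]
    rcases hσ with rfl | rfl
    · simp only [ne_eq, not_true, and_false, if_false, sub_zero]
      constructor <;> linarith only [h', h3]
    · rw [if_pos ⟨rfl, by norm_num⟩]
      push_cast
      constructor <;> linarith only [h3, h']
  · rw [tin, if_neg fun h => e h.1, sub_zero]
    exact ti_other hM hβ (by omega) h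

end Lev

end AllOne
end

-- merged part: Pool.Agent.Work.MP_d5331a_gt.A1.CombA
section
/-!
Walks through the necks of one region.
-/

set_option autoImplicit false

open Complex Set

namespace AllOne

open Neuwirth OneOne

theorem sgz_cases (σ : ℝ) : sgz σ = 1 ∨ sgz σ = -1 := by
  unfold sgz
  split_ifs <;> simp

theorem sgz_one : sgz 1 = 1 := if_pos rfl

theorem sgz_neg_one : sgz (-1) = -1 := if_neg (by norm_num)

theorem sgz_inj {σ σ' : ℝ} (hσ : σ = 1 ∨ σ = -1) (hσ' : σ' = 1 ∨ σ' = -1) (h : sgz σ = sgz σ') :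
    σ = σ' := by
  rcases hσ with rfl | rfl <;> rcases hσ' with rfl | rfl <;>
    simp only [sgz_one, sgz_neg_one] at h ⊢ <;> omega

theorem ar0 {N Q g n X : ℤ} (hN : 0 < N) (hQ : Q ≤ 0 ∨ 2 * N ≤ Q) (hg : g = 1 ∨ g = -1)
    (hn : 2 ≤ n) (h1 : -(2 * N) < X) (h2 : X < 2 * N) : X ≠ -(g * n * (Q - N)) := by
  rintro rfl
  rcases hQ with hQ | hQ <;> rcases hg with rfl | rfl <;> linarith only [hn, hQ, h2, hN, h1, mul_nonneg_of_nonpos_of_nonpos (Mathlib.Tactic.Linarith.sub_nonpos_of_le (Int.add_one_le_iff.mpr hN)) (Mathlib.Tactic.Linarith.sub_nonpos_of_le hn), mul_nonneg_of_nonpos_of_nonpos (Mathlib.Tactic.Linarith.sub_nonpos_of_le hn) (Mathlib.Tactic.Linarith.sub_nonpos_of_le hQ)]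

theorem ar1 {N Q g ν n R : ℤ} (hN : 0 < N) (hQ : Q ≤ 0 ∨ 2 * N ≤ Q) (hg : g = 1 ∨ g = -1)
    (hν : ν = 1 ∨ ν = -1) (hn : n = 1 ∨ 3 ≤ n) (h1 : -N < R) (h2 : R < N) :
    ν * Q + R ≠ g * n * (Q - N) := by
  intro h
  rcases hn with rfl | hn
  · rcases hQ with hQ | hQ <;> rcases hg with rfl | rfl <;> rcases hν with rfl | rfl <;> omega
  · rcases hQ with hQ | hQ <;> rcases hg with rfl | rfl <;> rcases hν with rfl | rfl <;> linarith only [hN, h1, hn, hQ, h, h2, mul_nonneg_of_nonpos_of_nonpos (Mathlib.Tactic.Linarith.sub_nonpos_of_le (Int.add_one_le_iff.mpr hN)) (Mathlib.Tactic.Linarith.sub_nonpos_of_le hn), mul_nonneg_of_nonpos_of_nonpos (Mathlib.Tactic.Linarith.sub_nonpos_of_le hn) (Mathlib.Tactic.Linarith.sub_nonpos_of_le hQ)]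

theorem ar2 {a b x y : ℤ} (ha : 0 < a) (hb : 0 < b) (h : a = 1 ∨ b = 1) (x0 : 0 ≤ x) (x1 : x < a)
    (y0 : 0 ≤ y) (y1 : y < a) : -(2 * (a + b)) < b * (2 * (y - x)) ∧ b * (2 * (y - x)) < 2 * (a + b) := by
  rcases h with rfl | rfl
  · obtain rfl : x = 0 := by omega
    obtain rfl : y = 0 := by omega
    omega
  · omega

theorem ar3 {a b x y : ℤ} (ha : 0 < a) (hb : 0 < b) (h : a = 1 ∨ b = 1) (x0 : 0 ≤ x) (x1 : x < a)
    (y0 : 0 ≤ y) (y1 : y < b) : -(a + b) < a * (2 * y + 1) - b * (2 * x + 1) ∧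
      a * (2 * y + 1) - b * (2 * x + 1) < a + b := by
  rcases h with rfl | rfl
  · obtain rfl : x = 0 := by omega
    omega
  · obtain rfl : y = 0 := by omega
    omega

namespace Lev

/-- The position of the middle of a cell in the angle of region `r`. -/
def Phi (M : Lev) (r : ℕ) (u : ℕ × ℤ × ℤ × ℤ) : ℤ :=
  (if u.1 = r then M.nn (M.w r) (r + 1) else M.nn (M.w r) r) *
    (2 * (u.2.1 + M.qq (M.w r) u.1 * u.2.2.1) + 1 + M.qq (M.w r) u.1)

/-- The change of the position along a neck. -/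
noncomputable def Dd (M : Lev) (j : ℕ) : ℤ :=
  sgz (M.e j) * M.qq j (j + 1) - (M.nn (M.w j) j + M.nn (M.w j) (j + 1))

/-- The sign by which the position changes along a dart through a neck. -/
noncomputable def wt (M : Lev) : Arc × Bool → ℤ
  | (.nk j _ σ, b) => if b then -sgz (σ * M.e j) else sgz (σ * M.e j)
  | _ => 0

/-- Darts through a neck of the parity of the side. -/
def Inner (M : Lev) (c : ℕ) (d : Arc × Bool) : Prop :=
  ∃ j β σ, d.1 = .nk j β σ ∧ β ∈ M.B j ∧ (σ = 1 ∨ σ = -1) ∧ j % 2 = c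

/-- The two ends of a neck arc. -/
noncomputable def nlo (M : Lev) (j : ℕ) (β : ℂ) (σ : ℝ) : ℕ × ℤ × ℤ × ℤ :=
  (j, M.go j β σ, M.tin j j β σ, 0)

noncomputable def nhi (M : Lev) (j : ℕ) (β : ℂ) (σ : ℝ) : ℕ × ℤ × ℤ × ℤ :=
  (j + 1, M.gi j β σ, M.tin j j β σ, sgz σ * M.k j)

/-- The ends of a reduced walk through the necks of a region with long bands. -/
def Shape (M : Lev) (r : ℕ) (u v : ℕ × ℤ × ℤ × ℤ) : Prop :=
  ∃ β σ, β ∈ M.B r ∧ (σ = 1 ∨ σ = -1) ∧ ((u = M.nlo r β σ ∧ v = M.nhi r β σ) ∨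
    (u = M.nhi r β σ ∧ v = M.nlo r β σ) ∨
    (u = M.nhi r β σ ∧ ∃ β', β' ∈ M.B r ∧ v = M.nhi r β' (-σ)))

variable {M : Lev} (hM : M.Good) [hS : M.Ess]
include hM

omit hS in
theorem se_cases (j : ℕ) {σ : ℝ} (hσ : σ = 1 ∨ σ = -1) : σ * M.e j = 1 ∨ σ * M.e j = -1 := by
  rcases hσ with rfl | rfl <;> rcases hM.sign j with h | h <;> simp [h]

theorem ind_w {j i : ℕ} {β : ℂ} (hβ : β ∈ M.B j) (hi : i = j ∨ i = j + 1) :
    M.ind i β = M.nn (M.w j) i * ⌊M.ph j β⌋ - M.qq (M.w j) i * M.ti j β := by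
  have h1 := ind_eq hβ hi
  rw [Bump_L_shift hi, L_change hM (M.w j), ph_band hβ, tm_band hM hβ] at h1
  exact_mod_cast h1

omit hM hS in
theorem tin_self (j : ℕ) (β : ℂ) {σ : ℝ} (hσ : σ = 1 ∨ σ = -1) :
    (σ = 1 ∧ M.tin j j β σ = M.ti j β) ∨ (σ = -1 ∧ M.tin j j β σ = M.ti j β - 1) := by
  rcases hσ with rfl | rfl
  · exact Or.inl ⟨rfl, by simp [tin]⟩
  · exact Or.inr ⟨rfl, by rw [tin, if_pos ⟨rfl, by norm_num⟩]⟩

theorem Dd_cases {j : ℕ} (h1 : 1 ≤ j) (h2 : j < M.l) (hk : M.k j = 0) :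
    sgz (M.e j) * M.qq j (j + 1) ≤ 0 ∨
      2 * (M.nn (M.w j) j + M.nn (M.w j) (j + 1)) ≤ sgz (M.e j) * M.qq j (j + 1) := by
  have he : ((sgz (M.e j) : ℤ) : ℝ) = M.e j := by
    rcases hM.sign j with h | h <;> rw [h] <;> simp [sgz_one, sgz_neg_one]
  rcases hS.taut j h1 h2 with h | h | h
  · omega
  · rw [← he] at h
    exact Or.inl (by exact_mod_cast h)
  · rw [← he] at h
    exact Or.inr (by exact_mod_cast h)

theorem neck_phi {j : ℕ} {β : ℂ} {σ : ℝ} (hβ : β ∈ M.B j) (hσ : σ = 1 ∨ σ = -1)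
    (hk : M.k j = 0) :
    M.Phi j (M.nhi j β σ) - M.Phi j (M.nlo j β σ) = sgz (σ * M.e j) * M.Dd j := by
  obtain ⟨r1, r2⟩ := band_range hβ
  have h1 := ind_w hM hβ (Or.inl rfl)
  have h2 := ind_w hM hβ (Or.inr rfl)
  have h3 := qq_change hM (M.w j) j (j + 1)
  have h4 := hS.fe j r1 r2
  rw [hk, pow_zero, mul_one] at h4
  have ne : ¬ (-1 : ℝ) = 1 := by norm_num
  simp only [Phi, nhi, nlo, Dd, go, gi, h1, h2, h3, h4, if_true, Nat.add_eq_left, one_ne_zero,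
    if_false]
  rcases tin_self (M := M) j β hσ with ⟨rfl, h⟩ | ⟨rfl, h⟩ <;> rcases hM.sign j with e | e <;>
    simp only [h, e, mul_one, mul_neg, neg_neg, sgz_one, sgz_neg_one, ne, if_true, if_false] <;> ring

omit hM hS in
theorem inner_ends {c j : ℕ} (hj : j % 2 = c) (β : ℂ) (σ : ℝ) :
    M.src c (.nk j β σ) = M.nlo j β σ ∧ M.tgt c (.nk j β σ) = M.nhi j β σ := by
  simp only [src, tgt, nlo, nhi, J_self hj, J_succ hj, hj, if_true, and_self]

theorem band_eq_of {j i : ℕ} {β β' : ℂ} (hβ : β ∈ M.B j) (hβ' : β' ∈ M.B j)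
    (hij : i = j ∨ i = j + 1) (h1 : M.ti j β = M.ti j β') (hi : M.ind i β = M.ind i β') :
    β = β' := by
  obtain ⟨r1, r2⟩ := band_range hβ
  rw [ind_w hM hβ hij, ind_w hM hβ' hij, h1, sub_left_inj] at hi
  have h2 := mul_left_cancel₀ (nn_pos' r1 r2 hij).ne' hi
  obtain ⟨k, m, rfl⟩ := band_diff hβ hβ'
  rw [ti_add] at h1
  rw [ph_add, Int.floor_add_intCast] at h2
  obtain ⟨rfl, rfl⟩ := vec_zero hM r1 r2 (k := k) (m := m) (by omega) (by omega)
  simp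

theorem nlo_inj {j : ℕ} {β β' : ℂ} {σ : ℝ} (hβ : β ∈ M.B j) (hβ' : β' ∈ M.B j)
    (h : M.nlo j β σ = M.nlo j β' σ) : β = β' := by
  simp only [nlo, Prod.mk.injEq, go, tin, sub_left_inj] at h
  exact band_eq_of hM hβ hβ' (Or.inl rfl) h.2.2.1 h.2.1

theorem nhi_inj {j : ℕ} {β β' : ℂ} {σ : ℝ} (hβ : β ∈ M.B j) (hβ' : β' ∈ M.B j)
    (h : M.nhi j β σ = M.nhi j β' σ) : β = β' := by
  simp only [nhi, Prod.mk.injEq, gi, tin, sub_left_inj] at h
  exact band_eq_of hM hβ hβ' (Or.inr rfl) h.2.2.1 h.2.1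

/-- Two consecutive inner darts. -/
theorem inner_pair {c : ℕ} {d d' : Arc × Bool} (hd : M.Inner c d) (hd' : M.Inner c d')
    (h : dtgt (M.src c) (M.tgt c) d = dsrc (M.src c) (M.tgt c) d') (hr : d' ≠ (d.1, !d.2)) :
    ∃ j β β' σ b, d = (.nk j β σ, b) ∧ d' = (.nk j β' (-σ), !b) ∧ (b = true → M.k j = 0) := by
  obtain ⟨A, b⟩ := d
  obtain ⟨A', b'⟩ := d'
  obtain ⟨j, β, σ, rfl, hβ, hσ, hj⟩ := hd
  obtain ⟨j', β', σ', rfl, hβ', hσ', hj'⟩ := hd'
  have hσσ : σ' = σ ∨ σ' = -σ := by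
    rcases hσ with rfl | rfl <;> rcases hσ' with rfl | rfl <;> simp
  cases b <;> cases b' <;>
    simp only [dsrc, dtgt, inner_ends hj, inner_ends hj', Bool.false_eq_true, if_false,
      if_true] at h
  · have := congrArg Prod.fst h
    simp only [nlo, nhi] at this
    omega
  · obtain rfl : j = j' := congrArg Prod.fst h
    rcases hσσ with rfl | rfl
    · obtain rfl := nlo_inj hM hβ hβ' h
      exact absurd rfl hr
    · exact ⟨j, β, β', σ, false, rfl, rfl, by simp⟩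
  · obtain rfl : j = j' := Nat.succ_injective (congrArg Prod.fst h)
    rcases hσσ with rfl | rfl
    · obtain rfl := nhi_inj hM hβ hβ' h
      exact absurd rfl hr
    · refine ⟨j, β, β', σ, true, rfl, rfl, fun _ => ?_⟩
      have h1 : sgz σ * M.k j = sgz (-σ) * M.k j := congrArg (fun u => u.2.2.2) h
      rcases hσ with rfl | rfl <;> simp only [neg_neg, sgz_one, sgz_neg_one] at h1 <;> omega
  · have := congrArg Prod.fst h
    simp only [nlo, nhi] at this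
    omega

theorem inner_dart {c : ℕ} {d : Arc × Bool} (hd : M.Inner c d) :
    ∃ j β σ, β ∈ M.B j ∧ (σ = 1 ∨ σ = -1) ∧ j % 2 = c ∧ d.1 = .nk j β σ ∧
      ((d.2 = true ∧ dsrc (M.src c) (M.tgt c) d = M.nlo j β σ ∧
        dtgt (M.src c) (M.tgt c) d = M.nhi j β σ) ∨
      (d.2 = false ∧ dsrc (M.src c) (M.tgt c) d = M.nhi j β σ ∧
        dtgt (M.src c) (M.tgt c) d = M.nlo j β σ)) ∧
      (M.wt d = 1 ∨ M.wt d = -1) ∧ (M.k j = 0 →
        M.Phi j (dtgt (M.src c) (M.tgt c) d) - M.Phi j (dsrc (M.src c) (M.tgt c) d) =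
          -(M.wt d * M.Dd j)) := by
  obtain ⟨A, b⟩ := d
  obtain ⟨j, β, σ, rfl, hβ, hσ, hj⟩ := hd
  have hs := sgz_cases (σ * M.e j)
  refine ⟨j, β, σ, hβ, hσ, hj, rfl, ?_⟩
  cases b <;> simp only [dsrc, dtgt, inner_ends hj, wt, Bool.false_eq_true, if_false, if_true]
  · refine ⟨by simp, hs, fun hk => ?_⟩
    linear_combination -neck_phi hM hβ hσ hk
  · refine ⟨by simp, by omega, fun hk => ?_⟩
    linear_combination neck_phi hM hβ hσ hk

theorem inner_walk {c : ℕ} {u v : ℕ × ℤ × ℤ × ℤ} {L : List (Arc × Bool)}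
    (hw : Walk (M.src c) (M.tgt c) u L v) (hr : Reduced L) (hi : ∀ d ∈ L, M.Inner c d) :
    J c v.1 = J c u.1 ∧ v.2.2.1 = u.2.2.1 ∧ ((L = [] ∧ u = v) ∨
      ∃ r d L', J c u.1 = r ∧ 1 ≤ r ∧ r < M.l ∧ L = d :: L' ∧ (M.wt d = 1 ∨ M.wt d = -1) ∧
        (u.1 = r ∨ u.1 = r + 1) ∧ (v.1 = r ∨ v.1 = r + 1) ∧ (u.1 = v.1 ↔ Even L.length) ∧
        (M.k r = 0 → M.Phi r v - M.Phi r u = -(M.wt d * L.length * M.Dd r)) ∧
        (M.k r ≠ 0 → M.Shape r u v ∧ (d.2 = true → L' = []))) := by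
  induction hw with
  | nil u => exact ⟨rfl, rfl, Or.inl ⟨rfl, rfl⟩⟩
  | @cons d L v hw ih =>
    have hd := hi d List.mem_cons_self
    obtain ⟨j, β, σ, hβ, hσ, hj, e0, a1, a5, a6⟩ := inner_dart hM hd
    obtain ⟨b1, b2, b3⟩ := ih (List.IsChain.tail hr) fun e he => hi e (List.mem_cons_of_mem _ he)
    obtain ⟨r1, r2⟩ := band_range hβ
    have j1 := J_self hj
    have j2 := J_succ hj
    have a2 : J c (dsrc (M.src c) (M.tgt c) d).1 = j ∧ J c (dtgt (M.src c) (M.tgt c) d).1 = j ∧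
        (dtgt (M.src c) (M.tgt c) d).2.2.1 = (dsrc (M.src c) (M.tgt c) d).2.2.1 ∧
        (((dsrc (M.src c) (M.tgt c) d).1 = j ∧ (dtgt (M.src c) (M.tgt c) d).1 = j + 1) ∨
          ((dsrc (M.src c) (M.tgt c) d).1 = j + 1 ∧ (dtgt (M.src c) (M.tgt c) d).1 = j)) := by
      rcases a1 with ⟨-, e1, e2⟩ | ⟨-, e1, e2⟩ <;> rw [e1, e2]
      · exact ⟨j1, j2, rfl, Or.inl ⟨rfl, rfl⟩⟩
      · exact ⟨j2, j1, rfl, Or.inr ⟨rfl, rfl⟩⟩
    obtain ⟨a2, a3, a4, a7⟩ := a2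
    refine ⟨b1.trans (a3.trans a2.symm), b2.trans a4, Or.inr ⟨j, d, L, a2, r1, r2, rfl, a5,
      by omega, ?_⟩⟩
    rcases b3 with ⟨rfl, rfl⟩ | ⟨r, d', L', c0, -, -, rfl, -, -, c1, c2, c3, c4⟩
    · refine ⟨by omega, ⟨fun h => by omega, fun h => by simp at h⟩, fun hk => by simpa using a6 hk,
        fun _ => ⟨⟨β, σ, hβ, hσ, ?_⟩, fun _ => rfl⟩⟩
      rcases a1 with ⟨-, e1, e2⟩ | ⟨-, e1, e2⟩
      · exact Or.inl ⟨e1, e2⟩
      · exact Or.inr (Or.inl ⟨e1, e2⟩)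
    · obtain rfl : j = r := a3.symm.trans c0
      have hd' := hi d' (by simp)
      obtain ⟨j', β₁, β₂, σ₁, b, rfl, rfl, e3⟩ := inner_pair hM hd hd' (walk_inv _ _ hw).1
        (List.isChain_cons_cons.1 hr).1
      obtain ⟨rfl, rfl, rfl⟩ : j' = j ∧ β₁ = β ∧ σ₁ = σ := by simpa using e0
      refine ⟨c1, ?_, fun hk => ?_, fun hk => ?_⟩
      · rw [List.length_cons, Nat.even_add_one, ← c2]
        (clear * - a2 a6 a7 c1 c3 c4 hj j1 j2; lia)
      · have e : M.wt (.nk j' β₂ (-σ₁), !b) = M.wt (.nk j' β₁ σ₁, b) := by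
          rcases hσ with rfl | rfl <;> rcases hM.sign j' with h | h <;> cases b <;>
            simp [wt, h, sgz_one, sgz_neg_one]
        have c5 := c3 hk
        rw [e] at c5
        rw [List.length_cons]
        push_cast at c5 ⊢
        linear_combination c5 + a6 hk
      · have hb : b = false := by
          cases b
          · rfl
          · exact absurd (e3 rfl) hk
        subst hb
        obtain rfl := (c4 hk).2 rfl
        obtain ⟨j₂, β₃, σ₃, e4, hβ₂, -, -⟩ := hd'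
        obtain ⟨rfl, rfl, rfl⟩ : j' = j₂ ∧ β₂ = β₃ ∧ -σ₁ = σ₃ := by simpa using e4
        refine ⟨⟨β₁, σ₁, hβ, hσ, Or.inr (Or.inr ⟨?_, β₂, hβ₂, ?_⟩)⟩, by simp⟩
        · simp only [dsrc, inner_ends hj, Bool.false_eq_true, if_false]
        · have h1 := (walk_inv _ _ hw).2
          generalize hz : dtgt (M.src c) (M.tgt c) (Arc.nk j' β₂ (-σ₁), !false) = z at h1
          cases h1
          rw [← hz]
          simp only [dtgt, inner_ends hj, Bool.not_false, if_true]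

/-- A non-empty reduced walk does not return to a neighbouring gap. -/
theorem inner_near {c : ℕ} {u v : ℕ × ℤ × ℤ × ℤ} {L : List (Arc × Bool)}
    (hw : Walk (M.src c) (M.tgt c) u L v) (hr : Reduced L) (hi : ∀ d ∈ L, M.Inner c d)
    (h1 : u.1 = v.1) (h2 : |v.2.1 - u.2.1| ≤ 1) (h3 : u.2.2.2 = 0 ∨ u.2.2.2 = v.2.2.2) :
    L = [] ∧ u = v := by
  obtain ⟨-, b2, b3⟩ := inner_walk hM hw hr hi
  rcases b3 with h | ⟨r, d, L', -, r1, r2, rfl, c1, c2, -, c3, c4, c5⟩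
  · exact h
  exfalso
  have n1 := hS.n1 r r1 r2
  have n2 := hS.n2 r r1 r2
  by_cases hk : M.k r = 0
  · have c6 := c3.1 h1
    have c7 : (2 : ℤ) ≤ (d :: L').length := by
      obtain ⟨t, ht⟩ := c6
      rw [List.length_cons] at ht ⊢
      omega
    refine ar0 (by omega) (Dd_cases hM r1 r2 hk) c1 c7 ?_ ?_ (c4 hk) <;>
      rw [Phi, Phi, ← h1, b2] <;> rw [abs_le] at h2 <;> split_ifs <;> linarith only [h2, n1, n2, mul_nonneg_of_nonpos_of_nonpos (Mathlib.Tactic.Linarith.sub_nonpos_of_le h2.left) (Mathlib.Tactic.Linarith.sub_nonpos_of_le (Int.add_one_le_iff.mpr n2)), mul_nonneg_of_nonpos_of_nonpos (Mathlib.Tactic.Linarith.sub_nonpos_of_le h2.left) (Mathlib.Tactic.Linarith.sub_nonpos_of_le (Int.add_one_le_iff.mpr n1)), mul_nonneg_of_nonpos_of_nonpos (Mathlib.Tactic.Linarith.sub_nonpos_of_le h2.right) (Mathlib.Tactic.Linarith.sub_nonpos_of_le (Int.add_one_le_iff.mpr n2)), mul_nonneg_of_nonpos_of_nonpos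 (Mathlib.Tactic.Linarith.sub_nonpos_of_le h2.right) (Mathlib.Tactic.Linarith.sub_nonpos_of_le (Int.add_one_le_iff.mpr n1))]
  · obtain ⟨β, σ, hβ, hσ, ⟨rfl, rfl⟩ | ⟨rfl, rfl⟩ | ⟨rfl, β', -, rfl⟩⟩ := (c5 hk).1
    · simp [nlo, nhi] at h1
    · simp [nlo, nhi] at h1
    · rcases hσ with rfl | rfl <;> simp only [nhi, neg_neg, sgz_one, sgz_neg_one] at h3 <;> omega

/-- A non-empty reduced walk changes the position on the walls. -/
theorem inner_kap {c : ℕ} {u v : ℕ × ℤ × ℤ × ℤ} {L : List (Arc × Bool)}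
    (hw : Walk (M.src c) (M.tgt c) u L v) (hr : Reduced L) (hi : ∀ d ∈ L, M.Inner c d) {m : ℤ}
    (hm : m = u.2.2.1 ∨ m = u.2.2.1 + 1) : (L = [] ∧ u = v) ∨
      (M.k (J c u.1) = 0 ∧ M.kap (J c u.1) u.1 u.2.1 m ≠ M.kap (J c u.1) v.1 v.2.1 m) ∨
      (M.k (J c u.1) ≠ 0 ∧ M.Shape (J c u.1) u v) := by
  obtain ⟨-, b2, b3⟩ := inner_walk hM hw hr hi
  rcases b3 with h | ⟨r, d, L', c0, r1, r2, rfl, c1, c2, c2', c3, c4, c5⟩
  · exact Or.inl h
  rw [c0]
  by_cases hk : M.k r = 0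
  swap
  · exact Or.inr (Or.inr ⟨hk, (c5 hk).1⟩)
  refine Or.inr (Or.inl ⟨hk, fun h => ?_⟩)
  have n1 := hS.n1 r r1 r2
  have n2 := hS.n2 r r1 r2
  have n3 := hS.one r r1 r2
  have hD := Dd_cases hM r1 r2 hk
  have hq := qq_change hM (M.w r) r (r + 1)
  have c6 := c4 hk
  have p1 := nn_pos' r1 r2 c2
  have p2 := nn_pos' r1 r2 c2'
  have e1 := Int.emod_add_mul_ediv (u.2.1 + M.qq (M.w r) u.1 * m) (M.nn (M.w r) u.1)
  have e2 := Int.emod_add_mul_ediv (v.2.1 + M.qq (M.w r) v.1 * m) (M.nn (M.w r) v.1)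
  have e3 := Int.emod_nonneg (u.2.1 + M.qq (M.w r) u.1 * m) p1.ne'
  have e4 := Int.emod_nonneg (v.2.1 + M.qq (M.w r) v.1 * m) p2.ne'
  have e5 := Int.emod_lt_of_pos (u.2.1 + M.qq (M.w r) u.1 * m) p1
  have e6 := Int.emod_lt_of_pos (v.2.1 + M.qq (M.w r) v.1 * m) p2
  rw [kap, kap] at h
  rw [← h] at e2
  generalize (u.2.1 + M.qq (M.w r) u.1 * m) / M.nn (M.w r) u.1 = κ at e1 e2
  generalize (u.2.1 + M.qq (M.w r) u.1 * m) % M.nn (M.w r) u.1 = x at e1 e3 e5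
  generalize (v.2.1 + M.qq (M.w r) v.1 * m) % M.nn (M.w r) v.1 = y at e2 e4 e6
  have e7 : u.2.1 = x + M.nn (M.w r) u.1 * κ - M.qq (M.w r) u.1 * m := by linarith only [e1]
  have e8 : v.2.1 = y + M.nn (M.w r) v.1 * κ - M.qq (M.w r) v.1 * m := by linarith only [e2]
  obtain ⟨ν, hν, e9⟩ : ∃ ν : ℤ, (ν = 1 ∨ ν = -1) ∧ 2 * u.2.2.1 + 1 = 2 * m + ν := by
    rcases hm with h | h
    · exact ⟨1, Or.inl rfl, by omega⟩
    · exact ⟨-1, Or.inr rfl, by omega⟩
  have f1 : ∀ (z : ℕ × ℤ × ℤ × ℤ) (t : ℤ), z.2.2.1 = u.2.2.1 →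
      z.2.1 = t + M.nn (M.w r) z.1 * κ - M.qq (M.w r) z.1 * m → M.Phi r z =
        (if z.1 = r then M.nn (M.w r) (r + 1) else M.nn (M.w r) r) *
          (2 * t + 1 + 2 * M.nn (M.w r) z.1 * κ + ν * M.qq (M.w r) z.1) := fun z t h1 h2 => by
    rw [Phi, h1, h2]
    congr 1
    linear_combination M.qq (M.w r) z.1 * e9
  rw [f1 u x rfl e7, f1 v y b2 e8, Dd] at c6
  have hs := sgz_cases (M.e r)
  have hl : 1 ≤ (d :: L').length := by simp
  generalize (d :: L').length = n at c3 c6 hl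
  have ne : r + 1 ≠ r := by omega
  rcases c2 with c2 | c2 <;> rcases c2' with c2' | c2' <;> rw [c2, c2'] at c3 c6 <;>
    rw [c2] at e5 <;> rw [c2'] at e6 <;> simp only [ne, if_true, if_false] at c6
  · obtain ⟨t, ht⟩ := c3.1 rfl
    obtain ⟨g1, g2⟩ := ar2 n1 n2 n3 e3 e5 e4 e6
    refine ar0 (by omega) hD c1 (n := n) (by omega) g1 g2 (by linear_combination c6)
  · have h0 : ¬ Even n := fun h => ne (c3.2 h).symm
    rw [Nat.not_even_iff_odd] at h0
    obtain ⟨t, ht⟩ := h0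
    refine ar1 (N := M.nn (M.w r) r + M.nn (M.w r) (r + 1)) (by omega) hD (g := -M.wt d)
      (by (clear * - c1 c3 c4 c5 hD hk hs hν n3 ne; lia)) (ν := ν * sgz (M.e r)) (by rcases hν with h | h <;> rcases hs with h' | h' <;>
        simp [h, h']) (n := n) (by omega)
      (R := M.nn (M.w r) r * (2 * y + 1) - M.nn (M.w r) (r + 1) * (2 * x + 1))
      (ar3 n1 n2 n3 e3 e5 e4 e6).1 (ar3 n1 n2 n3 e3 e5 e4 e6).2 ?_
    · rcases hs with h | h <;> rw [h] at c6 ⊢ <;> linear_combination c6 + ν * hq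
  · have h0 : ¬ Even n := fun h => ne (c3.2 h)
    rw [Nat.not_even_iff_odd] at h0
    obtain ⟨t, ht⟩ := h0
    refine ar1 (N := M.nn (M.w r) r + M.nn (M.w r) (r + 1)) (by omega) hD (g := M.wt d)
      c1 (ν := ν * sgz (M.e r)) (by rcases hν with h | h <;> rcases hs with h' | h' <;>
        simp [h, h']) (n := n) (by omega)
      (R := M.nn (M.w r) r * (2 * x + 1) - M.nn (M.w r) (r + 1) * (2 * y + 1))
      (ar3 n1 n2 n3 e4 e6 e3 e5).1 (ar3 n1 n2 n3 e4 e6 e3 e5).2 ?_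
    · rcases hs with h | h <;> rw [h] at c6 ⊢ <;> linear_combination -c6 + ν * hq
  · obtain ⟨t, ht⟩ := c3.1 rfl
    obtain ⟨g1, g2⟩ := ar2 n2 n1 n3.symm e3 e5 e4 e6
    rw [add_comm] at g1 g2
    refine ar0 (by omega) hD c1 (n := n) (by omega) g1 g2 (by linear_combination c6)

end Lev

end AllOne
end

-- merged part: Pool.Agent.Work.MP_d5331a_gt.A1.Comb
section
/-!
Reduced walks have non-trivial labels.
-/

set_option autoImplicit false

open Complex Set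

namespace AllOne

open Neuwirth OneOne

namespace Lev

/-- The letter of an arc. -/
noncomputable def ltr (c : ℕ) : Arc → ℕ × ℝ
  | .tm i _ _ => (J c i, 0)
  | .nk j _ _ => (j, 0)
  | .sp j _ _ _ => (j, 0)

/-- The exponents on the two sides of the letter of an arc. -/
noncomputable def ex (M : Lev) (c : ℕ) : Arc → Bool → ℤ
  | .tm i a m, _ => M.kap (J c i) i a m
  | .nk j β _, b => if b then ⌊M.ph (j - 1) β⌋ else ⌊M.ph (j + 1) β⌋
  | .sp j β σ n, _ => M.spx j β σ n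

/-- The conditions at the two ends. -/
def EndsBig (M : Lev) : Prop := 2 ≤ |M.q 1| ∧ 2 ≤ |M.p M.l|

variable {M : Lev} (hM : M.Good)
include hM

omit hM in
theorem Comb_two {a k : ℤ} (ha : 2 ≤ |a|) (h : |a * k| ≤ 1) : k = 0 := by
  by_contra h0
  have := Int.one_le_abs h0
  rw [abs_mul] at h
  nlinarith

theorem end_zero (hE : M.EndsBig) {c i : ℕ} (h1 : 1 ≤ i) (h2 : i ≤ M.l)
    (he : ¬ (1 ≤ J c i ∧ J c i < M.l)) {k m : ℤ} (h0 : M.phZ (J c i) k m = 0)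
    (h : |M.q i * k - M.p i * m| ≤ 1) : k = 0 ∧ m = 0 := by
  have h3 := hM.one_le
  have h4 : (i = 1 ∧ J c i = 0) ∨ (i = M.l ∧ J c i = M.l) := by
    unfold J at he ⊢; split_ifs at he ⊢ <;> omega
  rcases h4 with ⟨rfl, e⟩ | ⟨e', e⟩
  · rw [e] at h0
    obtain rfl : m = 0 := by simpa [phZ] using h0
    exact ⟨Comb_two hE.1 (by simpa using h), rfl⟩
  · rw [e] at h0
    rw [e'] at h
    have h5 : M.l ≠ 0 := by omega
    obtain rfl : k = 0 := by simpa [phZ, h5] using h0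
    exact ⟨rfl, Comb_two hE.2 (by simpa using h)⟩

omit hM in
theorem J_cases {c i : ℕ} (h1 : 1 ≤ i) : i = J c i ∨ i = J c i + 1 := by
  unfold J; split_ifs <;> omega

omit hM in
theorem sigma_eq {g : ℝ} (hg : g = 1 ∨ g = -1) {σ σ' : ℝ} (hσ : σ = 1 ∨ σ = -1)
    (hσ' : σ' = 1 ∨ σ' = -1) {p q : ℤ}
    (hpq : p ≠ q) (h : (if σ * g = 1 then p else q) = if σ' * g = 1 then p else q) : σ = σ' := by
  have ne : ¬ (-1 : ℝ) = 1 := by norm_num
  rcases hσ with rfl | rfl <;> rcases hσ' with rfl | rfl <;> rcases hg with e | e <;>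
    simp [e, ne, hpq, hpq.symm] at h ⊢

variable [hS : M.Ess]

/-- Two neck darts with the same letter. -/
theorem neck_pinch (hE : M.EndsBig) {c i j : ℕ} {β β' : ℂ} {σ σ' : ℝ} {δ δ' : ℤ} (h1 : 1 ≤ i)
    (h2 : i ≤ M.l) (hj : J c i ≠ j) (hβ : β ∈ M.B j) (hβ' : β' ∈ M.B j)
    (hδ : δ = 0 ∨ δ = 1) (hδ' : δ' = 0 ∨ δ' = 1)
    (hp : ⌊M.ph (J c i) β⌋ = ⌊M.ph (J c i) β'⌋) {L : List (Arc × Bool)}
    (hw : Walk (M.src c) (M.tgt c) (i, M.ind i β - δ, M.tin (J c i) j β σ, 0) L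
      (i, M.ind i β' - δ', M.tin (J c i) j β' σ', 0))
    (hr : Reduced L) (hi : ∀ d ∈ L, M.Inner c d) : L = [] ∧ β = β' ∧ δ = δ' := by
  obtain ⟨k, m, rfl⟩ := band_diff hβ hβ'
  rw [ph_add, Int.floor_add_intCast] at hp
  have h0 : M.phZ (J c i) k m = 0 := by omega
  obtain ⟨-, b2, b3⟩ := inner_walk hM hw hr hi
  have key : ∀ (x : ℂ) (s : ℝ), M.tin (J c i) j x s = M.ti (J c i) x := fun x s => by
    rw [tin, if_neg fun h => hj h.1, sub_zero]
  have hkm : k = 0 ∧ m = 0 := by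
    by_cases he : 1 ≤ J c i ∧ J c i < M.l
    · simp only [key, ti_add] at b2
      exact vec_zero hM he.1 he.2 h0 (by omega)
    · rcases b3 with ⟨-, e⟩ | ⟨r, -, -, rfl, h, h', -⟩
      · refine end_zero hM hE h1 h2 he h0 ?_
        have e1 := congrArg (fun u => u.2.1) e
        simp only [ind_add] at e1
        rw [abs_le]
        omega
      · exact absurd ⟨h, h'⟩ he
  obtain ⟨rfl, rfl⟩ := hkm
  simp only [Int.cast_zero, zero_mul, add_zero] at hw ⊢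
  obtain ⟨e, e'⟩ := inner_near hM hw hr hi rfl (by rw [abs_le]; dsimp only; omega) (Or.inl rfl)
  refine ⟨e, trivial, ?_⟩
  have e1 := congrArg (fun u => u.2.1) e'
  simp only at e1
  omega

omit hM hS in
theorem ends_tm (c i : ℕ) (a m : ℤ) (b : Bool) :
    dtgt (M.src c) (M.tgt c) (.tm i a m, b) = (i, a, m - (if b then 0 else 1), 0) ∧
    dsrc (M.src c) (M.tgt c) (.tm i a m, !b) = (i, a, m - (if b then 0 else 1), 0) := by
  cases b <;> simp [dsrc, dtgt, src, tgt]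

omit hM hS in
theorem ends_sp (c j : ℕ) (β : ℂ) (σ : ℝ) (n : ℕ) (b : Bool) :
    dtgt (M.src c) (M.tgt c) (.sp j β σ n, b) = (j + 1, M.gi j β σ, M.ti j β - (if b then 0 else 1),
      sgz σ * (M.k j - n + if ((Even n ↔ σ = 1) ↔ b = true) then 0 else 1)) ∧
    dsrc (M.src c) (M.tgt c) (.sp j β σ n, !b) = (j + 1, M.gi j β σ, M.ti j β - (if b then 0 else 1),
      sgz σ * (M.k j - n + if ((Even n ↔ σ = 1) ↔ b = true) then 0 else 1)) := by
  cases b <;> by_cases h : (Even n ↔ σ = 1) <;> simp [dsrc, dtgt, src, tgt, h]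

theorem kap_go {j : ℕ} {β : ℂ} (hβ : β ∈ M.B j) (σ : ℝ) :
    M.kap j j (M.go j β σ) (M.ti j β) = ⌊M.ph j β⌋ - if σ * M.e j = 1 then 0 else 1 := by
  have h1 := hS.n1 j hβ.1 hβ.2.1
  rw [kap, go, ind_w hM hβ (Or.inl rfl)]
  split_ifs
  · exact Int.ediv_eq_of_eq_mul_right h1.ne' (by ring)
  · refine ((Int.ediv_emod_unique (r := M.nn (M.w j) j - 1) h1).2 ⟨by ring, by omega, by omega⟩).1

theorem kap_gi {j : ℕ} {β : ℂ} (hβ : β ∈ M.B j) (σ : ℝ) :
    M.kap j (j + 1) (M.gi j β σ) (M.ti j β) = ⌊M.ph j β⌋ - if σ * M.f j = 1 then 1 else 0 := by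
  have h1 := hS.n2 j hβ.1 hβ.2.1
  rw [kap, gi, ind_w hM hβ (Or.inr rfl)]
  split_ifs
  · refine ((Int.ediv_emod_unique (r := M.nn (M.w j) (j + 1) - 1) h1).2
      ⟨by ring, by omega, by omega⟩).1
  · exact Int.ediv_eq_of_eq_mul_right h1.ne' (by ring)

theorem gi_inj {j : ℕ} {β β' : ℂ} {σ : ℝ} (hβ : β ∈ M.B j) (hβ' : β' ∈ M.B j)
    (h1 : M.ti j β = M.ti j β') (h : M.gi j β σ = M.gi j β' σ) : β = β' :=
  band_eq_of hM hβ hβ' (Or.inr rfl) h1 (by simpa [gi] using h)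

/-- The innermost arc of a strip. -/
theorem sp_first {j : ℕ} {β β' : ℂ} {σ σ' : ℝ} {n : ℕ} {b : Bool} (hβ : β ∈ M.B j)
    (hβ' : β' ∈ M.B j) (hσ : σ = 1 ∨ σ = -1) (hσ' : σ' = 1 ∨ σ' = -1) (n1 : 1 ≤ n)
    (n2 : n ≤ M.k j) (h : (j + 1, M.gi j β σ, M.ti j β - (if b then 0 else 1),
      sgz σ * (M.k j - n + if ((Even n ↔ σ = 1) ↔ b = true) then 0 else 1)) = M.nhi j β' σ') :
    σ = σ' ∧ β = β' ∧ n = 1 ∧ (σ = 1 ↔ b = true) := by
  simp only [nhi, Prod.mk.injEq, true_and] at h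
  obtain ⟨h1, h2, h3⟩ := h
  have ne : ¬ (-1 : ℝ) = 1 := by norm_num
  have h4 : σ = σ' ∧ n = 1 ∧ ¬ ((Even n ↔ σ = 1) ↔ b = true) := by
    split_ifs at h3 with h4 <;> rcases hσ with rfl | rfl <;> rcases hσ' with rfl | rfl <;>
      simp only [sgz_one, sgz_neg_one] at h3 <;> first | omega | exact ⟨rfl, by omega, h4⟩
  obtain ⟨rfl, rfl, h4⟩ := h4
  have h5 : σ = 1 ↔ b = true := by
    have : ¬ Even 1 := Nat.not_even_one
    (clear * - h4 hσ hσ' this; tauto)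
  refine ⟨rfl, gi_inj hM hβ hβ' ?_ h1, rfl, h5⟩
  rcases tin_self (M := M) j β' hσ with ⟨rfl, h6⟩ | ⟨rfl, h6⟩ <;> rw [h6] at h2 <;> cases b <;>
    simp [ne] at h5 h2 <;> exact h2

theorem tm_sp {c i j : ℕ} {a m : ℤ} {β : ℂ} {σ : ℝ} {n : ℕ} {b : Bool} (hβ : β ∈ M.B j)
    (hσ : σ = 1 ∨ σ = -1) (n1 : 1 ≤ n) (n2 : n ≤ M.k j) (hJ : J c i = j)
    (he : M.kap j i a m = M.spx j β σ n) {u v : ℕ × ℤ × ℤ × ℤ}
    (hu : u = (i, a, m - (if b then 0 else 1), 0))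
    (hv : v = (j + 1, M.gi j β σ, M.ti j β - (if b then 0 else 1),
      sgz σ * (M.k j - n + if ((Even n ↔ σ = 1) ↔ b = true) then 0 else 1)))
    (h : u = v ∨ M.Shape j u v ∨ M.Shape j v u) : False := by
  have ne : ¬ (-1 : ℝ) = 1 := by norm_num
  have hz : ∀ β' σ', u ≠ M.nhi j β' σ' := fun β' σ' h => by
    have h1 := congrArg (fun z => z.2.2.2) (hu.symm.trans h)
    simp only [nhi] at h1
    rcases sgz_cases σ' with e | e <;> rw [e] at h1 <;> omega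
  have hz' : ∀ β' σ', v ≠ M.nlo j β' σ' := fun β' σ' h => by
    have h1 := congrArg Prod.fst (hv.symm.trans h)
    simp [nlo] at h1
  have key : ∀ β' σ', β' ∈ M.B j → (σ' = 1 ∨ σ' = -1) → u = M.nlo j β' σ' →
      v = M.nhi j β' σ' → False := fun β' σ' hβ' hσ' e1 e2 => by
    obtain ⟨rfl, rfl, rfl, h5⟩ := sp_first hM hβ hβ' hσ hσ' n1 n2 (hv.symm.trans e2)
    have e3 := hu.symm.trans e1
    simp only [nlo, Prod.mk.injEq] at e3
    obtain ⟨rfl, rfl, e3, -⟩ := e3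
    obtain rfl : m = M.ti i β := by
      rcases tin_self (M := M) i β hσ with ⟨rfl, h6⟩ | ⟨rfl, h6⟩ <;> rw [h6] at e3 <;> cases b <;>
        simp [ne] at h5 e3 <;> exact e3
    rw [kap_go hM hβ, spx, sub_right_inj] at he
    by_cases h7 : σ * M.e i = 1 <;> simp [h7] at he
  rcases h with h | ⟨β', σ', hβ', hσ', h | h | h⟩ | ⟨β', σ', hβ', hσ', h | h | ⟨-, β'', -, h⟩⟩
  · rw [hu, hv] at h
    simp only [Prod.mk.injEq, sub_left_inj] at h
    obtain ⟨rfl, rfl, rfl, h⟩ := h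
    obtain rfl : n = M.k j := by
      rcases sgz_cases σ with e | e <;> rw [e] at h <;> split_ifs at h <;> omega
    rw [kap_gi hM hβ, spx, sub_right_inj, hS.fe j hβ.1 hβ.2.1] at he
    rcases Nat.even_or_odd (M.k j) with h1 | h1
    · rw [h1.neg_one_pow, mul_one] at he
      by_cases h7 : σ * M.e j = 1 <;> simp [h7, h1] at he
    · rw [h1.neg_one_pow] at he
      have h2 := Nat.not_even_iff_odd.2 h1
      rcases se_cases hM j hσ with h7 | h7 <;> simp [h7, h2, ne] at he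
  · exact key β' σ' hβ' hσ' h.1 h.2
  · exact hz _ _ h.1
  · exact hz _ _ h.1
  · exact hz' _ _ h.1
  · exact key β' σ' hβ' hσ' h.2 h.1
  · exact hz _ _ h

theorem no_pinch (hE : M.EndsBig) {c : ℕ} (hc : c < 2) {A A' : Arc} {b : Bool} (hv : M.valid c A)
    (hv' : M.valid c A') (ho : ¬ M.Inner c (A, b)) (ho' : ¬ M.Inner c (A', !b))
    {L : List (Arc × Bool)}
    (hw : Walk (M.src c) (M.tgt c) (dtgt (M.src c) (M.tgt c) (A, b)) L
      (dsrc (M.src c) (M.tgt c) (A', !b)))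
    (hr : Reduced L) (hi : ∀ d ∈ L, M.Inner c d) (hl : ltr c A = ltr c A')
    (he : M.ex c A (!b) = M.ex c A' (!b)) : L = [] ∧ A' = A := by
  have ne : ¬ (-1 : ℝ) = 1 := by norm_num
  cases A with
  | tm i a τ =>
    rw [(ends_tm c i a τ b).1] at hw
    have hk := inner_kap hM hw hr hi (m := τ) (by cases b <;> simp)
    cases A' with
    | tm i' a' τ' =>
      have hJ : J c i = J c i' := congrArg Prod.fst hl
      rw [(ends_tm c i' a' τ' b).2] at hw hk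
      obtain rfl : τ' = τ := by simpa using (inner_walk hM hw hr hi).2.1
      simp only [ex, ← hJ] at he
      rcases hk with ⟨e, e'⟩ | ⟨-, h⟩ | ⟨h, β, σ, -, -, ⟨-, h'⟩ | ⟨h', -⟩ | ⟨h', -⟩⟩
      · simp only [Prod.mk.injEq] at e'
        exact ⟨e, by rw [e'.1, e'.2.1]⟩
      · exact absurd he h
      all_goals
        have h1 := congrArg (fun z => z.2.2.2) h'
        simp only [nhi] at h1 h
        rcases sgz_cases σ with e | e <;> rw [e] at h1 <;> omega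
    | nk j' β' σ' =>
      have hJ : J c i = j' := congrArg Prod.fst hl
      exact absurd ⟨j', β', σ', rfl, hv'.1, hv'.2, hJ ▸ J_mod hc hv.1⟩ ho'
    | sp j β σ n =>
      have hJ : J c i = j := congrArg Prod.fst hl
      obtain ⟨hβ, hσ, -, n1, n2⟩ := hv'
      rw [(ends_sp c j β σ n b).2] at hk
      simp only [ex, hJ] at he hk
      refine (tm_sp hM (b := b) hβ hσ n1 n2 hJ he rfl rfl ?_).elim
      rcases hk with h | h | h
      · exact Or.inl h.2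
      · omega
      · exact Or.inr (Or.inl h.2)
  | nk j β σ =>
    have hj : j % 2 ≠ c := fun h => ho ⟨j, β, σ, rfl, hv.1, hv.2, h⟩
    cases A' with
    | tm i' a' τ' =>
      have hJ : j = J c i' := congrArg Prod.fst hl
      exact absurd (hJ ▸ J_mod hc hv'.1) hj
    | sp j' β' σ' n =>
      obtain rfl : j = j' := congrArg Prod.fst hl
      exact absurd hv'.2.2.1 hj
    | nk j' β' σ' =>
      obtain rfl : j = j' := congrArg Prod.fst hl
      obtain ⟨r1, r2⟩ := band_range hv.1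
      cases b
      · obtain ⟨e1, e2, e3⟩ := neck_pinch hM hE (c := c) (i := j) r1 r2.le
          (by rw [J_self' hj]; omega) hv.1 hv'.1
          (δ := if σ * M.e j = 1 then 0 else 1) (δ' := if σ' * M.e j = 1 then 0 else 1)
          (by split_ifs <;> simp) (by split_ifs <;> simp)
          (by rw [J_self' hj]; exact he) hw hr hi
        rw [e2, sigma_eq (hM.sign j) hv.2 hv'.2 zero_ne_one e3]
        exact ⟨e1, rfl⟩
      · simp only [dtgt, dsrc, tgt, hj, if_true, if_false, Bool.not_true, Bool.false_eq_true] at hw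
        obtain ⟨e1, e2, e3⟩ := neck_pinch hM hE (c := c) (i := j + 1) (by omega) r2
          (by rw [J_succ' hc hj]; omega) hv.1 hv'.1
          (δ := if σ * M.f j = 1 then 1 else 0) (δ' := if σ' * M.f j = 1 then 1 else 0)
          (by split_ifs <;> simp) (by split_ifs <;> simp)
          (by rw [J_succ' hc hj]; exact he) hw hr hi
        rw [e2, sigma_eq (hM.signf j) hv.2 hv'.2 one_ne_zero e3]
        exact ⟨e1, rfl⟩
  | sp j β σ n =>
    obtain ⟨hβ, hσ, hj, n1, n2⟩ := hv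
    rw [(ends_sp c j β σ n b).1] at hw
    have hk := inner_kap hM hw hr hi (Or.inl rfl)
    simp only [J_succ hj] at hk
    cases A' with
    | tm i a τ =>
      have hJ : j = J c i := congrArg Prod.fst hl
      rw [(ends_tm c i a τ b).2] at hk
      simp only [ex, ← hJ] at he
      refine (tm_sp hM (b := b) hβ hσ n1 n2 hJ.symm he.symm rfl rfl ?_).elim
      rcases hk with h | h | h
      · exact Or.inl h.2.symm
      · omega
      · exact Or.inr (Or.inr h.2)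
    | nk j' β' σ' =>
      obtain rfl : j = j' := congrArg Prod.fst hl
      exact absurd ⟨j, β', σ', rfl, hv'.1, hv'.2, hj⟩ ho'
    | sp j' β' σ' n' =>
      obtain rfl : j = j' := congrArg Prod.fst hl
      obtain ⟨hβ', hσ', -, n1', n2'⟩ := hv'
      rw [(ends_sp c j β' σ' n' b).2] at hk
      rcases hk with ⟨e, h⟩ | h | ⟨-, β₀, σ₀, hβ₀, hσ₀, h | h | ⟨h, β₁, hβ₁, h'⟩⟩
      · simp only [Prod.mk.injEq, sub_left_inj, true_and] at h
        obtain ⟨h1, h2, h3⟩ := h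
        obtain rfl : σ = σ' := by
          by_contra hne
          have h4 : sgz σ' = -sgz σ ∧ (σ' = 1 ↔ ¬ σ = 1) := by
            rcases hσ with rfl | rfl <;> rcases hσ' with rfl | rfl <;>
              simp [sgz_one, sgz_neg_one, ne] at hne ⊢
          simp only [h4.1, h4.2] at h3
          have h5 : n = M.k j ∧ n' = M.k j := by
            rcases sgz_cases σ with e | e <;> rw [e] at h3 <;> split_ifs at h3 <;> omega
          obtain ⟨rfl, h6⟩ := h5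
          rw [h6] at h3
          clear * - h3 n1 n2
          rcases sgz_cases σ with e | e <;> rw [e] at h3 <;> split_ifs at h3 <;>
            first | omega | tauto
        obtain rfl := gi_inj hM hβ hβ' h2 h1
        refine ⟨e, ?_⟩
        have h4 : Even n ↔ Even n' := by
          simp only [ex, spx, sub_right_inj] at he
          clear * - he
          split_ifs at he <;> first | omega | tauto
        simp only [h4] at h3
        obtain rfl : n = n' := by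
          rcases sgz_cases σ with e | e <;> rw [e] at h3 <;> omega
        rfl
      · omega
      · have h1 := congrArg Prod.fst h.1
        simp [nlo] at h1
      · have h1 := congrArg Prod.fst h.2
        simp [nlo] at h1
      · have hσ₁ : -σ₀ = 1 ∨ -σ₀ = -1 := by rcases hσ₀ with rfl | rfl <;> simp
        obtain ⟨rfl, -, -, h1⟩ := sp_first hM hβ hβ₀ hσ hσ₀ n1 n2 h
        obtain ⟨rfl, -, -, h2⟩ := sp_first hM hβ' hβ₁ hσ' hσ₁ n1' n2' h'
        rcases hσ with rfl | rfl <;> simp [ne] at h1 h2 <;> simp [h1] at h2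

omit hM hS in
theorem dval_inner {c : ℕ} {d : Arc × Bool} (hd : M.Inner c d) : dval (M.lab c) d = 1 := by
  obtain ⟨A, b⟩ := d
  obtain ⟨j, β, σ, rfl, -, -, hj⟩ := hd
  cases b <;> simp [dval, lab, hj]

omit hM hS in
theorem lab_outer {c : ℕ} {A : Arc} {b : Bool} (hv : M.valid c A) (ho : ¬ M.Inner c (A, b)) :
    M.lab c A = T (M.ex c A true) * S (ltr c A) * T (-M.ex c A false) := by
  cases A with
  | tm i a τ => rfl
  | nk j β σ =>
    have hj : j % 2 ≠ c := fun h => ho ⟨j, β, σ, rfl, hv.1, hv.2, h⟩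
    simp [lab, hj, labE, ex, ltr]
  | sp j β σ n => rfl

omit hM hS in
theorem dval_outer {c : ℕ} {A : Arc} {b : Bool} (hv : M.valid c A) (ho : ¬ M.Inner c (A, b))
    (x : NF) (h : ¬ (x.1.1 = M.ex c A (!b) ∧ ∃ k L, x.1.2 = (ltr c A, !b, k) :: L)) :
    (dval (M.lab c) (A, b) x).1 =
      (M.ex c A b, (ltr c A, b, -M.ex c A (!b) + x.1.1) :: x.1.2) := by
  cases b
  · simp only [dval, lab_outer hv ho, Bool.false_eq_true, if_false, mul_inv_rev, ← T_neg, neg_neg,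
      Equiv.Perm.mul_apply, T_apply]
    rw [S_inv_apply]
    · simp [T_apply]
    · rintro ⟨h1, h2⟩
      exact h ⟨by simp only [T_apply] at h1; simp only [Bool.not_false]; omega, h2⟩
  · simp only [dval, lab_outer hv ho, if_true, Equiv.Perm.mul_apply, T_apply]
    rw [S_apply]
    · simp [T_apply]
    · rintro ⟨h1, h2⟩
      exact h ⟨by simp only [T_apply] at h1; simp only [Bool.not_true]; omega, h2⟩

theorem walk_state (hE : M.EndsBig) {c : ℕ} (hc : c < 2) {u v : ℕ × ℤ × ℤ × ℤ} {L : List (Arc × Bool)}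
    (hw : Walk (M.src c) (M.tgt c) u L v) (hr : Reduced L) (hv : ∀ d ∈ L, M.valid c d.1) :
    ((∀ d ∈ L, M.Inner c d) ∧ (L.map (dval (M.lab c))).prod = 1) ∨
    ∃ L₁ d L₂ k R, L = L₁ ++ d :: L₂ ∧
      Walk (M.src c) (M.tgt c) u L₁ (dsrc (M.src c) (M.tgt c) d) ∧ (∀ e ∈ L₁, M.Inner c e) ∧
      ¬ M.Inner c d ∧ ((L.map (dval (M.lab c))).prod NF.one).1 =
        (M.ex c d.1 d.2, (ltr c d.1, d.2, k) :: R) := by
  induction hw with
  | nil u => exact Or.inl ⟨by simp, by simp⟩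
  | @cons d L v hw ih =>
    have ih' := ih (List.IsChain.tail hr) fun e he => hv e (List.mem_cons_of_mem _ he)
    rw [List.map_cons, List.prod_cons]
    by_cases hd : M.Inner c d
    · rw [dval_inner hd, one_mul]
      rcases ih' with ⟨h1, h2⟩ | ⟨L₁, e, L₂, k, R, rfl, h1, h2, h3, h4⟩
      · exact Or.inl ⟨List.forall_mem_cons.2 ⟨hd, h1⟩, h2⟩
      · exact Or.inr ⟨d :: L₁, e, L₂, k, R, rfl, Walk.cons d h1,
          List.forall_mem_cons.2 ⟨hd, h2⟩, h3, h4⟩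
    · obtain ⟨A, b⟩ := d
      have hA : M.valid c A := hv _ List.mem_cons_self
      refine Or.inr ⟨[], (A, b), L, _, _, rfl, Walk.nil _, by simp, hd,
        dval_outer hA hd _ ?_⟩
      rintro ⟨g1, k', R', g2⟩
      rcases ih' with ⟨-, h2⟩ | ⟨L₁, ⟨A', b'⟩, L₂, k, R, rfl, h1, h2, h3, h4⟩
      · rw [h2] at g2
        exact (List.cons_ne_nil _ _ g2.symm).elim
      · rw [h4] at g1 g2
        simp only [List.cons.injEq, Prod.mk.injEq] at g1 g2
        obtain ⟨⟨g2, rfl, -⟩, -⟩ := g2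
        obtain ⟨rfl, rfl⟩ := no_pinch hM hE hc hA (hv (A', !b) (by simp)) hd h3 h1
          (List.IsChain.left_of_append (List.IsChain.tail hr)) h2 g2.symm g1.symm
        exact (List.isChain_cons_cons.1 hr).1 rfl

theorem walk_end (hE : M.EndsBig) {c : ℕ} (hc : c < 2) {i : ℕ} (h1 : 1 ≤ i) (h2 : i ≤ M.l)
    (a t x k m : ℤ) (L : List (Arc × Bool))
    (hw : Walk (M.src c) (M.tgt c) (i, a, t, x) L
      (i, a + (M.q i * k - M.p i * m), t + M.tiZ (J c i) k m, x))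
    (hr : Reduced L) (hv : ∀ d ∈ L, M.valid c d.1)
    (hp : (L.map (dval (M.lab c))).prod = T (-M.phZ (J c i) k m)) :
    L = [] ∧ k = 0 ∧ m = 0 := by
  rcases walk_state hM hE hc hw hr hv with ⟨hi, g⟩ | ⟨L₁, d, L₂, k', R, -, -, -, -, g⟩
  · have h0 : M.phZ (J c i) k m = 0 := by
      have := congrArg (fun g : Grp => (g NF.one).1.1) (g.symm.trans hp)
      have h' : (0 : ℤ) = -M.phZ (J c i) k m + 0 := this
      omega
    obtain ⟨-, b2, b3⟩ := inner_walk hM hw hr hi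
    by_cases he : 1 ≤ J c i ∧ J c i < M.l
    · obtain ⟨rfl, rfl⟩ := vec_zero hM he.1 he.2 h0 (by simpa using b2)
      exact ⟨(inner_near hM hw hr hi rfl (by simp) (Or.inr rfl)).1, rfl, rfl⟩
    · rcases b3 with ⟨e, e'⟩ | ⟨r, -, -, rfl, h, h', -⟩
      · refine ⟨e, end_zero hM hE h1 h2 he h0 ?_⟩
        have e1 := congrArg (fun u => u.2.1) e'
        simp only at e1
        rw [abs_le]
        omega
      · exact absurd ⟨h, h'⟩ he
  · rw [hp, T_apply] at g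
    exact absurd (congrArg Prod.snd g) (by simp [NF.one])

end Lev

end AllOne
end
end
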