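import Pool.Agent.Work.MP_d5331a_gt.A1.Comb
import Pool.Agent.Work.MP_d5331a_gt.NonComm

-- merged part: Pool.Agent.Work.MP_d5331a_gt.A1.Sheets
section
/-!
Sheets, gaps and strips. Port of the file `Sheets` of the directory `OO`.
-/

set_option autoImplicit false

open Complex Set Filter Topology

namespace AllOne

open Neuwirth OneOne

namespace Lev

variable {M : Lev} (hM : M.Good)
include hM

omit hM in
theorem sheets_iff {i : ℕ} {x : ℂ × ℝ} : x ∈ M.Sheet i ↔ M.bump i x.1 ≤ 1 / 2 ∧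
    M.bump (i - 1) x.1 ≤ 1 / 2 ∧ x.2 = i + M.bump i x.1 - M.bump (i - 1) x.1 := by
  refine and_congr_right fun h1 => and_congr_right fun h2 => ?_
  rw [hgt, min_eq_left h1, min_eq_left h2]

omit hM in
theorem sheets_plain {i : ℕ} {x : ℂ × ℝ} (h : M.bump (i - 1) x.1 = 0) (h' : M.bump i x.1 = 0) :
    x ∈ M.Sheet i ↔ x.2 = i := by
  rw [sheets_iff, h, h']
  norm_num

theorem sheets_near {j : ℕ} {β ζ : ℂ} (hβ : β ∈ M.B j) (h : ‖ζ - β‖ ≤ M.ε) :
    M.bump j ζ = 1 - ‖ζ - β‖ / M.ε ∧ M.bump (j - 1) ζ = 0 ∧ M.bump (j + 1) ζ = 0 := by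
  have h0 := hM.ε_pos
  have h1 := (band_range hβ).1
  have h2 : ‖ζ - β‖ < 2 * M.ε := by linarith only [h, h0]
  refine ⟨?_, bump_other hM hβ h2 (Or.inr (by omega)), bump_other hM hβ h2 (Or.inl rfl)⟩
  rw [bump_near hM hβ h2, max_eq_right (sub_nonneg.2 (div_le_one_of_le₀ h h0.le))]

theorem sheets_outer {j : ℕ} {β : ℂ} (hβ : β ∈ M.B j) {x : ℂ × ℝ} (h : ‖x.1 - β‖ ≤ M.ε) :
    x ∈ M.Sheet j ↔ x.2 ≤ j + 1 / 2 ∧ ‖x.1 - β‖ = M.ε / 2 + M.ε * |x.2 - j - 1 / 2| := by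
  obtain ⟨h1, h2, -⟩ := sheets_near hM hβ h
  have h0 := hM.ε_pos
  have e : ‖x.1 - β‖ = M.ε * (‖x.1 - β‖ / M.ε) := by field_simp
  rw [sheets_iff, h1, h2]
  generalize ‖x.1 - β‖ / M.ε = t at e
  rw [e]
  constructor
  · rintro ⟨a1, -, a2⟩
    refine ⟨by linarith only [a1, a2], ?_⟩
    rw [abs_of_nonpos (by linarith only [a1, a2]), a2]
    ring
  · rintro ⟨a1, a2⟩
    rw [abs_of_nonpos (by linarith only [a1])] at a2
    have a3 : t = 1 / 2 - (x.2 - j - 1 / 2) := mul_left_cancel₀ h0.ne' (by linarith only [a2])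
    exact ⟨by linarith only [a1, a3], by norm_num, by linarith only [a3]⟩

theorem sheets_inner {j : ℕ} {β : ℂ} (hβ : β ∈ M.B j) {x : ℂ × ℝ} (h : ‖x.1 - β‖ ≤ M.ε) :
    x ∈ M.Sheet (j + 1) ↔ j + 1 / 2 ≤ x.2 ∧ ‖x.1 - β‖ = M.ε / 2 + M.ε * |x.2 - j - 1 / 2| := by
  obtain ⟨h1, -, h2⟩ := sheets_near hM hβ h
  have h0 := hM.ε_pos
  have e : ‖x.1 - β‖ = M.ε * (‖x.1 - β‖ / M.ε) := by field_simp
  rw [sheets_iff, Nat.add_sub_cancel, h1, h2]
  generalize ‖x.1 - β‖ / M.ε = t at e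
  rw [e]
  push_cast
  constructor
  · rintro ⟨-, a1, a2⟩
    refine ⟨by linarith only [a1, a2], ?_⟩
    rw [abs_of_nonneg (by linarith only [a1, a2]), a2]
    ring
  · rintro ⟨a1, a2⟩
    rw [abs_of_nonneg (by linarith only [a1])] at a2
    have a3 : t = 1 / 2 + (x.2 - j - 1 / 2) := mul_left_cancel₀ h0.ne' (by linarith only [a2])
    exact ⟨by norm_num, by linarith only [a1, a3], by linarith only [a3]⟩

omit hM in
theorem sheets_dir {j : ℕ} {s s' θ : ℝ} (h : M.ang j s + θ = M.ang j s') (w : ℂ) :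
    w * M.dir j s * exp ((θ : ℂ) * I) = w * M.dir j s' := by
  rw [dir, dir, ← h, ofReal_add, add_mul, exp_add]
  ring

theorem sheets_small {i : ℕ} (hi : i ≤ M.l) (j : ℕ) {g : ℝ} (hg : g = 1 ∨ g = -1) {β : ℂ}
    {x : ℂ × ℝ} (h : ‖x.1 - β‖ ≤ M.ε) : |g * ‖M.lam i‖ * (M.unt j β x).im| < 1 := by
  have h1 := abs_im_le_norm (M.unt j β x)
  rw [norm_unt hM] at h1
  have h2 : |g| = 1 := by rcases hg with e | e <;> simp [e]
  have h3 := mul_le_mul_of_nonneg_left (h1.trans h) (norm_nonneg (M.lam i))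
  have h4 := norm_lam_small hM hi
  rw [abs_mul, abs_mul, h2, one_mul, abs_norm]
  linarith only [h3, h4]

theorem sheets_band {j : ℕ} {β : ℂ} {s σ : ℝ} {x : ℂ × ℝ} (hσ : σ = 1 ∨ σ = -1)
    (h : x = (β + ((σ * (M.ε / 2 + M.ε * |s|) : ℝ) : ℂ) * M.dir j s, j + 1 / 2 + s)) :
    x.2 - j - 1 / 2 = s ∧ ‖x.1 - β‖ = M.ε / 2 + M.ε * |s| ∧ (M.unt j β x).im = 0 := by
  have h0 := hM.ε_pos
  have h1 : x.2 - j - 1 / 2 = s := by
    rw [h]
    ring
  have h2 : x.1 - β = ((σ * (M.ε / 2 + M.ε * |s|) : ℝ) : ℂ) * M.dir j s := by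
    rw [h]
    exact add_sub_cancel_left _ _
  refine ⟨h1, ?_, ?_⟩
  · rw [h2, norm_mul, norm_dir hM, mul_one, norm_real, Real.norm_eq_abs, abs_mul,
      abs_of_nonneg (a := M.ε / 2 + M.ε * |s|) (by positivity)]
    rcases hσ with rfl | rfl <;> simp
  · rw [unt, h1, h2, mul_assoc, dir_mul_conj hM, mul_one, ofReal_im]

theorem lin_outer {j : ℕ} {β : ℂ} (hβ : β ∈ M.B j) {x : ℂ × ℝ} (h : ‖x.1 - β‖ ≤ M.ε)
    (hx : x ∈ M.Sheet j) :
    M.lin j x.1 = M.ind j β + M.e j * ‖M.lam j‖ * (M.unt j β x).im := by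
  obtain ⟨r1, r2⟩ := band_range hβ
  have h2 := (sheets_near hM hβ h).2.1
  obtain ⟨h3, -, h4⟩ := sheets_iff.1 hx
  rw [h2] at h4
  have e : M.ang j (x.2 - j - 1 / 2) +
      2 * (M.b (j - 1) * M.bump (j - 1) x.1 - M.a j * M.bump j x.1) = M.ang j (-(1 / 2)) := by
    rw [ang_nonpos j (by linarith only [h3, h4]), ang_nonpos j (by norm_num), h2, h4]
    ring
  rw [lin_near hM hβ (Or.inl rfl) (by linarith only [h, hM, hM.ε_pos]), ← unt_mul_dir hM j β x, sheets_dir e,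
    hM.start j r1 r2, mul_comm (M.unt j β x), mul_assoc, ← ofReal_neg, L_real_mul, L_u_mul hM]
  ring

theorem lin_inner {j : ℕ} {β : ℂ} (hβ : β ∈ M.B j) {x : ℂ × ℝ} (h : ‖x.1 - β‖ ≤ M.ε)
    (hx : x ∈ M.Sheet (j + 1)) :
    M.lin (j + 1) x.1 = M.ind (j + 1) β - M.f j * ‖M.lam (j + 1)‖ * (M.unt j β x).im := by
  obtain ⟨r1, r2⟩ := band_range hβ
  have h2 := (sheets_near hM hβ h).2.2
  obtain ⟨-, h3, h4⟩ := sheets_iff.1 hx
  rw [Nat.add_sub_cancel] at h3 h4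
  rw [h2] at h4
  push_cast at h4
  have e : M.ang j (x.2 - j - 1 / 2) + 2 * (M.b (j + 1 - 1) * M.bump (j + 1 - 1) x.1 -
      M.a (j + 1) * M.bump (j + 1) x.1) = M.ang j (1 / 2) := by
    rw [ang_nonneg j (by linarith only [h3, h4]), ang_nonneg j (by norm_num), Nat.add_sub_cancel, h2, h4]
    ring
  rw [lin_near hM hβ (Or.inr rfl) (by linarith only [h, hM, hM.ε_pos]), ← unt_mul_dir hM j β x, sheets_dir e,
    hM.stop j r1 r2, mul_comm (M.unt j β x), mul_assoc, L_real_mul, L_u_mul hM]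
  ring

/-- In the open cylinder over the disc of radius `ε` around a band the surface is the tube. -/
theorem mem_FUp_tube {j : ℕ} {β : ℂ} (hβ : β ∈ M.B j) {x : ℂ × ℝ} (h1 : ‖x.1 - β‖ < M.ε)
    (h2 : |x.2 - j - 1 / 2| < 1 / 2) :
    (x ∈ M.FUp ↔ ‖x.1 - β‖ = M.ε / 2 + M.ε * |x.2 - j - 1 / 2|) ∧
    (x ∈ M.knotUp ↔ ‖x.1 - β‖ = M.ε / 2 + M.ε * |x.2 - j - 1 / 2| ∧ (M.unt j β x).im = 0) := by
  have h0 := hM.ε_pos
  obtain ⟨r1, r2⟩ := band_range hβ
  obtain ⟨r3, r4⟩ := abs_lt.1 h2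
  refine ⟨⟨?_, fun h => ?_⟩, ?_, fun h => ?_⟩
  · rintro ⟨i, a1, -, a3⟩
    obtain ⟨b1, b2, b3⟩ := sheets_iff.1 a3
    have b4 := bump_nonneg hM i x.1
    have b5 := bump_nonneg hM (i - 1) x.1
    have b6 : j < i + 1 := by exact_mod_cast (by linarith only [r3, b1, b3, b5] : (j : ℝ) < i + 1)
    have b7 : i < j + 2 := by exact_mod_cast (by linarith only [r4, b2, b3, b4] : (i : ℝ) < j + 2)
    rcases (by omega : i = j ∨ i = j + 1) with rfl | rfl
    · exact ((sheets_outer hM hβ h1.le).1 a3).2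
    · exact ((sheets_inner hM hβ h1.le).1 a3).2
  · rcases le_total x.2 (j + 1 / 2) with e | e
    · exact ⟨j, r1, r2.le, (sheets_outer hM hβ h1.le).2 ⟨e, h⟩⟩
    · exact ⟨j + 1, by omega, r2, (sheets_inner hM hβ h1.le).2 ⟨e, h⟩⟩
  · rintro (⟨i, -, -, a3, -⟩ | ⟨j', β', hβ', s, σ, a1, a2, a3⟩)
    · rw [a3] at h2
      exact (Nest.sheets_nat h2).elim
    obtain ⟨b1, b2, b3⟩ := sheets_band hM a2 a3
    obtain ⟨b6, b7⟩ := abs_le.1 a1
    have b4 := norm_sub_le_norm_sub_add_norm_sub β x.1 β'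
    rw [norm_sub_rev β x.1] at b4
    have b5 := mul_le_mul_of_nonneg_left a1 h0.le
    have b8 : j < j' + 1 := by exact_mod_cast (by linarith only [r3, b1, b7] : (j : ℝ) < j' + 1)
    have b9 : j' < j + 1 := by exact_mod_cast (by linarith only [r4, b1, b6] : (j' : ℝ) < j + 1)
    obtain ⟨rfl, rfl⟩ := band_unique hM hβ hβ' b8.le b9.le (by linarith only [h1, h0, b2, b4, b5])
    rw [b1]
    exact ⟨b2, b3⟩
  · obtain ⟨a1, a2⟩ := h
    have b1 : M.unt j β x = ((M.unt j β x).re : ℂ) := Complex.ext rfl a2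
    have b2 : |(M.unt j β x).re| = M.ε / 2 + M.ε * |x.2 - j - 1 / 2| := by
      rw [← a1, ← Real.norm_eq_abs, ← norm_real, ← b1, norm_unt hM]
    obtain ⟨σ, c1, c2⟩ : ∃ σ : ℝ, (σ = 1 ∨ σ = -1) ∧
        (M.unt j β x).re = σ * (M.ε / 2 + M.ε * |x.2 - j - 1 / 2|) := by
      rcases (abs_eq (by positivity)).1 b2 with e | e
      · exact ⟨1, Or.inl rfl, by rw [e, one_mul]⟩
      · exact ⟨-1, Or.inr rfl, by rw [e, neg_one_mul]⟩
    refine Or.inr ⟨j, β, hβ, x.2 - j - 1 / 2, σ, h2.le, c1, Prod.ext ?_ (by linarith only [])⟩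
    rw [← c2, ← b1, unt_mul_dir hM]
    exact (add_sub_cancel _ _).symm

theorem mem_knot_iff {i : ℕ} (h1 : 1 ≤ i) (h2 : i ≤ M.l) {x : ℂ × ℝ} (hx : x ∈ M.Sheet i) :
    x ∈ M.knotUp ↔ ∃ k : ℤ, M.lin i x.1 = k := by
  have h0 := hM.ε_pos
  have hn : ∀ i, ‖M.lam i‖ ≠ 0 := fun i => (norm_lam_pos hM i).ne'
  have he : ∀ j, M.e j ≠ 0 := fun j => by rcases hM.sign j with h | h <;> simp [h]
  have hf : ∀ j, M.f j ≠ 0 := fun j => by rcases hM.signf j with h | h <;> simp [h]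
  have ht : ∀ {j : ℕ} {β : ℂ}, ‖x.1 - β‖ < M.ε → ‖x.1 - β‖ = M.ε / 2 + M.ε * |x.2 - j - 1 / 2| →
      |x.2 - j - 1 / 2| < 1 / 2 := fun h h' => lt_of_mul_lt_mul_left (by linarith only [h, h']) h0.le
  by_cases b1 : M.bump i x.1 = 0
  swap
  · obtain ⟨β, hβ, h⟩ := exists_of_bump_ne b1
    have a1 := ((sheets_outer hM hβ h.le).1 hx).2
    rw [(mem_FUp_tube hM hβ h (ht h a1)).2, lin_outer hM hβ h.le hx,
      Nest.sheets_int (sheets_small hM h2 i (hM.sign i) h.le), mul_eq_zero, mul_eq_zero]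
    simp only [a1, hn, he, true_and, false_or]
  by_cases b2 : M.bump (i - 1) x.1 = 0
  swap
  · obtain ⟨j, rfl⟩ : ∃ j, i = j + 1 := ⟨i - 1, by omega⟩
    obtain ⟨β, hβ, h⟩ := exists_of_bump_ne b2
    rw [Nat.add_sub_cancel] at hβ
    have a1 := ((sheets_inner hM hβ h.le).1 hx).2
    have a2 := sheets_small hM h2 j (hM.signf j) h.le
    rw [← abs_neg] at a2
    rw [(mem_FUp_tube hM hβ h (ht h a1)).2, lin_inner hM hβ h.le hx, sub_eq_add_neg (M.ind _ _ : ℝ),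
      Nest.sheets_int a2, neg_eq_zero, mul_eq_zero, mul_eq_zero]
    simp only [a1, hn, hf, true_and, false_or]
  have a1 := (sheets_plain b2 b1).1 hx
  have a2 : M.lin i x.1 = M.L i (x.1 - M.β i) := by rw [lin, tw_far b2 b1]
  constructor
  · rintro (⟨i', -, -, a3, a4, -⟩ | ⟨j, β, hβ, s, σ, c1, c2, c3⟩)
    · rw [a1, Nat.cast_inj] at a3
      rw [a2, a3]
      exact a4
    obtain ⟨d2, d3, d1⟩ := sheets_band hM c2 c3
    have d4 := mul_le_mul_of_nonneg_left c1 h0.le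
    obtain ⟨c4, c5⟩ := abs_le.1 c1
    have d5 : j ≤ i := by exact_mod_cast (by linarith only [a1, d2, c4] : (j : ℝ) ≤ i)
    have d6 : i ≤ j + 1 := by exact_mod_cast (by linarith only [a1, d2, c5] : (i : ℝ) ≤ j + 1)
    refine ⟨M.ind i β, ?_⟩
    rcases (by omega : i = j ∨ i = j + 1) with rfl | rfl
    · rw [lin_outer hM hβ (by linarith only [d3, d4]) hx, d1, mul_zero, add_zero]
    · rw [lin_inner hM hβ (by linarith only [d3, d4]) hx, d1, mul_zero, sub_zero]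
  · refine fun h => Or.inl ⟨i, h1, h2, a1, a2 ▸ h, fun β hβ => not_lt.1 fun h3 => ?_⟩
    have h4 := (div_lt_one h0).2 h3
    rcases hβ with hβ | hβ
    · linarith only [b2, h4, hM, hβ, h3, (sheets_near hM hβ h3.le).1]
    · linarith only [b1, h4, hM, hβ, h3, (sheets_near hM hβ h3.le).1]

theorem knot_sub : M.knotUp ⊆ M.FUp := by
  have h0 := hM.ε_pos
  rintro x (⟨i, a1, a2, a3, -, a4⟩ | ⟨j, β, hβ, s, σ, c1, c2, c3⟩)
  · exact ⟨i, a1, a2, (sheets_plain (bump_far fun β h => a4 β (Or.inl h))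
      (bump_far fun β h => a4 β (Or.inr h))).2 a3⟩
  obtain ⟨d2, d3, -⟩ := sheets_band hM c2 c3
  have d4 := mul_le_mul_of_nonneg_left c1 h0.le
  have d5 : ‖x.1 - β‖ ≤ M.ε := by linarith only [d3, d4]
  rw [← d2] at d3
  obtain ⟨r1, r2⟩ := band_range hβ
  rcases le_total x.2 (j + 1 / 2) with e | e
  · exact ⟨j, r1, r2.le, (sheets_outer hM hβ d5).2 ⟨e, d3⟩⟩
  · exact ⟨j + 1, by omega, r2, (sheets_inner hM hβ d5).2 ⟨e, d3⟩⟩

theorem depth_of_mem {x : ℂ × ℝ} (hx : x ∈ M.FUp) : 1 ≤ x.2 ∧ x.2 ≤ M.l := by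
  obtain ⟨i, a1, a2, a3⟩ := hx
  obtain ⟨b1, b2, b3⟩ := sheets_iff.1 a3
  have b4 := bump_nonneg hM i x.1
  have b5 := bump_nonneg hM (i - 1) x.1
  constructor
  · rcases a1.eq_or_lt with rfl | h
    · rw [bump_zero] at b3
      push_cast at b3
      linarith only [b4, b3]
    · have h2 : (2 : ℝ) ≤ i := by exact_mod_cast h
      linarith only [b2, b3, b4, h2]
  · rcases a2.eq_or_lt with rfl | h
    · rw [bump_of_le le_rfl] at b3
      linarith only [b3, b5]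
    · have h2 : (i : ℝ) + 1 ≤ M.l := by exact_mod_cast h
      linarith only [b1, b3, b5, h2]

theorem mem_sheet_sh {x : ℂ × ℝ} (hx : x ∈ M.FUp) :
    1 ≤ sh x.2 ∧ sh x.2 ≤ M.l ∧ x ∈ M.Sheet (sh x.2) := by
  obtain ⟨i, a1, a2, a3⟩ := hx
  obtain ⟨b1, b2, b3⟩ := sheets_iff.1 a3
  have b4 := bump_nonneg hM i x.1
  have b5 := bump_nonneg hM (i - 1) x.1
  rcases lt_or_ge (x.2 + 1 / 2) (i + 1) with h | h
  · rw [Nest.sheets_sh (i := i) (by linarith only [b2, b3, b4]) h]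
    exact ⟨a1, a2, a3⟩
  · have c1 : M.bump i x.1 = 1 / 2 := by linarith only [b3, b5, h, b1]
    have c2 : M.bump i x.1 ≠ 0 := by
      rw [c1]
      norm_num
    have c3 := (bump_eq_zero_or hM (Or.inl rfl) x.1).resolve_left c2
    rw [Nest.sheets_sh (i := i + 1) (by push_cast; linarith only [h]) (by push_cast; linarith only [b1, b3, b5])]
    refine ⟨by omega, not_le.1 fun h2 => c2 (bump_of_le h2 _), sheets_iff.2 ?_⟩
    rw [Nat.add_sub_cancel, c3]
    push_cast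
    exact ⟨by norm_num, b1, by linarith only [b3, b5, h, b1]⟩

theorem mem_gap {x : ℂ × ℝ} (hx : x ∈ M.YUp) :
    x ∈ M.Gap (sh x.2) ⌊M.lin (sh x.2) x.1⌋ := by
  obtain ⟨a1, a2, a3⟩ := mem_sheet_sh hM hx.1
  exact ⟨a3, lt_of_le_of_ne (Int.floor_le _) fun h => hx.2 ((mem_knot_iff hM a1 a2 a3).2 ⟨_, h.symm⟩),
    Int.lt_floor_add_one _⟩

theorem gap_sub {i : ℕ} (h1 : 1 ≤ i) (h2 : i ≤ M.l) (a : ℤ) : M.Gap i a ⊆ M.YUp := by
  rintro x ⟨a1, a2, a3⟩
  refine ⟨⟨i, h1, h2, a1⟩, fun h => ?_⟩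
  obtain ⟨k, hk⟩ := (mem_knot_iff hM h1 h2 a1).1 h
  rw [hk] at a2 a3
  have b1 : a < k := by exact_mod_cast a2
  have b2 : k < a + 1 := by exact_mod_cast a3
  omega

theorem strip_outer {j : ℕ} {β : ℂ} (hβ : β ∈ M.B j) {σ : ℝ} (hσ : σ = 1 ∨ σ = -1)
    {x : ℂ × ℝ} (hx : x ∈ M.Strip j β σ) (h : x.2 ≤ j + 1 / 2) : x ∈ M.Gap j (M.go j β σ) := by
  obtain ⟨a1, a2, a3⟩ := hx
  have a4 := mul_le_mul_of_nonneg_left a1.le hM.ε_pos.le
  have a5 : ‖x.1 - β‖ ≤ M.ε := by linarith only [a2, a4]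
  have a6 := (sheets_outer hM hβ a5).2 ⟨h, a2⟩
  have a7 := abs_lt.1 (sheets_small hM (band_range hβ).2.le j (hM.sign j) a5)
  refine ⟨a6, ?_⟩
  rw [lin_outer hM hβ a5 a6, go]
  have a9 := mul_pos (norm_lam_pos hM j) a3
  generalize (M.unt j β x).im = t at *
  rcases hσ with rfl | rfl <;> rcases hM.sign j with e | e <;> rw [e] at a7 ⊢ <;> norm_num <;>
    constructor <;> linarith only [a9, a7, a7.1, a7.2]

theorem strip_inner {j : ℕ} {β : ℂ} (hβ : β ∈ M.B j) {σ : ℝ} (hσ : σ = 1 ∨ σ = -1)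
    {x : ℂ × ℝ} (hx : x ∈ M.Strip j β σ) (h : j + 1 / 2 ≤ x.2) :
    x ∈ M.Gap (j + 1) (M.gi j β σ) := by
  obtain ⟨a1, a2, a3⟩ := hx
  have a4 := mul_le_mul_of_nonneg_left a1.le hM.ε_pos.le
  have a5 : ‖x.1 - β‖ ≤ M.ε := by linarith only [a2, a4]
  have a6 := (sheets_inner hM hβ a5).2 ⟨h, a2⟩
  have a7 := abs_lt.1 (sheets_small hM (i := j + 1) (band_range hβ).2 j (hM.signf j) a5)
  refine ⟨a6, ?_⟩
  rw [lin_inner hM hβ a5 a6, gi]
  have a9 := mul_pos (norm_lam_pos hM (j + 1)) a3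
  generalize (M.unt j β x).im = t at *
  rcases hσ with rfl | rfl <;> rcases hM.signf j with e | e <;> rw [e] at a7 ⊢ <;> norm_num <;>
    constructor <;> linarith only [a7, a9, a7.1, a7.2]

/-- The middle point of a neck arc. -/
theorem mid_mem_strip (j : ℕ) (β : ℂ) {σ : ℝ} (hσ : σ = 1 ∨ σ = -1) :
    (β + ((σ * (M.ε / 2) : ℝ) : ℂ) * (M.ω j * I), (j : ℝ) + 1 / 2) ∈ M.Strip j β σ := by
  have h0 := hM.ε_pos
  have e : (j : ℝ) + 1 / 2 - j - 1 / 2 = 0 := by ring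
  have e' := dir_mul_conj hM j 0
  refine ⟨?_, ?_, ?_⟩
  · dsimp only
    rw [e]
    norm_num
  · dsimp only
    rw [e, add_sub_cancel_left, norm_mul, norm_mul, norm_I, hM.norm_ω, norm_real, Real.norm_eq_abs,
      abs_mul, abs_of_pos (half_pos h0)]
    rcases hσ with rfl | rfl <;> simp
  · rw [unt]
    dsimp only
    rw [e, add_sub_cancel_left, ← dir_zero, mul_assoc, mul_right_comm, e', one_mul, mul_I_im,
      ofReal_re]
    rcases hσ with rfl | rfl <;> linarith only [h0]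

/-- A point of the surface of half integral depth lies on a neck. -/
theorem exists_neck {x : ℂ × ℝ} (hx : x ∈ M.FUp) (h : x.2 + 1 / 2 = sh x.2) :
    ∃ j, ∃ β ∈ M.B j, x.2 = j + 1 / 2 ∧ ‖x.1 - β‖ = M.ε / 2 := by
  obtain ⟨a1, -, a3⟩ := mem_sheet_sh hM hx
  obtain ⟨j, hj⟩ : ∃ j, sh x.2 = j + 1 := ⟨sh x.2 - 1, by omega⟩
  rw [hj] at h a3
  obtain ⟨-, b2, b3⟩ := sheets_iff.1 a3
  have b4 := bump_nonneg hM (j + 1) x.1
  rw [Nat.add_sub_cancel] at b2 b3
  have c1 : M.bump j x.1 = 1 / 2 := by linarith only [h, b3, b4, b2]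
  obtain ⟨β, hβ, c2⟩ := exists_of_bump_ne (M := M) (j := j) (ζ := x.1) (by rw [c1]; norm_num)
  have c3 := (sheets_near hM hβ c2.le).1
  push_cast at h
  refine ⟨j, β, hβ, by linarith only [h], ?_⟩
  have c4 : ‖x.1 - β‖ / M.ε = 1 / 2 := by linarith only [b2, c3, c1]
  rw [div_eq_iff hM.ε_pos.ne'] at c4
  linarith only [c4]

/-- A point of the surface that is not on a neck lies in the open part of its sheet. -/
theorem plain_of_ne {x : ℂ × ℝ} (hx : x ∈ M.FUp) (h : x.2 + 1 / 2 ≠ sh x.2) :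
    M.bump (sh x.2) x.1 < 1 / 2 ∧ M.bump (sh x.2 - 1) x.1 < 1 / 2 ∧
      |x.2 - sh x.2| < 1 / 2 := by
  obtain ⟨a1, -, a3⟩ := mem_sheet_sh hM hx
  obtain ⟨b1, b2, b3⟩ := sheets_iff.1 a3
  have b4 : (sh x.2 : ℝ) < x.2 + 1 / 2 :=
    lt_of_le_of_ne (Nat.floor_le (by linarith only [hM, hx, (depth_of_mem hM hx).1])) h.symm
  have b5 : x.2 + 1 / 2 < sh x.2 + 1 := Nat.lt_floor_add_one _
  have b6 := bump_eq_zero_or hM (j := sh x.2) (j' := sh x.2 - 1) (Or.inr (by omega)) x.1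
  refine ⟨?_, ?_, abs_lt.2 ⟨by linarith only [b4], by linarith only [b5]⟩⟩ <;> rcases b6 with e | e <;> linarith only [e, b3, b5, b4]

theorem loc_plain {x : ℂ × ℝ} (hx : x ∈ M.YUp) (h : x.2 + 1 / 2 ≠ sh x.2) :
    ∀ᶠ z in 𝓝[M.YUp] x, sh z.2 = sh x.2 ∧ ⌊M.lin (sh x.2) z.1⌋ = ⌊M.lin (sh x.2) x.1⌋ := by
  obtain ⟨-, a2, a3⟩ := mem_gap hM hx
  obtain ⟨a4, a5⟩ := abs_lt.1 (plain_of_ne hM hx.1 h).2.2
  have c1 : Continuous fun z : ℂ × ℝ => M.lin (sh x.2) z.1 :=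
    (continuous_lin hM _).comp continuous_fst
  have c2 : Continuous fun z : ℂ × ℝ => z.2 + 1 / 2 := by fun_prop
  refine Eventually.filter_mono nhdsWithin_le_nhds ?_
  filter_upwards [(c1.tendsto x).eventually (lt_mem_nhds a2), (c1.tendsto x).eventually (gt_mem_nhds a3),
    (c2.tendsto x).eventually (lt_mem_nhds (a := (sh x.2 : ℝ)) (by linarith only [a4])),
    (c2.tendsto x).eventually (gt_mem_nhds (a := (sh x.2 : ℝ) + 1) (by linarith only [a5]))] with z b1 b2 b3 b4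
  exact ⟨Nest.sheets_sh b3.le b4, Int.floor_eq_iff.2 ⟨b1.le, b2⟩⟩

theorem loc_neck [M.Ess] {x : ℂ × ℝ} (hx : x ∈ M.YUp) (h : x.2 + 1 / 2 = sh x.2) :
    ∃ j, ∃ β ∈ M.B j, ∃ σ : ℝ, (σ = 1 ∨ σ = -1) ∧ x.2 = j + 1 / 2 ∧ x ∈ M.Strip j β σ ∧
      ∀ᶠ z in 𝓝[M.YUp] x, z ∈ M.Strip j β σ ∧ 0 < σ * M.tm (M.w j) (z.1 - β) := by
  have h0 := hM.ε_pos
  obtain ⟨j, β, hβ, a1, a2⟩ := exists_neck hM hx.1 h
  have e : x.2 - j - 1 / 2 = 0 := by linarith only [a1]
  have a3 : ‖x.1 - β‖ < M.ε := by linarith only [h0, a2]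
  have a4 : |x.2 - j - 1 / 2| < 1 / 2 := by
    rw [e]
    norm_num
  have a5 := mem_FUp_tube hM hβ a3 a4
  have a6 := a5.1.1 hx.1
  have a7 := fun h => hx.2 (a5.2.2 ⟨a6, h⟩)
  obtain ⟨σ, c1, c2⟩ : ∃ σ : ℝ, (σ = 1 ∨ σ = -1) ∧ 0 < σ * (M.unt j β x).im := by
    rcases lt_or_gt_of_ne a7 with h | h
    · exact ⟨-1, Or.inr rfl, by linarith only [h]⟩
    · exact ⟨1, Or.inl rfl, by linarith only [h]⟩
  have c3 : 0 < σ * M.tm (M.w j) (x.1 - β) := by
    rw [← unt_mul_dir hM j β x, e, dir_zero, tm_ω_mul hβ.1 hβ.2.1, ← mul_assoc]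
    exact mul_pos c2 (tm_ω_I_pos hM hβ.1 hβ.2.1)
  refine ⟨j, β, hβ, σ, c1, a1, ⟨a4, a6, c2⟩, ?_⟩
  have k1 : Continuous fun z : ℂ × ℝ => ‖z.1 - β‖ := by fun_prop
  have k2 : Continuous fun z : ℂ × ℝ => |z.2 - j - 1 / 2| := by fun_prop
  have k3 : Continuous fun z : ℂ × ℝ => σ * (M.unt j β z).im :=
    continuous_const.mul (continuous_im.comp (continuous_unt j β))
  have k4 : Continuous fun z : ℂ × ℝ => σ * M.tm (M.w j) (z.1 - β) :=
    continuous_const.mul ((continuous_tm _).comp (continuous_fst.sub continuous_const))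
  filter_upwards [self_mem_nhdsWithin,
    nhdsWithin_le_nhds ((k1.tendsto x).eventually (gt_mem_nhds a3)),
    nhdsWithin_le_nhds ((k2.tendsto x).eventually (gt_mem_nhds a4)),
    nhdsWithin_le_nhds ((k3.tendsto x).eventually (lt_mem_nhds c2)),
    nhdsWithin_le_nhds ((k4.tendsto x).eventually (lt_mem_nhds c3))] with z b0 b1 b2 b3 b4
  exact ⟨⟨b2, (mem_FUp_tube hM hβ b1 b2).1.1 b0.1, b3⟩, b4⟩

theorem sheets_add (i : ℕ) (x : ℂ × ℝ) (k m : ℤ) : x + vec k m ∈ M.Sheet i ↔ x ∈ M.Sheet i := by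
  rw [vec_add, sheets_iff, sheets_iff, bump_add hM, bump_add hM]

theorem sheets_knot (x : ℂ × ℝ) : x ∈ M.knotUp ↔
    ∃ i, 1 ≤ i ∧ i ≤ M.l ∧ x ∈ M.Sheet i ∧ ∃ k : ℤ, M.lin i x.1 = k := by
  refine ⟨fun h => ?_, fun ⟨i, a1, a2, a3, a4⟩ => (mem_knot_iff hM a1 a2 a3).2 a4⟩
  obtain ⟨i, a1, a2, a3⟩ := knot_sub hM h
  exact ⟨i, a1, a2, a3, (mem_knot_iff hM a1 a2 a3).1 h⟩

theorem FUp_add (x : ℂ × ℝ) (k m : ℤ) : x + vec k m ∈ M.FUp ↔ x ∈ M.FUp := by
  exact exists_congr fun i => and_congr_right fun _ => and_congr_right fun _ =>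
    sheets_add hM i x k m

theorem knotUp_add (x : ℂ × ℝ) (k m : ℤ) : x + vec k m ∈ M.knotUp ↔ x ∈ M.knotUp := by
  rw [sheets_knot hM, sheets_knot hM]
  refine exists_congr fun i => and_congr_right fun _ => and_congr_right fun _ =>
    and_congr (sheets_add hM i x k m) ?_
  rw [vec_add, lin_add hM]
  refine ⟨fun ⟨c, hc⟩ => ⟨c - (M.q i * k - M.p i * m), ?_⟩,
    fun ⟨c, hc⟩ => ⟨c + (M.q i * k - M.p i * m), ?_⟩⟩
  · rw [Int.cast_sub, ← hc, add_sub_cancel_right]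
  · rw [Int.cast_add, hc]

theorem YUp_add (x : ℂ × ℝ) (k m : ℤ) : x + vec k m ∈ M.YUp ↔ x ∈ M.YUp :=
  and_congr (FUp_add hM x k m) (not_congr (knotUp_add hM x k m))

theorem gap_add (i : ℕ) (a : ℤ) (x : ℂ × ℝ) (k m : ℤ) :
    x + vec k m ∈ M.Gap i (a + (M.q i * k - M.p i * m)) ↔ x ∈ M.Gap i a := by
  refine and_congr (sheets_add hM i x k m) ?_
  rw [vec_add, lin_add hM, Int.cast_add, add_right_comm, add_lt_add_iff_right, add_lt_add_iff_right]

end Lev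

end AllOne
end

-- merged part: Pool.Agent.Work.MP_d5331a_gt.A1.Regions
section
/-!
The two sides of the surface.

Plan. At a point `ζ` at most one bump is non-zero; `hgt 1 ≤ hgt 2 ≤ ⋯ ≤ hgt l`,
`i - 1 / 2 ≤ hgt i ≤ i + 1 / 2`; if `bump j ζ ≥ 1 / 2` then `hgt j = hgt (j + 1) = j + 1 / 2`.
`side_cover`: take the largest `j ≤ l` with `j = 0` or `hgt j ≤ ρ`; then `bump j ≤ 1 / 2`.
`side_inter`: two regions `j < j'` of different parity that contain the point.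
-/

set_option autoImplicit false

open Complex Set Filter Topology

namespace AllOne

open Neuwirth OneOne

namespace Lev

variable {M : Lev} (hM : M.Good)
include hM

theorem regions_min (j : ℕ) (ζ : ℂ) : 0 ≤ min (M.bump j ζ) (1 / 2) :=
  le_min (bump_nonneg hM j ζ) (by norm_num)

theorem regions_le (i : ℕ) (ζ : ℂ) : M.hgt i ζ ≤ i + 1 / 2 := by
  have h1 := regions_min hM (i - 1) ζ
  have h2 := min_le_right (M.bump i ζ) (1 / 2)
  unfold hgt
  linarith only [h1, h2]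

theorem regions_ge (i : ℕ) (ζ : ℂ) : i - 1 / 2 ≤ M.hgt i ζ := by
  have h1 := regions_min hM i ζ
  have h2 := min_le_right (M.bump (i - 1) ζ) (1 / 2)
  unfold hgt
  linarith only [h1, h2]

theorem regions_succ (i : ℕ) (ζ : ℂ) : M.hgt i ζ ≤ M.hgt (i + 1) ζ := by
  have h1 := regions_le hM i ζ
  have h2 := regions_ge hM (i + 1) ζ
  push_cast at h2
  linarith only [h1, h2]

theorem regions_top {i : ℕ} {ζ : ℂ} (h : i + 1 / 2 ≤ M.hgt i ζ) : 1 / 2 ≤ M.bump i ζ := by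
  have h1 := regions_min hM (i - 1) ζ
  have h2 := min_le_left (M.bump i ζ) (1 / 2)
  unfold hgt at h
  linarith only [h, h1, h2]

theorem regions_bot {i : ℕ} {ζ : ℂ} (h : M.hgt (i + 1) ζ ≤ i + 1 / 2) : 1 / 2 ≤ M.bump i ζ := by
  have h1 := regions_min hM (i + 1) ζ
  have h2 := min_le_left (M.bump i ζ) (1 / 2)
  unfold hgt at h
  rw [Nat.add_sub_cancel] at h
  push_cast at h
  linarith only [h1, h2, h]

theorem regions_neck {i : ℕ} {ζ : ℂ} (h : 1 / 2 ≤ M.bump i ζ) :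
    i ≠ 0 ∧ i < M.l ∧ M.bump (i + 1) ζ = 0 ∧ M.hgt i ζ = i + 1 / 2 ∧ M.hgt (i + 1) ζ = i + 1 / 2 := by
  have h0 : i ≠ 0 := by
    rintro rfl
    rw [bump_zero] at h
    norm_num at h
  have h1 : ∀ j, i = j + 1 ∨ j = i + 1 → M.bump j ζ = 0 := fun j hj =>
    (bump_eq_zero_or hM hj ζ).resolve_right (by linarith only [h])
  refine ⟨h0, ?_, h1 _ (by omega), ?_, ?_⟩
  · by_contra h2
    rw [bump_of_le (not_lt.1 h2)] at h
    norm_num at h
  · rw [hgt, h1 (i - 1) (by omega), min_eq_right h]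
    norm_num
  · rw [hgt, h1 (i + 1) (by omega), Nat.add_sub_cancel, min_eq_right h]
    push_cast
    norm_num
    ring

theorem regions_sub {c : ℕ} (hc : c < 2) : M.FUp ⊆ M.SideUp c := by
  rintro x ⟨i, h1, h2, h3, h4, h5⟩
  have a1 : (1 : ℝ) ≤ i := by exact_mod_cast h1
  have a2 : (i : ℝ) ≤ M.l := by exact_mod_cast h2
  refine ⟨by linarith only [h5, a1, hM, regions_ge hM i x.1], by linarith only [h5, a2, hM, regions_le hM i x.1], ?_⟩
  by_cases hp : i % 2 = c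
  · exact ⟨i, h2, hp, h3, Or.inr h5.ge, Or.inr (h5.le.trans (regions_succ hM i x.1))⟩
  · obtain ⟨j, rfl⟩ : ∃ j, i = j + 1 := ⟨i - 1, by omega⟩
    exact ⟨j, by omega, by omega, h4, Or.inr ((regions_succ hM j x.1).trans h5.ge), Or.inr h5.le⟩

theorem regions_two {j j' : ℕ} {x : ℂ × ℝ} (hj : j < j') (hl : j' ≤ M.l) (hp : j % 2 ≠ j' % 2)
    (h : x ∈ M.Reg j) (h' : x ∈ M.Reg j') : x ∈ M.FUp := by
  have h1 := h.2.2.resolve_left (by omega)
  have h2 := h'.2.1.resolve_left (by omega)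
  have h3 := regions_le hM (j + 1) x.1
  have h4 := regions_ge hM j' x.1
  have h5 : j' ≤ j + 2 := by
    push_cast at h3
    have : (j' : ℝ) ≤ j + 2 := by linarith only [h1, h2, h4, h3]
    exact_mod_cast this
  obtain rfl : j' = j + 1 := by omega
  exact ⟨j + 1, by omega, hl, h'.1, h.1, le_antisymm h1 h2⟩

theorem isClosed_FUp : IsClosed M.FUp := by
  have h1 : M.FUp = ⋃ i ∈ Set.Icc 1 M.l, M.Sheet i := by
    ext x
    simp only [FUp, mem_ofPred_eq, mem_iUnion, mem_Icc, exists_prop, and_assoc]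
  rw [h1]
  exact (Set.finite_Icc 1 M.l).isClosed_biUnion fun i _ =>
    (isClosed_le ((continuous_bump hM i).comp continuous_fst) continuous_const).inter
      ((isClosed_le ((continuous_bump hM (i - 1)).comp continuous_fst) continuous_const).inter
        (isClosed_eq continuous_snd ((continuous_hgt hM i).comp continuous_fst)))

theorem isClosed_SideUp (c : ℕ) : IsClosed (M.SideUp c) := by
  have h1 : M.SideUp c = {x : ℂ × ℝ | 0 ≤ x.2} ∩ ({x : ℂ × ℝ | x.2 ≤ M.l + 1} ∩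
      ⋃ j ∈ {j | j ≤ M.l ∧ j % 2 = c}, M.Reg j) := by
    ext x
    simp only [SideUp, mem_ofPred_eq, mem_iUnion, mem_inter_iff, exists_prop, and_assoc]
  rw [h1]
  refine (isClosed_le continuous_const continuous_snd).inter
    ((isClosed_le continuous_snd continuous_const).inter ?_)
  exact ((Set.finite_Iic M.l).subset fun j hj => hj.1).isClosed_biUnion fun j _ =>
    (isClosed_le ((continuous_bump hM j).comp continuous_fst) continuous_const).inter
      ((isClosed_const.union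
        (isClosed_le ((continuous_hgt hM j).comp continuous_fst) continuous_snd)).inter
        (isClosed_const.union
          (isClosed_le continuous_snd ((continuous_hgt hM (j + 1)).comp continuous_fst))))

theorem SideUp_add (c : ℕ) (x : ℂ × ℝ) (k m : ℤ) :
    x + vec k m ∈ M.SideUp c ↔ x ∈ M.SideUp c := by
  simp only [vec_add, SideUp, Reg, mem_ofPred_eq, bump_add hM, hgt_add hM]

theorem side_cover {x : ℂ × ℝ} (h0 : 0 ≤ x.2) (h1 : x.2 ≤ M.l + 1) :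
    x ∈ M.SideUp 0 ∨ x ∈ M.SideUp 1 := by
  classical
  obtain ⟨j, a1, a2, a3⟩ : ∃ j, j ≤ M.l ∧ (j = 0 ∨ M.hgt j x.1 ≤ x.2) ∧
      (j = M.l ∨ x.2 < M.hgt (j + 1) x.1) := by
    refine ⟨Nat.findGreatest (fun j => j = 0 ∨ M.hgt j x.1 ≤ x.2) M.l, Nat.findGreatest_le _,
      Nat.findGreatest_spec (P := fun j => j = 0 ∨ M.hgt j x.1 ≤ x.2) (Nat.zero_le _) (Or.inl rfl), ?_⟩
    rcases (Nat.findGreatest_le (P := fun j => j = 0 ∨ M.hgt j x.1 ≤ x.2) M.l).eq_or_lt with h | h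
    · exact Or.inl h
    · exact Or.inr (not_le.1 fun h2 => Nat.findGreatest_is_greatest (Nat.lt_succ_self _) h (Or.inr h2))
  have a4 : x ∈ M.Reg j := by
    refine ⟨?_, a2, a3.imp id le_of_lt⟩
    by_contra h
    obtain ⟨b1, b2, -, b3, b4⟩ := regions_neck hM (not_le.1 h).le
    linarith only [b3, b4, a2, b1, a3, b2, a2.resolve_left b1, a3.resolve_left b2.ne]
  rcases Nat.mod_two_eq_zero_or_one j with h | h
  · exact Or.inl ⟨h0, h1, j, a1, h, a4⟩
  · exact Or.inr ⟨h0, h1, j, a1, h, a4⟩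

theorem side_inter : M.SideUp 0 ∩ M.SideUp 1 = M.FUp := by
  refine Subset.antisymm ?_ (subset_inter (regions_sub hM (by norm_num)) (regions_sub hM (by norm_num)))
  rintro x ⟨⟨-, -, j, a1, a2, a3⟩, -, -, j', b1, b2, b3⟩
  rcases lt_trichotomy j j' with h | h | h
  · exact regions_two hM h b1 (by omega) a3 b3
  · omega
  · exact regions_two hM h a1 (by omega) b3 a3

theorem FUp_sub_side {c : ℕ} (hc : c < 2) : M.FUp ⊆ M.SideUp c := by
  exact regions_sub hM hc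

theorem reg_of_side {c : ℕ} (hc : c < 2) {x : ℂ × ℝ} (hx : x ∈ M.SideUp c) :
    J c (sh x.2) ≤ M.l ∧ J c (sh x.2) % 2 = c ∧ x ∈ M.Reg (J c (sh x.2)) := by
  obtain ⟨h0, h1, j, a1, a2, a3⟩ := hx
  have b1 : (sh x.2 : ℝ) ≤ x.2 + 1 / 2 := Nat.floor_le (by linarith only [h0])
  have b2 : x.2 + 1 / 2 < sh x.2 + 1 := Nat.lt_floor_add_one _
  generalize sh x.2 = s at b1 b2 ⊢
  have b3 : (j : ℝ) ≤ x.2 + 1 / 2 := by
    rcases a3.2.1 with h | h
    · rw [h]
      push_cast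
      linarith only [h0]
    · linarith only [h, hM, regions_ge hM j x.1]
  have b4 : j < s + 1 := by exact_mod_cast b3.trans_lt b2
  by_cases h : s ≤ j + 1
  · have : J c s = j := by
      unfold J
      split_ifs <;> omega
    rw [this]
    exact ⟨a1, a2, a3⟩
  have b5 : ((j + 2 : ℕ) : ℝ) ≤ s := by exact_mod_cast (by omega : j + 2 ≤ s)
  push_cast at b5
  have b6 : x.2 ≤ M.hgt (j + 1) x.1 := a3.2.2.resolve_left fun h2 => by
    rw [← h2] at h1
    linarith only [h1, b1, b5]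
  obtain ⟨-, c2, c3, c4, c5⟩ := regions_neck hM (regions_top hM (i := j + 1) (ζ := x.1) (by
    push_cast
    linarith only [b1, b5, b6]))
  push_cast at c4 c5
  have b7 : s ≤ j + 2 := by
    have : (s : ℝ) ≤ j + 2 := by linarith only [b1, b6, c4]
    exact_mod_cast this
  have : J c s = j + 1 + 1 := by
    unfold J
    split_ifs <;> omega
  rw [this]
  refine ⟨by omega, by omega, by rw [c3]; norm_num, Or.inr (by linarith only [b1, b5, c5]), Or.inr ?_⟩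
  exact b6.trans ((regions_succ hM _ _).trans (regions_succ hM _ _))

/-- A point of the side `c` at the depth of a neck of the other parity lies in a neck disc. -/
theorem exists_disc {c : ℕ} (hc : c < 2) {x : ℂ × ℝ} (hx : x ∈ M.SideUp c)
    (h : x.2 + 1 / 2 = sh x.2) (hp : sh x.2 % 2 = c) :
    ∃ j, ∃ β ∈ M.B j, sh x.2 = j + 1 ∧ ‖x.1 - β‖ ≤ M.ε / 2 := by
  obtain ⟨-, -, a3⟩ := reg_of_side hM hc hx
  rw [J, if_pos hp] at a3
  have h0 := hx.1
  generalize sh x.2 = s at h a3 ⊢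
  obtain ⟨j, rfl⟩ : ∃ j, s = j + 1 := by
    rcases s with _ | j
    · push_cast at h
      linarith only [h0, h]
    · exact ⟨j, rfl⟩
  have a4 := a3.2.1.resolve_left (by omega)
  push_cast at h
  have a5 := regions_bot hM (i := j) (ζ := x.1) (by linarith only [a4, h])
  obtain ⟨β, b1, b2⟩ := exists_of_bump_ne (M := M) (j := j) (ζ := x.1) (by linarith only [a5])
  have he := hM.ε_pos
  refine ⟨j, β, b1, rfl, ?_⟩
  rw [bump_near hM b1 (by linarith only [b2, he]), le_max_iff] at a5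
  have a6 : ‖x.1 - β‖ / M.ε ≤ 1 / 2 := by linarith only [a5, a5.resolve_left (by norm_num)]
  rw [div_le_iff₀ he] at a6
  linarith only [a6]

theorem side_bot {c : ℕ} {x : ℂ × ℝ} (hx : x ∈ M.SideUp c) (h : x.2 = 0) : c = 0 := by
  obtain ⟨-, -, j, -, a2, a3⟩ := hx
  rcases a3.2.1 with h1 | h1
  · omega
  · have : (j : ℝ) < 1 := by linarith only [h, h1, hM, regions_ge hM j x.1]
    have : j < 1 := by exact_mod_cast this
    omega

theorem side_top {c : ℕ} {x : ℂ × ℝ} (hx : x ∈ M.SideUp c) (h : x.2 = M.l + 1) :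
    c = M.l % 2 := by
  obtain ⟨-, -, j, a1, a2, a3⟩ := hx
  rcases a3.2.2 with h1 | h1
  · rw [← a2, h1]
  · have h2 := regions_le hM (j + 1) x.1
    push_cast at h2
    have : (M.l : ℝ) < j + 1 := by linarith only [h, h1, h2]
    have : M.l < j + 1 := by exact_mod_cast this
    rw [← a2, show j = M.l by omega]

end Lev

end AllOne
end

-- merged part: Pool.Agent.Work.MP_d5331a_gt.A1.Side
section
/-!
The cocycle of a side. Port of the file `Side` of the parent directory.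
-/

set_option autoImplicit false

open Complex Set Filter Topology

namespace AllOne

open Neuwirth OneOne

namespace Lev

variable {M : Lev} (hM : M.Good)
include hM

omit hM in
theorem Side_Lt_same {c : ℕ} {x z : ℂ × ℝ} (h : M.ch c z = M.ch c x) :
    M.Lt c x z = (M.pot c x)⁻¹ * M.pot c z := if_pos h

omit hM in
theorem Side_Lt_diff {c : ℕ} {x z : ℂ × ℝ} (h : M.ch c z ≠ M.ch c x)
    (h' : J c (sh z.2) = Nest.Jm c x) : M.Lt c x z = (M.pot c x)⁻¹ * (M.wl c x)⁻¹ * M.pot c z :=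
  (if_neg h).trans (if_pos h')

omit hM in
/-- The cocycle identity near a wall. -/
theorem Side_wall {c : ℕ} {St : Set (ℂ × ℝ)} {x : ℂ × ℝ} (hx : x ∈ St) (f : ℂ × ℝ → ℝ)
    (hf : Continuous f) {A B : ℕ × ℤ} (hAB : B ≠ A) (hJ : Nest.Jm c x = B.1)
    (h : ∀ᶠ z in 𝓝[St] x, (f x ≤ f z → M.ch c z = A) ∧ (f z < f x → M.ch c z = B) ∧
      (f z = f x → M.wl c z = M.wl c x ∧ Nest.Jm c z = Nest.Jm c x)) :
    ∀ᶠ z in 𝓝[St] x, ∀ᶠ w in 𝓝[St] z, M.Lt c x w = M.Lt c x z * M.Lt c z w := by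
  have hA : M.ch c x = A := (h.self_of_nhdsWithin hx).1 le_rfl
  have hB : ∀ {w : ℂ × ℝ}, M.ch c w = B → J c (sh w.2) = Nest.Jm c x := fun hw => by
    rw [hJ, ← hw]
    rfl
  filter_upwards [h, eventually_eventually_nhdsWithin.2 h] with z hz hw
  rcases lt_trichotomy (f z) (f x) with h1 | h1 | h1
  · filter_upwards [hw, nhdsWithin_le_nhds (hf.continuousAt.eventually (gt_mem_nhds h1))]
      with w hw h2
    have e1 := hz.2.1 h1
    have e2 := hw.2.1 h2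
    rw [Side_Lt_diff (by rw [e2, hA]; exact hAB) (hB e2),
      Side_Lt_diff (by rw [e1, hA]; exact hAB) (hB e1), Side_Lt_same (e2.trans e1.symm)]
    group
  · have e1 := hz.1 h1.ge
    filter_upwards [hw] with w hw
    rcases le_or_gt (f x) (f w) with h2 | h2
    · have e2 := hw.1 h2
      rw [Side_Lt_same (e2.trans hA.symm), Side_Lt_same (e1.trans hA.symm),
        Side_Lt_same (e2.trans e1.symm)]
      group
    · have e2 := hw.2.1 h2
      rw [Side_Lt_diff (by rw [e2, hA]; exact hAB) (hB e2), Side_Lt_same (e1.trans hA.symm),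
        Side_Lt_diff (by rw [e2, e1]; exact hAB) ((hB e2).trans (hz.2.2 h1).2.symm),
        (hz.2.2 h1).1]
      group
  · filter_upwards [hw, nhdsWithin_le_nhds (hf.continuousAt.eventually (lt_mem_nhds h1))]
      with w hw h2
    have e1 := hz.1 h1.le
    have e2 := hw.1 h2.le
    rw [Side_Lt_same (e2.trans hA.symm), Side_Lt_same (e1.trans hA.symm),
      Side_Lt_same (e2.trans e1.symm)]
    group

theorem Side_kD_loc {j : ℕ} (h1 : 1 ≤ j) (h2 : j < M.l) {x : ℂ × ℝ} {m : ℤ}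
    (ht : M.tt j x.1 = m) (hb : M.bump j x.1 ≤ 1 / 2) :
    ∀ᶠ z : ℂ × ℝ in 𝓝 x, ⌊M.ph j z.1⌋ = ⌊M.ph j x.1⌋ := by
  have h3 : (⌊M.L (M.w j) (x.1 - M.β j)⌋ : ℝ) < M.L (M.w j) (x.1 - M.β j) := by
    refine (Int.floor_le _).lt_of_ne fun h => ?_
    have h4 := eq_coord hM (M.w j) (x.1 - M.β j)
    have h6 := dz_le (M.L (M.w j) (x.1 - M.β j)) ⌊M.L (M.w j) (x.1 - M.β j)⌋
    rw [h, sub_self, abs_zero] at h6
    rw [tt, shear, max_eq_left (by linarith only [h6]), zero_div, add_zero] at ht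
    rw [ht, ← h] at h4
    have h5 : x.1 ∈ M.B j := ⟨h1, h2,
      m * M.p (M.w j) + ⌊M.L (M.w j) (x.1 - M.β j)⌋ * M.D (M.w j),
      m * M.q (M.w j) - ⌊M.L (M.w j) (x.1 - M.β j)⌋ * M.C (M.w j), by
        rw [lam] at h4
        push_cast at h4 ⊢
        linear_combination h4⟩
    rw [bump_near hM h5 (by simpa using hM.ε_pos)] at hb
    norm_num at hb
  have c : Continuous fun z : ℂ × ℝ => M.L (M.w j) (z.1 - M.β j) :=
    (continuous_L _).comp (by fun_prop)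
  filter_upwards [Side_near _ c x h3 (Int.lt_floor_add_one _)] with z hz
  rw [ph_mid h1 h2, ph_mid h1 h2, Int.floor_eq_iff.2 ⟨hz.1.le, hz.2⟩]

theorem Side_depth {x : ℂ × ℝ} (hx : x ∈ M.FUp) : 0 < x.2 ∧ x.2 < M.l + 1 :=
  ⟨by linarith [(depth_of_mem hM hx).1], by linarith [(depth_of_mem hM hx).2]⟩

theorem side_local [M.Ess] {c : ℕ} (hc : c < 2) {x : ℂ × ℝ} (hx : x ∈ M.SideUp c) :
    (∀ᶠ z in 𝓝[M.SideUp c] x, M.ch c z = M.ch c x) ∨
    (∃ (r : ℕ) (m : ℤ), Nest.Jm c x = r ∧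
      ∀ᶠ z in 𝓝[M.SideUp c] x, (M.tt r x.1 ≤ M.tt r z.1 → M.ch c z = (r, m)) ∧
        (M.tt r z.1 < M.tt r x.1 → M.ch c z = (r, m - 1)) ∧
        (M.tt r z.1 = M.tt r x.1 → M.wl c z = M.wl c x ∧ Nest.Jm c z = Nest.Jm c x)) ∨
    (∃ j, ∃ β ∈ M.B j, Nest.Jm c x = j - 1 ∧
      ∀ᶠ z in 𝓝[M.SideUp c] x, (x.2 ≤ z.2 → M.ch c z = (j + 1, M.ti (j + 1) β)) ∧
        (z.2 < x.2 → M.ch c z = (j - 1, M.ti (j - 1) β)) ∧
        (z.2 = x.2 → M.wl c z = M.wl c x ∧ Nest.Jm c z = Nest.Jm c x)) := by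
  have hε := hM.ε_pos
  by_cases hA : x.2 + 1 / 2 = sh x.2 ∧ sh x.2 % 2 = c
  · obtain ⟨j, β, hβ, hj, hd⟩ := exists_disc hM hc hx hA.1 hA.2
    have h1 := hA.1
    have h2 := hA.2
    rw [hj] at h1 h2
    push_cast at h1
    have hj1 := (band_range hβ).1
    have hw : ∀ z : ℂ × ℝ, z.2 = x.2 → ‖z.1 - β‖ < M.ε → M.wl c z = M.labE j β := fun z e hz => by
      rw [wl, e, if_pos hA, hj, ctr_near hM hβ (Or.inr rfl) hz, Nat.add_sub_cancel]
    refine Or.inr (Or.inr ⟨j, β, hβ, ?_, ?_⟩)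
    · rw [Nest.Jm, if_pos hA, hj]
      rfl
    · refine nhdsWithin_le_nhds ?_
      filter_upwards [Side_near (·.2) continuous_snd x (a := j) (b := j + 1) (by linarith only [h1])
        (by linarith only [h1]), Side_near (fun z => ‖z.1 - β‖) (by fun_prop) x (a := -1) (b := M.ε)
        (by linarith only [norm_nonneg (x.1 - β)]) (by linarith only [hε, hd])] with z hz hb
      have h3 : ‖z.1 - β‖ ≤ 4 * M.ε := by linarith only [hε, hb, hb.2]
      refine ⟨fun h => ?_, fun h => ?_, fun h => ⟨?_, ?_⟩⟩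
      · rw [ch, Side_sh_eq (i := j + 1) (by push_cast; linarith only [h1, h]) (by push_cast; linarith only [hz, hz.2]),
          Side_J_pos h2, ti_other hM hβ (by omega) h3]
      · rw [ch, Side_sh_eq (i := j) (by linarith only [h1, hz, h, hz.1]) (by linarith only [h1, h]), Side_J_neg (by omega),
          ti_other hM hβ (by omega) h3]
      · rw [hw z h hb.2, hw x rfl (by linarith only [hε, hd])]
      · rw [Nest.Jm, Nest.Jm, h]
  have hJ := Side_J_loc hc hx.1 hA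
  generalize hr : J c (sh x.2) = r at hJ
  by_cases hm : 1 ≤ r ∧ r < M.l
  swap
  · refine Or.inl (nhdsWithin_le_nhds ?_)
    filter_upwards [hJ] with z e1
    rw [ch, ch, e1, hr, ti_end hm, ti_end hm]
  have ct : Continuous fun z : ℂ × ℝ => M.tt r z.1 := (continuous_tt r).comp continuous_fst
  by_cases hB : ∃ m : ℤ, M.tt r x.1 = m
  · obtain ⟨m, ht⟩ := hB
    refine Or.inr (Or.inl ⟨r, m, (if_neg hA).trans hr, ?_⟩)
    filter_upwards [self_mem_nhdsWithin, nhdsWithin_le_nhds hJ,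
      nhdsWithin_le_nhds (Side_kD_loc hM hm.1 hm.2 ht (hr ▸ (reg_of_side hM hc hx).2.2.1)),
      nhdsWithin_le_nhds (Side_near _ ct x (a := m - 1 / 4) (b := m + 1 / 4) (by linarith only [ht])
        (by linarith only [ht]))] with z hz e1 e2 e3
    refine ⟨fun h => ?_, fun h => ?_, fun h => ?_⟩
    · rw [ch, e1, ti_mid hm.1 hm.2, Int.floor_eq_iff.2 ⟨by linarith only [ht, h], by linarith only [e3, e3.2]⟩]
    · rw [ch, e1, ti_mid hm.1 hm.2, (Int.floor_eq_iff (z := m - 1)).2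
        ⟨by push_cast; linarith only [e3, e3.1], by push_cast; linarith only [ht, h]⟩]
    · have hz' : ¬ (z.2 + 1 / 2 = sh z.2 ∧ sh z.2 % 2 = c) := fun hh => by
        obtain ⟨j, β', hβ', hj, hd⟩ := exists_disc hM hc hz hh.1 hh.2
        rw [Side_J_pos hh.2] at e1
        obtain ⟨n, hn⟩ := tt_adj hM hβ' hm.1 hm.2 (Or.inl (by omega))
        obtain ⟨h3, h3'⟩ := hn z.1 (by linarith only [hε, hd])
        have h4 : n < m := by exact_mod_cast (by linarith only [ht, h, h3] : (n : ℝ) < m)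
        have h5 : m < n + 1 := by exact_mod_cast (by linarith only [ht, h, h3'] : (m : ℝ) < n + 1)
        omega
      rw [wl, wl, Nest.Jm, Nest.Jm, if_neg hz', if_neg hz', if_neg hA, if_neg hA, e1, hr, e2]
      exact ⟨rfl, rfl⟩
  · refine Or.inl (nhdsWithin_le_nhds ?_)
    filter_upwards [hJ, Side_near _ ct x ((Int.floor_le _).lt_of_ne fun h => hB ⟨_, h.symm⟩)
      (Int.lt_floor_add_one _)] with z e1 e2
    rw [ch, ch, e1, hr, ti_mid hm.1 hm.2, ti_mid hm.1 hm.2, Int.floor_eq_iff.2 ⟨e2.1.le, e2.2⟩]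

theorem Lt_cocy [M.Ess] {c : ℕ} (hc : c < 2) : CocyOn (M.SideUp c) (M.Lt c) := by
  refine ⟨fun x => by rw [Side_Lt_same rfl, inv_mul_cancel], fun x hx => ?_⟩
  rcases side_local hM hc hx with h | ⟨r, m, hJ, h⟩ | ⟨j, β, -, hJ, h⟩
  · filter_upwards [h, eventually_eventually_nhdsWithin.2 h] with z e1 hw
    filter_upwards [hw] with w e2
    rw [Side_Lt_same e2, Side_Lt_same e1, Side_Lt_same (e2.trans e1.symm)]
    group
  · refine Side_wall hx (fun z => M.tt r z.1) ((continuous_tt r).comp continuous_fst)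
      (fun e => ?_) hJ h
    have h1 : m - 1 = m := congrArg Prod.snd e
    omega
  · refine Side_wall hx (fun z => z.2) continuous_snd (fun e => ?_) hJ h
    have h1 : j - 1 = j + 1 := congrArg Prod.fst e
    omega

omit hM in
theorem pot_add (c : ℕ) (x : ℂ × ℝ) (k m : ℤ) :
    M.pot c (x + vec k m) = T (M.phZ (J c (sh x.2)) k m) * M.pot c x := by
  rw [vec_add, pot, pot, ← T_add]
  simp only [ph_add, Int.floor_add_intCast, add_comm]

theorem Lt_add (c : ℕ) (x z : ℂ × ℝ) (k m : ℤ) :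
    M.Lt c (x + vec k m) (z + vec k m) = M.Lt c x z := by
  have hch : M.ch c (z + vec k m) = M.ch c (x + vec k m) ↔ M.ch c z = M.ch c x := by
    simp only [vec_add, ch, ti_add, Prod.mk.injEq]
    refine and_congr_right fun e => ?_
    rw [e, add_left_inj]
  by_cases h : M.ch c z = M.ch c x
  · have e : J c (sh z.2) = J c (sh x.2) := congrArg Prod.fst h
    rw [Side_Lt_same (hch.2 h), Side_Lt_same h, pot_add, pot_add, e]
    group
  have e1 : (z + vec k m).2 = z.2 := by rw [vec_add]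
  have e2 : Nest.Jm c (x + vec k m) = Nest.Jm c x := by rw [vec_add]; rfl
  by_cases h' : J c (sh z.2) = Nest.Jm c x
  swap
  · rw [Lt, Lt, if_neg h, if_neg h', if_neg (mt hch.1 h), e1, e2, if_neg h']
  have key : M.wl c (x + vec k m) =
      T (M.phZ (J c (sh z.2)) k m) * M.wl c x * (T (M.phZ (J c (sh x.2)) k m))⁻¹ := by
    rw [vec_add]
    by_cases hA : x.2 + 1 / 2 = sh x.2 ∧ sh x.2 % 2 = c
    · rw [Nest.Jm, if_pos hA] at h'
      have h1 : sh x.2 ≠ 0 := fun h1 => h (by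
        rw [ch, ch, h', Side_J_pos hA.2, h1, ti_end (by omega), ti_end (by omega)])
      rw [wl, wl, if_pos hA, if_pos hA, h', Side_J_pos hA.2]
      simp only [labE, ctr_add hM, ph_add, Int.floor_add_intCast]
      rw [Side_T_conj, show sh x.2 - 1 - 1 = sh x.2 - 2 by omega,
        show sh x.2 - 1 + 1 = sh x.2 by omega]
    · rw [Nest.Jm, if_neg hA] at h'
      rw [wl, wl, if_neg hA, if_neg hA, h']
      simp only [labD, ph_add, Int.floor_add_intCast]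
      rw [Side_T_conj]
  rw [Side_Lt_diff (mt hch.1 h) (by rw [e1, e2, h']), Side_Lt_diff h h', pot_add, pot_add, key]
  group

theorem side_cocy [M.Ess] {c : ℕ} (hc : c < 2) : CocyOn (M.side c) (M.nest.down (M.Lt c)) := by
  refine Dt.down_cocy (det M) _ _ (fun x k m hx => (SideUp_add hM c x k m).2 hx)
    (fun x hx => ⟨hx.1, hx.2.1⟩) (Lt_add hM c) (Lt_cocy hM hc) T T_add ?_ ?_
  · rintro ⟨x, hx, h0⟩ y z y0 y1 z0 z1
    obtain rfl := side_bot hM hx h0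
    have e : ∀ {ρ : ℝ}, 0 ≤ ρ → ρ < 1 / 2 → J 0 (sh ρ) = 0 := fun a b => by
      rw [Side_sh_eq (i := 0) (by push_cast; linarith only [a]) (by push_cast; linarith only [b])]
      rfl
    rw [Side_Lt_same (by rw [ch, ch, e y0 y1, e z0 z1, ti_end (by omega), ti_end (by omega)]),
      pot, pot, e y0 y1, e z0 z1, ph, ph, if_pos rfl, if_pos rfl]
    simp [nest]
  · rintro ⟨x, hx, h0⟩ y z y0 y1 z0 z1
    obtain rfl := side_top hM hx h0
    have e : ∀ {ρ : ℝ}, M.l + 1 / 2 < ρ → ρ ≤ M.l + 1 → J (M.l % 2) (sh ρ) = M.l := fun a b => by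
      rw [Side_sh_eq (i := M.l + 1) (by push_cast; linarith only [a]) (by push_cast; linarith only [b]),
        Side_J_neg (by omega), Nat.add_sub_cancel]
    have hl : M.l ≠ 0 := by have := hM.one_le; omega
    rw [Side_Lt_same (by rw [ch, ch, e y0 y1, e z0 z1, ti_end (by omega), ti_end (by omega)]),
      pot, pot, e y0 y1, e z0 z1, ph, ph, if_neg hl, if_neg hl, if_pos rfl, if_pos rfl]
    simp [nest]

theorem isClosed_side (c : ℕ) : IsClosed (M.side c) := by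
  exact (Nest.isCompact_image (fun x k m hx => (SideUp_add hM c x k m).2 hx)
    (fun x hx => ⟨hx.1, hx.2.1⟩) (isClosed_SideUp hM c)).isClosed

theorem side_union : M.side 0 ∪ M.side 1 = univ := by
  refine eq_univ_of_forall fun p => ?_
  rcases side_cover hM (x := M.nest.sec 0 p) (Nest.rho_mem p).1 (Nest.rho_mem p).2 with h | h
  · exact Or.inl ⟨_, h, Dt.E_sec (det M) 0 p⟩
  · exact Or.inr ⟨_, h, Dt.E_sec (det M) 0 p⟩

theorem side_inter_side : M.side 0 ∩ M.side 1 = M.surf := by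
  refine Subset.antisymm ?_ (subset_inter (image_mono (FUp_sub_side hM zero_lt_two))
    (image_mono (FUp_sub_side hM one_lt_two)))
  rintro _ ⟨⟨x, hx, rfl⟩, y, hy, e⟩
  have e2 : y.2 = x.2 := (Nest.rho_E (N := M.nest) hy.1 hy.2.1).symm.trans
    ((congrArg M.nest.rho e).trans (Nest.rho_E (N := M.nest) hx.1 hx.2.1))
  have h0 : 0 < x.2 := hx.1.lt_of_ne fun h => one_ne_zero (side_bot hM hy (e2.trans h.symm))
  have h1 : x.2 < M.l + 1 := hx.2.1.lt_of_ne fun h =>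
    zero_ne_one ((side_top hM hx h).trans (side_top hM hy (e2.trans h)).symm)
  have h2 := (Dt.E_mem_image (det M) (fun x k m hx => (SideUp_add hM 1 x k m).2 hx)
    (fun x hx => ⟨hx.1, hx.2.1⟩) h0 h1).1 ⟨y, hy, e⟩
  exact ⟨x, side_inter hM ▸ ⟨hx, h2⟩, rfl⟩

theorem isCompact_surf : IsCompact M.surf := by
  exact Nest.isCompact_image (fun x k m hx => (FUp_add hM x k m).2 hx)
    (fun x hx => ⟨(Side_depth hM hx).1.le, (Side_depth hM hx).2.le⟩) (isClosed_FUp hM)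

theorem image_YUp : M.E '' M.YUp = M.surf \ M.knot := by
  refine Subset.antisymm ?_ ?_
  · rintro _ ⟨x, hx, rfl⟩
    refine ⟨⟨x, hx.1, rfl⟩, fun h => hx.2 ?_⟩
    exact (Dt.E_mem_image (det M) (fun x k m hx => (knotUp_add hM x k m).2 hx)
      (fun x hx => ⟨(Side_depth hM (knot_sub hM hx)).1.le, (Side_depth hM (knot_sub hM hx)).2.le⟩)
      (Side_depth hM hx.1).1 (Side_depth hM hx.1).2).1 h
  · rintro _ ⟨⟨x, hx, rfl⟩, h⟩
    exact ⟨x, ⟨hx, fun h' => h ⟨x, h', rfl⟩⟩, rfl⟩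

/-- The projection of the surface minus the knot. -/
noncomputable def pr : C(↥M.YUp, ↥(M.surf \ M.knot)) :=
  ⟨fun x => ⟨M.E x, image_YUp hM ▸ mem_image_of_mem _ x.2⟩,
    (Nest.continuous_E.comp continuous_subtype_val).subtype_mk _⟩

theorem pr_surjective : Function.Surjective (pr hM) := by
  rintro ⟨p, hp⟩
  obtain ⟨x, hx, rfl⟩ : p ∈ M.E '' M.YUp := (image_YUp hM).symm ▸ hp
  exact ⟨⟨x, hx⟩, rfl⟩

/-- Local sections of the projection through every point (`sec` and `sec_add`). -/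
theorem pr_sections (y : ↥(M.surf \ M.knot)) : ∃ U ∈ 𝓝 y, ∀ z : ↥M.YUp, pr hM z ∈ U →
    ∃ s : ↥(M.surf \ M.knot) → ↥M.YUp, ContinuousOn s U ∧ s (pr hM z) = z ∧
      ∀ u ∈ U, pr hM (s u) = u := by
  obtain ⟨x, rfl⟩ := pr_surjective hM y
  have hd : ∀ z : ↥M.YUp, 0 < (M.nest.sec x (M.E z)).2 ∧ (M.nest.sec x (M.E z)).2 < M.l + 1 := fun z => by
    have h := Side_depth hM z.2.1
    have e : (M.nest.sec x (M.E z)).2 = z.1.2 := Nest.rho_E h.1.le h.2.le
    rwa [e]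
  have hm : ∀ u : ↥(M.surf \ M.knot), M.nest.sec x u ∈ M.YUp := fun u => by
    obtain ⟨z, rfl⟩ := pr_surjective hM u
    exact (Dt.E_mem_image (det M) (fun x k m hx => (YUp_add hM x k m).2 hx)
      (fun x hx => ⟨(Side_depth hM hx.1).1.le, (Side_depth hM hx.1).2.le⟩) (hd z).1 (hd z).2).1
      ⟨z, z.2, (Dt.E_sec (det M) _ _).symm⟩
  refine ⟨{u | ContinuousAt (M.nest.sec x) u}, continuous_subtype_val.continuousAt.eventually
    (Dt.sec_continuousAt (det M) (Side_depth hM x.2.1).1 (Side_depth hM x.2.1).2), fun z _ => ?_⟩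
  obtain ⟨k, m, e⟩ := Dt.E_eq (det M) (hd z).1 (hd z).2 (Side_depth hM z.2.1).1.le
    (Side_depth hM z.2.1).2.le (Dt.E_sec (det M) _ _)
  refine ⟨fun u => ⟨M.nest.sec x u + vec k m, (YUp_add hM _ k m).2 (hm u)⟩, fun u hu => ?_,
    Subtype.ext e.symm, fun u _ => Subtype.ext ((Nest.E_add _ k m).trans (Dt.E_sec (det M) _ _))⟩
  refine ContinuousAt.continuousWithinAt (Topology.IsInducing.subtypeVal.continuousAt_iff.2 ?_)
  exact (ContinuousAt.comp (f := fun u : ↥(M.surf \ M.knot) => (u : S3)) hu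
    continuous_subtype_val.continuousAt).add continuousAt_const

end Lev

end AllOne
end

-- merged part: Pool.Agent.Work.MP_d5331a_gt.A1.Simply
section
/-!
Gaps and strips are simply connected. Port of the file `Simply` of the parent directory.
-/

set_option autoImplicit false

open Complex Set Filter Topology

namespace AllOne

open Neuwirth OneOne

namespace Lev

/-- The point at position `τ` along level `i` with `L i = y`. -/
noncomputable def simplyQ (M : Lev) (i : ℕ) (τ y : ℝ) : ℂ :=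
  M.β i + M.u i * (τ - ((y / ‖M.lam i‖ : ℝ) : ℂ) * I)

/-- The point at position `τ` and offset `e` from the middle of the gap. -/
noncomputable def simplyPt (M : Lev) (i : ℕ) (a : ℤ) (τ e : ℝ) : ℂ :=
  M.simplyQ i τ (a + 1 / 2 + e)

/-- The position along level `i`. -/
noncomputable def simplyT (M : Lev) (i : ℕ) (ζ : ℂ) : ℝ :=
  ((starRingEnd ℂ) (M.u i) * (ζ - M.β i)).re

/-- The point of a tube with direction `w` and depth `ρ`. -/
noncomputable def simplyF (M : Lev) (j : ℕ) (β : ℂ) (w : ℂ) (ρ : ℝ) : ℂ × ℝ :=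
  (β + (((M.ε / 2 + M.ε * |ρ - j - 1 / 2|) / ‖w‖ : ℝ) : ℂ) * w * M.dir j (ρ - j - 1 / 2), ρ)

/-- The segment between two points of a strip. -/
noncomputable def simplySeg (M : Lev) (j : ℕ) (β : ℂ) (y : ℂ × ℝ) (u : ℝ × (ℂ × ℝ)) : ℂ × ℝ :=
  M.simplyF j β (((1 - u.1 : ℝ) : ℂ) * M.unt j β u.2 + (u.1 : ℂ) * M.unt j β y)
    ((1 - u.1) * u.2.2 + u.1 * y.2)

variable {M : Lev} (hM : M.Good)
include hM

lemma simplyQ_L (i : ℕ) (τ y : ℝ) : M.L i (M.simplyQ i τ y - M.β i) = y := by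
  have := norm_lam_pos hM i
  rw [simplyQ, add_sub_cancel_left, L_u_mul hM]
  simp only [sub_im, ofReal_im, mul_I_im, ofReal_re]
  field_simp
  ring

lemma simplyQ_eq (i : ℕ) (ζ : ℂ) : M.simplyQ i (M.simplyT i ζ) (M.L i (ζ - M.β i)) = ζ := by
  have h0 := norm_lam_pos hM i
  have h1 : M.u i * (starRingEnd ℂ) (M.u i) = 1 := by
    rw [mul_conj', norm_u hM]; simp
  have h2 : ζ - M.β i = M.u i * ((starRingEnd ℂ) (M.u i) * (ζ - M.β i)) := by
    rw [← mul_assoc, h1, one_mul]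
  have h3 : M.L i (ζ - M.β i) / ‖M.lam i‖ = -((starRingEnd ℂ) (M.u i) * (ζ - M.β i)).im := by
    conv_lhs => rw [h2, L_u_mul hM]
    field_simp
  rw [simplyQ, h3, simplyT, ofReal_neg, neg_mul, sub_neg_eq_add, re_add_im, ← h2, add_sub_cancel]

lemma simplyQ_norm (i : ℕ) (τ y τ' y' : ℝ) : ‖M.simplyQ i τ y - M.simplyQ i τ' y'‖ =
    √((τ - τ') ^ 2 + ((y - y') / ‖M.lam i‖) ^ 2) := by
  rw [simplyQ, simplyQ, add_sub_add_left_eq_sub, ← mul_sub, norm_mul, norm_u hM, one_mul,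
    norm_eq_sqrt_sq_add_sq]
  congr 1
  simp only [sub_re, sub_im, ofReal_re, ofReal_im, mul_I_re, mul_I_im]
  ring

lemma simply_move {i j : ℕ} (h2 : i ≤ M.l) (hi : i = j ∨ i = j + 1) (a : ℤ) {τ e l : ℝ}
    (he : |e| < 1 / 2) (h0 : 0 ≤ l) (h1 : l ≤ 1)
    (h : l = 0 ∨ M.bump j (M.simplyPt i a τ e) ≤ 1 / 2) :
    M.bump j (M.simplyPt i a τ (l * e)) ≤ 1 / 2 := by
  have hε := hM.ε_pos
  have hn := norm_lam_pos hM i
  rw [bump_le_half hM]
  intro β hβ
  have key : ∀ e', ‖M.simplyPt i a τ e' - β‖ = √((τ - M.simplyT i β) ^ 2 +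
      ((((a - M.ind i β : ℤ) : ℝ) + 1 / 2 + e') / ‖M.lam i‖) ^ 2) := fun e' => by
    conv_lhs => rw [← simplyQ_eq hM i β, ← ind_eq hβ hi, simplyPt, simplyQ_norm hM]
    congr 3
    push_cast
    ring
  have hbig : 1 / 2 ≤ |((a - M.ind i β : ℤ) : ℝ) + 1 / 2 + l * e| →
      M.ε / 2 ≤ ‖M.simplyPt i a τ (l * e) - β‖ := fun hb => by
    rw [key]
    refine le_trans ?_ (Real.abs_le_sqrt (le_add_of_nonneg_left (sq_nonneg _)))
    rw [abs_div, abs_of_pos hn, le_div_iff₀ hn]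
    linarith only [hb, hM, h2, norm_lam_small hM h2]
  rcases h with h | h
  · exact hbig (by rw [h, zero_mul, add_zero]; exact simply_half _)
  rcases simply_abs (simply_half (a - M.ind i β)) he h0 h1 with h3 | h3
  · exact hbig h3
  refine ((bump_le_half hM).1 h β hβ).trans ?_
  rw [key, key]
  refine Real.sqrt_le_sqrt (add_le_add_right (sq_le_sq.2 ?_) _)
  rw [abs_div, abs_div]
  exact div_le_div_of_nonneg_right h3 (abs_nonneg _)

lemma simply_mem {i : ℕ} {a : ℤ} {τ e : ℝ} (he : |e| < 1 / 2)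
    (h : M.bump i (M.simplyPt i a τ e) ≤ 1 / 2)
    (h' : M.bump (i - 1) (M.simplyPt i a τ e) ≤ 1 / 2) :
    (M.tw i (-1) (M.simplyPt i a τ e), M.hgt i (M.simplyPt i a τ e)) ∈ M.Gap i a := by
  have h1 : M.lin i (M.tw i (-1) (M.simplyPt i a τ e)) = a + 1 / 2 + e := by
    rw [lin, tw_tw' hM, simplyPt, simplyQ_L hM]
  rw [abs_lt] at he
  refine ⟨⟨?_, ?_, ?_⟩, ?_, ?_⟩
  · rwa [bump_tw hM (Or.inl rfl)]
  · rwa [bump_tw hM (by omega)]
  · exact (hgt_tw hM _ _ _).symm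
  · rw [h1]; linarith only [he]
  · rw [h1]; linarith only [he]

lemma simply_pt (i : ℕ) (a : ℤ) (ζ : ℂ) :
    M.simplyPt i a (M.simplyT i (M.tw i 1 ζ)) (M.lin i ζ - a - 1 / 2) = M.tw i 1 ζ := by
  rw [simplyPt, show a + 1 / 2 + (M.lin i ζ - a - 1 / 2) = M.lin i ζ by ring, lin, simplyQ_eq hM]

lemma simplyF_W {j : ℕ} {β : ℂ} {σ : ℝ} {x : ℂ × ℝ} (hx : x ∈ M.Strip j β σ) :
    M.simplyF j β (M.unt j β x) x.2 = x := by
  have hε := hM.ε_pos
  refine Prod.ext ?_ rfl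
  have h2 : 0 < M.ε / 2 + M.ε * |x.2 - j - 1 / 2| := by positivity
  simp only [simplyF]
  rw [norm_unt hM, hx.2.1, div_self h2.ne', ofReal_one, one_mul, unt_mul_dir hM]
  ring

lemma simplyF_mem {j : ℕ} {β : ℂ} {σ : ℝ} {w : ℂ} {ρ : ℝ} (hw : 0 < σ * w.im)
    (hρ : |ρ - j - 1 / 2| < 1 / 2) : M.simplyF j β w ρ ∈ M.Strip j β σ := by
  have hε := hM.ε_pos
  have hw0 : 0 < ‖w‖ := norm_pos_iff.2 fun h => by simp [h] at hw
  have h2 : 0 < M.ε / 2 + M.ε * |ρ - j - 1 / 2| := by positivity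
  refine ⟨hρ, ?_, ?_⟩
  · simp only [simplyF]
    rw [add_sub_cancel_left, norm_mul, norm_mul, norm_dir hM, norm_real,
      Real.norm_of_nonneg (by positivity)]
    field_simp
  · simp only [simplyF, unt]
    rw [add_sub_cancel_left, mul_assoc, dir_mul_conj hM, mul_one, im_ofReal_mul, mul_left_comm]
    positivity

omit hM in
lemma simply_im {j : ℕ} {β : ℂ} {σ : ℝ} {x y : ℂ × ℝ} (hx : x ∈ M.Strip j β σ)
    (hy : y ∈ M.Strip j β σ) {t : ℝ} (ht : t ∈ Icc (0 : ℝ) 1) :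
    0 < σ * (((1 - t : ℝ) : ℂ) * M.unt j β x + (t : ℂ) * M.unt j β y).im := by
  have h1 : 0 < σ * (M.unt j β x).im := hx.2.2
  have h2 : 0 < σ * (M.unt j β y).im := hy.2.2
  rw [add_im, im_ofReal_mul, im_ofReal_mul]
  rcases ht.1.eq_or_lt with h | h
  · rw [← h]; linarith
  · linarith only [ht, h1, h, h2, mul_nonneg (sub_nonneg.2 ht.2) h1.le, mul_pos h h2]

lemma simplySeg_mem {j : ℕ} {β : ℂ} {σ : ℝ} {x y : ℂ × ℝ} (hx : x ∈ M.Strip j β σ)
    (hy : y ∈ M.Strip j β σ) {t : ℝ} (ht : t ∈ Icc (0 : ℝ) 1) :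
    M.simplySeg j β y (t, x) ∈ M.Strip j β σ := by
  refine simplyF_mem hM (simply_im hx hy ht) ?_
  have h1 := abs_lt.1 hx.1
  have h2 := abs_lt.1 hy.1
  have h3 := sub_nonneg.2 ht.2
  rw [abs_lt]
  rcases ht.1.eq_or_lt with h | h
  · rw [← h]; constructor <;> simp only <;> linarith only [h1, h1.1, h1.2]
  · constructor <;> simp only
    · linarith only [h3, h1, h, h2, mul_nonneg h3 (sub_pos.2 h1.1).le, mul_pos h (sub_pos.2 h2.1)]
    · linarith only [h3, h1, h, h2, mul_nonneg h3 (sub_pos.2 h1.2).le, mul_pos h (sub_pos.2 h2.2)]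

omit hM in
lemma simplySeg_cont {j : ℕ} {β : ℂ} {σ : ℝ} {y : ℂ × ℝ} (hy : y ∈ M.Strip j β σ) :
    ContinuousOn (M.simplySeg j β y) (Icc 0 1 ×ˢ M.Strip j β σ) := by
  have h1 : Continuous fun u : ℝ × (ℂ × ℝ) =>
      ((1 - u.1 : ℝ) : ℂ) * M.unt j β u.2 + (u.1 : ℂ) * M.unt j β y := by
    have := continuous_unt (M := M) j β
    fun_prop
  have h2 := continuous_dir (M := M) j
  unfold simplySeg simplyF
  refine ContinuousOn.prodMk (continuousOn_const.add (ContinuousOn.mul (ContinuousOn.mul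
    (continuous_ofReal.comp_continuousOn (ContinuousOn.div (by fun_prop) h1.norm.continuousOn ?_))
    h1.continuousOn) (by fun_prop))) (by fun_prop)
  intro u hu h
  have := simply_im hu.2 hy hu.1
  rw [norm_eq_zero.1 h] at this
  simp at this

lemma simplySeg_zero {j : ℕ} {β : ℂ} {σ : ℝ} {x : ℂ × ℝ} (hx : x ∈ M.Strip j β σ) (y : ℂ × ℝ) :
    M.simplySeg j β y (0, x) = x := by
  simpa [simplySeg] using simplyF_W hM hx

lemma simplySeg_one {j : ℕ} {β : ℂ} {σ : ℝ} {y : ℂ × ℝ} (hy : y ∈ M.Strip j β σ) (x : ℂ × ℝ) :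
    M.simplySeg j β y (1, x) = y := by
  simpa [simplySeg] using simplyF_W hM hy

lemma simply_join {j : ℕ} {β : ℂ} {σ : ℝ} {x y : ℂ × ℝ} (hx : x ∈ M.Strip j β σ)
    (hy : y ∈ M.Strip j β σ) {T : Set (ℂ × ℝ)}
    (hT : ∀ t ∈ Icc (0 : ℝ) 1, ∀ z : ℂ × ℝ, z.2 = (1 - t) * x.2 + t * y.2 → z ∈ T) :
    JoinedIn (M.Strip j β σ ∩ T) x y := by
  refine JoinedIn.ofLine (f := fun t => M.simplySeg j β y (t, x))
    ((simplySeg_cont hy).comp (by fun_prop) fun t ht => ⟨ht, hx⟩) (simplySeg_zero hM hx y)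
    (simplySeg_one hM hy x) ?_
  rintro _ ⟨t, ht, rfl⟩
  exact ⟨simplySeg_mem hM hx hy ht, hT t ht _ rfl⟩

theorem gap_simply {i : ℕ} (h1 : 1 ≤ i) (h2 : i ≤ M.l) (a : ℤ) :
    IsSimplyConnected (M.Gap i a) := by
  have hi : i = i - 1 ∨ i = i - 1 + 1 := Or.inr (by omega)
  have hz : |(0 : ℝ)| < 1 / 2 := by norm_num
  have hmid : ∀ τ, (M.tw i (-1) (M.simplyPt i a τ 0), M.hgt i (M.simplyPt i a τ 0)) ∈ M.Gap i a :=
    fun τ => simply_mem hM hz
      (by simpa using simply_move hM h2 (Or.inl rfl) a hz le_rfl zero_le_one (Or.inl rfl))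
      (by simpa using simply_move hM h2 hi a hz le_rfl zero_le_one (Or.inl rfl))
  let p : ℝ × (ℂ × ℝ) → ℂ := fun u => M.simplyPt i a
    ((1 - max (2 * u.1 - 1) 0) * M.simplyT i (M.tw i 1 u.2.1))
    ((1 - min (2 * u.1) 1) * (M.lin i u.2.1 - a - 1 / 2))
  have hp : Continuous p := by
    have c1 := continuous_tw hM i 1
    have c2 := continuous_lin hM i
    simp only [p, simplyPt, simplyQ, simplyT]
    generalize M.tw i 1 = f at c1 ⊢
    generalize M.lin i = g at c2 ⊢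
    fun_prop
  refine isSimplyConnected_of_contraction _ _ (hmid 0)
    (fun u => (M.tw i (-1) (p u), M.hgt i (p u)))
    (((continuous_tw hM i (-1)).comp hp).prodMk ((continuous_hgt hM i).comp hp)).continuousOn
    (fun t ht x hx => ?_) (fun x hx => ?_) (fun x _ => ?_)
  · simp only [p]
    rcases le_total (2 * t) 1 with h | h
    · have he : |M.lin i x.1 - a - 1 / 2| < 1 / 2 :=
        abs_lt.2 ⟨by linarith only [hx, hx.2.1], by linarith only [hx, hx.2.2]⟩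
      have h0 : 0 ≤ 1 - 2 * t := by linarith only [h]
      have h3 : 1 - 2 * t ≤ 1 := by linarith only [ht, ht.1]
      rw [max_eq_right (by linarith only [h]), min_eq_left h, sub_zero, one_mul]
      refine simply_mem hM ?_ (simply_move hM h2 (Or.inl rfl) a he h0 h3 (Or.inr ?_))
        (simply_move hM h2 hi a he h0 h3 (Or.inr ?_))
      · rw [abs_mul, abs_of_nonneg h0]
        exact (mul_le_of_le_one_left (abs_nonneg _) h3).trans_lt he
      · rw [simply_pt hM, bump_tw hM (Or.inl rfl)]; exact hx.1.1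
      · rw [simply_pt hM, bump_tw hM hi]; exact hx.1.2.1
    · rw [min_eq_right h, sub_self, zero_mul]
      exact hmid _
  · simp only [p]
    rw [max_eq_right (by norm_num), min_eq_left (by norm_num), mul_zero, sub_zero, one_mul,
      one_mul, simply_pt hM, tw_tw hM, hgt_tw hM]
    exact Prod.ext rfl hx.1.2.2.symm
  · simp only [p]
    rw [max_eq_left (by norm_num), min_eq_right (by norm_num)]
    norm_num

theorem strip_simply (j : ℕ) (β : ℂ) {σ : ℝ} (hσ : σ = 1 ∨ σ = -1) :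
    IsSimplyConnected (M.Strip j β σ) := by
  have hy := mid_mem_strip hM j β hσ
  exact isSimplyConnected_of_contraction _ _ hy _ (simplySeg_cont hy)
    (fun t ht x hx => simplySeg_mem hM hx hy ht) (fun x hx => simplySeg_zero hM hx _)
    fun x _ => simplySeg_one hM hy x

theorem strip_join_outer {j : ℕ} {β : ℂ} {σ : ℝ} {x y : ℂ × ℝ} (hx : x ∈ M.Strip j β σ)
    (hy : y ∈ M.Strip j β σ) (h1 : x.2 ≤ j + 1 / 2) (h2 : y.2 ≤ j + 1 / 2) :
    JoinedIn (M.Strip j β σ ∩ {z | z.2 ≤ j + 1 / 2}) x y := by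
  refine simply_join hM hx hy fun t ht z hz => ?_
  rw [mem_ofPred_eq, hz]
  linarith only [ht, h1, h2, mul_nonneg (sub_nonneg.2 ht.2) (sub_nonneg.2 h1), mul_nonneg ht.1 (sub_nonneg.2 h2)]

theorem strip_join_inner {j : ℕ} {β : ℂ} {σ : ℝ} {x y : ℂ × ℝ} (hx : x ∈ M.Strip j β σ)
    (hy : y ∈ M.Strip j β σ) (h1 : j + 1 / 2 ≤ x.2) (h2 : j + 1 / 2 ≤ y.2) :
    JoinedIn (M.Strip j β σ ∩ {z | j + 1 / 2 ≤ z.2}) x y := by
  refine simply_join hM hx hy fun t ht z hz => ?_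
  rw [mem_ofPred_eq, hz]
  linarith only [ht, h1, h2, mul_nonneg (sub_nonneg.2 ht.2) (sub_nonneg.2 h1), mul_nonneg ht.1 (sub_nonneg.2 h2)]

end Lev

end AllOne
end

-- merged part: Pool.Agent.Work.MP_d5331a_gt.A1.Spiral
section
/-!
The walls inside a tube whose band makes additional half turns.
-/

set_option autoImplicit false

open Complex Set Filter Topology

namespace AllOne

open Neuwirth OneOne

theorem hh_of_mem (σ : ℝ) {y : ℝ} {n : ℤ} (h1 : n < y) (h2 : y < n + 1) : hh σ y = n := by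
  have e1 : ⌊y⌋ = n := Int.floor_eq_iff.2 ⟨h1.le, h2⟩
  have e2 : ⌈y⌉ = n + 1 := Int.ceil_eq_iff.2 ⟨by push_cast; linarith, by push_cast; linarith⟩
  rw [hh, e1, e2]
  split_ifs <;> simp

theorem hh_int (σ : ℝ) (n : ℕ) : hh σ n = if (Even n ↔ σ = 1) then (n : ℤ) else n - 1 := by
  simp only [hh, Int.floor_natCast, Int.ceil_natCast, Int.even_coe_nat]

theorem le_hh (σ : ℝ) {y : ℝ} {n : ℤ} (h : n < y) : n ≤ hh σ y := by
  have e1 : n ≤ ⌊y⌋ := Int.le_floor.2 h.le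
  have e2 : n < ⌈y⌉ := Int.lt_ceil.2 h
  rw [hh]
  split_ifs <;> omega

namespace Lev

variable {M : Lev} (hM : M.Good)
include hM

omit hM in
theorem floor_of_gap {i : ℕ} {a : ℤ} {x : ℂ × ℝ} (h : x ∈ M.Gap i a) : ⌊M.lin i x.1⌋ = a :=
  Int.floor_eq_iff.2 ⟨h.2.1.le, h.2.2⟩

omit hM in
theorem sh_outer {j : ℕ} {β : ℂ} {σ : ℝ} {x : ℂ × ℝ} (h : x ∈ M.Strip j β σ)
    (h' : ¬ (j : ℝ) + 1 / 2 ≤ x.2) : sh x.2 = j :=
  sh_eq (by linarith only [h, (abs_lt.1 h.1).1]) (by linarith only [h', not_le.1 h'])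

omit hM in
theorem sh_inner {j : ℕ} {β : ℂ} {σ : ℝ} {x : ℂ × ℝ} (h : x ∈ M.Strip j β σ)
    (h' : (j : ℝ) + 1 / 2 ≤ x.2) : sh x.2 = j + 1 :=
  sh_eq (by push_cast; linarith only [h']) (by push_cast; linarith only [h, (abs_lt.1 h.1).2])

theorem strip_sub {j : ℕ} {β : ℂ} (hβ : β ∈ M.B j) {σ : ℝ} (hσ : σ = 1 ∨ σ = -1) :
    M.Strip j β σ ⊆ M.YUp := fun x hx => by
  obtain ⟨r1, r2⟩ := band_range hβ
  rcases le_total x.2 (j + 1 / 2) with h | h
  · exact gap_sub hM r1 r2.le _ (strip_outer hM hβ hσ hx h)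
  · exact gap_sub hM (by omega) r2 _ (strip_inner hM hβ hσ hx h)

theorem strip_norm {j : ℕ} {β : ℂ} {σ : ℝ} {x : ℂ × ℝ} (h : x ∈ M.Strip j β σ) :
    ‖x.1 - β‖ < M.ε := by
  have := mul_lt_mul_of_pos_left h.1 hM.ε_pos
  rw [h.2.1]; linarith only [this]

theorem strip_norm_pos {j : ℕ} {β : ℂ} {σ : ℝ} {x : ℂ × ℝ} (h : x ∈ M.Strip j β σ) :
    0 < ‖x.1 - β‖ := by
  have := hM.ε_pos
  rw [h.2.1]; positivity

theorem strip_ev {j : ℕ} {β : ℂ} (hβ : β ∈ M.B j) {σ : ℝ} {x : ℂ × ℝ} (h : x ∈ M.Strip j β σ) :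
    ∀ᶠ z in 𝓝[M.YUp] x, z ∈ M.Strip j β σ := by
  have k1 : Continuous fun z : ℂ × ℝ => ‖z.1 - β‖ := by fun_prop
  have k2 : Continuous fun z : ℂ × ℝ => |z.2 - j - 1 / 2| := by fun_prop
  have k3 : Continuous fun z : ℂ × ℝ => σ * (M.unt j β z).im :=
    continuous_const.mul (continuous_im.comp (continuous_unt j β))
  filter_upwards [self_mem_nhdsWithin,
    nhdsWithin_le_nhds ((k1.tendsto x).eventually (gt_mem_nhds (strip_norm hM h))),
    nhdsWithin_le_nhds ((k2.tendsto x).eventually (gt_mem_nhds h.1)),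
    nhdsWithin_le_nhds ((k3.tendsto x).eventually (lt_mem_nhds h.2.2))] with z b0 b1 b2 b3
  exact ⟨b2, (mem_FUp_tube hM hβ b1 b2).1.1 b0.1, b3⟩

omit hM in
theorem phi_ge {j : ℕ} {β : ℂ} {σ : ℝ} {x : ℂ × ℝ} (h : 0 ≤ σ * (M.unt j β x).im) :
    2 * (M.e j * M.b j) * (x.2 - j - 1 / 2) ≤ M.phi j β σ x := by
  rw [phi, le_add_iff_nonneg_left, arg_nonneg_iff]
  simpa using h

omit hM in
theorem phi_mem {j : ℕ} {β : ℂ} {σ : ℝ} {x : ℂ × ℝ} (h : 0 < σ * (M.unt j β x).im) :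
    2 * (M.e j * M.b j) * (x.2 - j - 1 / 2) < M.phi j β σ x ∧
      M.phi j β σ x < Real.pi + 2 * (M.e j * M.b j) * (x.2 - j - 1 / 2) := by
  rw [phi, lt_add_iff_pos_left, add_lt_add_iff_right]
  generalize σ * M.e j * (M.unt j β x).re = u
  generalize σ * (M.unt j β x).im = v at h
  have e : ((u : ℂ) + (v : ℂ) * I).im = v := by simp
  refine ⟨lt_of_le_of_ne (arg_nonneg_iff.2 (e.symm ▸ h.le)) fun h1 => ?_,
    arg_lt_pi_iff.2 (Or.inr (e.symm ▸ h.ne'))⟩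
  have h2 := (arg_eq_zero_iff.1 h1.symm).2
  rw [e] at h2
  exact h.ne' h2

omit hM in
theorem phi_cont {j : ℕ} {β : ℂ} {σ : ℝ} {x : ℂ × ℝ} (h : 0 < σ * (M.unt j β x).im) :
    ContinuousAt (M.phi j β σ) x := by
  have k1 := continuous_unt (M := M) j β
  have k2 : Continuous fun x : ℂ × ℝ => (((σ * M.e j * (M.unt j β x).re : ℝ) : ℂ) +
      ((σ * (M.unt j β x).im : ℝ) : ℂ) * I) := by
    generalize M.unt j β = u at k1
    fun_prop
  refine ContinuousAt.add ?_ (by fun_prop)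
  refine (continuousAt_arg (Or.inr ?_)).comp' k2.continuousAt
  simpa using h.ne'

theorem phi_polar {j : ℕ} {β : ℂ} {σ : ℝ} (hσ : σ = 1 ∨ σ = -1) {x : ℂ × ℝ}
    (h : (j : ℝ) + 1 / 2 ≤ x.2) : ∃ z : ℂ, x.1 - β = z * M.ω j ∧
      σ * z.im = ‖x.1 - β‖ * Real.sin (M.phi j β σ x) ∧
      σ * M.e j * z.re = ‖x.1 - β‖ * Real.cos (M.phi j β σ x) := by
  refine ⟨M.unt j β x * exp (((2 * M.b j * (x.2 - j - 1 / 2) : ℝ) : ℂ) * I), ?_, ?_⟩
  · rw [← unt_mul_dir hM j β x, dir, ang_nonneg j (by linarith only [h])]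
    ring
  · rw [← norm_unt hM j β x, phi]
    generalize M.unt j β x = u
    generalize x.2 - j - 1 / 2 = s
    set w : ℂ := ((σ * M.e j * u.re : ℝ) : ℂ) + ((σ * u.im : ℝ) : ℂ) * I with hw
    have e1 : w.re = σ * M.e j * u.re := by simp [hw]
    have e2 : w.im = σ * u.im := by simp [hw]
    have e3 : ‖w‖ = ‖u‖ := by
      rw [norm_def, norm_def, normSq_apply, normSq_apply, e1, e2]
      congr 1
      rcases hσ with rfl | rfl <;> rcases hM.sign j with e | e <;> rw [e] <;> ring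
    have e4 := norm_mul_cos_arg w
    have e5 := norm_mul_sin_arg w
    rw [e3, e1] at e4
    rw [e3, e2] at e5
    rw [Real.sin_add, Real.cos_add, mul_im, mul_re, exp_ofReal_mul_I_re, exp_ofReal_mul_I_im]
    rcases hM.sign j with e | e <;> rw [e] at e4 ⊢
    · rw [one_mul]
      constructor
      · linear_combination (-Real.cos (2 * M.b j * s)) * e5 - Real.sin (2 * M.b j * s) * e4
      · linear_combination (-Real.cos (2 * M.b j * s)) * e4 + Real.sin (2 * M.b j * s) * e5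
    · rw [show 2 * (-1 * M.b j) * s = -(2 * M.b j * s) by ring, Real.sin_neg, Real.cos_neg]
      constructor
      · linear_combination (-Real.cos (2 * M.b j * s)) * e5 + Real.sin (2 * M.b j * s) * e4
      · linear_combination (-Real.cos (2 * M.b j * s)) * e4 - Real.sin (2 * M.b j * s) * e5

omit hM in
theorem ext_zero {j : ℕ} {β : ℂ} {σ : ℝ} {x : ℂ × ℝ} (h : 0 ≤ σ * (M.unt j β x).im)
    (hk : M.k j * Real.pi < 2 * (M.e j * M.b j) * (x.2 - j - 1 / 2)) : M.ext j β σ x = 0 := by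
  have h1 := le_hh σ (y := M.phi j β σ x / Real.pi) (n := M.k j)
    ((lt_div_iff₀ Real.pi_pos).2 (by push_cast; linarith only [hk, h, phi_ge h]))
  rw [ext, max_eq_right (by omega), mul_zero]

omit hM in
theorem xt_zero {c : ℕ} (hc : c < 2) {x : ℂ × ℝ} (h : ∀ j, sh x.2 = j + 1 → 1 ≤ j → j % 2 = c →
    M.k j * Real.pi < 2 * (M.e j * M.b j) * (x.2 - j - 1 / 2)) : M.xt c x = 0 := by
  rw [xt]
  split_ifs with h1
  · refine ext_zero ?_ (h _ (by omega) (by omega) (by omega))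
    rw [sgn]
    split_ifs with h2
    · linarith only [h2]
    · linarith [not_lt.1 h2]
  · rfl

theorem xt_strip {c j : ℕ} {β : ℂ} (hβ : β ∈ M.B j) {σ : ℝ} (hσ : σ = 1 ∨ σ = -1) (hj : j % 2 = c)
    {x : ℂ × ℝ} (hx : x ∈ M.Strip j β σ) (h : (j : ℝ) + 1 / 2 ≤ x.2) :
    M.xt c x = M.ext j β σ x := by
  have h1 := (band_range hβ).1
  have h2 := ctr_near hM hβ (Or.inr rfl) (strip_norm hM hx)
  have h3 := hx.2.2
  rw [xt, sh_inner hx h, if_pos ⟨by omega, by omega⟩, Nat.add_sub_cancel, h2, sgn, h2]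
  congr 1
  rcases hσ with rfl | rfl
  · exact if_pos (by linarith only [h3])
  · exact if_neg (by linarith only [h3])

theorem xt_add (c : ℕ) (x : ℂ × ℝ) (k m : ℤ) : M.xt c (x + vec k m) = M.xt c x := by
  simp only [xt, vec_add, ext, phi, sgn, unt, ctr_add hM, add_sub_add_right_eq_sub]
  rfl

variable [hS : M.Ess]

omit hM in
theorem eb_pos {j : ℕ} (h1 : 1 ≤ j) (h2 : j < M.l) : 0 < M.e j * M.b j :=
  lt_of_le_of_lt (by positivity) (hS.b_mem j h1 h2).1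

theorem lt_strip {j : ℕ} {β : ℂ} (hβ : β ∈ M.B j) {σ : ℝ} (hσ : σ = 1 ∨ σ = -1) {ζ : ℂ}
    (h : ‖ζ - β‖ < M.ε) (h' : 0 < σ * M.tm (M.w j) (ζ - β)) (c i : ℕ) (hi : i = j ∨ i = j + 1) :
    M.ti (J c i) ζ = M.tin (J c i) j β σ :=
  ti_strip hM hβ hσ (by unfold J; split_ifs <;> omega) (by unfold J; split_ifs <;> omega)
    (by linarith [hM.ε_pos]) h'

omit hM in
/-- The lower half of a strip. -/
theorem xt_outer {c : ℕ} (hc : c < 2) {j : ℕ} {β : ℂ} (hβ : β ∈ M.B j) {σ : ℝ} {x : ℂ × ℝ}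
    (hx : x ∈ M.Strip j β σ) (h : ¬ (j : ℝ) + 1 / 2 ≤ x.2) : M.xt c x = 0 := by
  refine xt_zero hc fun i e h1 _ => ?_
  rw [sh_outer hx h] at e
  subst e
  have h2 : i < M.l := by have := (band_range hβ).2; omega
  have h3 := (abs_lt.1 hx.1).1
  push_cast at h3
  linarith only [hS, h1, h2, h3, eb_pos h1 h2, (hS.b_mem i h1 h2).1, mul_pos_of_neg_of_neg (Mathlib.Tactic.Linarith.sub_neg_of_lt h3) (Mathlib.Tactic.Linarith.sub_neg_of_lt (eb_pos h1 h2))]

/-- The upper half of a strip near the neck. -/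
theorem xt_neck {c : ℕ} (hc : c < 2) {j : ℕ} {β : ℂ} (hβ : β ∈ M.B j) {σ : ℝ} (hσ : σ = 1 ∨ σ = -1)
    {x : ℂ × ℝ} (hx : x ∈ M.Strip j β σ) (e : x.2 = j + 1 / 2) :
    ∀ᶠ z in 𝓝 x, z ∈ M.Strip j β σ → (j : ℝ) + 1 / 2 ≤ z.2 →
      M.xt c z = if j % 2 = c then sgz σ * M.k j else 0 := by
  obtain ⟨h1, h2⟩ := phi_mem hx.2.2
  rw [show x.2 - j - 1 / 2 = 0 by linarith only [e], mul_zero] at h1 h2
  rw [add_zero] at h2
  filter_upwards [(phi_cont hx.2.2).eventually (Ioo_mem_nhds h1 h2)] with z hz z1 z2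
  split_ifs with hj
  · rw [xt_strip hM hβ hσ hj z1 z2, ext, hh_of_mem σ (n := 0)
      (by simpa using div_pos hz.1 Real.pi_pos) (by simpa using (div_lt_one Real.pi_pos).2 hz.2)]
    simp
  · rw [xt, sh_inner z1 z2, if_neg (by omega)]

/-- A point below the last wall lies in a tube. -/
theorem tube_of {j : ℕ} (h1 : 1 ≤ j) {x : ℂ × ℝ} (hx : x ∈ M.YUp) (e : sh x.2 = j + 1)
    (hk : 2 * (M.e j * M.b j) * (x.2 - j - 1 / 2) ≤ M.k j * Real.pi) :
    ∃ β ∈ M.B j, ∃ σ : ℝ, (σ = 1 ∨ σ = -1) ∧ x ∈ M.Strip j β σ ∧ (j : ℝ) + 1 / 2 ≤ x.2 := by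
  obtain ⟨-, r2, hs⟩ := mem_sheet_sh hM hx.1
  rw [e] at r2 hs
  have h2 : j < M.l := r2
  have h3 : x.2 - j - 1 / 2 < 1 / 2 := by (refine lt_of_not_ge fun h_nl => ?_; linarith only [h_nl, hk, hS, h1, h2, eb_pos h1 h2, (hS.b_mem j h1 h2).1, mul_nonneg_of_nonpos_of_nonpos (Mathlib.Tactic.Linarith.sub_nonpos_of_le h_nl) (le_of_lt (Mathlib.Tactic.Linarith.sub_neg_of_lt (eb_pos h1 h2)))])
  obtain ⟨-, -, h4⟩ := sheets_iff.1 hs
  rw [Nat.add_sub_cancel] at h4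
  push_cast at h4
  obtain ⟨β, hβ, h5⟩ := exists_of_bump_ne (M := M) (j := j) (ζ := x.1)
    (by intro h; linarith only [h3, h4, h, hM, bump_nonneg hM (j + 1) x.1])
  obtain ⟨h6, h7⟩ := (sheets_inner hM hβ h5.le).1 hs
  have a4 : |x.2 - j - 1 / 2| < 1 / 2 := abs_lt.2 ⟨by linarith only [h6], h3⟩
  have a7 := fun h => hx.2 ((mem_FUp_tube hM hβ h5 a4).2.2 ⟨h7, h⟩)
  rcases lt_or_gt_of_ne a7 with h | h
  · exact ⟨β, hβ, -1, Or.inr rfl, ⟨a4, h7, by linarith only [h]⟩, h6⟩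
  · exact ⟨β, hβ, 1, Or.inl rfl, ⟨a4, h7, by linarith only [h]⟩, h6⟩

theorem tt_strip {j : ℕ} {β : ℂ} (hβ : β ∈ M.B j) {σ : ℝ} (hσ : σ = 1 ∨ σ = -1) {x : ℂ × ℝ}
    (hx : x ∈ M.Strip j β σ) (h : (j : ℝ) + 1 / 2 ≤ x.2) :
    ∃ t : ℝ, 0 < t ∧ M.tt j x.1 = σ * t * Real.sin (M.phi j β σ x) + M.ti j β := by
  obtain ⟨z, e1, e2, -⟩ := phi_polar hM (β := β) hσ h
  refine ⟨‖x.1 - β‖ * M.tm (M.w j) (M.ω j * I),
    mul_pos (strip_norm_pos hM hx) (tm_ω_I_pos hM hβ.1 hβ.2.1), ?_⟩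
  rw [tt_near hM hβ (by linarith only [hM, hx, strip_norm hM hx, hM.ε_pos]), add_left_inj]
  conv_lhs => rw [e1, tm_ω_mul hβ.1 hβ.2.1]
  rcases hσ with rfl | rfl
  · linear_combination M.tm (M.w j) (M.ω j * I) * e2
  · linear_combination -M.tm (M.w j) (M.ω j * I) * e2

omit hM hS in
theorem xt_ev_zero {c : ℕ} (hc : c < 2) {x : ℂ × ℝ} (h : ∀ j, sh x.2 = j + 1 → 1 ≤ j → j % 2 = c →
    M.k j * Real.pi < 2 * (M.e j * M.b j) * (x.2 - j - 1 / 2)) :
    ∀ᶠ z in 𝓝 x, sh z.2 = sh x.2 → M.xt c z = 0 := by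
  by_cases h1 : ∃ j, sh x.2 = j + 1 ∧ 1 ≤ j ∧ j % 2 = c
  · obtain ⟨j, e, h1, h2⟩ := h1
    have k1 : Continuous fun z : ℂ × ℝ => 2 * (M.e j * M.b j) * (z.2 - j - 1 / 2) := by fun_prop
    filter_upwards [(k1.tendsto x).eventually (lt_mem_nhds (h j e h1 h2))] with z hz e'
    refine xt_zero hc fun i e'' _ _ => ?_
    obtain rfl : i = j := by omega
    exact hz
  · exact Eventually.of_forall fun z e => xt_zero hc fun i e' i1 i2 =>
      absurd ⟨i, e ▸ e', i1, i2⟩ h1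

/-- Off the walls the number of walls is locally constant. -/
theorem xt_loc {c : ℕ} (hc : c < 2) {x : ℂ × ℝ} (hx : x ∈ M.YUp) (hn : x.2 + 1 / 2 ≠ sh x.2)
    (hb : ¬ ((1 ≤ J c (sh x.2) ∧ J c (sh x.2) < M.l) ∧ ∃ m : ℤ, M.tt (J c (sh x.2)) x.1 = m)) :
    ∀ᶠ z in 𝓝[M.YUp] x, M.xt c z = M.xt c x := by
  by_cases h : ∀ j, sh x.2 = j + 1 → 1 ≤ j → j % 2 = c →
      M.k j * Real.pi < 2 * (M.e j * M.b j) * (x.2 - j - 1 / 2)
  · filter_upwards [nhdsWithin_le_nhds (xt_ev_zero hc h), loc_plain hM hx hn] with z h1 h2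
    rw [h1 h2.1, xt_zero hc h]
  · push Not at h
    obtain ⟨j, e, h1, hj, hk⟩ := h
    obtain ⟨β, hβ, σ, hσ, hs, h2⟩ := tube_of hM h1 hx e hk
    obtain ⟨t, -, ht⟩ := tt_strip hM hβ hσ hs h2
    rw [e, J_succ hj] at hb
    have h3 : (⌊M.phi j β σ x / Real.pi⌋ : ℝ) < M.phi j β σ x / Real.pi := by
      refine (Int.floor_le _).lt_of_ne fun h => hb ⟨band_range hβ, M.ti j β, ?_⟩
      rw [eq_div_iff Real.pi_ne_zero] at h
      rw [ht, ← h, Real.sin_int_mul_pi, mul_zero, zero_add]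
    have h4 := Int.lt_floor_add_one (M.phi j β σ x / Real.pi)
    filter_upwards [nhdsWithin_le_nhds (((phi_cont hs.2.2).div_const Real.pi).eventually
      (Ioo_mem_nhds h3 h4)), loc_plain hM hx hn, strip_ev hM hβ hs] with z z1 z2 z3
    have z4 : (j : ℝ) + 1 / 2 ≤ z.2 := by
      by_contra h
      have := sh_outer z3 h
      omega
    rw [xt_strip hM hβ hσ hj z3 z4, xt_strip hM hβ hσ hj hs h2, ext, ext, hh_of_mem σ z1.1 z1.2,
      hh_of_mem σ h3 h4]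

omit hM hS in
theorem sin_side {σ t y : ℝ} (hσ : σ = 1 ∨ σ = -1) (ht : 0 < t) {n : ℕ} (h1 : (n : ℝ) - 1 < y / Real.pi)
    (h2 : y / Real.pi < n + 1) :
    (0 ≤ σ * t * Real.sin y → hh σ (y / Real.pi) = n - if (Even n ↔ σ = 1) then 0 else 1) ∧
    (¬ 0 ≤ σ * t * Real.sin y → hh σ (y / Real.pi) = n - if (Even n ↔ σ = 1) then 1 else 0) := by
  have hp := Real.pi_pos
  have e : Real.sin y = (-1) ^ n * Real.sin (y - n * Real.pi) := by
    rw [Real.sin_sub_nat_mul_pi, ← mul_assoc, ← mul_pow]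
    simp
  obtain ⟨g, hg⟩ : ∃ g : ℝ, g = σ * (-1) ^ n := ⟨_, rfl⟩
  have hg' : ((Even n ↔ σ = 1) ∧ g = 1) ∨ (¬ (Even n ↔ σ = 1) ∧ g = -1) := by
    have ne : ¬ (-1 : ℝ) = 1 := by norm_num
    rcases Nat.even_or_odd n with h | h <;> rcases hσ with rfl | rfl <;>
      simp [hg, h.neg_one_pow, ne, h, Nat.not_even_iff_odd.2]
  have e' : σ * t * Real.sin y = g * (t * Real.sin (y - n * Real.pi)) := by rw [e, hg]; ring
  rw [e']
  rcases lt_trichotomy (y / Real.pi) n with h | h | h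
  · have h3 : Real.sin (y - n * Real.pi) < 0 := Real.sin_neg_of_neg_of_neg_pi_lt
      (by linarith only [hp, h, (div_lt_iff₀ hp).1 h]) (by linarith [(lt_div_iff₀ hp).1 h1])
    have h4 := mul_neg_of_pos_of_neg ht h3
    rw [hh_of_mem σ (n := n - 1) (by push_cast; linarith only [h1]) (by push_cast; linarith only [h])]
    rcases hg' with ⟨c, rfl⟩ | ⟨c, rfl⟩
    · exact ⟨fun h => by linarith only [h4, h], fun _ => by rw [if_pos c]⟩
    · exact ⟨fun _ => by rw [if_neg c], fun h => absurd (by linarith only [h4, h]) h⟩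
  · have h3 : y - n * Real.pi = 0 := by rw [div_eq_iff hp.ne'] at h; linarith only [h]
    rw [h3, h, hh_int, Real.sin_zero, mul_zero, mul_zero]
    exact ⟨fun _ => by split_ifs <;> simp, fun h => absurd le_rfl h⟩
  · have h3 : 0 < Real.sin (y - n * Real.pi) := Real.sin_pos_of_pos_of_lt_pi
      (by linarith only [hp, h, (lt_div_iff₀ hp).1 h]) (by linarith only [hp, h2, (div_lt_iff₀ hp).1 h2])
    have h4 := mul_pos ht h3
    rw [hh_of_mem σ (n := n) (by push_cast; linarith only [h]) (by push_cast; linarith only [h2])]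
    rcases hg' with ⟨c, rfl⟩ | ⟨c, rfl⟩
    · exact ⟨fun _ => by rw [if_pos c, sub_zero], fun h => absurd (by linarith only [h4, h]) h⟩
    · exact ⟨fun h => by linarith only [h4, h], fun _ => by rw [if_neg c, sub_zero]⟩

/-- The arc of a wall through a point. -/
theorem wall_arc {c : ℕ} (hc : c < 2) {x : ℂ × ℝ} (hx : x ∈ M.YUp) (hn : x.2 + 1 / 2 ≠ sh x.2)
    {r : ℕ} (hr : J c (sh x.2) = r) (q1 : 1 ≤ r) (q2 : r < M.l) {m : ℤ} (e : M.tt r x.1 = m) :
    ∃ A : Arc, M.valid c A ∧ (∀ j β σ, A ≠ .nk j β σ) ∧ M.lab c A = labD r ⌊M.ph r x.1⌋ ∧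
      ∀ᶠ z in 𝓝[M.YUp] x, |M.tt r z.1 - m| < 1 ∧ (m ≤ M.tt r z.1 → M.cell c z = M.tgt c A) ∧
        (¬ m ≤ M.tt r z.1 → M.cell c z = M.src c A) := by
  obtain ⟨r1, r2, -⟩ := mem_sheet_sh hM hx.1
  have ct : Continuous fun z : ℂ × ℝ => M.tt r z.1 := (continuous_tt r).comp continuous_fst
  have ev2 : ∀ᶠ z in 𝓝 x, |M.tt r z.1 - m| < 1 :=
    (ct.sub continuous_const).abs.continuousAt.eventually_lt continuousAt_const (by simp [e])
  have l1 : ∀ ζ, |M.tt r ζ - m| < 1 → m ≤ M.tt r ζ → M.ti r ζ = m := fun t h h' => by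
    rw [ti_mid q1 q2, Int.floor_eq_iff.2 ⟨h', by linarith only [h, (abs_lt.1 h).2]⟩]
  have l2 : ∀ ζ, |M.tt r ζ - m| < 1 → ¬ m ≤ M.tt r ζ → M.ti r ζ = m - 1 := fun t h h' => by
    rw [ti_mid q1 q2, Int.floor_eq_iff]
    push_cast
    constructor <;> linarith only [h, h', (abs_lt.1 h).1, not_le.1 h']
  by_cases h : ∀ j, sh x.2 = j + 1 → 1 ≤ j → j % 2 = c →
      M.k j * Real.pi < 2 * (M.e j * M.b j) * (x.2 - j - 1 / 2)
  · refine ⟨.tm (sh x.2) ⌊M.lin (sh x.2) x.1⌋ m, ⟨r1, r2, hr ▸ q1, hr ▸ q2⟩, by simp, ?_, ?_⟩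
    · rw [ph_mid q1 q2, floor_ph_eq hM q1 q2 (i := sh x.2) (hr ▸ J_cases r1) (mem_gap hM hx) e
        fun h1 => (h r h1 q1 (hr ▸ J_mod hc r1)).le]
      simp [lab, hr]
    · filter_upwards [nhdsWithin_le_nhds (xt_ev_zero hc h), loc_plain hM hx hn,
        nhdsWithin_le_nhds ev2] with z z1 z2 z3
      refine ⟨z3, fun pa => ?_, fun pa => ?_⟩
      · rw [cell, z1 z2.1, z2.1, z2.2, hr, l1 _ z3 pa]
        rfl
      · rw [cell, z1 z2.1, z2.1, z2.2, hr, l2 _ z3 pa]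
        rfl
  · push Not at h
    obtain ⟨j, e', h1, hj, hk⟩ := h
    obtain ⟨β, hβ, σ, hσ, hs, h2⟩ := tube_of hM h1 hx e' hk
    obtain rfl : j = r := by rw [← hr, e', J_succ hj]
    have hε := hM.ε_pos
    have hp := Real.pi_pos
    have n0 := strip_norm hM hs
    obtain ⟨w1, -⟩ := wall_near hM hβ (by linarith only [hε, n0]) e
    obtain rfl : M.ti j β = m := by exact_mod_cast (tm_band hM hβ).symm.trans w1
    obtain ⟨t, t0, ht⟩ := tt_strip hM hβ hσ hs h2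
    have s0 : Real.sin (M.phi j β σ x) = 0 := by
      have : σ * t * Real.sin (M.phi j β σ x) = 0 := by linarith only [e, ht]
      rcases hσ with rfl | rfl <;> simpa [t0.ne'] using this
    obtain ⟨n', hn'⟩ := Real.sin_eq_zero_iff.1 s0
    obtain ⟨p1, p2⟩ := phi_mem hs.2.2
    have p3 : 0 ≤ 2 * (M.e j * M.b j) * (x.2 - j - 1 / 2) :=
      mul_nonneg (by linarith only [hS, q1, q2, eb_pos q1 q2]) (by linarith only [h2])
    have p4 : 0 < n' := by
      have : (0 : ℝ) < n' := lt_of_mul_lt_mul_right (by linarith only [hn', p1, p3]) hp.le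
      exact_mod_cast this
    have p5 : n' < M.k j + 1 := by
      have : (n' : ℝ) < M.k j + 1 := lt_of_mul_lt_mul_right (by linarith only [hk, hn', p2]) hp.le
      exact_mod_cast this
    lift n' to ℕ using p4.le with n
    push_cast at hn'
    refine ⟨.sp j β σ n, ⟨hβ, hσ, hj, by omega, by omega⟩, by simp, ?_, ?_⟩
    · obtain ⟨z, z1, z2, z3⟩ := phi_polar hM (β := β) hσ h2
      rw [s0, mul_zero] at z2
      have z4 : z = (z.re : ℂ) := Complex.ext rfl (by rcases hσ with rfl | rfl <;> simpa using z2)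
      have z5 := Lw_small hM q1 q2 (ζ := x.1 - β) (by linarith only [hε, n0])
      have z6 : M.L (M.w j) (x.1 - M.β j) = M.L (M.w j) (x.1 - β) + ⌊M.ph j β⌋ := by
        rw [← ph_band hβ, ← L_add, sub_add_sub_cancel]
      rw [← hn', Real.cos_nat_mul_pi] at z3
      rw [lab, spx, ph_mid q1 q2 x.1, z6, Int.floor_add_intCast]
      congr 1
      rw [z1, z4, L_real_mul] at z5 ⊢
      have w0 := L_ω_pos hM q1 q2
      have n1 := strip_norm_pos hM hs
      rw [abs_le] at z5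
      have ne : ¬ (-1 : ℝ) = 1 := by norm_num
      rw [sub_eq_neg_add, add_left_inj, eq_comm, Int.floor_eq_iff]
      rcases Nat.even_or_odd n with hn | hn <;> rcases se_cases hM j hσ with hσ' | hσ' <;>
        rw [hn.neg_one_pow, hσ'] at z3 <;>
        simp only [hσ', hn, Nat.not_even_iff_odd.2, ne, iff_true, iff_false, not_true, if_true,
          if_false, Nat.not_even_iff_odd] <;> push_cast <;> constructor <;>
        linarith only [z5.1, z5.2, mul_pos n1 w0, congrArg (HMul.hMul (M.L (M.w j) (M.ω j))) z3]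
    · have y0 : M.phi j β σ x / Real.pi = n := by rw [← hn', mul_div_cancel_right₀ _ hp.ne']
      filter_upwards [nhdsWithin_le_nhds (((phi_cont hs.2.2).div_const Real.pi).eventually
        (Ioo_mem_nhds (a := (n : ℝ) - 1) (b := n + 1) (by linarith only [y0]) (by linarith only [y0]))),
        loc_plain hM hx hn, strip_ev hM hβ hs, nhdsWithin_le_nhds ev2] with z z1 z2 z3 z5
      have z4 : (j : ℝ) + 1 / 2 ≤ z.2 := by
        by_contra h
        have := sh_outer z3 h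
        omega
      obtain ⟨t', t1, ht'⟩ := tt_strip hM hβ hσ z3 z4
      obtain ⟨a1, a2⟩ := sin_side hσ t1 z1.1 z1.2
      refine ⟨z5, fun pa => ?_, fun pa => ?_⟩
      · rw [cell, sh_inner z3 z4, floor_of_gap (strip_inner hM hβ hσ z3 z4), J_succ hj, l1 _ z5 pa,
          xt_strip hM hβ hσ hj z3 z4, ext, a1 (by linarith only [ht', pa]), tgt, max_eq_left (by split_ifs <;> omega)]
        congr 4
        ring
      · rw [cell, sh_inner z3 z4, floor_of_gap (strip_inner hM hβ hσ z3 z4), J_succ hj, l2 _ z5 pa,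
          xt_strip hM hβ hσ hj z3 z4, ext, a2 (fun h => pa (by linarith only [ht', pa, h])), src,
          max_eq_left (by split_ifs <;> omega)]
        congr 4
        ring

end Lev

end AllOne
end

-- merged part: Pool.Agent.Work.MP_d5331a_gt.A1.Detect
section
/-!
The holonomy of a side detects the fundamental group of the surface minus the knot.
-/

set_option autoImplicit false

open Complex Set Filter Topology

namespace AllOne

open Neuwirth OneOne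

namespace Lev

variable {M : Lev} (hM : M.Good)
include hM

theorem exists_G {A : Type} [Group A] (Ψ : Hol ↥M.YUp A) :
    ∃ (G : ↥M.YUp → A) (c₁ c₂ : ℕ → ℂ → ℝ → A),
      (∀ (i : ℕ) (m : ℤ) (a b : ↥M.YUp) (p : Path a b),
        (∀ s, sh (p s).1.2 = i ∧ ⌊M.lin i (p s).1.1⌋ = m) → G a * Ψ.H p * (G b)⁻¹ = 1) ∧
      ∀ j, ∀ β ∈ M.B j, ∀ σ : ℝ, (σ = 1 ∨ σ = -1) → ∃ W : ↥M.YUp → A,
        (∀ a, a.1 ∈ M.Strip j β σ → ((j : ℝ) + 1 / 2 ≤ a.1.2 → W a = c₂ j β σ) ∧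
          (¬ (j : ℝ) + 1 / 2 ≤ a.1.2 → W a = c₁ j β σ)) ∧
        ∀ (a b : ↥M.YUp) (p : Path a b), (∀ s, (p s).1 ∈ M.Strip j β σ) →
          G a * Ψ.H p * (G b)⁻¹ = W a * (W b)⁻¹ := by
  have hg : ∀ (i : ℕ) (m : ℤ), ∃ g : ↥M.YUp → A, 1 ≤ i → i ≤ M.l →
      ∀ (a b : ↥M.YUp) (p : Path a b), (∀ s, (p s).1 ∈ M.Gap i m) → Ψ.H p = (g a)⁻¹ * g b := by
    intro i m
    by_cases h : 1 ≤ i ∧ i ≤ M.l
    · obtain ⟨g, hg⟩ := Ψ.exists_gauge (S := Subtype.val ⁻¹' M.Gap i m) fun _ =>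
        isSimplyConnected_preimage_val (gap_sub hM h.1 h.2 m) (gap_simply hM h.1 h.2 m)
      exact ⟨g, fun _ _ => hg⟩
    · exact ⟨fun _ => 1, fun h1 h2 => absurd ⟨h1, h2⟩ h⟩
  choose g hg using hg
  let G : ↥M.YUp → A := fun z => g (sh z.1.2) ⌊M.lin (sh z.1.2) z.1.1⌋ z
  have hc : ∀ (j : ℕ) (β : ℂ) (σ : ℝ), ∃ c₁ c₂ : A, β ∈ M.B j → (σ = 1 ∨ σ = -1) →
      ∃ W : ↥M.YUp → A,
        (∀ a, a.1 ∈ M.Strip j β σ → ((j : ℝ) + 1 / 2 ≤ a.1.2 → W a = c₂) ∧
          (¬ (j : ℝ) + 1 / 2 ≤ a.1.2 → W a = c₁)) ∧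
        ∀ (a b : ↥M.YUp) (p : Path a b), (∀ s, (p s).1 ∈ M.Strip j β σ) →
          G a * Ψ.H p * (G b)⁻¹ = W a * (W b)⁻¹ := by
    intro j β σ
    by_cases h : β ∈ M.B j ∧ (σ = 1 ∨ σ = -1)
    · obtain ⟨hβ, hσ⟩ := h
      obtain ⟨r1, r2⟩ := band_range hβ
      have hsub := strip_sub hM hβ hσ
      obtain ⟨h, hh⟩ := Ψ.exists_gauge (S := Subtype.val ⁻¹' M.Strip j β σ) fun _ =>
        isSimplyConnected_preimage_val hsub (strip_simply hM j β hσ)
      have hm := mid_mem_strip hM j β hσ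
      let z : ↥M.YUp := ⟨_, hsub hm⟩
      refine ⟨g j (M.go j β σ) z * (h z)⁻¹, g (j + 1) (M.gi j β σ) z * (h z)⁻¹, fun _ _ =>
        ⟨fun a => G a * (h a)⁻¹, fun a ha => ⟨fun e => ?_, fun e => ?_⟩, fun a b p hp => ?_⟩⟩
      · obtain ⟨q, hq⟩ := exists_path_val (inter_subset_left.trans hsub) (a := a) (b := z)
          (strip_join_inner hM ha hm e le_rfl)
        have e1 := hg (j + 1) (M.gi j β σ) (by omega) r2 a z q fun s =>
          strip_inner hM hβ hσ (hq s).1 (hq s).2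
        have e2 := hh a z q fun s => (hq s).1
        simp only [G, sh_inner ha e, floor_of_gap (strip_inner hM hβ hσ ha e)]
        rw [← mul_inv_cancel_left (g (j + 1) (M.gi j β σ) a) (g (j + 1) (M.gi j β σ) z), ← e1, e2]
        group
      · obtain ⟨q, hq⟩ := exists_path_val (inter_subset_left.trans hsub) (a := a) (b := z)
          (strip_join_outer hM ha hm (not_le.1 e).le le_rfl)
        have e1 := hg j (M.go j β σ) r1 r2.le a z q fun s =>
          strip_outer hM hβ hσ (hq s).1 (hq s).2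
        have e2 := hh a z q fun s => (hq s).1
        simp only [G, sh_outer ha e, floor_of_gap (strip_outer hM hβ hσ ha (not_le.1 e).le)]
        rw [← mul_inv_cancel_left (g j (M.go j β σ) a) (g j (M.go j β σ) z), ← e1, e2]
        group
      · rw [hh a b p hp]
        group
    · exact ⟨1, 1, fun h1 h2 => absurd ⟨h1, h2⟩ h⟩
  choose c₁ c₂ hc using hc
  refine ⟨G, c₁, c₂, fun i m a b p hp => ?_, fun j β hβ σ hσ => hc j β σ hβ hσ⟩
  have ha := hp 0
  have hb := hp 1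
  rw [p.source] at ha
  rw [p.target] at hb
  obtain ⟨r1, r2, -⟩ := mem_sheet_sh hM a.2.1
  rw [ha.1] at r1 r2
  have e := hg i m r1 r2 a b p fun s => by
    have := mem_gap hM (p s).2
    rwa [(hp s).1, (hp s).2] at this
  simp only [G, ha.1, ha.2, hb.1, hb.2, e]
  group

omit hM in
theorem V_same {c : ℕ} {x a : ℂ × ℝ} (h : M.ch c a = M.ch c x) :
    M.pot c a * (M.Lt c x a)⁻¹ = M.pot c x := by
  rw [Lt, if_pos h]; group

omit hM in
theorem V_other {c : ℕ} {x a : ℂ × ℝ} (h : M.ch c a ≠ M.ch c x) (h' : J c (sh a.2) = Nest.Jm c x) :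
    M.pot c a * (M.Lt c x a)⁻¹ = M.wl c x * M.pot c x := by
  rw [Lt, if_neg h, if_pos h']; group

variable [hS : M.Ess]

theorem detect_loc {c : ℕ} (hc : c < 2) {A : Type} [Group A] (Ξ : Hol ↥M.YUp (A × Grp))
    (c₁ c₂ : ℕ → ℂ → ℝ → A) (val : Arc → A × Grp)
    (v1 : ∀ r, (∀ j β σ, r ≠ .nk j β σ) → val r = (1, M.lab c r))
    (v2 : ∀ j β σ, val (.nk j β σ) = (c₁ j β σ * (c₂ j β σ)⁻¹, M.lab c (.nk j β σ)))
    (h1 : ∀ (i : ℕ) (m : ℤ) (a b : ↥M.YUp) (p : Path a b),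
      (∀ s, sh (p s).1.2 = i ∧ ⌊M.lin i (p s).1.1⌋ = m) → (Ξ.H p).1 = 1)
    (h2 : ∀ j, ∀ β ∈ M.B j, ∀ σ : ℝ, (σ = 1 ∨ σ = -1) → ∃ W : ↥M.YUp → A,
      (∀ a, a.1 ∈ M.Strip j β σ → ((j : ℝ) + 1 / 2 ≤ a.1.2 → W a = c₂ j β σ) ∧
        (¬ (j : ℝ) + 1 / 2 ≤ a.1.2 → W a = c₁ j β σ)) ∧
      ∀ (a b : ↥M.YUp) (p : Path a b), (∀ s, (p s).1 ∈ M.Strip j β σ) →
        (Ξ.H p).1 = W a * (W b)⁻¹)
    (x : ↥M.YUp) (U₀ : Set ↥M.YUp) (hU₀ : U₀ ∈ 𝓝 x)
    (h3 : ∀ (a b : ↥M.YUp) (p : Path a b), (∀ s, p s ∈ U₀) →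
      (Ξ.H p).2 = M.pot c a * (M.Lt c x a)⁻¹ * (M.pot c b * (M.Lt c x b)⁻¹)⁻¹) :
    ∃ U ∈ 𝓝 x, ((∀ a ∈ U, M.cell c a.1 = M.cell c x.1) ∧
        ∀ (a b : ↥M.YUp) (p : Path a b), (∀ s, p s ∈ U) → Ξ.H p = 1) ∨
      ∃ r, M.valid c r ∧ ∃ pos : ↥M.YUp → Prop, (∀ a ∈ U, pos a → M.cell c a.1 = M.tgt c r) ∧
        (∀ a ∈ U, ¬ pos a → M.cell c a.1 = M.src c r) ∧
        ∀ (a b : ↥M.YUp) (p : Path a b), (∀ s, p s ∈ U) →
          ((pos a ↔ pos b) → Ξ.H p = 1) ∧ (¬ pos a → pos b → Ξ.H p = val r) ∧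
          (pos a → ¬ pos b → Ξ.H p = (val r)⁻¹) := by
  have hε := hM.ε_pos
  have tr : ∀ {P : ℂ × ℝ → Prop}, (∀ᶠ z in 𝓝[M.YUp] x.1, P z) → ∀ᶠ z : ↥M.YUp in 𝓝 x, P z.1 :=
    fun h => by rwa [← map_nhds_subtype_val, eventually_map] at h
  have s0 : ∀ {U : Set ↥M.YUp} {a b : ↥M.YUp} (p : Path a b), (∀ s, p s ∈ U) → a ∈ U ∧ b ∈ U :=
    fun p hp => ⟨p.source ▸ hp 0, p.target ▸ hp 1⟩
  by_cases hn : x.1.2 + 1 / 2 = sh x.1.2
  · obtain ⟨j, β, hβ, σ, hσ, e, hx, ev⟩ := loc_neck hM x.2 hn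
    obtain ⟨r1, r2⟩ := band_range hβ
    obtain ⟨W, w1, w2⟩ := h2 j β hβ σ hσ
    have hx' := (tr ev).self_of_nhds
    have ev' := tr (ev.and (nhdsWithin_le_nhds (xt_neck hM hc hβ hσ hx e)))
    have sx : sh x.1.2 = j + 1 := sh_inner hx e.ge
    have cx : M.ch c x = (J c (j + 1), M.tin (J c (j + 1)) j β σ) := by
      rw [ch, sx, lt_strip hM hβ hσ (strip_norm hM hx) hx'.2 c _ (Or.inr rfl)]
    refine ⟨_, inter_mem hU₀ ev', Or.inr ⟨.nk j β σ, ⟨hβ, hσ⟩,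
      fun a => (j : ℝ) + 1 / 2 ≤ a.1.2, fun a ha pa => ?_, fun a ha pa => ?_, fun a b p hp => ?_⟩⟩
    · obtain ⟨-, ⟨a1, a2⟩, a3⟩ := ha
      rw [cell, a3 a1 pa, sh_inner a1 pa, floor_of_gap (strip_inner hM hβ hσ a1 pa),
        lt_strip hM hβ hσ (strip_norm hM a1) a2 c _ (Or.inr rfl)]
      rfl
    · obtain ⟨-, ⟨a1, a2⟩, -⟩ := ha
      rw [cell, xt_outer hc hβ a1 pa, sh_outer a1 pa,
        floor_of_gap (strip_outer hM hβ hσ a1 (not_le.1 pa).le),
        lt_strip hM hβ hσ (strip_norm hM a1) a2 c _ (Or.inl rfl)]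
      rfl
    · have k : ∀ a : ↥M.YUp, a.1 ∈ M.Strip j β σ → 0 < σ * M.tm (M.w j) (a.1.1 - β) →
          ((j : ℝ) + 1 / 2 ≤ a.1.2 → (W a, M.pot c a * (M.Lt c x a)⁻¹) =
            (c₂ j β σ, M.pot c x)) ∧
          (¬ (j : ℝ) + 1 / 2 ≤ a.1.2 → (W a, M.pot c a * (M.Lt c x a)⁻¹) =
            (c₁ j β σ, M.lab c (.nk j β σ) * M.pot c x)) := by
        intro a ha ha'
        refine ⟨fun pa => Prod.ext ((w1 a ha).1 pa) (V_same ?_),
          fun pa => Prod.ext ((w1 a ha).2 pa) ?_⟩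
        · rw [cx, ch, sh_inner ha pa, lt_strip hM hβ hσ (strip_norm hM ha) ha' c _ (Or.inr rfl)]
        · have ca : M.ch c a = (J c j, M.tin (J c j) j β σ) := by
            rw [ch, sh_outer ha pa, lt_strip hM hβ hσ (strip_norm hM ha) ha' c _ (Or.inl rfl)]
          by_cases hj : j % 2 = c
          · simp only [lab, hj, if_true, one_mul]
            exact V_same (by rw [ca, cx, J_self hj, J_succ hj])
          · have cond : x.1.2 + 1 / 2 = sh x.1.2 ∧ sh x.1.2 % 2 = c := ⟨hn, by omega⟩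
            simp only [lab, hj, if_false]
            rw [V_other]
            · rw [wl, if_pos cond, sx, ctr_near hM hβ (Or.inr rfl) (strip_norm hM hx)]
              rfl
            · rw [ca, cx, J_self' hj, J_succ' hc hj]
              intro h
              have := congrArg Prod.fst h
              simp only at this
              omega
            · rw [Nest.Jm, if_pos cond, sx, sh_outer ha pa, J_self' hj]
              rfl
      obtain ⟨ha, hb⟩ := s0 p hp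
      have e1 : val (.nk j β σ) = (c₁ j β σ, M.lab c (.nk j β σ) * M.pot c x) *
          (c₂ j β σ, M.pot c x)⁻¹ := by
        rw [v2]; simp
      rw [e1]
      exact two_sided (Prod.ext (w2 a b p fun s => (hp s).2.1.1) (h3 a b p fun s => (hp s).1))
        (k a ha.2.1.1 ha.2.1.2).1 (k a ha.2.1.1 ha.2.1.2).2 (k b hb.2.1.1 hb.2.1.2).1
        (k b hb.2.1.1 hb.2.1.2).2
  · have ev := tr (loc_plain hM x.2 hn)
    obtain ⟨r1, r2, -⟩ := mem_sheet_sh hM x.2.1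
    generalize hr : J c (sh x.1.2) = r
    have ct : Continuous fun z : ↥M.YUp => M.tt r z.1.1 := (continuous_tt r).comp (by fun_prop)
    by_cases hb : (1 ≤ r ∧ r < M.l) ∧ ∃ m : ℤ, M.tt r x.1.1 = m
    · obtain ⟨⟨q1, q2⟩, m, e⟩ := hb
      obtain ⟨R, hR, nR, lR, ev2⟩ := wall_arc hM hc x.2 hn hr q1 q2 e
      have ev2 := tr ev2
      have l1 : ∀ ζ, |M.tt r ζ - m| < 1 → m ≤ M.tt r ζ → M.ti r ζ = m := fun t h h' => by
        rw [ti_mid q1 q2, Int.floor_eq_iff.2 ⟨h', by linarith only [h, (abs_lt.1 h).2]⟩]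
      have l2 : ∀ ζ, |M.tt r ζ - m| < 1 → ¬ m ≤ M.tt r ζ → M.ti r ζ = m - 1 := fun t h h' => by
        rw [ti_mid q1 q2, Int.floor_eq_iff]
        push_cast
        constructor <;> linarith only [h, h', (abs_lt.1 h).1, not_le.1 h']
      have cx : M.ch c x = (r, m) := by
        rw [ch, hr, l1 _ ev2.self_of_nhds.1 e.ge]
      have cond : ¬ (x.1.2 + 1 / 2 = sh x.1.2 ∧ sh x.1.2 % 2 = c) := fun h => hn h.1
      refine ⟨_, inter_mem hU₀ (ev.and ev2), Or.inr ⟨R, hR, fun a => m ≤ M.tt r a.1.1,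
        fun a ha pa => ha.2.2.2.1 pa, fun a ha pa => ha.2.2.2.2 pa, fun a b p hp => ?_⟩⟩
      have k : ∀ a : ↥M.YUp, sh a.1.2 = sh x.1.2 → |M.tt r a.1.1 - m| < 1 →
          (m ≤ M.tt r a.1.1 → ((1 : A), M.pot c a * (M.Lt c x a)⁻¹) = (1, M.pot c x)) ∧
          (¬ m ≤ M.tt r a.1.1 → ((1 : A), M.pot c a * (M.Lt c x a)⁻¹) =
            (1, M.wl c x * M.pot c x)) := by
        intro a ha ha'
        refine ⟨fun pa => Prod.ext rfl (V_same ?_), fun pa => Prod.ext rfl (V_other ?_ ?_)⟩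
        · rw [cx, ch, ha, hr, l1 _ ha' pa]
        · rw [cx, ch, ha, hr, l2 _ ha' pa]
          intro h
          have : m - 1 = m := congrArg Prod.snd h
          omega
        · rw [Nest.Jm, if_neg cond, ha]
      obtain ⟨ha, hb⟩ := s0 p hp
      have e1 : val R = (1, M.wl c x * M.pot c x) * (1, M.pot c x)⁻¹ := by
        rw [v1 R nR, wl, if_neg cond, hr, lR]
        simp
      rw [e1]
      exact two_sided (xa := (1, M.pot c a * (M.Lt c x a)⁻¹))
        (xb := (1, M.pot c b * (M.Lt c x b)⁻¹))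
        (Prod.ext ((h1 _ _ a b p fun s => (hp s).2.1).trans (by simp))
          (h3 a b p fun s => (hp s).1))
        (k a ha.2.1.1 ha.2.2.1).1 (k a ha.2.1.1 ha.2.2.1).2 (k b hb.2.1.1 hb.2.2.1).1
        (k b hb.2.1.1 hb.2.2.1).2
    · have ev3 := tr (xt_loc hM hc x.2 hn (hr ▸ hb))
      have ev2 : ∀ᶠ z : ↥M.YUp in 𝓝 x, M.ti r z.1.1 = M.ti r x.1.1 := by
        by_cases hq : 1 ≤ r ∧ r < M.l
        · filter_upwards [ct.continuousAt.eventually (Ioo_mem_nhds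
            ((Int.floor_le _).lt_of_ne fun h => hb ⟨hq, _, h.symm⟩) (Int.lt_floor_add_one _))]
            with z hz
          rw [ti_mid hq.1 hq.2, ti_mid hq.1 hq.2, Int.floor_eq_iff.2 ⟨hz.1.le, hz.2⟩]
        · exact Eventually.of_forall fun z => by rw [ti_end hq, ti_end hq]
      rw [← hr] at ev2
      refine ⟨_, inter_mem hU₀ (ev.and (ev2.and ev3)), Or.inl ⟨fun a ha => ?_, fun a b p hp => ?_⟩⟩
      · rw [cell, ha.2.2.2, ha.2.1.1, ha.2.1.2, ha.2.2.1]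
        rfl
      · obtain ⟨ha, hb⟩ := s0 p hp
        refine Prod.ext (h1 _ _ a b p fun s => (hp s).2.1) ?_
        rw [h3 a b p fun s => (hp s).1, V_same (by rw [ch, ha.2.1.1, ha.2.2.1]; rfl),
          V_same (by rw [ch, hb.2.1.1, hb.2.2.1]; rfl)]
        simp

theorem detect (hE : M.EndsBig) {c : ℕ} (hc : c < 2) [PathConnectedSpace ↥(M.surf \ M.knot)]
    (hs : M.surf \ M.knot ⊆ M.side c) (Φ : Hol ↥(M.side c) Grp)
    (hΦ : Φ.Loc fun p z => M.nest.down (M.Lt c) p z) (y : ↥(M.surf \ M.knot)) (γ : Path y y)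
    (hγ : (Φ.comap (inc hs)).H γ = 1) : γ.Homotopic (Path.refl y) := by
  obtain ⟨A, _, Ψ, hΨ⟩ := exists_univ ↥(M.surf \ M.knot) y
  have hd : ∀ x ∈ M.YUp, 0 < x.2 ∧ x.2 < M.l + 1 := fun x hx =>
    ⟨by linarith only [hM, hx, (depth_of_mem hM hx.1).1], by linarith [(depth_of_mem hM hx.1).2]⟩
  have hΦ' := Dt.hol_up (det M) (M.Lt c) (Lt_add hM c) Φ hΦ hd ((inc hs).comp (pr hM)) fun _ => rfl
  obtain ⟨G, c₁, c₂, g1, g2⟩ := exists_G hM (Ψ.comap (pr hM))
  let Ξ := (Ψ.comap (pr hM)).pair (Φ.comap ((inc hs).comp (pr hM))) G fun z => M.pot c z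
  let val : Arc → A × Grp := fun r => (match r with
    | .nk j β σ => c₁ j β σ * (c₂ j β σ)⁻¹
    | _ => 1, M.lab c r)
  obtain ⟨z, rfl⟩ := pr_surjective hM y
  obtain ⟨z', hz', p, hp⟩ := exists_lift (pr hM) (pr_sections hM) γ z rfl
  obtain ⟨L, w1, w2, w3, w4⟩ := exists_walk (M.src c) (M.tgt c) Ξ (fun x => M.cell c x.1)
    (M.valid c) val (fun x => by
      obtain ⟨U, hU, h3⟩ := hΦ' x
      refine detect_loc hM hc Ξ c₁ c₂ val (fun r hr => ?_) (fun _ _ _ => rfl) g1 g2 x U hU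
        fun a b q hq => ?_
      · cases r with
        | nk j β σ => exact absurd rfl (hr j β σ)
        | _ => rfl
      change M.pot c a * (Φ.comap ((inc hs).comp (pr hM))).H q * (M.pot c b)⁻¹ = _
      rw [h3 a b q hq]
      group) p
  obtain ⟨k, m, e⟩ := Dt.E_eq (det M) (hd _ z.2).1 (hd _ z.2).2 (hd _ z'.2).1.le (hd _ z'.2).2.le
    (congrArg Subtype.val hz')
  have f1 : (Φ.comap ((inc hs).comp (pr hM))).H p = 1 := by
    rw [← hγ, ← (Φ.comap (inc hs)).homot _ _ hp, Hol.cast]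
    rfl
  have f2 : (L.map (dval (M.lab c))).prod = T (-M.phZ (J c (sh z.1.2)) k m) := by
    have := congrArg (MonoidHom.snd A Grp) w4
    rw [map_list_prod, List.map_map] at this
    have e2 : (MonoidHom.snd A Grp) ∘ dval val = dval (M.lab c) := by
      funext d
      simp only [Function.comp, dval]
      split_ifs <;> rfl
    rw [e2] at this
    rw [this]
    change M.pot c z * (Φ.comap ((inc hs).comp (pr hM))).H p * (M.pot c z')⁻¹ = _
    rw [f1, e, pot_add, T_neg]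
    group
  obtain ⟨r1, r2, -⟩ := mem_sheet_sh hM z.2.1
  have f3 : M.cell c z' = (sh z.1.2, ⌊M.lin (sh z.1.2) z.1.1⌋ +
      (M.q (sh z.1.2) * k - M.p (sh z.1.2) * m),
      M.ti (J c (sh z.1.2)) z.1.1 + M.tiZ (J c (sh z.1.2)) k m, M.xt c z.1) := by
    rw [e, cell, xt_add hM, vec_add, lin_add hM, Int.floor_add_intCast, ti_add]
  rw [f3] at w1
  obtain ⟨rfl, rfl, rfl⟩ := walk_end hM hE hc r1 r2 _ _ _ k m L w1 w2 w3 f2
  obtain rfl : z' = z := Subtype.ext (by rw [e, vec_add]; simp)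
  have f4 : G z' * (Ψ.comap (pr hM)).H p * (G z')⁻¹ = 1 := (congrArg Prod.fst w4).symm
  have f5 : Ψ.H (p.map (pr hM).continuous) = 1 := by
    rw [mul_inv_eq_one, mul_eq_left] at f4
    exact f4
  exact hp.symm.trans (hΨ _ _ f5)

end Lev

end AllOne
end

-- merged part: Pool.Agent.Work.MP_d5331a_gt.A1.Chart
section
/-!
Local flatness. Port of the file `Chart` of the parent directory.
-/

set_option autoImplicit false

open Complex Set Filter Topology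

namespace AllOne

open Neuwirth OneOne

namespace Lev

variable {M : Lev} (hM : M.Good)
include hM

/-- Coordinates that untwist a band. -/
noncomputable def chartNeck (j : ℕ) (β : ℂ) {σ : ℝ} (hσ : σ = 1 ∨ σ = -1) : ℂ × ℝ ≃ₜ ℝ × ℂ where
  toFun y := (y.2 - j - 1 / 2, σ * M.unt j β y)
  invFun z := (β + σ * z.2 * M.dir j z.1, z.1 + j + 1 / 2)
  left_inv y := by
    have h1 : (σ : ℂ) * σ = 1 := by rcases hσ with rfl | rfl <;> simp
    have h2 := unt_mul_dir hM j β y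
    refine Prod.ext ?_ (by ring)
    dsimp only
    linear_combination (σ * σ) * h2 + (y.1 - β) * h1
  right_inv z := by
    have h1 : (σ : ℂ) * σ = 1 := by rcases hσ with rfl | rfl <;> simp
    have h2 := dir_mul_conj hM j z.1
    have h3 : z.1 + j + 1 / 2 - j - 1 / 2 = z.1 := by ring
    refine Prod.ext h3 ?_
    dsimp only [unt]
    rw [h3]
    linear_combination z.2 * (σ * σ) * h2 + z.2 * h1
  continuous_toFun := by
    have := continuous_unt (M := M) j β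
    fun_prop
  continuous_invFun := by
    have := continuous_dir (M := M) j
    fun_prop

/-- The point with given coordinates for level `i`. -/
noncomputable def chartPt (M : Lev) (i : ℕ) (t y : ℝ) : ℂ :=
  M.β i + (t * M.lam i + y * ((M.D i : ℂ) + (-M.C i : ℤ) * I))

theorem chartPt_tm (i : ℕ) (t y : ℝ) : M.tm i (M.chartPt i t y - M.β i) = t := by
  rw [chartPt, add_sub_cancel_left, tm_add, tm_real_mul, tm_real_mul, tm_lam, nn_self hM, tm_vec]
  push_cast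
  ring

theorem chartPt_L (i : ℕ) (t y : ℝ) : M.L i (M.chartPt i t y - M.β i) = y := by
  have h : (M.C i : ℝ) * M.p i + M.D i * M.q i = 1 := by exact_mod_cast hM.bez i
  rw [chartPt, add_sub_cancel_left, L_add, L_real_mul, L_real_mul, L_lam, qq_self, L_vec]
  push_cast
  linear_combination y * h

/-- Coordinates that flatten sheet `i`. -/
noncomputable def chartPlain (i : ℕ) (m : ℤ) : ℂ × ℝ ≃ₜ ℝ × ℝ × ℝ where
  toFun y := (M.tm i (M.tw i 1 y.1 - M.β i), M.lin i y.1 - m, y.2 - M.hgt i y.1)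
  invFun z := (M.tw i (-1) (M.chartPt i z.1 (z.2.1 + m)),
    z.2.2 + M.hgt i (M.tw i (-1) (M.chartPt i z.1 (z.2.1 + m))))
  left_inv y := by
    dsimp only
    rw [sub_add_cancel, lin, chartPt, ← eq_coord hM, add_sub_cancel, tw_tw hM i 1, sub_add_cancel]
  right_inv z := by
    dsimp only
    rw [lin, tw_tw' hM, chartPt_tm hM, chartPt_L hM]
    simp
  continuous_toFun := by
    have c1 := continuous_tw hM i 1
    have c2 := continuous_lin hM i
    have c3 := continuous_hgt hM i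
    exact ((continuous_tm i).comp ((c1.comp continuous_fst).sub continuous_const)).prodMk
      (((c2.comp continuous_fst).sub continuous_const).prodMk
        (continuous_snd.sub (c3.comp continuous_fst)))
  continuous_invFun := by
    have c1 := continuous_tw hM i (-1)
    have c3 := continuous_hgt hM i
    unfold chartPt
    fun_prop

theorem flat_up {x : ℂ × ℝ} (hx : x ∈ M.FUp) :
    ∃ φ : OpenPartialHomeomorph (ℂ × ℝ) (ℝ × ℝ × ℝ), x ∈ φ.source ∧
      ∀ y ∈ φ.source, (y ∈ M.FUp ↔ (φ y).2.2 = 0) ∧ (y ∈ M.knotUp ↔ (φ y).2 = 0) := by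
  by_cases h : x.2 + 1 / 2 = sh x.2
  · obtain ⟨j, β, hβ, h1, h2⟩ := exists_neck hM hx h
    have hε := hM.ε_pos
    have h0 : M.unt j β x ≠ 0 := fun e => by
      rw [← norm_unt hM j, e, norm_zero] at h2
      linarith only [h2, hε]
    obtain ⟨σ, hσ, hs⟩ : ∃ σ : ℝ, (σ = 1 ∨ σ = -1) ∧ (σ : ℂ) * M.unt j β x ∈ slitPlane := by
      rcases mem_slitPlane_or_neg_mem_slitPlane h0 with h3 | h3
      · exact ⟨1, Or.inl rfl, by simpa using h3⟩
      · exact ⟨-1, Or.inr rfl, by simpa using h3⟩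
    have hO : IsOpen {y : ℂ × ℝ | ‖y.1 - β‖ < M.ε ∧ |y.2 - j - 1 / 2| < 1 / 2} :=
      IsOpen.and (isOpen_lt (by fun_prop) continuous_const)
        (isOpen_lt (by fun_prop) continuous_const)
    refine ⟨(((chartNeck hM j β hσ).transOpenPartialHomeomorph
      ((OpenPartialHomeomorph.refl ℝ).prod Complex.polarCoord)).transHomeomorph
        (chartShear M.ε)).restrOpen _ hO, ⟨⟨mem_univ _, hs⟩, ?_, ?_⟩, ?_⟩
    · rw [h2]; linarith only [hε]
    · rw [h1]; norm_num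
    · rintro y ⟨⟨-, hy⟩, y1, y2⟩
      obtain ⟨t1, t2⟩ := mem_FUp_tube hM hβ y1 y2
      set w := M.unt j β y with hw
      have hy' : (σ : ℂ) * w ∈ slitPlane := hy
      have hn : ‖(σ : ℂ) * w‖ = ‖y.1 - β‖ := by
        rw [norm_mul, hw, norm_unt hM]
        rcases hσ with rfl | rfl <;> simp
      have ha : arg ((σ : ℂ) * w) = 0 ↔ w.im = 0 := by
        have h3 : ((σ : ℂ) * w).im = 0 ↔ w.im = 0 := by
          rcases hσ with rfl | rfl <;> simp
        rw [arg_eq_zero_iff, ← h3]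
        exact ⟨fun h4 => h4.2, fun h4 =>
          ⟨((mem_slitPlane_iff.1 hy').resolve_right (not_not.2 h4)).le, h4⟩⟩
      change (y ∈ M.FUp ↔ (Complex.polarCoord ((σ : ℂ) * w)).1
          - (M.ε / 2 + M.ε * |y.2 - j - 1 / 2|) = 0) ∧
        (y ∈ M.knotUp ↔ ((Complex.polarCoord ((σ : ℂ) * w)).2, (Complex.polarCoord ((σ : ℂ) * w)).1
          - (M.ε / 2 + M.ε * |y.2 - j - 1 / 2|)) = 0)
      rw [Complex.polarCoord_apply, Prod.mk_eq_zero, hn, ha, sub_eq_zero, and_comm (a := w.im = 0)]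
      exact ⟨t1, t2⟩
  · obtain ⟨i1, i2, -⟩ := mem_sheet_sh hM hx
    obtain ⟨p1, p2, p3⟩ := plain_of_ne hM hx h
    generalize sh x.2 = i at i1 i2 p1 p2 p3
    have c1 := continuous_bump hM i
    have c2 := continuous_bump hM (i - 1)
    have c3 := continuous_lin hM i
    obtain ⟨m, hm⟩ : ∃ m : ℤ, |M.lin i x.1 - m| < 1 := ⟨⌊M.lin i x.1⌋, by
      rw [abs_lt]
      constructor <;> linarith only [Int.floor_le (M.lin i x.1), Int.lt_floor_add_one (M.lin i x.1)]⟩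
    have hO : IsOpen {y : ℂ × ℝ | M.bump i y.1 < 1 / 2 ∧ M.bump (i - 1) y.1 < 1 / 2 ∧
        |y.2 - i| < 1 / 2 ∧ |M.lin i y.1 - m| < 1} :=
      IsOpen.and (isOpen_lt (c1.comp continuous_fst) continuous_const)
        (IsOpen.and (isOpen_lt (c2.comp continuous_fst) continuous_const)
          (IsOpen.and (isOpen_lt (by fun_prop) continuous_const)
            (isOpen_lt ((c3.comp continuous_fst).sub continuous_const).abs continuous_const)))
    refine ⟨(chartPlain hM i m).toOpenPartialHomeomorph.restrOpen _ hO,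
      ⟨mem_univ _, p1, p2, p3, hm⟩, ?_⟩
    · rintro y ⟨-, y1, y2, y3, y4⟩
      have hsh : sh y.2 = i := by
        rw [abs_lt] at y3
        have : (0 : ℝ) ≤ i := Nat.cast_nonneg i
        rw [sh, Nat.floor_eq_iff (by linarith only [y3])]
        constructor <;> linarith only [y3]
      have hS : y ∈ M.FUp → y ∈ M.Sheet i := fun hy => hsh ▸ (mem_sheet_sh hM hy).2.2
      have hS' : y ∈ M.Sheet i ↔ y.2 - M.hgt i y.1 = 0 := by
        rw [sub_eq_zero]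
        exact ⟨fun hy => hy.2.2, fun hy => ⟨y1.le, y2.le, hy⟩⟩
      change (y ∈ M.FUp ↔ y.2 - M.hgt i y.1 = 0) ∧
        (y ∈ M.knotUp ↔ (M.lin i y.1 - m, y.2 - M.hgt i y.1) = 0)
      rw [Prod.mk_eq_zero, ← hS']
      refine ⟨⟨hS, fun hy => ⟨i, i1, i2, hy⟩⟩, fun hy => ?_, fun hy => ?_⟩
      · have h1 := hS (knot_sub hM hy)
        obtain ⟨k, hk⟩ := (mem_knot_iff hM i1 i2 h1).1 hy
        refine ⟨?_, h1⟩
        rw [hk] at y4 ⊢
        have h2 : |k - m| < 1 := by exact_mod_cast y4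
        have h3 : k - m = 0 := Int.abs_lt_one_iff.1 h2
        exact_mod_cast h3
      · exact (mem_knot_iff hM i1 i2 hy.2).2 ⟨m, sub_eq_zero.1 hy.1⟩

theorem flat {p : S3} (hp : p ∈ M.surf) : Flat M.surf M.knot p := by
  obtain ⟨x, hx, rfl⟩ := hp
  have hr : ∀ y ∈ M.FUp, 0 ≤ y.2 ∧ y.2 ≤ M.l + 1 := fun y hy => by
    have := depth_of_mem hM hy
    constructor <;> linarith only [this, this.1, this.2]
  obtain ⟨d1, d2⟩ := depth_of_mem hM hx
  obtain ⟨ψ, hψ, hE, hd⟩ := Dt.exists_Eloc (det M) (x := x) (by linarith)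
    (by rw [nest_l]; linarith)
  obtain ⟨φ, hφ, H⟩ := flat_up hM hx
  refine ⟨ψ.symm.trans φ, ?_, ?_⟩
  · rw [E, ← hE]
    refine ⟨ψ.map_source hψ, ?_⟩
    change ψ.symm (ψ x) ∈ φ.source
    rwa [ψ.left_inv hψ]
  · rintro y ⟨y1, y2⟩
    have h1 : ψ.symm y ∈ ψ.source := ψ.map_target y1
    have h2 : M.nest.E (ψ.symm y) = y := (hE _).symm.trans (ψ.right_inv y1)
    have h3 := Dt.E_mem_image (det M) (fun z k m hz => (FUp_add hM z k m).2 hz) hr (hd _ h1).1 (hd _ h1).2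
    have h4 := Dt.E_mem_image (det M) (fun z k m hz => (knotUp_add hM z k m).2 hz)
      (fun z hz => hr z (knot_sub hM hz)) (hd _ h1).1 (hd _ h1).2
    rw [h2] at h3 h4
    exact ⟨h3.trans (H _ y2).1, h4.trans (H _ y2).2⟩

end Lev

end AllOne
end

-- merged part: Pool.Agent.Work.MP_d5331a_gt.A1.NonComm
section
/-!
The fundamental group of the surface minus the knot is not commutative. Port of the file `NonComm`
of the parent directory, with the time `tm 1`.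
-/

set_option autoImplicit false

open Complex Set Filter Topology

namespace AllOne

open Neuwirth OneOne

namespace Lev

/-- The local gauge at `x`. -/
noncomputable def NonComm_u (M : Lev) {G : Type*} [Group G] (A B : G) (x z : ℂ × ℝ) : G :=
  if 3 / 2 ≤ z.2 then A ^ ⌊M.tm (M.w 1) (M.ctr 1 x.1)⌋ * B ^ (⌊M.tm (M.w 1) z.1⌋ - ⌊M.tm (M.w 1) (M.ctr 1 x.1)⌋) else A ^ ⌊M.tm (M.w 1) z.1⌋

/-- The cocycle. -/
noncomputable def NonComm_L (M : Lev) {G : Type*} [Group G] (A B : G) (x z : ℂ × ℝ) : G :=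
  (M.NonComm_u A B x x)⁻¹ * M.NonComm_u A B x z

variable {M : Lev} (hM : M.Good)
include hM

theorem NonComm_ctr {x : ℂ × ℝ} (hx : x ∈ M.FUp) (h : x.2 = 3 / 2) :
    ∀ᶠ z in 𝓝 x, M.ctr 1 z.1 = M.ctr 1 x.1 := by
  obtain ⟨j, β, hβ, h1, h2⟩ := exists_neck hM hx (by
    rw [sh, h, show (3 / 2 + 1 / 2 : ℝ) = (2 : ℕ) by norm_num, Nat.floor_natCast])
  obtain rfl : j = 1 := by exact_mod_cast (by linarith only [h, h1] : (j : ℝ) = 1)
  have h3 : ‖x.1 - β‖ < M.ε := by linarith only [h2, hM, hM.ε_pos]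
  have h4 : ContinuousAt (fun z : ℂ × ℝ => ‖z.1 - β‖) x := by fun_prop
  filter_upwards [h4.eventually (gt_mem_nhds h3)] with z hz
  rw [ctr_near hM hβ (Or.inl rfl) hz, ctr_near hM hβ (Or.inl rfl) h3]

section

variable {G : Type*} [Group G] (A B : G)

theorem NonComm_u_add (x z : ℂ × ℝ) (k m : ℤ) :
    M.NonComm_u A B (x + vec k m) (z + vec k m) =
      A ^ (M.C (M.w 1) * k + M.D (M.w 1) * m) * M.NonComm_u A B x z := by
  have h : ∀ ζ : ℂ, ⌊M.tm (M.w 1) (ζ + (k + m * I))⌋ = ⌊M.tm (M.w 1) ζ⌋ + (M.C (M.w 1) * k + M.D (M.w 1) * m) :=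
    fun ζ => by rw [tm_add, tm_vec, Int.floor_add_intCast]
  simp only [NonComm_u, vec_add, ctr_add hM, h]
  split_ifs <;> group

theorem NonComm_L_add (x z : ℂ × ℝ) (k m : ℤ) :
    M.NonComm_L A B (x + vec k m) (z + vec k m) = M.NonComm_L A B x z := by
  simp only [NonComm_L, NonComm_u_add hM]
  group

theorem NonComm_cocy : CocyOn M.YUp (M.NonComm_L A B) := by
  refine ⟨fun x => inv_mul_cancel _, fun x hx => nhdsWithin_le_nhds ?_⟩
  by_cases h : x.2 = 3 / 2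
  · filter_upwards [NonComm_ctr hM hx.1 h] with z hz
    refine Eventually.of_forall fun w => ?_
    simp only [NonComm_L, NonComm_u, hz]
    group
  · filter_upwards [continuous_snd.continuousAt.eventually (isOpen_ne.mem_nhds h)] with z hz
    refine nhdsWithin_le_nhds ?_
    rcases lt_or_gt_of_ne (show z.2 ≠ 3 / 2 from hz) with h1 | h1
    · filter_upwards [continuous_snd.continuousAt.eventually (gt_mem_nhds h1)] with w hw
      simp only [NonComm_L, NonComm_u, if_neg h1.not_ge, if_neg hw.not_ge]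
      group
    · filter_upwards [continuous_snd.continuousAt.eventually (lt_mem_nhds h1)] with w hw
      simp only [NonComm_L, NonComm_u, if_pos h1.le, if_pos hw.le]
      group

theorem NonComm_hol : ∃ Φ : Hol ↥(M.surf \ M.knot) G,
    Φ.Loc fun p z => M.nest.down (M.NonComm_L A B) p z := by
  have hd : ∀ x ∈ M.YUp, 1 ≤ x.2 ∧ x.2 ≤ M.l := fun x hx => depth_of_mem hM hx.1
  have h := Dt.down_cocy (det M) M.YUp (M.NonComm_L A B) (fun x k m hx => (YUp_add hM x k m).2 hx)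
    (fun x hx => ⟨by linarith [hd x hx], by rw [nest_l]; linarith [hd x hx]⟩) (NonComm_L_add hM A B)
    (NonComm_cocy hM A B) (fun _ => 1) (fun _ _ => (mul_one _).symm)
    (fun ⟨x, hx, e⟩ => absurd (hd x hx).1 (by rw [e]; norm_num))
    (fun ⟨x, hx, e⟩ => absurd (hd x hx).2 (by rw [e, nest_l]; linarith))
  exact (image_YUp hM ▸ h : CocyOn (M.surf \ M.knot) _).exists_hol

theorem NonComm_loop {A B : G} {Φ : Hol ↥(M.surf \ M.knot) G}
    (hΦ : Φ.Loc fun p z => M.nest.down (M.NonComm_L A B) p z) {i : ℕ} (h1 : 1 ≤ i) (h2 : i ≤ M.l)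
    {a : ℤ} {y : ↥M.YUp} (hy : y.1 ∈ M.Gap i a) (v : ℂ × ℝ → G)
    (hv : ∀ x ∈ M.Gap i a, ∃ c, ∀ᶠ z in 𝓝[M.Gap i a] x, M.NonComm_u A B x z = c * v z) :
    ∃ γ : Path (pr hM y) (pr hM y), Φ.H γ = (v y)⁻¹ * v (y + vec (M.p i) (M.q i)) := by
  have hy' : y.1 + vec (M.p i) (M.q i) ∈ M.Gap i a := by
    have := (gap_add hM i a y (M.p i) (M.q i)).2 hy
    rwa [mul_comm, sub_self, add_zero] at this
  have hs := gap_sub hM h1 h2 a
  let f : C(↥(M.Gap i a), ↥(M.surf \ M.knot)) :=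
    (pr hM).comp ⟨Set.inclusion hs, continuous_inclusion hs⟩
  have hf := Dt.hol_up (det M) _ (NonComm_L_add hM A B) Φ hΦ (Z := M.Gap i a) (fun x hx => by
    have := depth_of_mem hM (hs hx).1
    exact ⟨by linarith only [this], by rw [nest_l]; linarith⟩) f fun _ => rfl
  have := isPathConnected_iff_pathConnectedSpace.1 (gap_simply hM h1 h2 a).isPathConnected
  let p : Path (⟨y, hy⟩ : M.Gap i a) ⟨_, hy'⟩ := PathConnectedSpace.somePath _ _
  refine ⟨(p.map f.continuous).cast rfl (Subtype.ext (Nest.E_add y _ _).symm), ?_⟩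
  rw [Hol.cast]
  refine (Φ.comap f).eq_of_loc (fun x => v x) (fun x => ?_) p
  obtain ⟨U, hU, h3⟩ := hf x
  obtain ⟨c, hc⟩ := hv x x.2
  rw [← map_nhds_subtype_val, eventually_map] at hc
  refine ⟨_, inter_mem hU hc, fun z w r hr => ?_⟩
  have e1 : M.NonComm_u A B x z = c * v z := r.source ▸ (hr 0).2
  have e2 : M.NonComm_u A B x w = c * v w := r.target ▸ (hr 1).2
  rw [h3 z w r fun s => (hr s).1]
  simp only [NonComm_L, e1, e2]
  group

end

theorem exists_not_comm [hS : M.Ess] (hl : 2 ≤ M.l) : ∃ (x : ↥(M.surf \ M.knot))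
    (g h : FundamentalGroup ↥(M.surf \ M.knot) x), g * h ≠ h * g := by
  obtain ⟨A, B, hAB⟩ := NonComm_grp
  obtain ⟨Φ, hΦ⟩ := NonComm_hol hM A B
  obtain ⟨β, hβ⟩ : ∃ β, β ∈ M.B 1 := ⟨_, β_mem le_rfl hl⟩
  have hm := mid_mem_strip hM 1 β (σ := 1) (Or.inl rfl)
  have g1 := strip_outer hM hβ (Or.inl rfl) hm le_rfl
  have g2 := strip_inner hM hβ (Or.inl rfl) hm le_rfl
  generalize hy : (β + ((1 * (M.ε / 2) : ℝ) : ℂ) * (M.ω 1 * I), ((1 : ℕ) : ℝ) + 1 / 2) = y at g1 g2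
  have hy2 : 3 / 2 ≤ y.2 := by rw [← hy]; norm_num
  have hY := gap_sub hM le_rfl (by omega) _ g1
  obtain ⟨γ, hγ⟩ := NonComm_loop hM hΦ le_rfl (by omega) (y := ⟨y, hY⟩) g1
    (fun z => M.NonComm_u A B z z) fun x hx => ⟨1, nhdsWithin_le_nhds (by
      have h1 : x.2 ≤ 3 / 2 := by
        rw [hx.1.2.2, hgt, Nat.sub_self, bump_zero, min_eq_left (by norm_num : (0 : ℝ) ≤ 1 / 2)]
        have := min_le_right (M.bump 1 x.1) (1 / 2)
        push_cast
        linarith only [this]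
      rcases h1.eq_or_lt with h | h
      · filter_upwards [NonComm_ctr hM (gap_sub hM le_rfl (by omega) _ hx).1 h] with z hz
        simp only [NonComm_u, hz, one_mul]
      · filter_upwards [continuous_snd.continuousAt.eventually (gt_mem_nhds h)] with z hz
        simp only [NonComm_u, if_neg hz.not_ge, one_mul])⟩
  obtain ⟨δ, hδ⟩ := NonComm_loop hM hΦ (by omega) hl (y := ⟨y, hY⟩) g2
    (fun z => B ^ ⌊M.tm (M.w 1) z.1⌋) fun x hx => ⟨A ^ ⌊M.tm (M.w 1) (M.ctr 1 x.1)⌋ * B ^ (-⌊M.tm (M.w 1) (M.ctr 1 x.1)⌋), by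
      filter_upwards [self_mem_nhdsWithin] with z hz
      have h1 : 3 / 2 ≤ z.2 := by
        rw [hz.1.2.2, hgt]
        have h2 := min_le_right (M.bump (1 + 1 - 1) z.1) (1 / 2)
        have h3 : 0 ≤ min (M.bump (1 + 1) z.1) (1 / 2) := le_min (bump_nonneg hM _ _) (by norm_num)
        push_cast at h2 h3 ⊢
        linarith only [h2, h3]
      simp only [NonComm_u, if_pos h1]
      group⟩
  obtain ⟨n2, hn⟩ := Int.eq_ofNat_of_zero_le (hS.n2 1 le_rfl hl).le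
  have hn0 : 0 < n2 := by have := hS.n2 1 le_rfl hl; omega
  obtain ⟨n1, hn'⟩ := Int.eq_ofNat_of_zero_le (hS.n1 1 le_rfl hl).le
  have hn1 : 0 < n1 := by have := hS.n1 1 le_rfl hl; omega
  refine ⟨_, NonComm_comm Φ γ δ fun e => hAB n1 n2 hn1 hn0 ?_⟩
  have h : ∀ (k m : ℤ) (ζ : ℂ),
      ⌊M.tm (M.w 1) (ζ + (k + m * I))⌋ = ⌊M.tm (M.w 1) ζ⌋ + (M.C (M.w 1) * k + M.D (M.w 1) * m) :=
    fun k m ζ => by rw [tm_add, tm_vec, Int.floor_add_intCast]
  rw [hγ, hδ] at e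
  simp only [NonComm_u_add hM] at e
  simp only [vec_add, h, NonComm_u, if_pos hy2] at e
  rw [show M.C (M.w 1) * M.p 1 + M.D (M.w 1) * M.q 1 = n1 from hn', show M.C (M.w 1) * M.p (1 + 1) + M.D (M.w 1) * M.q (1 + 1) = n2 from hn] at e
  rw [← zpow_natCast, ← zpow_natCast]
  generalize (n1 : ℤ) = n1, (n2 : ℤ) = n2, ⌊M.tm (M.w 1) (M.ctr 1 y.1)⌋ = s, ⌊M.tm (M.w 1) y.1⌋ = t at e
  calc A ^ n1 * B ^ n2 = B ^ (t - s) * ((A ^ s * B ^ (t - s))⁻¹ *
        (A ^ n1 * (A ^ s * B ^ (t - s))) * ((B ^ t)⁻¹ * B ^ (t + n2))) * B ^ (s - t) := by group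
    _ = _ := by rw [e]; group

end Lev

end AllOne
end
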