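import Pool.Agent.Work.MP_d5331a_gt.OO.TautB
import Pool.Agent.Work.MP_d5331a_gt.A1.Flip
import Pool.Agent.Work.MP_d5331a_gt.A1.NonComm
import Pool.Agent.Work.MP_d5331a_gt.A1.Comb

-- merged part: Pool.Agent.Work.MP_d5331a_gt.A1.Build
section
/-!
Two descriptions of one knot in level position: one in which half of the knot is a path, and one
in which the surface is essential.
-/

set_option autoImplicit false

open Complex Set

namespace AllOne

open Neuwirth OneOne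

namespace Lev

/-- The directions of some levels are reversed. -/
noncomputable def flip (M : Lev) (s : ℕ → ℤ) : Lev :=
  { M with
    p := fun i => s i * M.p i
    q := fun i => s i * M.q i
    C := fun i => s i * M.C i
    D := fun i => s i * M.D i
    f := fun j => s j * s (j + 1) * M.f j
    ω := fun j => s j * M.ω j }

variable {M : Lev} {s : ℕ → ℤ} (hs : ∀ i, s i = 1 ∨ s i = -1)
include hs

omit hs in
theorem flip_lam (i : ℕ) : (M.flip s).lam i = s i * M.lam i := by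
  simp only [lam, flip]
  push_cast
  ring

theorem flip_u (i : ℕ) : (M.flip s).u i = s i * M.u i := by
  rw [u, u, flip_lam, mul_div_assoc]
  rcases hs i with h | h <;> simp [h]

omit hs in
theorem flip_dir (j : ℕ) (t : ℝ) : (M.flip s).dir j t = s j * M.dir j t := mul_assoc _ _ _

theorem flip_β (j : ℕ) : ∃ k m : ℤ, (M.flip s).β j = M.β j + (k + m * I) := by
  induction j with
  | zero => exact ⟨0, 0, by simp [β_zero]⟩
  | succ j ih =>
    obtain ⟨k, m, h⟩ := ih
    rw [β_succ, β_succ, h, flip_lam]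
    rcases hs (j + 1) with e | e <;> rw [e]
    · exact ⟨k, m, by push_cast; ring⟩
    · exact ⟨k - M.p (j + 1), m - M.q (j + 1), by rw [lam]; push_cast; ring⟩

theorem flip_B (j : ℕ) : (M.flip s).B j = M.B j := by
  obtain ⟨k, m, h⟩ := flip_β (M := M) hs j
  ext x
  refine and_congr_right fun _ => and_congr_right fun _ => ⟨?_, ?_⟩ <;> rintro ⟨a, b, rfl⟩
  · exact ⟨k + a, m + b, by rw [h]; push_cast; ring⟩
  · exact ⟨a - k, b - m, by rw [h]; push_cast; ring⟩

theorem flip_knot : (M.flip s).knot = M.knot := by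
  have e : (M.flip s).knotUp = M.knotUp := by
    unfold knotUp
    simp only [flip_B hs, flip_dir]
    congr 1 <;> ext x
    · refine exists_congr fun i => and_congr_right fun _ => and_congr_right fun _ =>
        and_congr_right fun _ => and_congr_left fun _ => ?_
      obtain ⟨k, m, h⟩ := flip_β (M := M) hs i
      have e1 : (M.flip s).L i (x.1 - (M.flip s).β i) =
          s i * (M.L i (x.1 - M.β i) - (M.q i * k - M.p i * m : ℤ)) := by
        rw [h, ← sub_sub, ← L_vec, ← L_sub]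
        simp only [L, flip]
        push_cast
        ring
      rw [e1]
      refine ⟨fun ⟨n, hn⟩ => ⟨s i * n + (M.q i * k - M.p i * m), ?_⟩,
        fun ⟨n, hn⟩ => ⟨s i * (n - (M.q i * k - M.p i * m)), by rw [hn]; push_cast; ring⟩⟩
      rcases hs i with e | e <;> rw [e] at hn ⊢ <;> push_cast at hn ⊢ <;> linarith only [hn]
    · refine exists_congr fun j => exists_congr fun β => and_congr_right fun _ =>
        exists_congr fun t => ⟨?_, ?_⟩ <;> rintro ⟨σ, h1, h2, rfl⟩ <;> refine ⟨σ * s j, h1, ?_, ?_⟩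
      · rcases h2 with rfl | rfl <;> rcases hs j with e | e <;> simp [e]
      · congr 2
        simp only [flip]
        push_cast
        ring
      · rcases h2 with rfl | rfl <;> rcases hs j with e | e <;> simp [e]
      · congr 2
        simp only [flip]
        rcases hs j with e | e <;> rw [e] <;> push_cast <;> ring
  exact congrArg (M.E '' ·) e

theorem flip_abs (i : ℕ) (x : ℤ) : |s i * x| = |x| := by rcases hs i with e | e <;> simp [e]

theorem Good.flip (hM : M.Good) : (M.flip s).Good := by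
  refine ⟨hM.one_le, fun i => ?_, hM.sign, fun j => ?_, fun j => ?_, fun j h1 h2 => ?_,
    fun j h1 h2 => ?_, hM.ε_pos, fun i hi => ?_⟩
  · have := hM.bez i
    rcases hs i with e | e <;> simp only [Lev.flip, e] <;> linarith only [this]
  · rcases hM.signf j with h | h <;> rcases hs j with e | e <;> rcases hs (j + 1) with e' | e' <;>
      simp [Lev.flip, h, e, e']
  · rcases hs j with e | e <;> simp [Lev.flip, e, hM.norm_ω]
  · rw [flip_dir, flip_u hs, hM.start j h1 h2]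
    exact mul_left_comm _ _ _
  · rw [flip_dir, flip_u hs, hM.stop j h1 h2]
    rcases hs (j + 1) with e | e <;> simp [Lev.flip, e, mul_assoc]
  · simp only [Lev.flip, flip_abs hs]
    exact hM.small i hi

end Lev

theorem exists_eps (n : ℕ) (K : ℕ → ℕ → ℝ) :
    ∃ ε : ℝ, 0 < ε ∧ ∀ i ≤ n, ∀ j ≤ n, ∀ x, x ≤ K i j → ε * x ≤ 1 := by
  obtain ⟨T, hT⟩ := ((finite_Iic (n, n)).image fun x => K x.1 x.2).bddAbove
  refine ⟨(max T 1)⁻¹, by positivity, fun i hi j hj x hx => ?_⟩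
  rw [inv_mul_le_iff₀ (by positivity), mul_one]
  exact hx.trans ((hT ⟨(i, j), ⟨hi, hj⟩, rfl⟩).trans (le_max_left _ _))

theorem exists_lev {l : ℕ} (hl : 1 ≤ l) (p q : ℕ → ℤ) (θ : ℕ → ℝ)
    (hc : ∀ i, 1 ≤ i → i ≤ l → IsCoprime (p i) (q i))
    (hv : ∀ j, 1 ≤ j → j < l → ∃ (e a b : ℝ) (A B : ℤ) (k : ℕ) (ω : ℂ), (e = 1 ∨ e = -1) ∧
      ‖ω‖ = 1 ∧ Vx (p j) (q j) (p (j + 1)) (q (j + 1)) (θ j) e a b A B k ω) :
    ∃ M M' : Lev, M.Good ∧ M.Pth ∧ M'.Good ∧ M'.Ess ∧ M.l = l ∧ M'.l = l ∧ M'.knot = M.knot ∧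
      (∀ i, 1 ≤ i → i ≤ l → M.p i = p i ∧ M.q i = q i ∧ |M'.p i| = |p i| ∧ |M'.q i| = |q i|) ∧
      ∀ j, 1 ≤ j → j < l → M.a j + M.b j = θ j := by
  have hv' : ∀ j, ∃ (e a b : ℝ) (A B : ℤ) (k : ℕ) (ω : ℂ), (e = 1 ∨ e = -1) ∧ ‖ω‖ = 1 ∧
      (1 ≤ j → j < l → Vx (p j) (q j) (p (j + 1)) (q (j + 1)) (θ j) e a b A B k ω) := fun j => by
    by_cases h : 1 ≤ j ∧ j < l
    · obtain ⟨e, a, b, A, B, k, ω, h1, h2, h3⟩ := hv j h.1 h.2
      exact ⟨e, a, b, A, B, k, ω, h1, h2, fun _ _ => h3⟩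
    · exact ⟨1, 0, 0, 0, 0, 0, 1, Or.inl rfl, norm_one, fun h1 h2 => absurd ⟨h1, h2⟩ h⟩
  choose e a b A B k ω he hω hx using hv'
  have hb : ∀ i, ∃ p' q' C D : ℤ, C * p' + D * q' = 1 ∧ (1 ≤ i → i ≤ l → p' = p i ∧ q' = q i) ∧
      ∀ j, 1 ≤ j → j < l → i = l + 1 + j → C = A j ∧ D = B j := fun i => by
    by_cases h : 1 ≤ i ∧ i ≤ l
    · obtain ⟨C, D, h1⟩ := hc i h.1 h.2
      exact ⟨_, _, C, D, h1, fun _ _ => ⟨rfl, rfl⟩, fun j _ _ _ => by omega⟩
    by_cases h' : ∃ j, 1 ≤ j ∧ j < l ∧ i = l + 1 + j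
    · obtain ⟨j, j1, j2, rfl⟩ := h'
      obtain ⟨p', q', h1⟩ : ∃ p' q' : ℤ, A j * p' + B j * q' = 1 := by
        rcases (hx j j1 j2).one with h1 | h1
        · exact ⟨_, _, h1⟩
        · exact ⟨(-1) ^ k j * p (j + 1), (-1) ^ k j * q (j + 1), by linear_combination h1⟩
      exact ⟨p', q', _, _, h1, by omega, fun i _ _ h => by
        rw [show i = j by omega]; exact ⟨rfl, rfl⟩⟩
    · exact ⟨1, 0, 1, 0, by norm_num, fun h1 h2 => absurd ⟨h1, h2⟩ h,
        fun j j1 j2 j3 => absurd ⟨j, j1, j2, j3⟩ h'⟩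
  choose p' q' C D hb hp hA using hb
  obtain ⟨t, t1, t2⟩ : ∃ t : ℕ → ℤ, (∀ i, t i = 1 ∨ t i = -1) ∧ ∀ i, t (i + 1) = t i * (-1) ^ k i := by
    refine ⟨fun i => ∏ j ∈ Finset.range i, (-1) ^ k j, fun i => ?_, fun i => Finset.prod_range_succ _ _⟩
    simp only [Finset.prod_pow_eq_pow_sum]
    exact neg_one_pow_eq_or _ _
  obtain ⟨s, hs, s1, s2⟩ : ∃ s : ℕ → ℤ, (∀ i, s i = 1 ∨ s i = -1) ∧
      (∀ j < l, s (j + 1) = s j * (-1) ^ k j) ∧ ∀ j < l, s (l + 1 + j) = s j :=
    ⟨fun i => if i ≤ l then t i else t (i - (l + 1)), fun i => by dsimp only; split_ifs <;> exact t1 _,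
      fun j hj => by simp only [if_pos hj.le, if_pos (show j + 1 ≤ l from hj), t2],
      fun j hj => by simp only [if_pos hj.le, if_neg (show ¬ l + 1 + j ≤ l by omega),
        Nat.add_sub_cancel_left]⟩
  have s3 : ∀ j, s j * s j = 1 := fun j => by rcases hs j with h | h <;> simp [h]
  let M : ℝ → Lev := fun ε => ⟨l, p', q', C, D, e, e, k, ω, a, b, ε⟩
  let M' := (M 0).flip s
  obtain ⟨ε, ε0, hε⟩ := exists_eps l fun i j =>
    max (64 * (|p' i| + |q' i| + |C i| + |D i| : ℤ)) (max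
      (2 * (1 + 2 * |a j| + 2 * |b j|) * (|C i| + |D i| : ℤ)) (64 * (|M'.p (M'.w i)| +
        |M'.q (M'.w i)| + (|M'.C (M'.w i)| + |M'.D (M'.w i)|) * M'.wq i : ℤ)))
  have hu : ∀ i, 1 ≤ i → i ≤ l → (M ε).u i = un (p i) (q i) := fun i h1 h2 => by
    rw [← (hp i h1 h2).1, ← (hp i h1 h2).2]
    rfl
  have hM : (M ε).Good := by
    refine ⟨hl, hb, he, he, hω, fun j j1 j2 => ?_, fun j j1 j2 => ?_, ε0, fun i hi => ?_⟩
    · rw [Lev.dir, Lev.ang_nonpos _ (by norm_num), hu j j1 j2.le, ← (hx j j1 j2).start]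
      congr 2
      push_cast
      ring
    · rw [Lev.dir, Lev.ang_nonneg _ (by norm_num), hu _ (by omega) j2, ← (hx j j1 j2).stop]
      congr 2
      push_cast
      ring
    · linarith only [hε, hi, hl, hε i hi 0 (by omega) _ (le_max_left _ _)]
  have n1 : ∀ j, 1 ≤ j → j < l → ((M ε).flip s).nn (((M ε).flip s).w j) j =
      A j * p j + B j * q j := fun j j1 j2 => by
    show s (l + 1 + j) * C (l + 1 + j) * (s j * p' j) + s (l + 1 + j) * D (l + 1 + j) * (s j * q' j) = _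
    rw [s2 j j2, (hA _ j j1 j2 rfl).1, (hA _ j j1 j2 rfl).2, (hp j j1 j2.le).1, (hp j j1 j2.le).2]
    linear_combination (A j * p j + B j * q j) * s3 j
  have n2 : ∀ j, 1 ≤ j → j < l → ((M ε).flip s).nn (((M ε).flip s).w j) (j + 1) =
      (-1) ^ k j * (A j * p (j + 1) + B j * q (j + 1)) := fun j j1 j2 => by
    show s (l + 1 + j) * C (l + 1 + j) * (s (j + 1) * p' (j + 1)) +
      s (l + 1 + j) * D (l + 1 + j) * (s (j + 1) * q' (j + 1)) = _
    rw [s2 j j2, s1 j j2, (hA _ j j1 j2 rfl).1, (hA _ j j1 j2 rfl).2, (hp _ (by omega) j2).1,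
      (hp _ (by omega) j2).2]
    linear_combination ((-1) ^ k j * (A j * p (j + 1) + B j * q (j + 1))) * s3 j
  refine ⟨M ε, (M ε).flip s, hM, ⟨fun _ _ _ => rfl, fun j _ j2 i hi => ?_⟩, hM.flip hs,
    ⟨fun j _ j2 => ?_, fun j j1 j2 => ?_, fun j j1 j2 => n1 j j1 j2 ▸ (hx j j1 j2).n1,
      fun j j1 j2 => n2 j j1 j2 ▸ (hx j j1 j2).n2, fun j j1 j2 => ?_, fun j j1 j2 => (hx j j1 j2).ha,
      fun j j1 j2 => (hx j j1 j2).hb, fun j j1 j2 => ?_, fun r _ r2 => ?_⟩, rfl, rfl,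
    Lev.flip_knot hs, fun i h1 h2 => ⟨(hp i h1 h2).1, (hp i h1 h2).2, ?_, ?_⟩,
    fun j j1 j2 => (hx j j1 j2).sum⟩
  · linarith only [hε, hi, j2, hε i hi j (le_of_lt j2) _ ((le_max_left _ _).trans (le_max_right _ _))]
  · show (s j : ℝ) * s (j + 1) * e j = e j * (-1) ^ k j
    rw [s1 j j2]
    rcases hs j with h | h <;> simp [h, mul_comm]
  · show ((s (l + 1 + j) * C (l + 1 + j) : ℤ) : ℝ) * (s j * ω j).re +
      (s (l + 1 + j) * D (l + 1 + j) : ℤ) * (s j * ω j).im = 0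
    have := (hx j j1 j2).tm
    rw [s2 j j2, (hA _ j j1 j2 rfl).1, (hA _ j j1 j2 rfl).2]
    rcases hs j with h | h <;> simpa [h] using this
  · rw [n1 j j1 j2, n2 j j1 j2]
    exact (hx j j1 j2).one
  · rcases Nat.eq_zero_or_pos (k j) with h | h
    · have e1 : ((M ε).flip s).qq j (j + 1) = q j * p (j + 1) - p j * q (j + 1) := by
        show s j * q' j * (s (j + 1) * p' (j + 1)) - s j * p' j * (s (j + 1) * q' (j + 1)) = _
        rw [s1 j j2, h, (hp j j1 j2.le).1, (hp j j1 j2.le).2, (hp _ (by omega) j2).1,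
          (hp _ (by omega) j2).2]
        linear_combination (q j * p (j + 1) - p j * q (j + 1)) * s3 j
      rw [n1 j j1 j2, n2 j j1 j2, e1]
      exact (hx j j1 j2).taut
    · exact Or.inl h
  · have := hε r (le_of_lt r2) 0 (by omega) _ ((le_max_right _ _).trans (le_max_right _ _))
    rw [mul_left_comm, ← mul_assoc] at this
    exact this
  · rw [← (hp i h1 h2).1]
    exact Lev.flip_abs hs _ _
  · rw [← (hp i h1 h2).2]
    exact Lev.flip_abs hs _ _

end AllOne
end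

-- merged part: Pool.Agent.Work.MP_d5331a_gt.A1.TiltA
section
/-!
The tilt.

Plan. `x ↦ |x - round x|` is the distance to `ℤ` (`abs_sub_round_eq_min`, `round_le`); it is
1-Lipschitz, even and 1-periodic; `0 ≤ tG ≤ 1 / 2` because `ε / ‖lam i‖ ≤ 1 / 128`. `tδ_neg`:
`tm i (-ζ - β) = -tm i (ζ - β) - tm i (2 * β)` with `2 * β` in the lattice (`two_β`, `tm_vec`).
`tδ_strict`: `ρ ↦ ∑ tent (ρ - i) * g i` with `0 ≤ g i ≤ 1 / 2` is 1-Lipschitz because the supports of
the tents are disjoint; a cheap way: strict monotonicity on each interval `[n - 1 / 2, n + 1 / 2]`,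
where only the term `i = n` survives, then `StrictMonoOn.union` or induction; or prove
`∑ i, |tent (ρ' - i) - tent (ρ - i)| ≤ 4 * |ρ' - ρ|` (at most two terms for each of the points; the
factor `1 / 4 * 1 / 2 * 4 < 1` still suffices).
`dep'_level`: only the term `i + 1` survives, `tm (i + 1) (u (i + 1)) = 1 / ‖lam (i + 1)‖`
(`lam_eq`, `tm_lam`, `nn_self`), and the value lies in `[ε / ‖lam‖, 1 / 2 - ε / ‖lam‖]`.
`dep'_band`: only the terms `j`, `j + 1` survive; `s ↦ edK j s` is Lipschitz on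
`[-1 / 2, 1 / 2]` (`Real.norm_exp_I_mul_ofReal_sub_one_le` or
`Real.abs_sin_sub_sin_le`), `tm i` is `(|C i| + |D i|)`-Lipschitz (`abs_tm_le`, `Good.small`), so
`tG i ∘ path` is `1 / 8`-Lipschitz and the perturbation has Lipschitz constant
`≤ (2 * (2 * 1 / 2 + 1 / 8)) / 4 < 1`.
`dep'_strict`: glue the pieces (`pieces`, or induction with `StrictMonoOn.union`).
-/

set_option autoImplicit false

open Complex Set

namespace AllOne

open Neuwirth OneOne

/-- Distance to the integers. -/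
noncomputable def tiltDz (x : ℝ) : ℝ := |x - round x|

theorem tiltDz_le (x : ℝ) (z : ℤ) : tiltDz x ≤ |x - z| := round_le x z

theorem tiltDz_lip' (x y : ℝ) : tiltDz x - tiltDz y ≤ |x - y| := by
  have h1 := tiltDz_le x (round y)
  have h2 := abs_add_le (x - y) (y - round y)
  rw [sub_add_sub_cancel] at h2
  rw [tiltDz, tiltDz] at *
  linarith

theorem tiltDz_lip (x y : ℝ) : |tiltDz x - tiltDz y| ≤ |x - y| := by
  have h1 := tiltDz_lip' x y
  have h2 := tiltDz_lip' y x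
  rw [abs_sub_comm y x] at h2
  exact abs_sub_le_iff.2 ⟨h1, h2⟩

theorem tiltDz_cont : Continuous tiltDz :=
  LipschitzWith.continuous (K := 1) (LipschitzWith.of_dist_le_mul fun x y => by
    simpa [Real.dist_eq] using tiltDz_lip x y)

theorem tiltDz_add (x : ℝ) (z : ℤ) : tiltDz (x + z) = tiltDz x := by
  rw [tiltDz, tiltDz, round_add_intCast]
  push_cast
  congr 1
  ring

theorem tiltDz_neg' (x : ℝ) : tiltDz (-x) ≤ tiltDz x := by
  have h := tiltDz_le (-x) (-round x)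
  refine h.trans (le_of_eq ?_)
  rw [tiltDz, ← abs_neg (x - round x)]
  push_cast
  congr 1
  ring

theorem tiltDz_neg (x : ℝ) : tiltDz (-x) = tiltDz x :=
  le_antisymm (tiltDz_neg' x) (by simpa using tiltDz_neg' (-x))

theorem tiltDz_eq {x : ℝ} (h0 : 0 ≤ x) (h1 : x ≤ 1 / 2) : tiltDz x = x := by
  refine le_antisymm (by simpa [abs_of_nonneg h0] using tiltDz_le x 0) ?_
  rw [tiltDz]
  rcases le_or_gt (round x) 0 with h | h
  · have h2 : ((round x : ℤ) : ℝ) ≤ 0 := by exact_mod_cast h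
    linarith only [h2, le_abs_self (x - round x)]
  · have h2 : (1 : ℝ) ≤ ((round x : ℤ) : ℝ) := by exact_mod_cast h
    linarith only [h1, h2, neg_abs_le (x - round x)]

theorem tilt_two (s : Finset ℕ) (f : ℕ → ℝ) {B : ℝ} (hB : 0 ≤ B) (a b : ℕ)
    (h0 : ∀ i ∈ s, i ≠ a → i ≠ b → f i = 0) (h1 : ∀ i ∈ s, f i ≤ B) : ∑ i ∈ s, f i ≤ 2 * B := by
  classical
  have h2 : ∑ i ∈ s, f i = ∑ i ∈ s ∩ {a, b}, f i := by
    refine (Finset.sum_subset Finset.inter_subset_left fun i hi hi' => ?_).symm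
    simp only [Finset.mem_inter, Finset.mem_insert, Finset.mem_singleton, not_and, not_or] at hi'
    exact h0 i hi (hi' hi).1 (hi' hi).2
  have h3 : (s ∩ {a, b}).card ≤ 2 :=
    (Finset.card_le_card Finset.inter_subset_right).trans Finset.card_le_two
  have h4 := Finset.sum_le_card_nsmul (s ∩ {a, b}) f B fun i hi =>
    h1 i (Finset.mem_inter.1 hi).1
  have h5 : ((s ∩ {a, b}).card : ℝ) ≤ 2 := by exact_mod_cast h3
  rw [h2]
  rw [nsmul_eq_mul] at h4
  exact h4.trans (mul_le_mul_of_nonneg_right h5 hB)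

theorem tilt_glue {f : ℝ → ℝ} {a b c : ℝ} (hab : a ≤ b) (hbc : b ≤ c)
    (h1 : StrictMonoOn f (Icc a b)) (h2 : StrictMonoOn f (Icc b c)) :
    StrictMonoOn f (Icc a c) := by
  rw [← Icc_union_Icc_eq_Icc hab hbc]
  exact h1.union h2 (isGreatest_Icc hab) (isLeast_Icc hbc)

theorem tilt_exp (x y : ℝ) : ‖exp ((x : ℂ) * I) - exp ((y : ℂ) * I)‖ ≤ |x - y| := by
  have h : exp ((x : ℂ) * I) - exp ((y : ℂ) * I) =
      exp ((y : ℂ) * I) * (exp (I * ((x - y : ℝ) : ℂ)) - 1) := by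
    rw [mul_sub, ← exp_add, mul_one]
    congr 2
    push_cast
    ring
  rw [h, norm_mul, norm_exp_ofReal_mul_I, one_mul]
  exact Real.norm_eq_abs (x - y) ▸ Real.norm_exp_I_mul_ofReal_sub_one_le

namespace Lev

theorem tilt_tent_nonneg (x : ℝ) : 0 ≤ tent x := le_max_left _ _

theorem tilt_tent_le (x : ℝ) : tent x ≤ 1 :=
  max_le zero_le_one (by linarith only [abs_nonneg x])

theorem tilt_tent_zero {x : ℝ} (h : 1 / 2 ≤ |x|) : tent x = 0 := max_eq_left (by linarith only [h])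

theorem tilt_tent_lip (x y : ℝ) : |tent x - tent y| ≤ 2 * |x - y| := by
  have h1 := abs_max_sub_max_le_max (0 : ℝ) (1 - 2 * |x|) 0 (1 - 2 * |y|)
  refine h1.trans (max_le (by simp) ?_)
  have h2 := abs_abs_sub_abs_le_abs_sub x y
  have h3 : 1 - 2 * |x| - (1 - 2 * |y|) = -2 * (|x| - |y|) := by ring
  rw [h3, abs_mul]
  norm_num
  exact h2

theorem tilt_tent_ne {ρ : ℝ} {i : ℕ} (h : i ≠ ⌊ρ + 1 / 2⌋₊) : tent (ρ - i) = 0 := by
  refine tilt_tent_zero (not_lt.1 fun h1 => h ?_)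
  obtain ⟨h2, h3⟩ := abs_lt.1 h1
  have h4 : (0 : ℝ) ≤ i := Nat.cast_nonneg i
  exact ((Nat.floor_eq_iff (by linarith only [h2])).2 ⟨by linarith only [h2], by linarith only [h3]⟩).symm

theorem tilt_tG (M : Lev) (i : ℕ) (ζ : ℂ) : M.tG i ζ =
    max (M.ε / ‖M.lam i‖) (min (tiltDz (M.tm i (ζ - M.β (i - 1)))) (1 / 2 - M.ε / ‖M.lam i‖)) :=
  rfl

theorem tilt_tG_lip (M : Lev) (i : ℕ) (ζ ζ' : ℂ) :
    |M.tG i ζ - M.tG i ζ'| ≤ |M.tm i (ζ - ζ')| := by
  rw [tilt_tG, tilt_tG]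
  refine (abs_max_sub_max_le_max _ _ _ _).trans (max_le (by simp) ?_)
  refine (abs_min_sub_min_le_max _ _ _ _).trans (max_le ?_ (by simp))
  refine (tiltDz_lip _ _).trans (le_of_eq ?_)
  rw [← tm_sub, sub_sub_sub_cancel_right]

theorem tilt_level (M : Lev) {i : ℕ} (h1 : 1 ≤ i) (h2 : i ≤ M.l) (ζ : ℂ) :
    M.tδ (ζ, i) = M.tG i ζ / 4 := by
  rw [tδ, Finset.sum_eq_single i]
  · simp [tent]
  · intro j _ hj
    rw [tilt_tent_ne, zero_mul]
    intro h
    refine hj (h.trans ((Nat.floor_eq_iff (by positivity)).2 ⟨by simp, by norm_num⟩))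
  · intro h
    exact absurd (Finset.mem_Icc.2 ⟨h1, h2⟩) h

variable {M : Lev} (hM : M.Good)
include hM

theorem tilt_eta (i : ℕ) : 0 < M.ε / ‖M.lam i‖ ∧ M.ε / ‖M.lam i‖ ≤ 1 / 128 := by
  refine ⟨div_pos hM.ε_pos (norm_lam_pos hM i), ?_⟩
  have h := div_le_self hM.ε_pos.le (one_le_norm_lam hM i)
  linarith only [h, hM, eps_le hM]

theorem tilt_tG_mem (i : ℕ) (ζ : ℂ) : 0 ≤ M.tG i ζ ∧ M.tG i ζ ≤ 1 / 2 := by
  obtain ⟨h1, h2⟩ := tilt_eta hM i
  exact ⟨h1.le.trans (le_max_left _ _),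
    max_le (by linarith only [h1, h2]) ((min_le_right _ _).trans (by linarith only [h1]))⟩

theorem tilt_tm_u (i : ℕ) : M.tm i (M.ε * M.u i) = M.ε / ‖M.lam i‖ := by
  have h1 := tm_lam (M := M) i i
  rw [nn_self hM, lam_eq hM i, tm_real_mul] at h1
  have h2 := norm_lam_pos hM i
  rw [tm_real_mul, eq_div_iff h2.ne']
  push_cast at h1
  linear_combination M.ε * h1

theorem tilt_tm_half (i : ℕ) : M.tm i (M.lam i / 2) = 1 / 2 := by
  rw [tm_half, tm_lam, nn_self hM]
  norm_num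

theorem tilt_lip {ζ ζ' : ℂ} {ρ ρ' G : ℝ} (hG : 0 ≤ G)
    (h : ∀ i, i ≤ M.l → |M.tm i (ζ - ζ')| ≤ G) :
    M.tδ (ζ, ρ) - M.tδ (ζ', ρ') ≤ (|ρ - ρ'| + G) / 2 := by
  have key : ∑ i ∈ Finset.Icc 1 M.l,
      (tent (ρ - i) * M.tG i ζ - tent (ρ' - i) * M.tG i ζ') ≤ 2 * (|ρ - ρ'| + G) := by
    refine tilt_two _ _ (by positivity) ⌊ρ + 1 / 2⌋₊ ⌊ρ' + 1 / 2⌋₊ ?_ ?_
    · intro i _ h1 h2
      rw [tilt_tent_ne h1, tilt_tent_ne h2]
      ring
    · intro i hi
      have h1 := (le_abs_self _).trans (tilt_tent_lip (ρ - i) (ρ' - i))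
      rw [sub_sub_sub_cancel_right] at h1
      have h2 := (le_abs_self _).trans
        ((tilt_tG_lip M i ζ ζ').trans (h i (Finset.mem_Icc.1 hi).2))
      obtain ⟨h3, h4⟩ := tilt_tG_mem hM i ζ
      have h5 := tilt_tent_nonneg (ρ' - i)
      have h6 := tilt_tent_le (ρ' - i)
      have h7 : (tent (ρ - i) - tent (ρ' - i)) * M.tG i ζ ≤ 2 * |ρ - ρ'| * (1 / 2) :=
        (mul_le_mul_of_nonneg_right h1 h3).trans
          (mul_le_mul_of_nonneg_left h4 (by positivity))
      have h8 : tent (ρ' - i) * (M.tG i ζ - M.tG i ζ') ≤ 1 * G :=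
        (mul_le_mul_of_nonneg_left h2 h5).trans (mul_le_mul_of_nonneg_right h6 hG)
      linarith only [h7, h8]
  rw [Finset.sum_sub_distrib] at key
  simp only [tδ]
  linarith only [key]

theorem tilt_edK (j : ℕ) {s s' : ℝ} (hs' : |s'| ≤ 1 / 2) :
    ‖M.edK j s - M.edK j s'‖ ≤ M.ε * (1 + 2 * |M.a j| + 2 * |M.b j|) * |s - s'| := by
  have he : |M.e j| = 1 := by rcases hM.sign j with h | h <;> simp [h]
  have hang : |M.ang j s - M.ang j s'| ≤ (2 * |M.a j| + 2 * |M.b j|) * |s - s'| := by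
    have e1 : |min s 0 - min s' 0| ≤ |s - s'| :=
      (abs_min_sub_min_le_max _ _ _ _).trans (max_le le_rfl (by simp))
    have e2 : |max s 0 - max s' 0| ≤ |s - s'| :=
      (abs_max_sub_max_le_max _ _ _ _).trans (max_le le_rfl (by simp))
    have e3 : M.ang j s - M.ang j s' =
        2 * (M.a j * (min s 0 - min s' 0) + M.b j * (max s 0 - max s' 0)) := by
      rw [ang, ang]; ring
    have e4 := abs_add_le (M.a j * (min s 0 - min s' 0)) (M.b j * (max s 0 - max s' 0))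
    rw [abs_mul, abs_mul] at e4
    have e5 := mul_le_mul_of_nonneg_left e1 (abs_nonneg (M.a j))
    have e6 := mul_le_mul_of_nonneg_left e2 (abs_nonneg (M.b j))
    rw [e3, abs_mul, abs_two]
    linarith only [e4, e5, e6]
  have hdir : ‖M.dir j s - M.dir j s'‖ ≤ (2 * |M.a j| + 2 * |M.b j|) * |s - s'| := by
    rw [dir, dir, ← mul_sub, norm_mul, hM.norm_ω, one_mul]
    exact (tilt_exp _ _).trans hang
  have e0 : M.edK j s - M.edK j s' =
      ((M.e j * (M.ε * (|s| - |s'|)) : ℝ) : ℂ) * M.dir j s +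
        ((M.e j * (M.ε / 2 + M.ε * |s'|) : ℝ) : ℂ) * (M.dir j s - M.dir j s') := by
    rw [edK, edK]
    push_cast
    ring
  have hε := hM.ε_pos
  have e1 : ‖((M.e j * (M.ε * (|s| - |s'|)) : ℝ) : ℂ) * M.dir j s‖ ≤ M.ε * |s - s'| := by
    rw [norm_mul, norm_dir hM, mul_one, norm_real, Real.norm_eq_abs, abs_mul, he, one_mul, abs_mul,
      abs_of_pos hε]
    exact mul_le_mul_of_nonneg_left (abs_abs_sub_abs_le_abs_sub s s') hε.le
  have e2 : ‖((M.e j * (M.ε / 2 + M.ε * |s'|) : ℝ) : ℂ) * (M.dir j s - M.dir j s')‖ ≤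
      M.ε * ((2 * |M.a j| + 2 * |M.b j|) * |s - s'|) := by
    rw [norm_mul, norm_real, Real.norm_eq_abs, abs_mul, he, one_mul, abs_of_pos (by positivity)]
    refine mul_le_mul ?_ hdir (norm_nonneg _) hε.le
    have := mul_le_mul_of_nonneg_left hs' hε.le
    linarith only [this]
  rw [e0]
  refine (norm_add_le _ _).trans ?_
  linarith only [e1, e2]

omit hM in
theorem continuous_tδ : Continuous M.tδ := by
  have h1 : ∀ i, Continuous (M.tG i) := fun i =>
    continuous_const.max ((tiltDz_cont.comp ((continuous_tm i).comp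
      (continuous_id.sub continuous_const))).min continuous_const)
  have h2 : Continuous tent := by unfold tent; fun_prop
  unfold tδ
  refine (continuous_finsetSum _ fun i _ => ?_).div_const _
  exact (h2.comp (continuous_snd.sub continuous_const)).mul ((h1 i).comp continuous_fst)

omit hM in
theorem tδ_add (ζ : ℂ) (ρ : ℝ) (k m : ℤ) : M.tδ (ζ + (k + m * I), ρ) = M.tδ (ζ, ρ) := by
  have h : ∀ i, M.tG i (ζ + (k + m * I)) = M.tG i ζ := fun i => by
    rw [tilt_tG, tilt_tG, add_sub_right_comm, tm_add, tm_vec, tiltDz_add]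
  simp only [tδ, h]

omit hM in
theorem tδ_neg (ζ : ℂ) (ρ : ℝ) : M.tδ (-ζ, ρ) = M.tδ (ζ, ρ) := by
  have h : ∀ i, M.tG i (-ζ) = M.tG i ζ := fun i => by
    obtain ⟨k, m, hk⟩ := two_β (M := M) (i - 1)
    have h1 : -ζ - M.β (i - 1) = -(ζ - M.β (i - 1) + (k + m * I)) := by
      linear_combination -hk
    rw [tilt_tG, tilt_tG, h1, tm_neg, tiltDz_neg, tm_add, tm_vec, tiltDz_add]
  simp only [tδ, h]

omit hM in
theorem tδ_out (ζ : ℂ) {ρ : ℝ} (h : ρ ≤ 1 / 2 ∨ M.l + 1 / 2 ≤ ρ) : M.tδ (ζ, ρ) = 0 := by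
  rw [tδ, Finset.sum_eq_zero, zero_div]
  intro i hi
  obtain ⟨h1, h2⟩ := Finset.mem_Icc.1 hi
  have h3 : (1 : ℝ) ≤ i := by exact_mod_cast h1
  have h4 : (i : ℝ) ≤ M.l := by exact_mod_cast h2
  rw [tilt_tent_zero, zero_mul]
  rcases h with h | h
  · linarith only [h3, h, neg_abs_le (ρ - i)]
  · linarith only [h4, h, le_abs_self (ρ - i)]

theorem tδ_strict (ζ : ℂ) : StrictMono fun ρ => ρ + M.tδ (ζ, ρ) := by
  intro ρ ρ' h
  have h1 := tilt_lip hM (ζ := ζ) (ζ' := ζ) (ρ := ρ) (ρ' := ρ') le_rfl fun i _ => by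
    rw [sub_self, tm_zero, abs_zero]
  rw [abs_of_neg (sub_neg.2 h)] at h1
  change ρ + M.tδ (ζ, ρ) < ρ' + M.tδ (ζ, ρ')
  linarith only [h, h1]

theorem tδ_bot {t : ℝ} (ht : t ∈ Icc (-1 : ℝ) 1) :
    M.tδ (t * (M.ε * M.u 1), 1) = M.ε / ‖M.lam 1‖ / 4 := by
  have h := tilt_level M le_rfl hM.one_le (t * (M.ε * M.u 1))
  rw [Nat.cast_one] at h
  obtain ⟨h1, h2⟩ := tilt_eta hM 1
  rw [h, tilt_tG, Nat.sub_self, β_zero, sub_zero, tm_real_mul, tilt_tm_u hM, max_eq_left]
  refine (min_le_left _ _).trans ((tiltDz_le _ 0).trans ?_)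
  rw [Int.cast_zero, sub_zero, abs_mul, abs_of_pos h1]
  exact mul_le_of_le_one_left h1.le (abs_le.2 ht)

theorem tδ_top {t : ℝ} (ht : t ∈ Icc (-1 : ℝ) 1) :
    M.tδ (M.β M.l + t * -(M.ε * M.u M.l), M.l) = (1 / 2 - M.ε / ‖M.lam M.l‖) / 4 := by
  obtain ⟨h1, h2⟩ := tilt_eta hM M.l
  have h3 : M.β M.l + t * -(M.ε * M.u M.l) - M.β (M.l - 1) =
      M.lam M.l / 2 + t * -(M.ε * M.u M.l) := by
    have h4 := β_succ (M := M) (M.l - 1)
    rw [Nat.sub_add_cancel hM.one_le] at h4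
    linear_combination h4
  have h5 := tiltDz_lip' (1 / 2) (1 / 2 + t * -(M.ε / ‖M.lam M.l‖))
  have h6 : |1 / 2 - (1 / 2 + t * -(M.ε / ‖M.lam M.l‖))| ≤ M.ε / ‖M.lam M.l‖ := by
    rw [sub_add_cancel_left, abs_neg, abs_mul, abs_neg, abs_of_pos h1]
    exact mul_le_of_le_one_left h1.le (abs_le.2 ht)
  rw [tiltDz_eq (by norm_num) le_rfl] at h5
  rw [tilt_level M hM.one_le le_rfl, tilt_tG, h3, tm_add, tm_real_mul, tm_neg, tilt_tm_u hM,
    tilt_tm_half hM, min_eq_right (by linarith only [h5, h6]), max_eq_right (by linarith only [h1, h2])]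

variable [hP : M.Pth]

theorem dep'_level {i : ℕ} (hi : i < M.l) {t : ℝ} (ht : t ∈ Icc (0 : ℝ) 1) :
    M.dep' (2 * i + t) = i + 1 +
      (M.ε / ‖M.lam (i + 1)‖ + t * (1 / 2 - 2 * (M.ε / ‖M.lam (i + 1)‖))) / 4 := by
  obtain ⟨h1, h2⟩ := tilt_eta hM (i + 1)
  have h := tilt_level M (i := i + 1) (by omega) hi (M.pth M.edK (2 * i + t))
  rw [Nat.cast_add, Nat.cast_one] at h
  have h3 : M.pth M.edK (2 * i + t) - M.β (i + 1 - 1) = M.ε * M.u (i + 1) +
      t * (M.lam (i + 1) / 2 - (2 : ℝ) * (M.ε * M.u (i + 1))) := by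
    rw [pth_level (ends_K hM) hi ht, Nat.add_sub_cancel]
    push_cast
    ring
  have h4 : 0 ≤ t * (1 / 2 - 2 * (M.ε / ‖M.lam (i + 1)‖)) := mul_nonneg ht.1 (by linarith only [h1, h2])
  have h5 : t * (1 / 2 - 2 * (M.ε / ‖M.lam (i + 1)‖)) ≤ 1 / 2 - 2 * (M.ε / ‖M.lam (i + 1)‖) :=
    mul_le_of_le_one_left (by linarith only [h1, h2]) ht.2
  rw [dep', dep_level hi ht, h, tilt_tG, h3, tm_add, tm_real_mul (i + 1) t, tm_sub,
    tm_real_mul (i + 1) 2, tilt_tm_u hM, tilt_tm_half hM, tiltDz_eq (by linarith only [h1, h4]) (by linarith only [h1, h5]),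
    min_eq_left (by linarith only [h5]), max_eq_right (by linarith only [h4])]

theorem dep'_band {j : ℕ} (h1 : 1 ≤ j) (h2 : j < M.l) :
    StrictMonoOn M.dep' (Icc (2 * j - 1) (2 * j)) := by
  intro τ hτ τ' hτ' h
  obtain ⟨s, rfl⟩ : ∃ s : ℝ, τ = 2 * j - 1 / 2 + s := ⟨τ - (2 * j - 1 / 2), by ring⟩
  obtain ⟨s', rfl⟩ : ∃ s : ℝ, τ' = 2 * j - 1 / 2 + s := ⟨τ' - (2 * j - 1 / 2), by ring⟩
  have hs : |s| ≤ 1 / 2 := abs_le.2 ⟨by linarith only [hτ, hτ.1], by linarith only [hτ, hτ.2]⟩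
  have hs' : |s'| ≤ 1 / 2 := abs_le.2 ⟨by linarith only [hτ', hτ'.1], by linarith only [hτ', hτ'.2]⟩
  have hlt : s - s' < 0 := by linarith only [h]
  have h3 := tilt_edK hM j (s := s) hs'
  rw [abs_of_neg hlt] at h3
  have h4 := tilt_lip hM (ζ := M.β j + M.edK j s) (ζ' := M.β j + M.edK j s')
    (ρ := j + 1 / 2 + s) (ρ' := j + 1 / 2 + s') (G := -(s - s') / 2) (by linarith only [hlt]) fun i hi => by
      rw [add_sub_add_left_eq_sub]
      have e1 := abs_tm_le (M := M) i (M.edK j s - M.edK j s')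
      have e4 : (0 : ℝ) ≤ (|M.C i| + |M.D i| : ℤ) := by positivity
      have e5 := mul_le_mul_of_nonneg_left h3 e4
      have e6 := hP.smallb j h1 h2 i hi
      have e7 := mul_le_mul_of_nonneg_right e6 (neg_pos.2 hlt).le
      linarith only [e1, e5, e7]
  rw [add_sub_add_left_eq_sub, abs_of_neg hlt] at h4
  rw [dep', dep', dep_band h1 h2 hs, dep_band h1 h2 hs', pth_band (ends_K hM) h1 h2 hs,
    pth_band (ends_K hM) h1 h2 hs']
  linarith only [hlt, h4]

theorem tilt_level_strict {i : ℕ} (hi : i < M.l) :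
    StrictMonoOn M.dep' (Icc (2 * i) (2 * i + 1)) := by
  intro τ hτ τ' hτ' h
  obtain ⟨t, rfl⟩ : ∃ s : ℝ, τ = 2 * i + s := ⟨τ - 2 * i, by ring⟩
  obtain ⟨t', rfl⟩ : ∃ s : ℝ, τ' = 2 * i + s := ⟨τ' - 2 * i, by ring⟩
  obtain ⟨h1, h2⟩ := tilt_eta hM (i + 1)
  rw [dep'_level hM hi ⟨by linarith only [hτ, hτ.1], by linarith only [hτ, hτ.2]⟩,
    dep'_level hM hi ⟨by linarith only [hτ', hτ'.1], by linarith only [hτ', hτ'.2]⟩]
  have h3 := mul_lt_mul_of_pos_right (show t < t' by linarith only [h])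
    (show 0 < 1 / 2 - 2 * (M.ε / ‖M.lam (i + 1)‖) by linarith only [h1, h2])
  linarith only [h3]

theorem dep'_strict : StrictMonoOn M.dep' (Icc 0 (2 * M.l - 1)) := by
  have key : ∀ i : ℕ, i < M.l → StrictMonoOn M.dep' (Icc 0 (2 * i + 1)) := by
    intro i
    induction i with
    | zero => intro h; simpa using tilt_level_strict hM h
    | succ i ih =>
      intro h
      have h0 : (0 : ℝ) ≤ i := Nat.cast_nonneg i
      have h1 := dep'_band hM (j := i + 1) (by omega) h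
      have h2 : (2 * ((i + 1 : ℕ) : ℝ) - 1) = 2 * i + 1 := by push_cast; ring
      rw [h2] at h1
      refine tilt_glue (by positivity) (by linarith only []) ?_ (tilt_level_strict hM h)
      exact tilt_glue (by positivity) (by push_cast; linarith) (ih (by omega)) h1
  have h := key (M.l - 1) (by have := hM.one_le; omega)
  have h2 : (2 * ((M.l - 1 : ℕ) : ℝ) + 1) = 2 * M.l - 1 := by
    rw [Nat.cast_sub hM.one_le]; push_cast; ring
  rwa [h2] at h

theorem continuous_dep' : Continuous M.dep' :=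
  continuous_dep.add (continuous_tδ.comp ((continuous_pth (ends_K hM)).prodMk continuous_dep))

end Lev

end AllOne
end

-- merged part: Pool.Agent.Work.MP_d5331a_gt.OO.Mono
section
/-!
Paths that move to the right are determined by the way they cross the columns.

Plan. `exists_graph`: `re ∘ γ` is continuous and strictly increasing on `[0, 1]`; invert it
(for instance `StrictMonoOn.orderIso`, `OrderIso.toHomeomorph`, `ContinuousOn.image_Icc`, or
`Continuous.homeoOfEquivCompactToT2`) and compose with `projIcc`.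
`mono_graph`: with `x t s = (1 - t) * re (γ s) + t * (A + s * (w - 1 / 2 - A))` the homotopy
`Γ (t, s) = x t s + g (x t s) * I` is admissible: points of the graph of `g` with abscissa `< w` are
not lattice points (left of the start `0 < g < 1`; right of `re (γ 1)` there is no integer `< w`;
in between they are points of `γ` by the intermediate value theorem).
`mono_eqv`: take `A ≤ re (γ 0), re (γ' 0)`, then `move_leash` between the two graph paths, which
have the same abscissa: at an integer abscissa `c < w` both ordinates are in `(lo c, lo c + 1)`.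
`exists_cols`: `lo c = ⌊g c⌋`.
-/

set_option autoImplicit false

open Complex Set Topology

namespace OneOne

open Neuwirth

theorem exists_graph {γ : ℝ → ℂ} (hc : Continuous γ)
    (hre : StrictMonoOn (fun s => (γ s).re) (Icc 0 1)) :
    ∃ τ : ℝ → ℝ, Continuous τ ∧ Monotone τ ∧ (∀ x, τ x ∈ Icc (0 : ℝ) 1) ∧
      (∀ s ∈ Icc (0 : ℝ) 1, τ (γ s).re = s) ∧ (∀ x ≤ (γ 0).re, τ x = 0) ∧
      ∀ x, (γ 1).re ≤ x → τ x = 1 := by
  let c : ℝ → ℝ := fun s => max 0 (min s 1)
  have cm : ∀ s, c s ∈ Icc (0 : ℝ) 1 := fun s =>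
    ⟨le_max_left _ _, max_le zero_le_one (min_le_right _ _)⟩
  have cc : Continuous c := continuous_const.max (continuous_id.min continuous_const)
  have cmono : Monotone c := fun a b h => max_le_max le_rfl (min_le_min h le_rfl)
  have cid : ∀ s ∈ Icc (0 : ℝ) 1, c s = s := fun s hs => by
    simp only [c, min_eq_left hs.2, max_eq_right hs.1]
  have csub : ∀ a b, a ≤ b → a - c a ≤ b - c b := fun a b h => by
    simp only [c, max_def, min_def]
    split_ifs <;> linarith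
  let F : ℝ → ℝ := fun s => (γ (c s)).re + (s - c s)
  have Fc : Continuous F := (continuous_re.comp (hc.comp cc)).add (continuous_id.sub cc)
  have Fm : StrictMono F := fun a b h => by
    rcases (cmono h.le).eq_or_lt with e | e
    · simp only [F, e]
      linarith
    · exact add_lt_add_of_lt_of_le (hre (cm a) (cm b) e) (csub a b h.le)
  have h0 : (0 : ℝ) ∈ Icc (0 : ℝ) 1 := ⟨le_rfl, zero_le_one⟩
  have h1 : (1 : ℝ) ∈ Icc (0 : ℝ) 1 := ⟨zero_le_one, le_rfl⟩
  have Fs : Function.Surjective F := by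
    refine Fc.surjective (Filter.tendsto_atTop_mono (f := fun s => s + ((γ 0).re - 1))
      (fun s => ?_) (Filter.tendsto_atTop_add_const_right _ _ Filter.tendsto_id))
      (Filter.tendsto_atBot_mono (f := fun s => s + (γ 1).re)
      (fun s => ?_) (Filter.tendsto_atBot_add_const_right _ _ Filter.tendsto_id))
    · have := hre.monotoneOn h0 (cm s) (cm s).1
      have := (cm s).2
      simp only [F] at *
      linarith
    · have := hre.monotoneOn (cm s) h1 (cm s).2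
      have := (cm s).1
      simp only [F] at *
      linarith
  let e := Fm.orderIsoOfSurjective F Fs
  have he : ∀ s ∈ Icc (0 : ℝ) 1, e.symm (γ s).re = s := fun s hs => by
    rw [OrderIso.symm_apply_eq]
    change _ = F s
    simp only [F, cid s hs, sub_self, add_zero]
  refine ⟨fun x => c (e.symm x), cc.comp e.symm.continuous, cmono.comp e.symm.monotone,
    fun x => cm _, fun s hs => by simp only [he s hs, cid s hs], fun x hx => ?_, fun x hx => ?_⟩
  · have := e.symm.monotone hx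
    rw [he 0 h0] at this
    exact max_eq_left ((min_le_left _ _).trans this)
  · have := e.symm.monotone hx
    rw [he 1 h1] at this
    simp only [c, min_eq_right this, max_eq_right zero_le_one]

/-- Points whose ordinate lies between two rows at the columns are not lattice points. -/
theorem mono_avoid {w : ℤ} {lo : ℤ → ℤ} {x y : ℝ} (hx : x < w)
    (h : ∀ c : ℤ, c < w → x = c → lo c < y ∧ y < lo c + 1) (k m : ℤ) :
    (x : ℂ) + y * I ≠ k + m * I := fun e => by
  have e1 : x = k := by simpa using congrArg re e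
  have e2 : y = m := by simpa using congrArg im e
  obtain ⟨a, b⟩ := h k (by rw [e1] at hx; exact_mod_cast hx) e1
  rw [e2] at a b
  have a' : lo k < m := by exact_mod_cast a
  have b' : m < lo k + 1 := by exact_mod_cast b
  omega

/-- A path that moves to the right is equivalent to a graph over a segment. -/
theorem mono_graph {w : ℤ} {lo : ℤ → ℤ} {γ : ℝ → ℂ} (h : Adm w γ)
    (hre : StrictMonoOn (fun s => (γ s).re) (Icc 0 1)) (hc : Cols w lo γ) {A : ℝ}
    (hA : A ≤ (γ 0).re) : ∃ g : ℝ → ℝ, (∀ c : ℤ, c < w → lo c < g c ∧ g c < lo c + 1) ∧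
      Adm w (fun s => ((A + s * (w - 1 / 2 - A) : ℝ) : ℂ) + g (A + s * (w - 1 / 2 - A)) * I) ∧
      Eqv (knot γ)
        (knot fun s => ((A + s * (w - 1 / 2 - A) : ℝ) : ℂ) + g (A + s * (w - 1 / 2 - A)) * I) := by
  obtain ⟨τ, t1, -, -, t4, t5, -⟩ := exists_graph h.cont hre
  have h0 : (0 : ℝ) ∈ Icc (0 : ℝ) 1 := ⟨le_rfl, zero_le_one⟩
  have h1 : (1 : ℝ) ∈ Icc (0 : ℝ) 1 := ⟨zero_le_one, le_rfl⟩
  let g : ℝ → ℝ := fun x => (γ (τ x)).im
  have gc : Continuous g := continuous_im.comp (h.cont.comp t1)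
  have hg : ∀ c : ℤ, c < w → lo c < g c ∧ g c < lo c + 1 := fun c hw => by
    rcases le_total (c : ℝ) (γ 0).re with h2 | h2
    · simp only [g, t5 _ h2, (hc c hw).1 h2]
      simpa using h.bot
    · have h3 : (c : ℝ) ≤ (γ 1).re := by
        have : (c : ℝ) + 1 ≤ w := by exact_mod_cast hw
        linarith only [this, h, h.top.1]
      obtain ⟨s, hs, e⟩ := intermediate_value_Icc zero_le_one
        (continuous_re.comp h.cont).continuousOn ⟨h2, h3⟩
      have e' : (γ s).re = c := e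
      simp only [g, ← e', t4 s hs]
      exact (hc c hw).2 s hs e'
  let x : ℝ × ℝ → ℝ := fun p => (1 - p.1) * (γ p.2).re + p.1 * (A + p.2 * (w - 1 / 2 - A))
  have xc : Continuous x := by
    have := h.cont
    fun_prop
  have Γc : Continuous fun p => (x p : ℂ) + g (x p) * I := by fun_prop
  have hw0 : (γ 0).re < w := (hre.monotoneOn h0 h1 zero_le_one).trans_lt h.top.2
  have xlt : ∀ t ∈ Icc (0 : ℝ) 1, ∀ s ∈ Icc (0 : ℝ) 1, x (t, s) < w := fun t ht s hs => by
    have a1 : (γ s).re < w := (hre.monotoneOn hs h1 hs.2).trans_lt h.top.2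
    have a2 : A + s * (w - 1 / 2 - A) < w := by
      have := mul_nonneg hs.1 (show (0 : ℝ) ≤ 1 / 2 by norm_num)
      rcases hs.2.eq_or_lt with e | e
      · rw [e]; linarith only []
      · have := mul_pos (sub_pos.2 e) (show (0 : ℝ) < w - A by linarith)
        nlinarith
    have := (convex_Iio (w : ℝ)) (mem_Iio.2 a1) (mem_Iio.2 a2) (sub_nonneg.2 ht.2) ht.1
      (sub_add_cancel 1 t)
    exact this
  have hadm : ∀ t ∈ Icc (0 : ℝ) 1, Adm w fun s => (x (t, s) : ℂ) + g (x (t, s)) * I :=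
    fun t ht => by
    refine ⟨Γc.comp (Continuous.prodMk_right t), fun s hs => mono_avoid (lo := lo) (xlt t ht s hs)
      fun c hw e => e ▸ hg c hw, ?_, ?_⟩
    · have : x (t, 0) ≤ (γ 0).re := by
        have := mul_le_mul_of_nonneg_left hA ht.1
        simp only [x]
        linarith only [this]
      simpa [g, t5 _ this] using h.bot
    · have a2 : (w : ℝ) - 1 < A + 1 * (w - 1 / 2 - A) := by linarith only []
      have := (convex_Ioi ((w : ℝ) - 1)) (mem_Ioi.2 h.top.1) (mem_Ioi.2 a2) (sub_nonneg.2 ht.2)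
        ht.1 (sub_add_cancel 1 t)
      have b : (w : ℝ) - 1 < x (t, 1) := this
      simpa using ⟨b, xlt t ht 1 h1⟩
  have e1 : ∀ s, x (1, s) = A + s * (w - 1 / 2 - A) := fun s => by simp [x]
  refine ⟨g, hg, by simpa only [e1] using hadm 1 h1, ?_⟩
  have := move_homotopy (w := w) _ Γc hadm
  simp only [e1] at this
  refine (Eqv.of_eq (knot_congr fun s hs => ?_)).trans this
  have : x (0, s) = (γ s).re := by simp [x]
  simp only [this, g, t4 s hs, re_add_im]

theorem mono_eqv {w : ℤ} {lo : ℤ → ℤ} {γ γ' : ℝ → ℂ} (h : Adm w γ) (h' : Adm w γ')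
    (hre : StrictMonoOn (fun s => (γ s).re) (Icc 0 1))
    (hre' : StrictMonoOn (fun s => (γ' s).re) (Icc 0 1)) (hc : Cols w lo γ) (hc' : Cols w lo γ') :
    Eqv (knot γ) (knot γ') := by
  obtain ⟨g, a1, a2, a3⟩ := mono_graph h hre hc (min_le_left (γ 0).re (γ' 0).re)
  obtain ⟨g', b1, b2, b3⟩ := mono_graph h' hre' hc' (min_le_right (γ 0).re (γ' 0).re)
  refine a3.trans ((move_leash a2 b2 fun s hs t ht k m => ?_).trans b3.symm)
  have hA : min (γ 0).re (γ' 0).re < w := (min_le_left _ _).trans_lt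
    ((hre.monotoneOn ⟨le_rfl, zero_le_one⟩ ⟨zero_le_one, le_rfl⟩ zero_le_one).trans_lt h.top.2)
  generalize min (γ 0).re (γ' 0).re = A at hA
  have a2 : A + s * (w - 1 / 2 - A) < w := by
    have := mul_nonneg hs.1 (show (0 : ℝ) ≤ 1 / 2 by norm_num)
    rcases hs.2.eq_or_lt with e | e
    · rw [e]; linarith only []
    · have := mul_pos (sub_pos.2 e) (show (0 : ℝ) < w - A by linarith)
      nlinarith
  generalize A + s * (w - 1 / 2 - A) = x at a2
  have := mono_avoid (lo := lo) (y := (1 - t) * g x + t * g' x) a2 (fun c hw e => by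
    subst e
    exact (convex_Ioo (lo c : ℝ) (lo c + 1)) (a1 c hw) (b1 c hw)
      (sub_nonneg.2 ht.2) ht.1 (sub_add_cancel 1 t)) k m
  refine fun e => this (Eq.trans ?_ e)
  push_cast
  ring

theorem exists_cols {w : ℤ} {γ : ℝ → ℂ} (h : Adm w γ)
    (hre : StrictMonoOn (fun s => (γ s).re) (Icc 0 1))
    (him : MonotoneOn (fun s => (γ s).im) (Icc 0 1)) :
    ∃ lo : ℤ → ℤ, Cols w lo γ ∧ Monotone lo ∧ ∃ A : ℤ, ∀ c ≤ A, lo c = 0 := by
  obtain ⟨τ, -, t2, t3, t4, t5, -⟩ := exists_graph h.cont hre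
  have h0 : ∀ c : ℤ, (c : ℝ) ≤ (γ 0).re → ⌊(γ (τ c)).im⌋ = 0 := fun c hc => by
    rw [t5 _ hc, Int.floor_eq_zero_iff]
    exact ⟨h.bot.1.le, h.bot.2⟩
  refine ⟨fun c => ⌊(γ (τ c)).im⌋, fun c _ => ⟨h0 c, fun s hs e => ?_⟩, fun a b hab =>
    Int.floor_mono (him (t3 _) (t3 _) (t2 (by exact_mod_cast hab))), ⌊(γ 0).re⌋,
    fun c hc => h0 c (Int.le_floor.1 hc)⟩
  simp only [← e, t4 s hs]
  refine ⟨(Int.floor_le _).lt_of_ne fun e' => h.avoid s hs c ⌊(γ s).im⌋ ?_, Int.lt_floor_add_one _⟩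
  exact Complex.ext (by simp [e]) (by simp [e'])

/-- Use `move_near` with `γ s + δ / 2 * s`. -/
theorem exists_strict {w : ℤ} {γ : ℝ → ℂ} (h : Adm w γ)
    (hre : MonotoneOn (fun s => (γ s).re) (Icc 0 1))
    (him : MonotoneOn (fun s => (γ s).im) (Icc 0 1)) :
    ∃ γ' : ℝ → ℂ, Adm w γ' ∧ StrictMonoOn (fun s => (γ' s).re) (Icc 0 1) ∧
      MonotoneOn (fun s => (γ' s).im) (Icc 0 1) ∧ Eqv (knot γ) (knot γ') := by
  obtain ⟨δ, hδ, H⟩ := move_near h
  obtain ⟨a, b⟩ := H (fun s => γ s + ((δ / 2 * s : ℝ) : ℂ)) (by have := h.cont; fun_prop)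
    fun s hs => by
      rw [add_sub_cancel_left, norm_real, Real.norm_eq_abs,
        abs_of_nonneg (mul_nonneg (by linarith only [hδ]) hs.1)]
      have := mul_le_mul_of_nonneg_left hs.2 (show 0 ≤ δ / 2 by linarith)
      linarith only [hδ, this]
  refine ⟨_, a, fun s hs t ht hst => ?_, fun s hs t ht hst => ?_, b⟩
  · simp only [add_re, ofReal_re]
    exact add_lt_add_of_le_of_lt (hre hs ht hst.le) (mul_lt_mul_of_pos_left hst (by linarith))
  · simp only [add_im, ofReal_im, add_zero]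
    exact him hs ht hst

end OneOne
end

-- merged part: Pool.Agent.Work.MP_d5331a_gt.A1.Tilt
section
/-!
A knot in level position is the knot of the path `gam edK`.

Plan. Let `R = l + 1`, `n = 2 l - 1`. Apply `vert` to `δ (ζ, s) = tδ (ζ, R * s) / R`; by `E_eq_pt`
the homeomorphism sends `E (ζ, ρ)` to `E (ζ, ρ + tδ (ζ, ρ))` for `0 ≤ ρ ≤ R`. Let
`s₀ = dep' 0 / R`, `s₁ = dep' n / R` (values from `dep'_level`; `0 < s₀ < s₁ < 1`) and let `τ` be the
continuous inverse of `σ ↦ dep' (σ * n) / R` given by `exists_graph` (applied to this real valued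
path), `z s = pth edK (τ s * n)`. By `knot_eq`, `tδ_neg`, `tδ_bot`, `tδ_top`, `pth_level` the image of
`M.knot` is `symKnot z s₀ s₁ (β l)` (`z s₀ = ε * u 1`, `z s₁ = β l - ε * u l`; every `s ∈ [s₀, s₁]` is a
value by the intermediate value theorem). For `braid` choose `t₀ = 1 / (8 * ‖lam 1‖)`,
`t₁ = 1 / (8 * ‖lam l‖)` and `η` the minimum of `(dep' t₀ - dep' 0) / R` and
`(dep' n - dep' (n - t₁)) / R`: on these parts the path is
`(ε + t * (‖lam 1‖ / 2 - 2 ε)) * u 1`, respectively `β l - (ε + t * (‖lam l‖ / 2 - 2 ε)) * u l`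
(`lam_eq`), with `0 < im (u 1) ≤ 1`, `0 < re (u l) ≤ 1`, `ε ≤ 1 / 128`. Finally
`2 * z (s₀ + s * (s₁ - s₀)) = gam edK (τ (s₀ + s * (s₁ - s₀)))`, and `move_reparam` gives both the
admissibility and the last equivalence.
-/

set_option autoImplicit false

open Complex Set

namespace AllOne

open Neuwirth OneOne

namespace Lev

variable {M : Lev} (hM : M.Good)
include hM

theorem Tilt_vert : ∃ h : S3 ≃ₜ S3, ∀ ζ ρ, 0 ≤ ρ → ρ ≤ (M.l : ℝ) + 1 →
    h (M.E (ζ, ρ)) = pt ζ ((ρ + M.tδ (ζ, ρ)) / (M.l + 1)) := by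
  have hR : (0 : ℝ) < M.l + 1 := by positivity
  have hc := continuous_tδ (M := M)
  obtain ⟨h, hh⟩ := vert (fun x => M.tδ (x.1, (M.l + 1) * x.2) / (M.l + 1)) (by fun_prop)
    (fun ζ s k m => by simp only [tδ_add])
    (fun ζ s _ s' _ hs => by
      have h1 := tδ_strict hM ζ (mul_lt_mul_of_pos_left hs hR)
      have h2 := div_lt_div_of_pos_right h1 hR
      simp only [add_div, mul_div_cancel_left₀ _ hR.ne'] at h2
      exact h2)
    (fun ζ => by simp only [tδ_out (M := M) ζ (ρ := (M.l + 1) * 0) (Or.inl (by norm_num)), zero_div])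
    (fun ζ => by simp only [tδ_out (M := M) ζ (ρ := (M.l + 1) * 1) (Or.inr (by norm_num)), zero_div])
  refine ⟨h, fun ζ ρ h0 h1 => ?_⟩
  rw [E_eq_pt, hh _ _ ⟨div_nonneg h0 hR.le, (div_le_one hR).2 h1⟩]
  simp only [mul_div_cancel₀ _ hR.ne', add_div]

theorem Tilt_dep {t : ℝ} (ht : t ∈ Icc (0 : ℝ) (2 * M.l - 1)) :
    0 ≤ M.dep t ∧ M.dep t ≤ (M.l : ℝ) + 1 := by
  rcases pieces hM.one_le ht with ⟨i, hi, r, hr, rfl⟩ | ⟨j, h1, h2, s, hs, rfl⟩
  · rw [dep_level hi hr]
    have : (i : ℝ) < M.l := by exact_mod_cast hi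
    exact ⟨by positivity, by linarith only [this]⟩
  · rw [dep_band h1 h2 hs]
    have h3 : (j : ℝ) < M.l := by exact_mod_cast h2
    have h4 := abs_le.1 hs
    have h5 : (0 : ℝ) ≤ j := Nat.cast_nonneg j
    exact ⟨by linarith only [h4, h4.1], by linarith only [h3, h4, h4.2]⟩

theorem Tilt_c (i : ℕ) {r : ℝ} (h0 : 0 ≤ r) (h1 : r ≤ 1 / (8 * ‖M.lam i‖)) {y : ℝ} (hy : 0 < y)
    (hy' : y ≤ 1) : 0 < (M.ε + r * (‖M.lam i‖ / 2 - 2 * M.ε)) * y ∧
      (M.ε + r * (‖M.lam i‖ / 2 - 2 * M.ε)) * y ≤ 1 / 8 := by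
  have h2 := one_le_norm_lam hM i
  have h3 := eps_le hM
  have h4 := hM.ε_pos
  rw [le_div_iff₀ (by positivity)] at h1
  have h5 : 0 ≤ r * (‖M.lam i‖ / 2 - 2 * M.ε) := mul_nonneg h0 (by linarith only [h2, h3, h4])
  have h6 : 0 ≤ r * M.ε := mul_nonneg h0 h4.le
  have h7 : M.ε + r * (‖M.lam i‖ / 2 - 2 * M.ε) ≤ 1 / 8 := by linarith only [h1, h3, h4, h6]
  exact ⟨mul_pos (by linarith only [h4, h5]) hy, (mul_le_of_le_one_right (by linarith only [h4, h5]) hy').trans h7⟩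

theorem Tilt_t (i : ℕ) : 0 < 1 / (8 * ‖M.lam i‖) ∧ 1 / (8 * ‖M.lam i‖) ≤ 1 := by
  have h2 := one_le_norm_lam hM i
  exact ⟨by positivity, (div_le_one (by positivity)).2 (by linarith only [h2])⟩

variable [hP : M.Pth]

theorem Tilt_bot {t : ℝ} (ht : t ∈ Icc (0 : ℝ) 1) :
    M.pth M.edK t = ((M.ε + t * (‖M.lam 1‖ / 2 - 2 * M.ε) : ℝ) : ℂ) * M.u 1 := by
  have h1 := pth_level (ends_K hM) (i := 0) hM.one_le ht
  have h2 := lam_eq hM 1
  simp only [Nat.cast_zero, mul_zero, zero_add, β_zero] at h1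
  rw [h1]
  push_cast
  linear_combination (t / 2 : ℂ) * h2

theorem Tilt_top {t : ℝ} (ht : t ∈ Icc (0 : ℝ) 1) : M.β M.l - M.pth M.edK (2 * M.l - 1 - t) =
    ((M.ε + t * (‖M.lam M.l‖ / 2 - 2 * M.ε) : ℝ) : ℂ) * M.u M.l := by
  obtain ⟨m, hm⟩ : ∃ m, M.l = m + 1 := ⟨M.l - 1, by have := hM.one_le; omega⟩
  have h1 := pth_level (ends_K hM) (i := m) (by omega) (t := 1 - t)
    ⟨by linarith only [ht, ht.2], by linarith [ht.1]⟩
  have h2 := lam_eq hM (m + 1)
  have h3 : 2 * ((m + 1 : ℕ) : ℝ) - 1 - t = 2 * m + (1 - t) := by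
    push_cast
    ring
  rw [hm, h3, h1, β_succ]
  push_cast
  linear_combination (t / 2 : ℂ) * h2

theorem Tilt_d0 : M.dep' 0 = 1 + M.ε / ‖M.lam 1‖ / 4 := by
  simpa using dep'_level hM (i := 0) hM.one_le (t := 0) ⟨le_rfl, zero_le_one⟩

theorem Tilt_d1 : M.dep' (2 * M.l - 1) = M.l + (1 / 2 - M.ε / ‖M.lam M.l‖) / 4 := by
  obtain ⟨m, hm⟩ : ∃ m, M.l = m + 1 := ⟨M.l - 1, by have := hM.one_le; omega⟩
  have h1 := dep'_level hM (i := m) (by omega) (t := 1) ⟨zero_le_one, le_rfl⟩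
  have h3 : 2 * ((m + 1 : ℕ) : ℝ) - 1 = 2 * m + 1 := by
    push_cast
    ring
  rw [hm, h3, h1]
  push_cast
  ring

/-- The inverse of the depth. -/
theorem Tilt_inv : ∃ τ : ℝ → ℝ, Continuous τ ∧ (∀ x, τ x ∈ Icc (0 : ℝ) 1) ∧
    (∀ t ∈ Icc (0 : ℝ) (2 * M.l - 1), τ (M.dep' t / (M.l + 1)) * (2 * M.l - 1) = t) ∧
    ∀ s ∈ Icc (M.dep' 0 / (M.l + 1)) (M.dep' (2 * M.l - 1) / (M.l + 1)),
      ∃ t ∈ Icc (0 : ℝ) (2 * M.l - 1), M.dep' t / (M.l + 1) = s := by
  have hR : (0 : ℝ) < M.l + 1 := by positivity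
  have hl : (1 : ℝ) ≤ M.l := by exact_mod_cast hM.one_le
  have hn : (0 : ℝ) < 2 * M.l - 1 := by linarith
  have hc := continuous_dep' hM
  obtain ⟨τ, h1, -, h2, h3, -⟩ := exists_graph
    (γ := fun σ => ((M.dep' (σ * (2 * M.l - 1)) / (M.l + 1) : ℝ) : ℂ)) (by fun_prop)
    (fun s hs s' hs' h => by
      simp only [ofReal_re]
      exact div_lt_div_of_pos_right (dep'_strict hM
        ⟨mul_nonneg hs.1 hn.le, mul_le_of_le_one_left hn.le hs.2⟩
        ⟨mul_nonneg hs'.1 hn.le, mul_le_of_le_one_left hn.le hs'.2⟩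
        (mul_lt_mul_of_pos_right h hn)) hR)
  refine ⟨τ, h1, h2, fun t ht => ?_, fun s hs => ?_⟩
  · have h4 := h3 (t / (2 * M.l - 1)) ⟨div_nonneg ht.1 hn.le, (div_le_one hn).2 ht.2⟩
    simp only [ofReal_re, div_mul_cancel₀ _ hn.ne'] at h4
    rw [h4, div_mul_cancel₀ _ hn.ne']
  · exact intermediate_value_Icc hn.le (f := fun t => M.dep' t / (M.l + 1)) (by fun_prop) hs

theorem tilt (hq : 0 < M.q 1) (hp : 0 < M.p M.l) {w b : ℤ} (hv : 2 * M.β M.l = w + b * I)
    (hA : Adm w (M.gam M.edK)) : Eqv M.knot (OneOne.knot (M.gam M.edK)) := by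
  have hR : (0 : ℝ) < M.l + 1 := by positivity
  have hl : (1 : ℝ) ≤ M.l := by exact_mod_cast hM.one_le
  have hn : (0 : ℝ) < 2 * M.l - 1 := by linarith
  have hε := hM.ε_pos
  have hε' : (M.ε : ℂ) ≠ 0 := ofReal_ne_zero.2 hε.ne'
  have hS := dep'_strict hM
  have hcp := continuous_pth (ends_K hM)
  obtain ⟨h, hh⟩ := Tilt_vert hM
  obtain ⟨τ, hτ, hτ1, hτ2, hτ3⟩ := Tilt_inv hM
  obtain ⟨s₀, hs₀⟩ : ∃ s₀, s₀ = M.dep' 0 / (M.l + 1) := ⟨_, rfl⟩
  obtain ⟨s₁, hs₁⟩ : ∃ s₁, s₁ = M.dep' (2 * M.l - 1) / (M.l + 1) := ⟨_, rfl⟩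
  rw [← hs₀, ← hs₁] at hτ3
  have m0 : (0 : ℝ) ∈ Icc (0 : ℝ) (2 * M.l - 1) := ⟨le_rfl, hn.le⟩
  have m1 : (2 * M.l - 1 : ℝ) ∈ Icc (0 : ℝ) (2 * M.l - 1) := ⟨hn.le, le_rfl⟩
  let z : ℝ → ℂ := fun s => M.pth M.edK (τ s * (2 * M.l - 1))
  have hz : ∀ t ∈ Icc (0 : ℝ) (2 * M.l - 1), z (M.dep' t / (M.l + 1)) = M.pth M.edK t :=
    fun t ht => congrArg (M.pth M.edK) (hτ2 t ht)
  have hz0 : z s₀ = M.ε * M.u 1 := by
    rw [hs₀, hz 0 m0, Tilt_bot hM ⟨le_rfl, zero_le_one⟩]
    simp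
  have hz1 : M.β M.l - z s₁ = M.ε * M.u M.l := by
    have h1 := Tilt_top hM (t := 0) ⟨le_rfl, zero_le_one⟩
    rw [hs₁, hz _ m1]
    simpa using h1
  have h01 : s₀ < s₁ := by
    rw [hs₀, hs₁]
    exact div_lt_div_of_pos_right (hS m0 m1 hn) hR
  have hstr : ∀ F : ℂ → ℂ, (∀ ζ ρ, M.tδ (F ζ, ρ) = M.tδ (ζ, ρ)) →
      h '' ((fun t => M.E (F (M.pth M.edK t), M.dep t)) '' Icc 0 (2 * M.l - 1)) =
        (fun s => pt (F (z s)) s) '' Icc s₀ s₁ := fun F hF => by
    have h1 : ∀ t ∈ Icc (0 : ℝ) (2 * M.l - 1), h (M.E (F (M.pth M.edK t), M.dep t)) =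
        pt (F (z (M.dep' t / (M.l + 1)))) (M.dep' t / (M.l + 1)) := fun t ht => by
      rw [hh _ _ (Tilt_dep hM ht).1 (Tilt_dep hM ht).2, hF, hz t ht]
      rfl
    rw [image_image]
    refine Subset.antisymm ?_ ?_
    · rintro _ ⟨t, ht, rfl⟩
      refine ⟨_, ⟨?_, ?_⟩, (h1 t ht).symm⟩
      · rw [hs₀]
        exact div_le_div_of_nonneg_right (hS.monotoneOn m0 ht ht.1) hR.le
      · rw [hs₁]
        exact div_le_div_of_nonneg_right (hS.monotoneOn ht m1 ht.2) hR.le
    · rintro _ ⟨s, hs, rfl⟩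
      obtain ⟨t, ht, rfl⟩ := hτ3 s hs
      exact ⟨t, ht, h1 t ht⟩
  have e1 : Eqv M.knot (symKnot z s₀ s₁ (M.β M.l)) := by
    refine ⟨h, ?_⟩
    rw [knot_eq hM, image_union, image_union, image_union, symKnot,
      hstr (fun ζ => ζ) fun _ _ => rfl, hstr (fun ζ => -ζ) tδ_neg, image_image, image_image]
    congr 1
    · congr 1
      refine image_congr fun t ht => ?_
      rw [hh _ _ zero_le_one (by linarith only [hl]), tδ_bot hM ht, hz0, hs₀, Tilt_d0 hM]
    · refine image_congr fun t ht => ?_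
      rw [hh _ _ (by linarith) (by linarith), tδ_top hM ht, ← hz1, neg_sub, hs₁, Tilt_d1 hM]
  obtain ⟨a0, a1⟩ := Tilt_t hM 1
  obtain ⟨b0, b1⟩ := Tilt_t hM M.l
  have m2 : 1 / (8 * ‖M.lam 1‖) ∈ Icc (0 : ℝ) (2 * M.l - 1) := ⟨a0.le, by linarith only [hl, a1]⟩
  have m3 : 2 * M.l - 1 - 1 / (8 * ‖M.lam M.l‖) ∈ Icc (0 : ℝ) (2 * M.l - 1) :=
    ⟨by linarith only [hl, b1], by linarith only [b0]⟩
  have t0 : τ s₀ = 0 := by
    have h1 := hτ2 0 m0
    rw [← hs₀] at h1
    exact (mul_eq_zero.1 h1).resolve_right hn.ne'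
  have t1 : τ s₁ = 1 := by
    have h1 := hτ2 _ m1
    rw [← hs₁] at h1
    exact mul_right_cancel₀ hn.ne' (h1.trans (one_mul _).symm)
  obtain ⟨e2, e3⟩ := move_reparam hA (σ := fun s => τ (s₀ + s * (s₁ - s₀))) (by fun_prop)
    (by simpa using t0) (by simpa using t1) fun s _ => hτ1 _
  refine e1.trans (Eqv.trans ?_ e3.symm)
  refine braid (z := z) (η := min (M.dep' (1 / (8 * ‖M.lam 1‖)) / (M.l + 1) - s₀)
    (s₁ - M.dep' (2 * M.l - 1 - 1 / (8 * ‖M.lam M.l‖)) / (M.l + 1))) (by fun_prop) ?_ h01 ?_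
    (lt_min ?_ ?_) hv (fun s hs hs' => ?_) (fun s hs hs' => ?_) e2
  · rw [hs₀, Tilt_d0 hM]
    positivity
  · rw [hs₁, Tilt_d1 hM, div_lt_one hR]
    have : 0 ≤ M.ε / ‖M.lam M.l‖ := by positivity
    linarith only [this]
  · rw [hs₀, sub_pos]
    exact div_lt_div_of_pos_right (hS m0 m2 a0) hR
  · rw [hs₁, sub_pos]
    exact div_lt_div_of_pos_right (hS m3 m1 (by linarith only [b0])) hR
  · obtain ⟨t, ht, rfl⟩ := hτ3 s ⟨hs.1, hs'⟩
    have h1 : M.dep' t / (M.l + 1) ≤ M.dep' (1 / (8 * ‖M.lam 1‖)) / (M.l + 1) := by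
      linarith only [hs, hs.2, min_le_left (M.dep' (1 / (8 * ‖M.lam 1‖)) / (M.l + 1) - s₀)
        (s₁ - M.dep' (2 * M.l - 1 - 1 / (8 * ‖M.lam M.l‖)) / (M.l + 1))]
    rw [div_le_div_iff_of_pos_right hR, hS.le_iff_le ht m2] at h1
    have h2 : 0 < (M.u 1).im := by
      rw [u, div_ofReal_im]
      exact div_pos (by simpa [lam] using hq) (norm_lam_pos hM 1)
    rw [hz t ht, hz0, Tilt_bot hM ⟨ht.1, h1.trans a1⟩, im_ofReal_mul]
    refine ⟨⟨(M.ε + t * (‖M.lam 1‖ / 2 - 2 * M.ε)) / M.ε, ?_⟩,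
      Tilt_c hM 1 ht.1 h1 h2 ((im_le_norm _).trans (norm_u hM 1).le)⟩
    rw [ofReal_div, ← mul_assoc, div_mul_cancel₀ _ hε']
  · obtain ⟨t, ht, rfl⟩ := hτ3 s ⟨hs', hs.2⟩
    have h1 : M.dep' (2 * M.l - 1 - 1 / (8 * ‖M.lam M.l‖)) / (M.l + 1) ≤ M.dep' t / (M.l + 1) := by
      linarith only [hs, hs.1, min_le_right (M.dep' (1 / (8 * ‖M.lam 1‖)) / (M.l + 1) - s₀)
        (s₁ - M.dep' (2 * M.l - 1 - 1 / (8 * ‖M.lam M.l‖)) / (M.l + 1))]
    rw [div_le_div_iff_of_pos_right hR, hS.le_iff_le m3 ht] at h1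
    have h2 : 0 < (M.u M.l).re := by
      rw [u, div_ofReal_re]
      exact div_pos (by simpa [lam] using hp) (norm_lam_pos hM M.l)
    have h3 := Tilt_top hM (t := 2 * M.l - 1 - t) ⟨by linarith only [ht, ht.2], by linarith only [b1, h1]⟩
    rw [sub_sub_cancel] at h3
    rw [hz t ht, hz1, h3, re_ofReal_mul]
    refine ⟨⟨(M.ε + (2 * M.l - 1 - t) * (‖M.lam M.l‖ / 2 - 2 * M.ε)) / M.ε, ?_⟩,
      Tilt_c hM M.l (by linarith only [ht, ht.2]) (by linarith only [h1]) h2 ((re_le_norm _).trans (norm_u hM _).le)⟩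
    rw [ofReal_div, ← mul_assoc, div_mul_cancel₀ _ hε']

end Lev

end AllOne
end

-- merged part: Pool.Agent.Work.MP_d5331a_gt.A1.Conn
section
/-!
The knot does not separate the surface: the gaps of a sheet are translates of each other, and
consecutive sheets are joined by neck arcs.
-/

set_option autoImplicit false

open Complex Set Filter Topology

namespace AllOne

open Neuwirth OneOne

namespace Lev

/-- Every point of the gap is joined to `y₀`. -/
def ConnP (M : Lev) (y₀ : S3) (i : ℕ) (a : ℤ) : Prop :=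
  ∀ x ∈ M.Gap i a, JoinedIn (M.surf \ M.knot) y₀ (M.E x)

variable {M : Lev} (hM : M.Good)
include hM

theorem ConnP_of {y₀ : S3} {i : ℕ} (h1 : 1 ≤ i) (h2 : i ≤ M.l) {a : ℤ} {x : ℂ × ℝ}
    (hx : x ∈ M.Gap i a) (h : JoinedIn (M.surf \ M.knot) y₀ (M.E x)) : M.ConnP y₀ i a := by
  intro z hz
  have h3 := ((gap_simply hM h1 h2 a).isPathConnected.joinedIn x hx z hz).map
    (Nest.continuous_E (N := M.nest))
  refine h.trans (h3.mono ?_)
  rw [← image_YUp hM]
  exact image_mono (gap_sub hM h1 h2 a)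

theorem ConnP_all {y₀ : S3} {i : ℕ} {a : ℤ} (h : M.ConnP y₀ i a) (a' : ℤ) : M.ConnP y₀ i a' := by
  intro x hx
  have h1 := (gap_add hM i a' x ((a - a') * M.D i) (-((a - a') * M.C i))).2 hx
  rw [show a' + (M.q i * ((a - a') * M.D i) - M.p i * -((a - a') * M.C i)) = a by
    linear_combination (a - a') * hM.bez i] at h1
  have h2 := h _ h1
  rwa [E, Nest.E_add] at h2

theorem isPathConnected_diff : IsPathConnected (M.surf \ M.knot) := by
  have hl := hM.one_le
  obtain ⟨x₀, hx₀⟩ := (gap_simply hM le_rfl hl 0).nonempty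
  have hy₀ : M.E x₀ ∈ M.surf \ M.knot := by
    rw [← image_YUp hM]
    exact mem_image_of_mem _ (gap_sub hM le_rfl hl 0 hx₀)
  have key : ∀ i, 1 ≤ i → i ≤ M.l → ∀ a, M.ConnP (M.E x₀) i a := by
    intro i h1
    induction i, h1 using Nat.le_induction with
    | base => exact fun _ => ConnP_all hM (ConnP_of hM le_rfl hl hx₀ (JoinedIn.refl hy₀))
    | succ j h1 ih =>
      intro h2
      have hβ := β_mem (M := M) h1 h2
      have hm := mid_mem_strip hM j (M.β j) (σ := 1) (Or.inl rfl)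
      exact ConnP_all hM (ConnP_of hM (by omega) h2 (strip_inner hM hβ (Or.inl rfl) hm le_rfl)
        (ih (by omega) _ _ (strip_outer hM hβ (Or.inl rfl) hm le_rfl)))
  refine ⟨M.E x₀, hy₀, fun y hy => ?_⟩
  rw [← image_YUp hM] at hy
  obtain ⟨x, hx, rfl⟩ := hy
  obtain ⟨h2, h3, -⟩ := mem_sheet_sh hM hx.1
  exact key _ h2 h3 _ x (mem_gap hM hx)

end Lev

end AllOne
end

-- merged part: Pool.Agent.Work.MP_d5331a_gt.A1.Core
section
set_option autoImplicit false

open Set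

namespace AllOne

open Neuwirth OneOne

theorem core (M : Lev) (hM : M.Good) [M.Ess] (hl : 2 ≤ M.l) (hE : M.EndsBig) : Neu M.knot := by
  have hpc := Lev.isPathConnected_diff hM
  have hflat : ∀ x ∈ M.surf, Flat M.surf M.knot x := fun x hx => Lev.flat hM hx
  haveI : PathConnectedSpace ↥(M.surf \ M.knot) := isPathConnected_iff_pathConnectedSpace.1 hpc
  haveI := locPath_of_flat hflat
  have h0 : M.surf \ M.knot ⊆ M.side 0 := fun x hx =>
    ((Lev.side_inter_side hM).symm ▸ hx.1 : x ∈ M.side 0 ∩ M.side 1).1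
  have h1 : M.surf \ M.knot ⊆ M.side 1 := fun x hx =>
    ((Lev.side_inter_side hM).symm ▸ hx.1 : x ∈ M.side 0 ∩ M.side 1).2
  have c0 := Lev.side_cocy hM (c := 0) (by norm_num)
  have c1 := Lev.side_cocy hM (c := 1) (by norm_num)
  obtain ⟨Φ0, l0⟩ := c0.exists_hol
  obtain ⟨Φ1, l1⟩ := c1.exists_hol
  refine ⟨M.surf, Lev.isCompact_surf hM, image_mono (Lev.knot_sub hM), hflat,
    hpc.isConnected, fun x => ?_, Lev.exists_not_comm hM hl⟩
  exact glue (M.side 0) (M.side 1) M.knot (M.surf \ M.knot) (Lev.isClosed_side hM 0)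
    (Lev.isClosed_side hM 1) (Lev.side_union hM) (by rw [Lev.side_inter_side hM]) h0 h1
    (fun _ h => h.2) _ _ c0 c1 Φ0 Φ1 l0 l1
    (Lev.detect hM hE (by norm_num) h0 Φ0 l0) (Lev.detect hM hE (by norm_num) h1 Φ1 l1) x

end AllOne
end

-- merged part: Pool.Agent.Work.MP_d5331a_gt.A1.Model
section
/-!
The path of a chain of segments: its knot satisfies the conclusion, and its value is the value of
the chain.
-/

set_option autoImplicit false

open Complex Set

namespace AllOne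

open Neuwirth OneOne

/-- The conclusion. -/
def Concl (K : Set S3) : Prop :=
  (∃ (h : S3 ≃ₜ S3) (p q : ℤ), IsCoprime p q ∧ h '' K = torusKnot p q) ∨ Neu K

theorem Concl.of_eqv {K K' : Set S3} (h : Concl K) (e : Eqv K K') : Concl K' := by
  rcases h with ⟨f, p, q, h1, h2⟩ | h
  · obtain ⟨f', h3⟩ := e.symm.trans ⟨f, h2⟩
    exact Or.inl ⟨f', p, q, h1, h3⟩
  · exact Or.inr (h.of_eqv e)

theorem floor_add_small (x : ℤ) {r : ℝ} (h : |r| < 1) : ⌊x + r⌋ = if 0 ≤ r then x else x - 1 := by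
  obtain ⟨h1, h2⟩ := abs_lt.1 h
  split_ifs with k
  · exact Int.floor_eq_iff.2 ⟨by linarith, by linarith⟩
  · exact floor_pred (by linarith) (by linarith [not_le.1 k])

namespace Lev

variable {M : Lev} (hM : M.Good) [hP : M.Pth]
include hM

theorem mod_level {i : ℕ} (hi : i < M.l) {t : ℝ} (ht : t ∈ Icc (0 : ℝ) 1) : ∃ t' : ℝ, 0 < t' ∧
    t' < 1 ∧ 2 * M.pth M.edK (2 * i + t) = 2 * M.β i + t' * M.lam (i + 1) := by
  have h1 := one_le_norm_lam hM (i + 1)
  have h2 : 0 < M.ε / ‖M.lam (i + 1)‖ := div_pos hM.ε_pos (norm_lam_pos hM _)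
  have h3 : M.ε / ‖M.lam (i + 1)‖ ≤ M.ε := div_le_self hM.ε_pos.le h1
  have h4 := eps_le hM
  have h5 : 0 ≤ 1 - 4 * (M.ε / ‖M.lam (i + 1)‖) := by linarith only [h2, h3, h4]
  refine ⟨2 * (M.ε / ‖M.lam (i + 1)‖) + t * (1 - 4 * (M.ε / ‖M.lam (i + 1)‖)),
    by linarith only [h2, ht, h5, mul_nonneg ht.1 h5], by linarith only [h2, h5, ht, mul_le_of_le_one_left h5 ht.2], ?_⟩
  rw [pth_level (ends_K hM) hi ht, u]
  push_cast
  ring

theorem mod_start {i : ℕ} (hi : i < M.l) :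
    2 * M.pth M.edK (2 * i) = 2 * M.β i + (2 * M.ε : ℝ) * M.u (i + 1) := by
  have := pth_level (ends_K hM) hi (t := 0) ⟨le_rfl, zero_le_one⟩
  rw [add_zero] at this
  rw [this]
  push_cast
  ring

theorem mod_stop {i : ℕ} (hi : i < M.l) :
    2 * M.pth M.edK (2 * i + 1) = 2 * M.β (i + 1) + (-(2 * M.ε) : ℝ) * M.u (i + 1) := by
  rw [pth_level (ends_K hM) hi ⟨zero_le_one, le_rfl⟩, β_succ]
  push_cast
  ring

omit hP in
theorem mod_re (i : ℕ) : (∃ r : ℝ, 0 < r ∧ (M.u i).re = r * M.p i) ∧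
    |2 * M.ε * (M.u i).re| < 1 := by
  refine ⟨un_re ⟨_, _, hM.bez i⟩, ?_⟩
  have h1 := (abs_re_le_norm _).trans (norm_u hM i).le
  have h2 := hM.ε_pos
  rw [abs_mul, abs_of_pos (by linarith)]
  linarith only [h2, hM, h1, eps_le hM, mul_nonneg_of_nonpos_of_nonpos (Mathlib.Tactic.Linarith.sub_nonpos_of_le h1) (le_of_lt (Mathlib.Tactic.Linarith.sub_neg_of_lt h2))]

omit hP in
theorem mod_rad {s : ℝ} (hs : |s| ≤ 1 / 2) :
    0 < M.ε + 2 * M.ε * |s| ∧ M.ε + 2 * M.ε * |s| < 1 := by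
  have h1 := hM.ε_pos
  constructor <;> linarith only [h1, hM, hs, eps_le hM, abs_nonneg s, mul_pos_of_neg_of_neg (Mathlib.Tactic.Linarith.sub_neg_of_lt h1) (Mathlib.Tactic.Linarith.sub_neg_of_lt h1), mul_nonneg_of_nonpos_of_nonpos (le_of_lt (Mathlib.Tactic.Linarith.sub_neg_of_lt h1)) (Mathlib.Tactic.Linarith.sub_nonpos_of_le (eps_le hM)), mul_nonneg_of_nonpos_of_nonpos (le_of_lt (Mathlib.Tactic.Linarith.sub_neg_of_lt h1)) (Mathlib.Tactic.Linarith.sub_nonpos_of_le (abs_nonneg s)), mul_nonneg_of_nonpos_of_nonpos (Mathlib.Tactic.Linarith.sub_nonpos_of_le hs) (le_of_lt (Mathlib.Tactic.Linarith.sub_neg_of_lt h1))]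

theorem mod_adm (hq : 0 < M.q 1) (hp : 0 < M.p M.l) {w b : ℤ} (hv : 2 * M.β M.l = w + b * I) :
    Adm w (M.gam M.edK) := by
  have h0 : 0 < 2 * M.ε := by linarith [hM.ε_pos]
  have h1 := eps_le hM
  have h2 : (1 : ℝ) ≤ M.l := by exact_mod_cast hM.one_le
  have h3 : (0 : ℝ) ≤ 2 * M.l - 1 := by linarith
  refine ⟨continuous_const.mul ((continuous_pth (ends_K hM)).comp
    (continuous_id.mul continuous_const)), fun s hs k m h => ?_, ?_, ?_⟩
  · rcases pieces hM.one_le ⟨mul_nonneg hs.1 h3, mul_le_of_le_one_left h3 hs.2⟩ with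
      ⟨i, hi, t, ht, e⟩ | ⟨j, j1, j2, r, hr, e⟩
    · obtain ⟨t', a, b, c⟩ := mod_level hM hi ht
      obtain ⟨k', m', h4⟩ := two_β (M := M) i
      rw [gam, e, c, h4] at h
      have h5 : (t' : ℂ) * M.lam (i + 1) = (k - k' : ℤ) + (m - m' : ℤ) * I := by
        push_cast
        linear_combination h
      have h6 := congrArg (M.tm (i + 1)) h5
      rw [tm_real_mul, tm_lam, nn_self hM, tm_vec, Int.cast_one, mul_one] at h6
      rw [h6] at a b
      have a' := Int.cast_pos.1 a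
      have b' := Int.cast_lt.1 (b.trans_eq Int.cast_one.symm)
      omega
    · obtain ⟨k', m', h4⟩ := two_β (M := M) j
      rw [gam, e, pth_band (ends_K hM) j1 j2 hr, mul_add, h4] at h
      have h5 : 2 * M.edK j r = (k - k' : ℤ) + (m - m' : ℤ) * I := by
        push_cast
        linear_combination h
      have h6 : ‖2 * M.edK j r‖ = M.ε + 2 * M.ε * |r| := by
        have := hM.ε_pos
        rw [edK, norm_mul, norm_mul, norm_dir hM, norm_real, Real.norm_eq_abs, abs_mul,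
          abs_of_nonneg (a := _ + _) (by positivity)]
        rcases hM.sign j with h | h <;> simp [h] <;> ring
      obtain ⟨h7, h8⟩ := mod_rad hM hr
      rw [← h6, h5] at h7 h8
      generalize k - k' = a, m - m' = b at h7 h8
      have h9 : |(a : ℝ)| < 1 := by simpa using (abs_re_le_norm _).trans_lt h8
      have h10 : |(b : ℝ)| < 1 := by simpa using (abs_im_le_norm _).trans_lt h8
      rw [Int.abs_lt_one_iff.1 (by exact_mod_cast h9 : |a| < 1),
        Int.abs_lt_one_iff.1 (by exact_mod_cast h10 : |b| < 1)] at h7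
      simp at h7
  · have h4 : 0 < (M.u 1).im := by
      rw [u, div_ofReal_im]
      exact div_pos (by simpa [lam] using hq) (norm_lam_pos hM 1)
    have h5 := mod_start hM (i := 0) hM.one_le
    simp only [Nat.cast_zero, mul_zero, β_zero, zero_add] at h5
    rw [gam, zero_mul, h5, im_ofReal_mul]
    exact ⟨mul_pos h0 h4, by
      linarith only [h0, h1, hM, mul_le_of_le_one_right h0.le ((im_le_norm _).trans (norm_u hM 1).le)]⟩
  · obtain ⟨i, hi⟩ := Nat.exists_eq_add_one_of_ne_zero (Nat.one_le_iff_ne_zero.1 hM.one_le)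
    obtain ⟨⟨r, r0, h4⟩, h5⟩ := mod_re hM M.l
    have h6 : 0 < (M.u M.l).re := h4 ▸ mul_pos r0 (by exact_mod_cast hp)
    rw [gam, show (1 : ℝ) * (2 * M.l - 1) = 2 * i + 1 by rw [hi]; push_cast; ring,
      mod_stop hM (hi ▸ i.lt_succ_self), ← hi, hv, add_re, re_ofReal_mul,
      show ((w : ℂ) + b * I).re = w by simp]
    exact ⟨by linarith only [h5, (abs_lt.1 h5).2], by linarith only [h0, h6, mul_pos h0 h6]⟩

end Lev

variable {G : Type} [Group G] {g : ℤ → ℤ → G}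

theorem model {l : ℕ} (hl : 1 ≤ l) (T : ℕ → Seg G) (h1 : (T 1).ok g)
    (hs : ∀ j, 1 ≤ j → j < l → Step g (T j) (T (j + 1))) (hy : (T 1).y = 0) (hq : 0 < (T 1).q)
    (hp : 0 < (T l).p) (hE : l = 1 ∨ 2 ≤ (T 1).q ∧ 2 ≤ (T l).p) :
    ∃ γ, Adm ((T l).x + (T l).p) γ ∧ Concl (knot γ) ∧
      ⌊(γ 0).re⌋ = (if 0 ≤ (T 1).p then (T 1).x else (T 1).x - 1) ∧
      Val g γ 0 1 ((T 1).W ⌊(γ 0).re⌋) ((T l).W ((T l).x + (T l).p - 1)) := by
  have ok : ∀ i, 1 ≤ i → i ≤ l → (T i).ok g := fun i i1 i2 => by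
    rcases i1.eq_or_lt with rfl | k
    · exact h1
    · obtain ⟨j, rfl⟩ : ∃ j, i = j + 1 := ⟨i - 1, by omega⟩
      exact (hs j (by omega) i2).1
  have hv : ∀ j, ∃ (A : ℤ → G) (σ σ' : ℤ) (ψ ψ' : ℝ), 1 ≤ j → j < l →
      Pot (rg g (T (j + 1)).x (T (j + 1)).y) A ∧ (Even σ ↔ (T j).p ≤ 0) ∧
      (Even σ' ↔ 0 ≤ (T (j + 1)).p) ∧ A σ = (T j).W (cel (T (j + 1)).x σ) ∧
      A σ' = (T (j + 1)).W (cel (T (j + 1)).x σ') ∧
      VC (T j).p (T j).q (T (j + 1)).p (T (j + 1)).q (σ' - σ) ∧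
      Sec (-un (T j).p (T j).q) σ ψ ∧ Sec (un (T (j + 1)).p (T (j + 1)).q) σ' ψ' := fun j => by
    by_cases h : 1 ≤ j ∧ j < l
    · obtain ⟨k, -, -, A, σ, σ', k1, k2, k3, k4, k5, k6⟩ := hs j h.1 h.2
      have k' := (ok j h.1 h.2.le).coprime
      obtain ⟨r, r0, e⟩ := un_re k'
      obtain ⟨r', r1, e'⟩ := un_re k.coprime
      obtain ⟨ψ, m1⟩ := exists_sec (σ := σ) ((norm_neg _).trans (un_norm k')) (by
        rw [k2, neg_re, e, ← mul_neg, mul_nonneg_iff_of_pos_left r0, neg_nonneg, Int.cast_nonpos])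
      obtain ⟨ψ', m2⟩ := exists_sec (σ := σ') (un_norm k.coprime) (by
        rw [k3, e', mul_nonneg_iff_of_pos_left r1, Int.cast_nonneg_iff])
      exact ⟨A, σ, σ', ψ, ψ', fun _ _ => ⟨k1, k2, k3, k4, k5, k6, m1, m2⟩⟩
    · exact ⟨1, 0, 0, 0, 0, fun h1 h2 => absurd ⟨h1, h2⟩ h⟩
  choose A σ σ' ψ ψ' hv using hv
  obtain ⟨M, M', hM, hP, hM', hS, rfl, l2, hK, hpq, hab⟩ := exists_lev hl (fun i => (T i).p)
    (fun i => (T i).q) (fun j => ψ' j - ψ j) (fun i i1 i2 => (ok i i1 i2).coprime) fun j j1 j2 => by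
      obtain ⟨-, -, -, -, -, k1, k2, k3⟩ := hv j j1 j2
      exact vertex (ok j j1 j2.le).coprime (ok _ (by omega) j2).coprime k2 k3 k1
  have hlam : ∀ i < M.l, M.lam (i + 1) = (T (i + 1)).p + (T (i + 1)).q * I := fun i hi => by
    rw [Lev.lam, (hpq _ (by omega) hi).1, (hpq _ (by omega) hi).2.1]
  have hβ : ∀ i < M.l, 2 * M.β i + (T 1).x = (T (i + 1)).x + (T (i + 1)).y * I := fun i hi => by
    induction i with
    | zero => simp [Lev.β_zero, hy]
    | succ i ih =>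
      obtain ⟨-, k1, k2, -⟩ := hs (i + 1) (by omega) hi
      rw [Lev.β_succ, hlam i (by omega), k1, k2]
      push_cast
      linear_combination ih (by omega)
  have hβ' : ∀ i < M.l, 2 * M.β (i + 1) + (T 1).x = ((T (i + 1)).x + (T (i + 1)).p : ℤ) +
      ((T (i + 1)).y + (T (i + 1)).q : ℤ) * I := fun i hi => by
    rw [Lev.β_succ, hlam i hi]
    push_cast
    linear_combination hβ i hi
  obtain ⟨f, hf⟩ : ∃ f : ℝ → ℂ, f = fun τ => 2 * M.pth M.edK τ + (T 1).x := ⟨_, rfl⟩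
  have hc : Continuous f := hf ▸ (continuous_const.mul (Lev.continuous_pth (Lev.ends_K hM))).add
    continuous_const
  have e0 := hM.ε_pos
  have f1 : ∀ i < M.l, ⌊(f (2 * i)).re⌋ =
      if 0 ≤ (T (i + 1)).p then (T (i + 1)).x else (T (i + 1)).x - 1 := fun i hi => by
    obtain ⟨⟨r, r0, k1⟩, k2⟩ := Lev.mod_re hM (i + 1)
    simp only [hf]
    rw [Lev.mod_start hM hi, add_right_comm, hβ i hi, add_re, re_ofReal_mul,
      show (((T (i + 1)).x : ℂ) + (T (i + 1)).y * I).re = (T (i + 1)).x by simp,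
      floor_add_small _ k2, k1, (hpq _ (by omega) hi).1]
    simp only [mul_nonneg_iff_of_pos_left r0, mul_nonneg_iff_of_pos_left (mul_pos two_pos e0),
      Int.cast_nonneg_iff]
  have f2 : ∀ i < M.l, ⌊(f (2 * i + 1)).re⌋ = if (T (i + 1)).p ≤ 0 then (T (i + 1)).x + (T (i + 1)).p
      else (T (i + 1)).x + (T (i + 1)).p - 1 := fun i hi => by
    obtain ⟨⟨r, r0, k1⟩, k2⟩ := Lev.mod_re hM (i + 1)
    simp only [hf]
    rw [Lev.mod_stop hM hi, add_right_comm, hβ' i hi, add_re, re_ofReal_mul]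
    simp only [add_re, intCast_re, mul_I_re, intCast_im, neg_zero, add_zero]
    rw [neg_mul, floor_add_small _ ((abs_neg _).trans_lt k2), k1, (hpq _ (by omega) hi).1,
      ← mul_neg, ← mul_neg]
    simp only [mul_nonneg_iff_of_pos_left r0, mul_nonneg_iff_of_pos_left (mul_pos two_pos e0),
      neg_nonneg, Int.cast_nonpos]
  have v1 : ∀ i < M.l, Val g f (2 * i) (2 * i + 1) ((T (i + 1)).W ⌊(f (2 * i)).re⌋)
      ((T (i + 1)).W ⌊(f (2 * i + 1)).re⌋) := fun i hi => by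
    obtain ⟨lo, k1, k2⟩ := ok (i + 1) (by omega) hi
    refine Val.chan hc k1 fun s hs c e => ?_
    obtain ⟨t, t0, t1, k3⟩ := Lev.mod_level hM hi (t := s - 2 * i)
      ⟨by linarith only [hs, hs.1], by linarith only [hs, hs.2]⟩
    rw [add_sub_cancel] at k3
    have k4 : f s = (T (i + 1)).x + (T (i + 1)).y * I +
        t * ((T (i + 1)).p + (T (i + 1)).q * I) := by
      simp only [hf]
      rw [k3, add_right_comm, hβ i hi, hlam i hi]
    rw [k4] at e ⊢
    simpa using k2 t t0 t1 c (by simpa using e)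
  have v2 : ∀ i, i + 1 < M.l → Val g f (2 * i + 1) (2 * (i + 1 : ℕ))
      ((T (i + 1)).W ⌊(f (2 * i + 1)).re⌋) ((T (i + 1 + 1)).W ⌊(f (2 * (i + 1 : ℕ))).re⌋) := by
    intro i hi
    obtain ⟨k1, k2, k3, k4, k5, -, ⟨k6, -, -, -, k7⟩, -, -, -, -, k8⟩ := hv (i + 1) (by omega) hi
    have k9 : ∀ s ∈ Icc (2 * i + 1 : ℝ) (2 * (i + 1 : ℕ)), |s - (2 * i + 3 / 2)| ≤ 1 / 2 :=
      fun s hs => by
        push_cast at hs
        exact abs_le.2 ⟨by linarith only [hs, hs.1], by linarith only [hs, hs.2]⟩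
    have k10 : ∀ s ∈ Icc (2 * i + 1 : ℝ) (2 * (i + 1 : ℕ)), f s =
        (T (i + 1 + 1)).x + (T (i + 1 + 1)).y * I +
          (M.ε + 2 * M.ε * |s - (2 * i + 3 / 2)| : ℝ) * (-I * exp ((ψ (i + 1) + M.a (i + 1) +
            M.ang (i + 1) (s - (2 * i + 3 / 2)) : ℝ) * I)) := fun s hs => by
      have m1 := Lev.pth_band (Lev.ends_K hM) (j := i + 1) (by omega) hi (k9 s hs)
      have m2 := hM.start (i + 1) (by omega) hi
      rw [Lev.dir, Lev.ang_nonpos _ (by norm_num), show M.u (i + 1) = un (T (i + 1)).p (T (i + 1)).q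
        by rw [Lev.u, hlam i (by omega), un], show ((2 * M.a (i + 1) * -(1 / 2) : ℝ) : ℂ) * I =
        -(M.a (i + 1) * I) by push_cast; ring, exp_neg, mul_inv_eq_iff_eq_mul₀ (exp_ne_zero _)] at m2
      rw [show (2 * (i + 1 : ℕ) - 1 / 2 + (s - (2 * i + 3 / 2)) : ℝ) = s by push_cast; ring] at m1
      have m3 : (M.e (i + 1) : ℂ) * M.e (i + 1) = 1 := by
        rcases hM.sign (i + 1) with h | h <;> simp [h]
      simp only [hf]
      rw [m1, ← hβ _ hi, Lev.edK, Lev.dir, m2, ofReal_add (_ + _), ofReal_add (ψ _), add_mul (_ + _),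
        add_mul, exp_add, exp_add, ← mul_assoc (-I), ← mul_assoc (-I), k6]
      generalize |s - (2 * i + 3 / 2)| = r
      push_cast
      linear_combination (-(M.ε + 2 * M.ε * r) * un (T (i + 1)).p (T (i + 1)).q *
        exp (M.a (i + 1) * I) * exp (M.ang (i + 1) (s - (2 * i + 3 / 2)) * I)) * m3
    have := Val.arc (f := f) (a := 2 * i + 1) (b := 2 * (i + 1 : ℕ)) k1
      (r := fun s => M.ε + 2 * M.ε * |s - (2 * i + 3 / 2)|)
      (φ := fun s => ψ (i + 1) + M.a (i + 1) + M.ang (i + 1) (s - (2 * i + 3 / 2)))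
      (continuous_const.add ((Lev.continuous_ang _).comp (continuous_id.sub continuous_const)))
      (fun s hs => Lev.mod_rad hM (k9 s hs))
      (fun s hs => by
        rw [k10 s hs, add_re, re_ofReal_mul, neg_mul, neg_re, I_mul_re, neg_neg, exp_ofReal_mul_I_im]
        simp)
      (fun s hs => by
        rw [k10 s hs, add_im, im_ofReal_mul, neg_mul, neg_im, I_mul_im, exp_ofReal_mul_I_re]
        simp [sub_eq_add_neg])
    rw [Lev.ang_nonpos _ (by linarith only []), Lev.ang_nonneg _ (by push_cast; linarith only []),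
      show ψ (i + 1) + M.a (i + 1) + 2 * M.a (i + 1) * (2 * i + 1 - (2 * i + 3 / 2)) = ψ (i + 1) by ring,
      show ψ (i + 1) + M.a (i + 1) + 2 * M.b (i + 1) * (2 * (i + 1 : ℕ) - (2 * i + 3 / 2)) = ψ' (i + 1) by
        push_cast; linear_combination hab (i + 1) (by omega) hi, k7, k8, k4, k5] at this
    rw [f1 _ hi, f2 i (by omega), ← (hs (i + 1) (by omega) hi).2.1]
    simpa only [cel, k2, k3] using this
  have v3 : ∀ i < M.l, Val g f 0 (2 * i + 1) ((T 1).W ⌊(f 0).re⌋)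
      ((T (i + 1)).W ⌊(f (2 * i + 1)).re⌋) := fun i hi => by
    induction i with
    | zero => simpa using v1 0 hi
    | succ i ih =>
      exact ((ih (by omega)).trans (by positivity) (by push_cast; linarith only []) (v2 i hi)).trans
        (by positivity) (by linarith only []) (v1 _ hi)
  obtain ⟨n, hn⟩ := Nat.exists_eq_add_one_of_ne_zero (Nat.one_le_iff_ne_zero.1 hl)
  have e1 : (2 * M.l - 1 : ℝ) = 2 * n + 1 := by rw [hn]; push_cast; ring
  have hv' : 2 * M.β M.l = ((T M.l).x + (T M.l).p - (T 1).x : ℤ) +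
      ((T M.l).y + (T M.l).q : ℤ) * I := by
    have := hβ' n (by omega)
    rw [← hn] at this
    push_cast at this ⊢
    linear_combination this
  have q1 : 0 < M.q 1 := (hpq 1 le_rfl hl).2.1 ▸ hq
  have p1 : 0 < M.p M.l := (hpq _ hl le_rfl).1 ▸ hp
  have hA := Lev.mod_adm hM q1 p1 hv'
  have hA' := hA.add_int (T 1).x
  rw [sub_add_cancel] at hA'
  have e2 : (fun s => M.gam M.edK s + (T 1).x) = fun s => f (s * (2 * n + 1)) := by
    rw [hf, ← e1]
    rfl
  refine ⟨fun s => f (s * (2 * n + 1)), e2 ▸ hA', ?_, ?_, ?_⟩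
  · rw [← e2, knot_add_int]
    refine Concl.of_eqv ?_ (Lev.tilt hM q1 p1 hv' hA)
    by_cases h : M.l = 1
    · exact Or.inl ⟨Homeomorph.refl _, _, _, ⟨_, _, hM.bez 1⟩, by simpa using Lev.knot_torus hM h⟩
    · obtain ⟨k1, k2⟩ := hE.resolve_left h
      refine Or.inr (hK ▸ core M' hM' (by omega) ⟨?_, ?_⟩)
      · exact (hpq 1 le_rfl hl).2.2.2 ▸ k1.trans (le_abs_self _)
      · rw [l2, (hpq _ hl le_rfl).2.2.1]
        exact k2.trans (le_abs_self _)
  · simpa using f1 0 hl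
  · have v := v3 n (by omega)
    rw [f2 n (by omega), ← hn, if_neg hp.not_ge] at v
    have n0 : (0 : ℝ) ≤ 2 * n + 1 := by positivity
    simpa using v.comp (σ := fun s => s * (2 * n + 1)) (a := 0) (b := 1) (by fun_prop) (zero_mul _)
      (one_mul _) fun s hs => ⟨mul_nonneg hs.1 n0, mul_le_of_le_one_left n0 hs.2⟩

end AllOne
end

-- merged part: Pool.Agent.Work.MP_d5331a_gt.OO.Taut
section
/-!
The pegs of the taut string.

Plan. `lo ≥ 0` everywhere. If `lo (w - 1) = 0` take `n = 1`, `(x 0, y 0) = (w - 1, 0)`,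
`(x 1, y 1) = (w, 1)`. Otherwise take the string `f` of `exists_good`. A column `c` is a peg if
`c = a`, `c = w`, or `a < c < w` and `f c = lo c` or `f c = lo c + 1`. Enumerate the pegs
increasingly (`Finset.orderEmbOfFin`, `Nat.nth`, or recursion with `Int.exists_least_of_bdd`);
`y j = ⌊f (x j)⌋ = f (x j)`, `e j = 1` if `f (x j) = lo (x j) + 1` and `-1` otherwise. Strictly
between consecutive pegs `lo c < f c < lo c + 1`, so `f (c + 1) - f c` is constant on
`x i ≤ c < x (i + 1)` and `f c = y i + (c - x i) * (y (i + 1) - y i) / (x (i + 1) - x i)`. At a peg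
the slopes on both sides compare by `conv` or `conc`. The first peg after `a` is at least `m + 1`,
so `y 1 > 1` by `Tt.mono` (for `n = 1`, `y 1 = b ≥ 2`); the column `w - 1` is not a peg and
`a < w - 1`.
-/

set_option autoImplicit false

namespace OneOne

theorem Taut_enum (p : ℤ → Prop) {a w : ℤ} (h : a + 1 ≤ w) : ∃ (n : ℕ) (x : ℕ → ℤ),
    1 ≤ n ∧ x 0 = a ∧ x n = w ∧ (∀ i < n, a ≤ x i ∧ x i < x (i + 1) ∧ x (i + 1) ≤ w) ∧
      (∀ i < n, ∀ c, x i < c → c < x (i + 1) → ¬ p c) ∧ ∀ j, 1 ≤ j → j < n → p (x j) := by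
  induction w, h using Int.leInduction with
  | base =>
    refine ⟨1, fun j => a + j, le_rfl, by simp, by simp, fun i hi => ?_, fun i hi c h1 h2 => ?_,
      fun j h1 h2 => ?_⟩
    all_goals beta_reduce at *; omega
  | succ w hw ih =>
    obtain ⟨n, x, h1, h2, h3, h4, h5, h6⟩ := ih
    by_cases hp : p w
    · refine ⟨n + 1, fun j => if j = n + 1 then w + 1 else x j, by omega, by simpa using h2,
        by simp, fun i hi => ?_, fun i hi c => ?_, fun j k1 k2 => ?_⟩
      · have := h4 i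
        grind
      · have := h5 i
        grind
      · have := h6 j
        grind
    · refine ⟨n, fun j => if j = n then w + 1 else x j, h1, by grind,
        by simp, fun i hi => ?_, fun i hi c => ?_, fun j k1 k2 => ?_⟩
      · have := h4 i
        grind
      · have := h5 i hi c
        grind
      · have := h6 j
        grind

theorem Taut_lin {f : ℤ → ℝ} {u v : ℤ} (h : ∀ c, u < c → c < v → f (c - 1) + f (c + 1) = 2 * f c)
    (c : ℤ) (h1 : u ≤ c) : c < v → f c = f u + (c - u) * (f (u + 1) - f u) ∧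
      f (c + 1) = f c + (f (u + 1) - f u) := by
  induction c, h1 using Int.leInduction with
  | base => exact fun _ => ⟨by ring, by ring⟩
  | succ c hc ih =>
    intro h2
    obtain ⟨k1, k2⟩ := ih (by omega)
    have := h (c + 1) (by omega) h2
    rw [add_sub_cancel_right] at this
    refine ⟨?_, by linarith only [k2, this]⟩
    push_cast
    linarith only [k1, k2]

theorem Taut_mono {f : ℤ → ℝ} {u v : ℤ} (h : ∀ c, u ≤ c → c < v → f c ≤ f (c + 1))
    (c : ℤ) (h1 : u ≤ c) : c ≤ v → f u ≤ f c := by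
  induction c, h1 using Int.leInduction with
  | base => exact fun _ => le_rfl
  | succ c hc ih => exact fun h2 => (ih (by omega)).trans (h c hc (by omega))

theorem taut {lo : ℤ → ℤ} (hm : Monotone lo) {A : ℤ} (hA : ∀ c ≤ A, lo c = 0) (w : ℤ) :
    ∃ (n : ℕ) (x y e : ℕ → ℤ), 1 ≤ n ∧ y 0 = 0 ∧ lo (x 0) = 0 ∧ x n = w ∧ 0 < y 1 ∧
      (∀ i < n, x i < x (i + 1)) ∧
      (∀ i < n, ∀ c, x i < c → c < x (i + 1) →
        (lo c - y i) * (x (i + 1) - x i) < (c - x i) * (y (i + 1) - y i) ∧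
        (c - x i) * (y (i + 1) - y i) < (lo c + 1 - y i) * (x (i + 1) - x i)) ∧
      (∀ j, 1 ≤ j → j < n → (e j = 1 ∧ y j = lo (x j) + 1) ∨ (e j = -1 ∧ y j = lo (x j))) ∧
      (∀ j, j + 1 < n → e (j + 1) * ((y (j + 1) - y j) * (x (j + 2) - x (j + 1)) -
        (x (j + 1) - x j) * (y (j + 2) - y (j + 1))) ≤ 0) ∧
      (n = 1 ∨ (2 ≤ y 1 ∧ x (n - 1) + 2 ≤ w)) := by
  have h0 : ∀ c, 0 ≤ lo c := fun c => (hA _ (min_le_right c A)).ge.trans (hm (min_le_left c A))
  rcases (h0 (w - 1)).eq_or_lt with hw | hw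
  · refine ⟨1, fun j => w - 1 + j, fun j => j, fun _ => 0, le_rfl, rfl, by simpa using hw.symm,
      by simp, by simp, fun i hi => ?_, fun i hi c h1 h2 => ?_, fun j h1 h2 => ?_,
      fun j h1 => ?_, Or.inl rfl⟩
    all_goals beta_reduce at *; omega
  obtain ⟨a, b, m, f, hf, ham, hmw, hm0, hb, hs, h1, h2, h3⟩ := exists_good hm hA (w := w) hw
  have hz : ∀ c ≤ m, lo c = 0 := fun c hc => le_antisymm (hm0 ▸ hm hc) (h0 c)
  obtain ⟨n, x, hn, x0, xn, hx, hnp, hp⟩ :=
    Taut_enum (fun c => f c = lo c + 1 ∨ f c = lo c) (a := a) (w := w) (by omega)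
  have hy : ∀ j ≤ n, ((⌊f (x j)⌋ : ℤ) : ℝ) = f (x j) := fun j hj => by
    have : ∃ k : ℤ, f (x j) = k := by
      rcases Nat.eq_zero_or_pos j with rfl | k1
      · exact ⟨0, by rw [x0, hf.left, Int.cast_zero]⟩
      rcases hj.eq_or_lt with rfl | k2
      · exact ⟨b, by rw [xn, hf.right]⟩
      rcases hp j k1 k2 with e | e
      exacts [⟨lo (x j) + 1, by rw [e, Int.cast_add, Int.cast_one]⟩, ⟨_, e⟩]
    obtain ⟨k, e⟩ := this
    rw [e, Int.floor_intCast]
  have hin : ∀ i < n, ∀ c, x i < c → c < x (i + 1) → lo c < f c ∧ f c < lo c + 1 := by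
    intro i hi c k1 k2
    have := hx i hi
    have k3 := hf.mem c (by omega) (by omega)
    have k4 := not_or.1 (hnp i hi c k1 k2)
    exact ⟨k3.1.lt_of_ne' k4.2, k3.2.lt_of_ne k4.1⟩
  have hl : ∀ i < n, ∀ c, x i ≤ c → c < x (i + 1) →
      f c = f (x i) + (c - x i) * (f (x i + 1) - f (x i)) ∧
        f (c + 1) = f c + (f (x i + 1) - f (x i)) := fun i hi => Taut_lin fun c k1 k2 => by
    have := hx i hi
    exact le_antisymm (hf.conc c (by omega) (by omega) (hin i hi c k1 k2).2)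
      (hf.conv c (by omega) (by omega) (hin i hi c k1 k2).1)
  have hl1 : ∀ i < n, f (x (i + 1)) = f (x (i + 1) - 1) + (f (x i + 1) - f (x i)) ∧
      f (x (i + 1)) - f (x i) = ((x (i + 1) : ℝ) - x i) * (f (x i + 1) - f (x i)) := by
    intro i hi
    have := hx i hi
    obtain ⟨k1, k2⟩ := hl i hi (x (i + 1) - 1) (by omega) (by omega)
    rw [sub_add_cancel] at k2
    refine ⟨k2, ?_⟩
    push_cast at k1
    linarith only [k2, k1]
  have hy1 : 2 ≤ ⌊f (x 1)⌋ := by
    have k0 := hx 0 hn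
    rw [zero_add] at k0
    have k1 : m + 1 ≤ x 1 := by
      by_contra k1
      have k2 := hs (x 1) (by omega) (by omega)
      have k3 := hp 1 le_rfl (hn.lt_of_ne fun e => by rw [← e] at xn; omega)
      rw [hz _ (by omega), Int.cast_zero] at k3
      rcases k3 with k3 | k3 <;> linarith only [k2, k3, k2.1, k2.2]
    have k2 := Taut_mono (u := m + 1) (v := w)
      (fun c k2 => hf.mono hm (h0 a) hb c (by omega)) (x 1) k1 k0.2.2
    have k3 : ((1 : ℤ) : ℝ) < (⌊f (x 1)⌋ : ℤ) := by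
      rw [hy 1 hn, Int.cast_one]
      exact h1.trans_le k2
    exact Int.cast_lt.1 k3
  refine ⟨n, x, fun j => ⌊f (x j)⌋, fun j => if f (x j) = lo (x j) + 1 then 1 else -1, hn, ?_,
    x0 ▸ hz a ham, xn, two_pos.trans_le hy1, fun i hi => (hx i hi).2.1, fun i hi c k1 k2 => ?_,
    fun j k1 k2 => ?_, fun j hj => ?_, Or.inr ⟨hy1, ?_⟩⟩
  · simp only [x0, hf.left, Int.floor_zero]
  · have k3 : (0 : ℝ) < x (i + 1) - x i := sub_pos.2 (Int.cast_lt.2 (hx i hi).2.1)
    have k4 : ((c : ℝ) - x i) * (f (x (i + 1)) - f (x i)) =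
        (f c - f (x i)) * (x (i + 1) - x i) := by
      rw [(hl1 i hi).2, (hl i hi c k1.le k2).1]
      ring
    obtain ⟨k5, k6⟩ := hin i hi c k1 k2
    constructor <;> rw [← Int.cast_lt (R := ℝ)] <;> push_cast <;>
      rw [hy i hi.le, hy (i + 1) hi, k4] <;> exact mul_lt_mul_of_pos_right (by linarith only [k5, k6]) k3
  · by_cases e : f (x j) = lo (x j) + 1
    · exact Or.inl ⟨if_pos e, by simp [e]⟩
    · exact Or.inr ⟨if_neg e, by simp [(hp j k1 k2).resolve_left e]⟩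
  · have k1 := hx j (by omega)
    have k2 := hx (j + 1) hj
    have k3 : (0 : ℝ) ≤ (x (j + 1) - x j) * (x (j + 2) - x (j + 1)) := mul_nonneg
      (sub_nonneg.2 (Int.cast_le.2 k1.2.1.le)) (sub_nonneg.2 (Int.cast_le.2 k2.2.1.le))
    obtain ⟨k4, k5⟩ := hl1 j (by omega)
    have k6 : f (x (j + 2)) - f (x (j + 1)) = ((x (j + 2) : ℝ) - x (j + 1)) * _ :=
      (hl1 (j + 1) hj).2
    rw [← Int.cast_le (R := ℝ)]
    by_cases e : f (x (j + 1)) = lo (x (j + 1)) + 1
    · have k7 := hf.conv (x (j + 1)) (by omega) (by omega) (by linarith only [h2, h3, e])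
      simp only [if_pos e]
      push_cast
      rw [hy j (by omega), hy (j + 1) hj.le, hy (j + 2) hj, k5, k6]
      linarith only [k3, k4, k7, mul_nonneg k3 (show 0 ≤ f (x (j + 1) + 1) - f (x (j + 1)) -
        (f (x j + 1) - f (x j)) by linarith)]
    · have k7 := hf.conc (x (j + 1)) (by omega) (by omega)
        (by linarith only [h2, h3, hp, hj, e, (hp (j + 1) (by omega) hj).resolve_left e])
      simp only [if_neg e]
      push_cast
      rw [hy j (by omega), hy (j + 1) hj.le, hy (j + 2) hj, k5, k6]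
      linarith only [k3, k4, k7, mul_nonneg k3 (show 0 ≤ f (x j + 1) - f (x j) -
        (f (x (j + 1) + 1) - f (x (j + 1))) by linarith)]
  · obtain ⟨n, rfl⟩ : ∃ k, n = k + 1 := ⟨n - 1, by omega⟩
    have k1 := hx n (by omega)
    rw [Nat.add_sub_cancel]
    rcases Nat.eq_zero_or_pos n with rfl | k2
    · omega
    have k3 := hp n k2 (by omega)
    by_contra k4
    rw [show x n = w - 1 by omega] at k3
    rcases k3 with k3 | k3 <;> linarith only [h3, k3, h2]

end OneOne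
end

-- merged part: Pool.Agent.Work.MP_d5331a_gt.A1.TautG
section
/-!
Taut strings in arbitrary channels: choice of free end points, and the chain of a string.
-/

set_option autoImplicit false

namespace AllOne

open OneOne

/-- The channel stays in the lowest row up to the column `m` and reaches the height `2` at the
column `n` without returning to the lowest row. -/
structure Up (lo : ℤ → ℤ) (m n w b : ℤ) : Prop where
  low : ∀ c ≤ m, lo c = 0
  lt : m < n
  le : n ≤ w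
  mid : ∀ c, m < c → c < n → 1 ≤ lo c
  top : n < w → 2 ≤ lo n
  top' : n = w → 2 ≤ b

variable {lo : ℤ → ℤ} {a w b m n : ℤ} {f g : ℤ → ℝ}

theorem Up.two_le (h : Up lo m n w b) (hf : Tt lo a w b f) (ha : a ≤ m) : 2 ≤ f n := by
  rcases h.le.eq_or_lt with e | e
  · rw [e, hf.right]
    exact_mod_cast h.top' e
  · exact le_trans (by exact_mod_cast h.top e) (hf.mem n (ha.trans_lt h.lt) e).1

theorem Up.pos (h : Up lo m n w b) (hf : Tt lo a w b f) (ha : a ≤ m) :
    ∀ c ≤ m + 1, a < c → 0 < f c := by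
  have h1 := h.lt
  have h2 := h.le
  intro c hc
  induction c, hc using Int.leInductionDown with
  | base =>
    intro _
    rcases (show m + 1 ≤ n from h1).eq_or_lt with e | e
    · rw [e]
      linarith only [h, hf, ha, h.two_le hf ha]
    · have k2 : (1 : ℝ) ≤ lo (m + 1) := by exact_mod_cast h.mid _ (by omega) e
      linarith [(hf.mem (m + 1) (by omega) (by omega)).1]
  | pred c hc ih =>
    intro k0
    by_contra k
    have k2 := hf.conc (c - 1) k0 (by omega) (by rw [h.low _ (by omega)]; push_cast; linarith)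
    have k3 : 0 ≤ f (c - 1 - 1) := by
      rcases (show a ≤ c - 1 - 1 by omega).eq_or_lt with e | e
      · rw [← e, hf.left]
      · have := (hf.mem _ e (by omega)).1
        rwa [h.low _ (by omega), Int.cast_zero] at this
    rw [sub_add_cancel] at k2
    linarith only [k, k2, k3, ih, k0, ih (by omega), not_lt.1 k]

theorem Up.slope (h : Up lo m n w b) (hf : Tt lo a w b f) {c : ℤ} (ha : a ≤ c) (hc : c ≤ m) :
    f c ≤ (c - a) * (f (c + 1) - f c) := by
  have h1 := h.lt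
  have h2 := h.le
  have := TautB_cv ha fun x k1 k2 => hf.conv x k1 (by omega) (by
    rw [h.low x (by omega), Int.cast_zero]
    exact h.pos hf (by omega) x (by omega) k1)
  rwa [hf.left, sub_zero] at this

theorem Up.mono (h : Up lo m n w b) (hf : Tt lo a w b f) {c : ℤ} (ha : a ≤ c) (hc : c ≤ m) :
    f c ≤ f m := by
  refine Taut_mono (u := c) (v := m) (fun x k1 k2 => ?_) m hc le_rfl
  rcases (ha.trans k1).eq_or_lt with e | e
  · rw [← e, hf.left]
    exact (h.pos hf (by omega) _ (by omega) (by omega)).le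
  · have k3 := h.slope hf e.le k2.le
    have k4 := h.pos hf (by omega) x (by omega) e
    have k5 : (0 : ℝ) < x - a := sub_pos.2 (by exact_mod_cast e)
    (refine le_of_not_gt fun h_nl => ?_; linarith only [h_nl, k3, k4, k5, mul_pos_of_neg_of_neg (Mathlib.Tactic.Linarith.sub_neg_of_lt k5) (Mathlib.Tactic.Linarith.sub_neg_of_lt h_nl)])

theorem Up.down (h : Up lo m n w b) (hf : Tt lo a w b f) (ha : a ≤ m) (hD : f (m + 1) ≤ 1) :
    f m < 1 ∧ (m + 1 - a) * (f (m + 1) - f m) ≤ 1 := by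
  have h1 := h.lt
  have h2 := h.le
  have k1 : f m < 1 := by
    by_contra k
    have k2 : (a : ℝ) ≤ m := by exact_mod_cast ha
    have k3 := mul_nonneg (sub_nonneg.2 k2) (sub_nonneg.2 (hD.trans (not_lt.1 k)))
    linarith only [k, k3, h, hf, ha, h.slope hf ha le_rfl, not_lt.1 k]
  have := TautB_cv (f := fun c => -f c) ha fun c k2 k3 => by
    have := hf.conc c k2 (by omega) (by
      rw [h.low c k3, Int.cast_zero, zero_add]
      exact (h.mono hf k2.le k3).trans_lt k1)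
    linarith only [this]
  rw [hf.left] at this
  exact ⟨k1, by linarith⟩

theorem Up.two (h : Up lo m n w b) (hf : Tt lo a w b f) (hg : Tt lo (a + 1) w b g) (ha : a < m)
    (hD : g (m + 1) ≤ 1) : f m < 1 := by
  by_contra k
  obtain ⟨k1, k2⟩ := h.down hg ha hD
  have k3 := h.slope hf ha.le le_rfl
  have k4 : (0 : ℝ) < m - a := sub_pos.2 (by exact_mod_cast ha)
  push_cast at k2
  have k5 : g (m + 1) - g m ≤ f (m + 1) - f m :=
    le_of_mul_le_mul_left (by linarith only [k, k3, k2, not_lt.1 k]) k4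
  have := TautB_up (d := fun c => f c - g c) (p := m) (q := w) (h.lt.trans_le h.le)
    (fun c a1 a2 => TautB_sub hf hg (by omega) (by omega) a2) (by linarith only [k, k1, not_lt.1 k])
    (by linarith)
  rw [hf.right, hg.right, sub_self] at this
  exact lt_irrefl _ this

theorem Up.three (h : Up lo m n w b) (hf : Tt lo (2 * m + 1 - n) w b f) : 1 < f (m + 1) := by
  have h1 := h.lt
  have h2 := h.le
  by_contra k
  obtain ⟨k1, k2⟩ := h.down hf (by omega) (not_lt.1 k)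
  have k3 : (0 : ℝ) < n - m := sub_pos.2 (by exact_mod_cast h1)
  have k4 := h.two_le hf (by omega)
  push_cast at k2
  have := TautB_up (d := fun c => (n - m) + (c - m) - (n - m) * f c) (p := m) (q := n) h1
    (fun c a1 a2 a3 => by
      have b1 : (1 : ℝ) ≤ lo c := by exact_mod_cast h.mid c a1 a2
      have b2 : (c : ℝ) < n := by exact_mod_cast a2
      have b3 : f c < 2 := lt_of_mul_lt_mul_left (by linarith only [a3, b2]) k3.le
      have b4 := mul_le_mul_of_nonneg_left (hf.conc c (by omega) (by omega) (by linarith only [b1, b3])) k3.le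
      push_cast
      linarith only [b4])
    (by linarith only [k3, k1, mul_pos k3 (sub_pos.2 k1)]) (by push_cast; linarith)
  linarith [mul_le_mul_of_nonneg_left k4 k3.le]

/-- The string leaves the lowest row strictly between the columns `m` and `m + 1`. -/
def FS (a m : ℤ) (f : ℤ → ℝ) : Prop :=
  a ≤ m ∧ (∀ c, a < c → c ≤ m → 0 < f c ∧ f c < 1) ∧ 1 < f (m + 1)

/-- The string crosses the last column strictly inside the gate. -/
def FE (lo : ℤ → ℤ) (w : ℤ) (f : ℤ → ℝ) : Prop :=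
  lo (w - 1) < f (w - 1) ∧ f (w - 1) < lo (w - 1) + 1

theorem Up.family (h : m < w) : ∃ F : ℤ → ℤ → ℤ → ℝ, ∀ a b, a ≤ m → Tt lo a w b (F a b) := by
  have ex : ∀ a b, ∃ f, a ≤ m → Tt lo a w b f := fun a b => by
    by_cases k : a ≤ m
    · exact (exists_Tt lo (by omega) b).imp fun _ h _ => h
    · exact ⟨0, fun h => absurd h k⟩
  choose F hF using ex
  exact ⟨F, hF⟩

theorem Up.free_start (h : Up lo m n w b) : ∃ a f, Tt lo a w b f ∧ FS a m f := by
  have h1 := h.lt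
  obtain ⟨F, hF⟩ := Up.family (lo := lo) (h.lt.trans_le h.le)
  obtain ⟨a, ⟨a1, s1⟩, hmax⟩ := Int.exists_greatest_of_bdd
    (P := fun a => a ≤ m ∧ 1 < F a b (m + 1)) ⟨m, fun _ k => k.1⟩
    ⟨2 * m + 1 - n, by omega, h.three (hF _ _ (by omega))⟩
  refine ⟨a, F a b, hF a b a1, a1, fun c c1 c2 => ⟨h.pos (hF a b a1) a1 c (by omega) c1,
    (h.mono (hF a b a1) c1.le c2).trans_lt (h.two (hF a b a1) (hF (a + 1) b (by omega)) (by omega)
      (not_lt.1 fun k => ?_))⟩, s1⟩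
  have := hmax _ ⟨show a + 1 ≤ m by omega, k⟩
  omega

theorem Tt_low (hf : Tt lo a w b f) (ha : a + 1 < w)
    (hb : b < 2 * (lo (w - 1) + 1) - (|lo (w - 1 - 1)| + 1)) : f (w - 1) < lo (w - 1) + 1 := by
  by_contra k
  have k1 := hf.conv (w - 1) (by omega) (by omega) (by linarith only [k, not_lt.1 k])
  have k2 : f (w - 1 - 1) ≤ (|lo (w - 1 - 1)| + 1 : ℤ) := by
    rcases (show a ≤ w - 1 - 1 by omega).eq_or_lt with e | e
    · rw [← e, hf.left]
      positivity
    · push_cast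
      linarith only [hf, e, (hf.mem _ e (by omega)).2, le_abs_self (lo (w - 1 - 1) : ℝ)]
  have k3 := (Int.cast_lt (R := ℝ)).2 hb
  rw [sub_add_cancel, hf.right] at k1
  push_cast at k2 k3
  linarith only [k, k1, k2, k3, not_lt.1 k]

theorem Tt_high (hf : Tt lo a w b f) (ha : a + 1 < w)
    (hb : 2 * lo (w - 1) + |lo (w - 1 - 1)| < b) : lo (w - 1) < f (w - 1) := by
  by_contra k
  have k1 := hf.conc (w - 1) (by omega) (by omega) (by linarith only [k, not_lt.1 k])
  have k2 : -|(lo (w - 1 - 1) : ℝ)| ≤ f (w - 1 - 1) := by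
    rcases (show a ≤ w - 1 - 1 by omega).eq_or_lt with e | e
    · rw [← e, hf.left]
      exact neg_nonpos.2 (abs_nonneg _)
    · linarith only [hf, e, (hf.mem _ e (by omega)).1, neg_abs_le (lo (w - 1 - 1) : ℝ)]
  have k3 := (Int.cast_lt (R := ℝ)).2 hb
  rw [sub_add_cancel, hf.right] at k1
  push_cast at k3
  linarith only [k, k1, k2, k3, not_lt.1 k]

theorem free_end (lo : ℤ → ℤ) (ha : a + 1 < w) : ∃ b f, Tt lo a w b f ∧ FE lo w f := by
  choose F hF using fun b => exists_Tt lo (show a < w by omega) b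
  obtain ⟨b, s1, hmin⟩ := Int.exists_least_of_bdd (P := fun b => lo (w - 1) < F b (w - 1))
    ⟨2 * lo (w - 1) - (|lo (w - 1 - 1)| + 1), fun b k => by
      have k1 := (hF b).conv (w - 1) (by omega) (by omega) k
      have k2 : F b (w - 1 - 1) ≤ (|lo (w - 1 - 1)| + 1 : ℤ) := by
        rcases (show a ≤ w - 1 - 1 by omega).eq_or_lt with e | e
        · rw [← e, (hF b).left]
          positivity
        · push_cast
          linarith only [hF, e, ((hF b).mem _ e (by omega)).2, le_abs_self (lo (w - 1 - 1) : ℝ)]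
      rw [sub_add_cancel, (hF b).right] at k1
      rw [← Int.cast_le (R := ℝ)]
      push_cast at k2 ⊢
      linarith only [k, k1, k2]⟩ ⟨_, Tt_high (hF _) ha (lt_add_one _)⟩
  refine ⟨b, F b, hF b, s1, TautB_four (hF b) (hF (b - 1)) (by omega) (not_lt.1 fun k => ?_)⟩
  have := hmin _ k
  omega

theorem Up.free_aux (h : Up lo m n w b) (hw : m + 1 < w)
    (hb : ∀ a f, a ≤ m → Tt lo a w b f → f (w - 1) < lo (w - 1) + 1) :
    ∃ a b f, Tt lo a w b f ∧ FS a m f ∧ FE lo w f := by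
  have h1 := h.lt
  have hU : ∀ b', b ≤ b' → Up lo m n w b' := fun b' k =>
    ⟨h.low, h.lt, h.le, h.mid, h.top, fun e => (h.top' e).trans k⟩
  obtain ⟨F, hF⟩ := Up.family (lo := lo) (h.lt.trans_le h.le)
  obtain ⟨T, hT⟩ : ∃ T, T = max b (2 * lo (w - 1) + |lo (w - 1 - 1)| + 1) := ⟨_, rfl⟩
  obtain ⟨_, ⟨a, b', rfl, a1, b1, b2, s1, s2⟩, hmax⟩ := Int.exists_greatest_of_bdd
    (P := fun k => ∃ a b', a + b' = k ∧ a ≤ m ∧ b ≤ b' ∧ b' ≤ T ∧
      1 < F a b' (m + 1) ∧ (b' = b ∨ F a (b' - 1) (w - 1) ≤ lo (w - 1)))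
    ⟨m + T, fun n ⟨a, b, e, k1, _, k2, _⟩ => by omega⟩
    ⟨_, 2 * m + 1 - n, b, rfl, by omega, le_rfl, by omega, h.three (hF _ _ (by omega)), Or.inl rfl⟩
  have hU' := hU b' b1
  refine ⟨a, b', F a b', hF a b' a1, ⟨a1, fun c c1 c2 => ⟨hU'.pos (hF a b' a1) a1 c (by omega) c1,
    (hU'.mono (hF a b' a1) c1.le c2).trans_lt (hU'.two (hF a b' a1) (hF (a + 1) b' (by omega))
      (by omega) (not_lt.1 fun k => ?_))⟩, s1⟩, ?_, ?_⟩
  · have := hmax _ ⟨a + 1, b', rfl, by omega, b1, b2, k, s2.imp_right fun k' => le_trans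
      ((hF a _ a1).le (hF (a + 1) _ (by omega)) (by omega) (by omega) (h.low _ (by omega)).ge le_rfl _
        (by omega) (by omega)) k'⟩
    omega
  · by_contra k
    have k1 : b' ≠ T := fun e => k (Tt_high (hF a b' a1) (by omega) (by omega))
    have := hmax _ ⟨a, b' + 1, rfl, a1, by omega, by omega, s1.trans_le
      ((hF a _ a1).le (hF a b' a1) le_rfl (by omega) (h.low _ a1).ge (by omega) _ (by omega)
        (by omega)), Or.inr (by rw [add_sub_cancel_right]; exact not_lt.1 k)⟩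
    omega
  · rcases s2 with rfl | k
    · exact hb a _ a1 (hF a _ a1)
    · exact TautB_four (hF a b' a1) (hF a _ a1) (by omega) k

theorem Up.free_both (h : Up lo m n w 2) (hw : m + 1 < w) (h1 : ∀ c, m < c → c < n → lo c = 1) :
    ∃ a b f, Tt lo a w b f ∧ FS a m f ∧ FE lo w f := by
  rcases h.le.eq_or_lt with rfl | e
  · refine h.free_aux hw fun a f ha hf => ?_
    by_contra k
    have e := hf.right
    rw [h1 _ (by omega) (by omega)] at k
    push_cast at e k
    have := TautB_down (d := fun c => f c - 1) (show a < n by omega) (fun c a1 a2 a3 => by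
      have b1 : (lo c : ℝ) ≤ 1 := by
        rcases le_or_gt c m with k | k
        · simp [h.low c k]
        · simp [h1 c k a2]
      linarith only [hf, a1, a2, a3, b1, hf.conv c a1 a2 (by linarith)]) (by linarith) (by linarith [not_lt.1 k])
    rw [hf.left] at this
    linarith
  · exact Up.free_aux (b := 2 * (lo (w - 1) + 1) - (|lo (w - 1 - 1)| + 1) - 1)
      ⟨h.low, h.lt, h.le, h.mid, h.top, fun k => absurd k e.ne⟩ hw
      fun a f ha hf => Tt_low hf (by omega) (by omega)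

/-- The channel in the coordinates `(ε x, κ (y - y₀))`. -/
def fr (lo : ℤ → ℤ) (ε κ y₀ c : ℤ) : ℤ := if κ = 1 then lo (ε * c) - y₀ else y₀ - 1 - lo (ε * c)

variable {G : Type} [Group G] {γ : ℤ → ℤ → G} {W : ℤ → G} {ε κ y₀ : ℤ}

theorem run_aux (hW : Pot (fun c => γ c (lo c)) W) (hε : ε = 1 ∨ ε = -1) (hκ : κ = 1 ∨ κ = -1)
    (hf : Tt (fr lo ε κ y₀) a w b f) (k : ℕ) : ∀ c y : ℤ, a ≤ c → c < w → w - c ≤ k → f c = y →
    ∃ (s t : Seg G) (P Q P' Q' : ℤ), s.ok γ ∧ Chain γ s t ∧ s = ⟨ε * c, y₀ + κ * y, ε * P, κ * Q, W⟩ ∧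
      t = ⟨ε * (w - P'), y₀ + κ * (b - Q'), ε * P', κ * Q', W⟩ ∧ 0 < P ∧ 0 < P' ∧ c + P ≤ w ∧
      c ≤ w - P' ∧ (∀ x, c ≤ x → x ≤ c + P → (f x - y) * P = (x - c) * Q) ∧
      (∀ x, w - P' ≤ x → x ≤ w → (b - f x) * P' = (w - x) * Q') ∧
      (c + P = w ∨ f (c + P) = fr lo ε κ y₀ (c + P) + 1 ∨ f (c + P) = fr lo ε κ y₀ (c + P)) ∧
      (w - P' = c ∨ f (w - P') = fr lo ε κ y₀ (w - P') + 1 ∨
        f (w - P') = fr lo ε κ y₀ (w - P')) := by
  induction k with
  | zero => intro c y _ h1 h2; omega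
  | succ k ih =>
    intro c y h0 h1 h2 hy
    obtain ⟨c', ⟨c1, c2⟩, hmin⟩ := Int.exists_least_of_bdd (P := fun x => c < x ∧
      (x = w ∨ f x = fr lo ε κ y₀ x + 1 ∨ f x = fr lo ε κ y₀ x)) ⟨c, fun _ k => k.1.le⟩
      ⟨w, h1, Or.inl rfl⟩
    have c3 : c' ≤ w := hmin w ⟨h1, Or.inl rfl⟩
    have hin : ∀ x, c < x → x < c' → fr lo ε κ y₀ x < f x ∧ f x < fr lo ε κ y₀ x + 1 := by
      intro x k1 k2
      have k3 := hf.mem x (by omega) (by omega)
      have k4 : ¬ (x = w ∨ f x = fr lo ε κ y₀ x + 1 ∨ f x = fr lo ε κ y₀ x) := fun k => by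
        have := hmin x ⟨k1, k⟩
        omega
      exact ⟨k3.1.lt_of_ne' fun e => k4 (Or.inr (Or.inr e)),
        k3.2.lt_of_ne fun e => k4 (Or.inr (Or.inl e))⟩
    obtain ⟨y', hy'⟩ : ∃ y' : ℤ, f c' = y' := by
      rcases c2 with rfl | e | e
      exacts [⟨b, hf.right⟩, ⟨fr lo ε κ y₀ c' + 1, by rw [e, Int.cast_add, Int.cast_one]⟩, ⟨_, e⟩]
    have hl := Taut_lin (u := c) (v := c') (f := f) fun x k1 k2 => le_antisymm
      (hf.conc x (by omega) (by omega) (hin x k1 k2).2) (hf.conv x (by omega) (by omega) (hin x k1 k2).1)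
    have l1 : f c' = f c + (c' - c) * (f (c + 1) - f c) := by
      obtain ⟨k1, k2⟩ := hl (c' - 1) (by omega) (by omega)
      rw [sub_add_cancel] at k2
      push_cast at k1
      linarith only [k2, k1]
    have l2 : ∀ x, c ≤ x → x ≤ c + (c' - c) → (f x - y) * (c' - c : ℤ) = (x - c) * (y' - y : ℤ) := by
      intro x k1 k2
      push_cast
      rw [← hy, ← hy', l1]
      rcases (show x ≤ c' by omega).eq_or_lt with rfl | e
      · rw [l1]
        ring
      · rw [(hl x k1 e).1]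
        ring
    have p0 : (0 : ℝ) < (c' - c : ℤ) := by exact_mod_cast sub_pos.2 c1
    have ok : Seg.ok γ ⟨ε * c, y₀ + κ * y, ε * (c' - c), κ * (y' - y), W⟩ := by
      refine ⟨lo, hW, fun t t0 t1 x e => ?_⟩
      have e1 : ((ε * x : ℤ) : ℝ) - c = t * (c' - c : ℤ) := by
        rcases hε with rfl | rfl <;> push_cast at e ⊢ <;> linarith only [e]
      have e2 : c < ε * x := by
        have : (c : ℝ) < (ε * x : ℤ) := by linarith [mul_pos t0 p0]
        exact_mod_cast this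
      have e3 : ε * x < c' := by
        have : ((ε * x : ℤ) : ℝ) < c + (c' - c : ℤ) := by linarith only [e1, p0, t1, mul_lt_of_lt_one_left p0 t1]
        have h' : ε * x < c + (c' - c) := by exact_mod_cast this
        omega
      have e4 := l2 _ e2.le (by omega)
      rw [e1, mul_right_comm, mul_left_inj' p0.ne'] at e4
      have e5 := hin _ e2 e3
      have e6 : ε * (ε * x) = x := by rcases hε with rfl | rfl <;> ring
      simp only [fr, e6] at e5
      rcases hκ with rfl | rfl <;> simp only [if_true, if_neg (show ¬ (-1 : ℤ) = 1 by omega)] at e5 <;>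
        push_cast at e4 e5 ⊢ <;> constructor <;> linarith only [e4, e5, e5.1, e5.2]
    rcases c3.eq_or_lt with rfl | c4
    · obtain rfl : y' = b := by exact_mod_cast hy'.symm.trans hf.right
      refine ⟨_, _, c' - c, y' - y, c' - c, y' - y, ok, Relation.ReflTransGen.refl, rfl,
        by rw [sub_sub_cancel, sub_sub_cancel], by omega, by omega, by omega, by omega, l2,
        fun x k1 k2 => ?_, Or.inl (by ring), Or.inl (by ring)⟩
      have := l2 x (by omega) (by omega)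
      push_cast at this ⊢
      linarith only [this]
    · obtain ⟨s, t, P, Q, P', Q', k1, k2, rfl, k4, k5, k6, k7, k8, k9, k10, -, k12⟩ :=
        ih c' y' (by omega) c4 (by omega) hy'
      have c5 := c2.resolve_left c4.ne
      refine ⟨_, t, c' - c, y' - y, P', Q', ok, Relation.ReflTransGen.head ?_ k2, rfl, k4, by omega, k6,
        by omega, by omega, l2, k10, Or.inr (by rwa [add_sub_cancel]), Or.inr ?_⟩
      · have m1 := k9 (c' + 1) (by omega) (by omega)
        have m2 := l2 (c' - 1) (by omega) (by omega)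
        have m3 : (0 : ℝ) < P := by exact_mod_cast k5
        have e6 : ε * ε = 1 := by rcases hε with rfl | rfl <;> ring
        push_cast at m1 m2 p0
        have m0 : ((c' : ℝ) - c) * P * (f (c' - 1) + f (c' + 1) - 2 * f c') =
            (c' - c) * Q - (y' - y) * P := by
          rw [hy']
          linear_combination ((c' : ℝ) - c) * m1 + P * m2
        rcases c5 with e | e
        · have m4 := hf.conv c' (by omega) c4 (by linarith only [e])
          have m5 : (y' - y) * P ≤ (c' - c) * Q := by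
            rw [← Int.cast_le (R := ℝ)]
            push_cast
            linarith only [m0, p0, m3, m4, mul_nonneg (mul_pos p0 m3).le (sub_nonneg.2 m4)]
          have m6 : y' = fr lo ε κ y₀ c' + 1 := by exact_mod_cast hy'.symm.trans e
          refine step_cross (d := ε) (δ := -κ) hW k1 rfl (by dsimp only; ring) (by dsimp only; ring)
            hε (by omega) ?_ ?_ ?_ ?_
          · rcases hε with rfl | rfl <;> dsimp only <;> linarith only [c1]
          · rcases hε with rfl | rfl <;> dsimp only <;> linarith only [k5]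
          · rcases hκ with rfl | rfl <;> simp [fr, pg] at m6 ⊢ <;> linarith only [m6]
          · rcases hε with rfl | rfl <;> rcases hκ with rfl | rfl <;> dsimp only <;> linarith only [m5]
        · have m4 := hf.conc c' (by omega) c4 (by linarith only [e])
          have m5 : (c' - c) * Q ≤ (y' - y) * P := by
            rw [← Int.cast_le (R := ℝ)]
            push_cast
            linarith only [m0, p0, m3, m4, mul_nonneg (mul_pos p0 m3).le (sub_nonneg.2 m4)]
          have m6 : y' = fr lo ε κ y₀ c' := by exact_mod_cast hy'.symm.trans e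
          refine step_cross (d := ε) (δ := κ) hW k1 rfl (by dsimp only; ring) (by dsimp only; ring)
            hε hκ ?_ ?_ ?_ ?_
          · rcases hε with rfl | rfl <;> dsimp only <;> linarith only [c1]
          · rcases hε with rfl | rfl <;> dsimp only <;> linarith only [k5]
          · rcases hκ with rfl | rfl <;> simp [fr, pg] at m6 ⊢ <;> linarith only [m6]
          · rcases hε with rfl | rfl <;> rcases hκ with rfl | rfl <;> dsimp only <;> linarith only [m5]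
      · rcases k12 with e | e
        · rwa [e]
        · exact e

/-- The chain of a taut string. -/
theorem run (hW : Pot (fun c => γ c (lo c)) W) (hε : ε = 1 ∨ ε = -1) (hκ : κ = 1 ∨ κ = -1)
    (hf : Tt (fr lo ε κ y₀) a w b f) (h : a < w) :
    ∃ s t : Seg G, s.ok γ ∧ Chain γ s t ∧ s.x = ε * a ∧ s.y = y₀ ∧ s.W = W ∧ t.W = W ∧
      t.x + t.p = ε * w ∧ t.y + t.q = y₀ + κ * b ∧ 0 < ε * s.p ∧ 0 < ε * t.p ∧
      (∀ m, m < w → (∀ c ≤ m, fr lo ε κ y₀ c = 0) → FS a m f → 2 ≤ κ * s.q ∧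
        (m - a) * (κ * s.q) < ε * s.p ∧ ε * s.p < (m + 1 - a) * (κ * s.q)) ∧
      (a + 1 < w → FE (fr lo ε κ y₀) w f → 2 ≤ ε * t.p ∧
        fr lo ε κ y₀ (w - 1) * (ε * t.p) < b * (ε * t.p) - κ * t.q ∧
        b * (ε * t.p) - κ * t.q < (fr lo ε κ y₀ (w - 1) + 1) * (ε * t.p)) := by
  obtain ⟨s, t, P, Q, P', Q', k1, k2, rfl, rfl, k5, k6, k7, k8, k9, k10, k11, k12⟩ :=
    run_aux hW hε hκ hf (w - a).toNat a 0 le_rfl h (by omega) (by simpa using hf.left)
  have e1 : ∀ x, ε * (ε * x) = x := fun x => by rcases hε with rfl | rfl <;> ring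
  have e2 : ∀ x, κ * (κ * x) = x := fun x => by rcases hκ with rfl | rfl <;> ring
  have p0 : (0 : ℝ) < P := by exact_mod_cast k5
  have p1 : (0 : ℝ) < P' := by exact_mod_cast k6
  refine ⟨_, _, k1, k2, rfl, by simp, rfl, rfl, by dsimp only; ring, by dsimp only; ring,
    by rwa [e1], by rwa [e1], fun m hm hl ⟨f1, f2, f3⟩ => ?_, fun h1 ⟨f1, f2⟩ => ?_⟩
  · simp only [e1, e2]
    have m1 : m + 1 ≤ a + P := by
      by_contra k
      have := f2 (a + P) (by omega) (by omega)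
      rw [hl _ (by omega)] at k11
      rcases k11 with e | e | e
      · omega
      · simp [e] at this
      · simp [e] at this
    have m2 := k9 (m + 1) (by omega) m1
    have m3 := k9 m f1 (by omega)
    have m4 : f m < 1 := by
      rcases f1.eq_or_lt with e | e
      · rw [← e, hf.left]
        exact one_pos
      · exact (f2 m e le_rfl).2
    have m5 : P < (m + 1 - a) * Q := by
      rw [← Int.cast_lt (R := ℝ)]
      push_cast at m2 ⊢
      linarith only [m2, p0, f3, mul_pos_of_neg_of_neg (Mathlib.Tactic.Linarith.sub_neg_of_lt p0) (Mathlib.Tactic.Linarith.sub_neg_of_lt f3)]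
    refine ⟨by (refine le_of_not_gt fun h_nl => ?_; linarith only [h_nl, m1, m5, f1, mul_nonneg_of_nonpos_of_nonpos (Mathlib.Tactic.Linarith.sub_nonpos_of_le f1) (Mathlib.Tactic.Linarith.sub_nonpos_of_le (Int.add_one_le_iff.mpr h_nl))]), ?_, m5⟩
    rw [← Int.cast_lt (R := ℝ)]
    push_cast at m3 ⊢
    linarith only [m3, p0, m4, mul_pos_of_neg_of_neg (Mathlib.Tactic.Linarith.sub_neg_of_lt p0) (Mathlib.Tactic.Linarith.sub_neg_of_lt m4)]
  · simp only [e1, e2]
    have m1 : 2 ≤ P' := by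
      by_contra k
      obtain rfl : P' = 1 := by omega
      rcases k12 with e | e | e
      · omega
      · exact f2.ne e
      · exact f1.ne' e
    have m2 := k10 (w - 1) (by omega) (by omega)
    refine ⟨m1, ?_, ?_⟩ <;> rw [← Int.cast_lt (R := ℝ)] <;> push_cast at m2 ⊢ <;> linarith only [m2, p1, f1, f2, mul_pos_of_neg_of_neg (Mathlib.Tactic.Linarith.sub_neg_of_lt p1) (Mathlib.Tactic.Linarith.sub_neg_of_lt f1), mul_pos_of_neg_of_neg (Mathlib.Tactic.Linarith.sub_neg_of_lt p1) (Mathlib.Tactic.Linarith.sub_neg_of_lt f2)]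

end AllOne
end

-- merged part: Pool.Agent.Work.MP_d5331a_gt.A1.Word
section
/-!
The chain of a reduced word.
-/

set_option autoImplicit false

namespace AllOne

open OneOne

theorem exists_pre (P : ℕ → Prop) {i j : ℕ} (h : i ≤ j) :
    ∃ r, i ≤ r ∧ r ≤ j ∧ (∀ k, i ≤ k → k < r → P k) ∧ (r < j → ¬ P r) := by
  induction j, h using Nat.le_induction with
  | base => exact ⟨i, le_rfl, le_rfl, fun k h1 h2 => by omega, fun h => by omega⟩
  | succ j h ih =>
    obtain ⟨r, h1, h2, h3, h4⟩ := ih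
    by_cases k : P r
    · obtain rfl : r = j := by
        by_contra e
        exact h4 (by omega) k
      exact ⟨r + 1, by omega, le_rfl, fun x x1 x2 => if e : x = r then e ▸ k else h3 x x1 (by omega),
        fun e => by omega⟩
    · exact ⟨r, h1, by omega, h3, fun _ => k⟩

theorem exists_suf (P : ℕ → Prop) (N : ℕ) :
    ∃ B ≤ N, (∀ k, B ≤ k → k < N → P k) ∧ ∀ k, B = k + 1 → ¬ P k := by
  induction N with
  | zero => exact ⟨0, le_rfl, fun k _ h => by omega, fun k h => by omega⟩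
  | succ N ih =>
    obtain ⟨B, h1, h2, h3⟩ := ih
    by_cases k : P N
    · exact ⟨B, by omega, fun x x1 x2 => if e : x = N then e ▸ k else h2 x x1 (by omega), h3⟩
    · exact ⟨N + 1, le_rfl, fun x x1 x2 => by omega, fun x e => by rwa [show x = N by omega]⟩

variable {G : Type} [Group G] (g : ℤ → ℤ → G)

/-- A reduced word: letter `i` crosses the gate `(c i, lv i)` in the direction `d i`, from the cell
`st i` with the value `H i`. -/
structure Wd (N : ℕ) (c lv d st : ℕ → ℤ) (H : ℕ → G) : Prop where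
  dir : ∀ i, d i = 1 ∨ d i = -1
  val : ∀ i < N, H (i + 1) = cr g (c i) (lv i) (d i) (H i)
  src : ∀ i < N, st i = cb (c i) (d i)
  tgt : ∀ i < N, st (i + 1) = ca (c i) (d i)
  red' : ∀ i, i + 1 < N → d (i + 1) ≠ d i → c (i + 1) = c i → lv (i + 1) ≠ lv i

/-- The chain has dealt with the letters up to a turn after `i`, or up to the letter `j`. -/
def Nx (c lv d : ℕ → ℤ) (H : ℕ → G) (s : Seg G) (i j : ℕ) : Prop :=
  ColA g s (c j) (lv j) (d j) (H (j + 1)) ∨ ∃ (r : ℕ) (δ : ℤ), i ≤ r ∧ r < j ∧ d (r + 1) ≠ d r ∧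
    (δ = 1 ∨ δ = -1) ∧ St g s (c (r + 1)) (lv (r + 1)) (d (r + 1)) δ (H (r + 1))

variable {g} {N : ℕ} {c lv d st : ℕ → ℤ} {H : ℕ → G} (h : Wd g N c lv d st H)
include h

theorem Wd.same {i : ℕ} (hi : i + 1 < N) (e : d (i + 1) = d i) : c (i + 1) = c i + d i := by
  have h1 := (h.src _ hi).symm.trans (h.tgt i (by omega))
  rw [e] at h1
  rcases h.dir i with k | k <;> simp [k, ca, cb] at h1 ⊢ <;> omega

theorem Wd.opp {i : ℕ} (hi : i + 1 < N) (e : d (i + 1) ≠ d i) :
    c (i + 1) = c i ∧ d (i + 1) = -d i := by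
  have h1 := (h.src _ hi).symm.trans (h.tgt i (by omega))
  rcases h.dir i with k | k <;> rcases h.dir (i + 1) with k' | k' <;>
    simp [k, k', ca, cb] at h1 e ⊢ <;> omega

theorem Wd.red (i : ℕ) (hi : i + 1 < N) (e : d (i + 1) ≠ d i) : lv (i + 1) ≠ lv i :=
  h.red' i hi e (h.opp hi e).1

theorem Wd.run_end {i j : ℕ} (hij : i ≤ j) : ∃ r, i ≤ r ∧ r ≤ j ∧
    (∀ k, i ≤ k → k ≤ r → d k = d i) ∧ (r < j → d (r + 1) ≠ d r) := by
  obtain ⟨r, h1, h2, h3, h4⟩ := exists_pre (fun k => d (k + 1) = d k) hij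
  refine ⟨r, h1, h2, fun k k1 => ?_, h4⟩
  induction k, k1 using Nat.le_induction with
  | base => exact fun _ => rfl
  | succ k k1 ih => exact fun k2 => (h3 k k1 k2).trans (ih (by omega))

theorem Wd.chan {i r : ℕ} (hr : r < N) (he : ∀ k, i ≤ k → k ≤ r → d k = d i) (l : ℤ) :
    ∃ (lo : ℤ → ℤ) (W : ℤ → G), Pot (fun x => g x (lo x)) W ∧
      (∀ k, i ≤ k → k ≤ r → d i * c k = d i * c i + (k - i) ∧ lo (c k) = lv k) ∧
      (∀ k, i ≤ k → k ≤ r + 1 → W (st k) = H k) ∧ ∀ x, d i * x < d i * c i → lo x = l := by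
  obtain ⟨W, hW, e⟩ := exists_pot (fun x => g x (if d i * x < d i * c i then l else
    lv (i + (d i * x - d i * c i).toNat))) (st i) (H i)
  have h1 : ∀ k, i ≤ k → k ≤ r → d i * c k = d i * c i + (k - i) := fun k k1 => by
    induction k, k1 using Nat.le_induction with
    | base => exact fun _ => by ring
    | succ k k1 ih =>
      intro k2
      rw [h.same (by omega) ((he _ (by omega) k2).trans (he k k1 (by omega)).symm),
        he k k1 (by omega), mul_add, ih (by omega)]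
      rcases h.dir i with e | e <;> rw [e] <;> push_cast <;> ring
  have h2 : ∀ k, i ≤ k → k ≤ r → (if d i * c k < d i * c i then l else
      lv (i + (d i * c k - d i * c i).toNat)) = lv k := fun k k1 k2 => by
    rw [h1 k k1 k2, if_neg (by omega)]
    congr 1
    omega
  refine ⟨_, W, hW, fun k k1 k2 => ⟨h1 k k1 k2, h2 k k1 k2⟩, fun k k1 => ?_, fun x hx => if_pos hx⟩
  induction k, k1 using Nat.le_induction with
  | base => exact fun _ => e
  | succ k k1 ih =>
    intro k2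
    rw [h.tgt k (by omega), hW.cross, h2 k k1 (by omega), ← h.src k (by omega), ih (by omega),
      h.val k (by omega)]

theorem Wd.sgn {r : ℕ} (hr : r + 1 < N) (e : d (r + 1) ≠ d r) :
    ∃ δ : ℤ, (δ = 1 ∨ δ = -1) ∧ 0 < δ * (lv (r + 1) - lv r) := by
  rcases (h.red r hr e).lt_or_gt with k | k
  · exact ⟨-1, Or.inr rfl, by omega⟩
  · exact ⟨1, Or.inl rfl, by omega⟩

theorem Wd.arrive {r : ℕ} (hr : r + 1 < N) (e : d (r + 1) ≠ d r) {δ : ℤ} (hδ : δ = 1 ∨ δ = -1)
    (hl : 0 < δ * (lv (r + 1) - lv r)) {s t : Seg G} (hc : Chain g s t) (hx : t.x + t.p = c r)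
    (hy : t.y + t.q = pg (-δ) (lv r)) (hp : 0 < d r * t.p) (hW : t.W (st r) = H r) :
    St g s (c (r + 1)) (lv (r + 1)) (d (r + 1)) δ (H (r + 1)) := by
  rw [(h.opp hr e).1, (h.opp hr e).2, h.val r (by omega)]
  exact (St.arrive hc (h.dir r) hδ hx hy hp (h.src r (by omega) ▸ hW)).climb hδ hl

theorem Wd.step {i j : ℕ} (hij : i < j) (hj : j < N) {s : Seg G} {δ : ℤ} (hδ : δ = 1 ∨ δ = -1)
    (hs : St g s (c i) (lv i) (d i) δ (H i)) : Nx g c lv d H s i j := by
  obtain ⟨r, r1, r2, r3, r4⟩ := h.run_end hij.le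
  obtain ⟨lo, W, hW, w1, w2, -⟩ := h.chan (r2.trans_lt hj) r3 0
  have e1 : ∀ x, d i * (d i * x) = x := fun x => by rcases h.dir i with e | e <;> rw [e] <;> ring
  have w3 := w1 r r1 le_rfl
  have hrun : ∀ s' : Seg G, s'.ok g → s'.x = d i * (d i * c i) → s'.y = pg δ (lv i) → s'.W = W →
      0 < d i * s'.p → Chain g s s' := fun s' k1 k2 k3 k4 k5 => hs.run hδ k1 (k2.trans (e1 _)) k3 k5
        (by rw [k4, ← h.tgt i (by omega), w2 _ (by omega) (by omega), h.val i (by omega)])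
  rcases r2.eq_or_lt with rfl | r2
  · obtain ⟨b, f, hf, hE⟩ := free_end (fr lo (d i) 1 (pg δ (lv i))) (a := d i * c i)
      (w := d i * c r + 1) (by omega)
    obtain ⟨s', t, k1, k2, k3, k4, k5, k6, k7, k8, k9, -, -, k⟩ :=
      run hW (h.dir i) (Or.inl rfl) hf (by omega)
    obtain ⟨m1, m2, m3⟩ := k (by omega) hE
    simp only [fr, add_sub_cancel_right, e1, if_true, w3.2] at m2 m3
    refine Or.inl ⟨t, (hrun s' k1 k3 k4 k5 k9).trans k2, ?_, ?_⟩
    · rw [k7, mul_add, e1, r3 r r1 le_rfl, mul_one]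
    · rw [k8, r3 r r1 le_rfl]
      refine ⟨m1, by linarith only [m2], by linarith only [m3], ?_⟩
      rw [k6, ← r3 r r1 le_rfl, ← h.tgt r hj, w2 _ (by omega) le_rfl]
  · obtain ⟨δ', h1, h2⟩ := h.sgn (by omega) (r4 r2)
    refine Or.inr ⟨r, δ', r1, r2, r4 r2, h1, ?_⟩
    rcases r1.eq_or_lt with rfl | r1'
    · rw [(h.opp (by omega) (r4 r2)).1, (h.opp (by omega) (r4 r2)).2, h.val i (by omega)]
      exact (hs.turn hδ h1).climb h1 h2
    · obtain ⟨f, hf⟩ := exists_Tt (fr lo (d i) 1 (pg δ (lv i))) (a := d i * c i) (w := d i * c r)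
        (by omega) (pg (-δ') (lv r) - pg δ (lv i))
      obtain ⟨s', t, k1, k2, k3, k4, k5, k6, k7, k8, k9, k10, -⟩ :=
        run hW (h.dir i) (Or.inl rfl) hf (by omega)
      exact h.arrive (by omega) (r4 r2) h1 h2 ((hrun s' k1 k3 k4 k5 k9).trans k2) (k7.trans (e1 _))
        (by omega) (by rwa [r3 r r1 le_rfl]) (by rw [k6, w2 r r1 (by omega)])

theorem Wd.mid {j : ℕ} (hj : j < N) {s : Seg G} (n : ℕ) : ∀ i, j - i ≤ n →
    (∀ r, i ≤ r → r + 1 = j → d (r + 1) = d r) → Nx g c lv d H s i j →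
    ColA g s (c j) (lv j) (d j) (H (j + 1)) := by
  induction n with
  | zero =>
    rintro i h1 - (k | ⟨r, -, k1, k2, -⟩)
    · exact k
    · omega
  | succ n ih =>
    rintro i h1 h2 (k | ⟨r, δ, k1, k2, k3, k4, k5⟩)
    · exact k
    · have : r + 1 ≠ j := fun e => k3 (h2 r k1 e)
      exact ih (r + 1) (by omega) (fun x x1 => h2 x (by omega)) (h.step (by omega) hj k4 k5)

theorem Wd.first {κ : ℤ} (hκ : κ = 1 ∨ κ = -1) {i A j : ℕ} (hij : i ≤ j) (hj : j < N) (hA : i ≤ A)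
    (h1 : ∀ k, i ≤ k → k < A → (if κ = 1 then lv k else 1 - lv k) = 1)
    (h2 : A < N → 2 ≤ if κ = 1 then lv A else 1 - lv A) {Z : ℤ → G}
    (hZ : Pot (fun c => g c (if κ = 1 then 0 else 1)) Z) (e : Z (st i) = H i) :
    ∃ s, RowA g s κ (st i) Z ∧ Nx g c lv d H s i j := by
  obtain ⟨r, r1, r2, r3, r4⟩ := h.run_end hij
  obtain ⟨lo, W, hW, w1, w2, w0⟩ := h.chan (r2.trans_lt hj) r3 (if κ = 1 then 0 else 1)
  have e1 : ∀ x, d i * (d i * x) = x := fun x => by rcases h.dir i with e | e <;> rw [e] <;> ring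
  have w3 := w1 r r1 le_rfl
  have f0 : ∀ x, fr lo (d i) κ (1 - κ) x = if κ = 1 then lo (d i * x) else 1 - lo (d i * x) :=
    fun x => by rcases hκ with rfl | rfl <;> simp [fr]
  have f1 : ∀ x ≤ d i * c i - 1, fr lo (d i) κ (1 - κ) x = 0 := fun x hx => by
    rw [f0, w0 _ (by rw [e1]; omega)]
    rcases hκ with rfl | rfl <;> simp
  have f2 : ∀ k, i ≤ k → k ≤ r → fr lo (d i) κ (1 - κ) (d i * c k) =
      if κ = 1 then lv k else 1 - lv k := fun k k1 k2 => by rw [f0, e1, (w1 k k1 k2).2]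
  have f3 : ∀ x, d i * c i - 1 < x → x ≤ d i * c r → x < d i * c i + (A - i) →
      fr lo (d i) κ (1 - κ) x = 1 := fun x x1 x2 x3 => by
    obtain ⟨k, k1, rfl⟩ : ∃ k : ℕ, i ≤ k ∧ x = d i * c i + (k - i) :=
      ⟨i + (x - d i * c i).toNat, by omega, by omega⟩
    rw [← (w1 k k1 (by omega)).1, f2 k k1 (by omega), h1 k k1 (by omega)]
  have f4 : A ≤ r → 2 ≤ fr lo (d i) κ (1 - κ) (d i * c i + (A - i)) := fun k => by
    rw [← (w1 A hA k).1, f2 A hA k]
    exact h2 (by omega)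
  have hrow : ∀ (s : Seg G) (a : ℤ), s.ok g → s.x = d i * a → s.y = 1 - κ → s.W = W →
      0 < d i * s.p → a ≤ d i * c i - 1 → 2 ≤ κ * s.q ∧
        (d i * c i - 1 - a) * (κ * s.q) < d i * s.p ∧
        d i * s.p < (d i * c i - 1 + 1 - a) * (κ * s.q) → RowA g s κ (st i) Z := by
    rintro s a k1 k2 k3 k4 k5 k6 ⟨m1, m2, m3⟩
    have m4 := (w2 i le_rfl (by omega)).trans e.symm
    rw [h.src i (by omega)] at m4 ⊢
    refine ⟨k1, k3, m1, ?_⟩
    rw [k2, k4]
    rcases h.dir i with e | e <;> simp only [e, cb, if_true, if_neg (show ¬ (-1 : ℤ) = 1 by omega)]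
      at m2 m3 m4 k5 k6 w0 ⊢ <;> refine ⟨by linarith only [m2, m3], by linarith only [m3, m2], ?_⟩
    · rw [if_pos (by omega)]
      exact hW.down hZ m4 (by omega) fun x _ x1 => by rw [w0 x (by omega)]
    · rw [if_neg (by omega)]
      exact hW.up hZ m4 (by omega) fun x x1 _ => by rw [w0 x (by omega)]
  rcases r2.eq_or_lt with rfl | r2
  · obtain ⟨a, b, f, hf, hS, hE⟩ := Up.free_both (lo := fr lo (d i) κ (1 - κ)) (m := d i * c i - 1)
      (n := min (d i * c i + (A - i)) (d i * c r + 1)) (w := d i * c r + 1)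
      ⟨f1, by omega, by omega, fun x x1 x2 => (f3 x x1 (by omega) (by omega)).ge, fun k => by
        rw [min_eq_left (by omega)]
        exact f4 (by omega), fun _ => le_rfl⟩ (by omega) fun x x1 x2 => f3 x x1 (by omega) (by omega)
    have := hS.1
    obtain ⟨s, t, k1, k2, k3, k4, k5, k6, k7, k8, k9, -, k10, k⟩ :=
      run hW (h.dir i) hκ hf (by omega)
    obtain ⟨m1, m2, m3⟩ := k (by omega) hE
    rw [add_sub_cancel_right, f2 r r1 le_rfl] at m2 m3
    refine ⟨s, hrow s a k1 k3 k4 k5 k9 this (k10 _ (by omega) f1 hS), Or.inl ⟨t, k2, ?_, ?_⟩⟩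
    · rw [k7, mul_add, e1, r3 r r1 le_rfl, mul_one]
    · rw [k8, r3 r r1 le_rfl]
      refine ⟨m1, ?_, ?_, ?_⟩
      · rcases hκ with rfl | rfl <;> simp at m2 m3 ⊢ <;> linarith only [m2, m3]
      · rcases hκ with rfl | rfl <;> simp at m2 m3 ⊢ <;> linarith only [m3, m2]
      · rw [k6, ← r3 r r1 le_rfl, ← h.tgt r hj, w2 _ (by omega) le_rfl]
  · obtain ⟨δ, d1, d2⟩ := h.sgn (by omega) (r4 r2)
    obtain ⟨a, f, hf, hS⟩ := Up.free_start (lo := fr lo (d i) κ (1 - κ)) (m := d i * c i - 1)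
      (n := min (d i * c i + (A - i)) (d i * c r)) (w := d i * c r)
      (b := κ * (pg (-δ) (lv r) - (1 - κ)))
      ⟨f1, by omega, by omega, fun x x1 x2 => (f3 x x1 (by omega) (by omega)).ge, fun k => by
        rw [min_eq_left (by omega)]
        exact f4 (by omega), fun k => by
        rcases (show r ≤ A by omega).eq_or_lt with rfl | k1
        · have := h2 (by omega)
          rcases hκ with rfl | rfl <;> rcases d1 with rfl | rfl <;> simp [pg] at this ⊢ <;> omega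
        · have k2 := h1 r r1 k1
          rcases (show r + 1 ≤ A from k1).eq_or_lt with rfl | k3
          · have := h2 (by omega)
            rcases hκ with rfl | rfl <;> rcases d1 with rfl | rfl <;> simp [pg] at this k2 ⊢ <;> omega
          · have := h1 (r + 1) (by omega) k3
            rcases hκ with rfl | rfl <;> rcases d1 with rfl | rfl <;> simp [pg] at this k2 ⊢ <;>
              omega⟩
    have := hS.1
    obtain ⟨s, t, k1, k2, k3, k4, k5, k6, k7, k8, k9, k10, k, -⟩ :=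
      run hW (h.dir i) hκ hf (by omega)
    exact ⟨s, hrow s a k1 k3 k4 k5 k9 this (k _ (by omega) f1 hS), Or.inr ⟨r, δ, r1, r2, r4 r2, d1,
      h.arrive (by omega) (r4 r2) d1 d2 k2 (k7.trans (e1 _)) (by rcases hκ with rfl | rfl <;> omega)
        (by rwa [r3 r r1 le_rfl]) (by rw [k6, w2 r r1 (by omega)])⟩⟩

theorem Wd.tail {j : ℕ} {s : Seg G} (hs : ColA g s (c j) (lv j) (d j) (H (j + 1))) {n : ℕ}
    (hn : j ≤ n) : n < N → (∀ k, j ≤ k → k ≤ n → c k = c j) →
      ColA g s (c n) (lv n) (d n) (H (n + 1)) := by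
  induction n, hn using Nat.le_induction with
  | base => exact fun _ _ => hs
  | succ n hn ih =>
    intro h1 h2
    have h3 : d (n + 1) ≠ d n := fun e => by
      have := h.same h1 e
      rw [h2 _ (by omega) le_rfl, h2 n hn (by omega)] at this
      have := h.dir n
      omega
    rw [h.val _ h1, (h.opp h1 h3).1, (h.opp h1 h3).2]
    exact (ih (by omega) fun k k1 k2 => h2 k k1 (by omega)).bounce (h.dir n) (h.red n h1 h3)

theorem Wd.back {W : ℤ → G} (hW : Pot (fun c => g c 0) W) (h0 : W (st 0) = H 0) (i : ℕ) :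
    i ≤ N → (∀ k < i, lv k = 0 ∨ lv k = 1) → ∀ (κ m : ℤ) (s : Seg G) (Z : ℤ → G),
      (κ = 1 ∨ κ = -1) → RowA g s κ m Z → Pot (fun c => g c (if κ = 1 then 0 else 1)) Z →
      Z (st i) = H i → (m ≠ st i ∨ (i = 0 → κ = 1) ∧ ∀ k, i = k + 1 → lv k = if κ = 1 then 0 else 1) →
      (∀ k, i = k + 1 → lv k = (if κ = 1 then 0 else 1) → 0 ≤ d k * (m - st i)) →
      ∃ s' m', Chain g s' s ∧ RowA g s' 1 m' W := by
  induction i with
  | zero =>
    rintro - - κ m s Z (rfl | rfl) h1 h2 h3 h4 -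
    · obtain rfl : Z = W := funext (h2.eq hW (h3.trans h0.symm))
      exact ⟨s, m, Relation.ReflTransGen.refl, h1⟩
    · obtain ⟨s', k1, k2⟩ := h1.bounce (Or.inr rfl) h2 (Z' := W) hW
        (h4.resolve_right fun k => by simpa using k.1 rfl).symm (h0.trans h3.symm)
      exact ⟨s', _, Relation.ReflTransGen.single k1, k2⟩
  | succ i ih =>
    intro hi hl
    have e : st (i + 1) = st i + d i := by
      rw [h.src i hi, h.tgt i hi]
      rcases h.dir i with k | k <;> simp [k, ca, cb] <;> omega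
    have key : ∀ (κ m : ℤ) (s : Seg G) (Z : ℤ → G), (κ = 1 ∨ κ = -1) → RowA g s κ m Z →
        Pot (fun c => g c (if κ = 1 then 0 else 1)) Z → Z (st (i + 1)) = H (i + 1) →
        lv i = (if κ = 1 then 0 else 1) → 0 ≤ d i * (m - st (i + 1)) →
        ∃ s' m', Chain g s' s ∧ RowA g s' 1 m' W := fun κ m s Z hκ h1 h2 h3 h4 h5 => by
      have h6 : 0 < d i * (m - st i) := by rcases h.dir i with k | k <;> rw [e, k] at h5 <;> rw [k] <;> omega
      refine ih (by omega) (fun k hk => hl k (by omega)) κ m s Z hκ h1 h2 ?_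
        (Or.inl fun k => by simp [k] at h6) ?_
      · rw [h.tgt i hi, h2.cross (lo := fun _ => _), h.val i hi, ← h.src i hi, h4] at h3
        unfold cr at h3
        split_ifs at h3 <;> exact mul_right_cancel h3
      · rintro k rfl h7
        have h8 : d (k + 1) = d k := by
          by_contra h8
          exact h.red k hi h8 (h4.trans h7.symm)
        exact h8 ▸ h6.le
    intro κ m s Z hκ h1 h2 h3 h4 h5
    by_cases k : lv i = if κ = 1 then 0 else 1
    · exact key κ m s Z hκ h1 h2 h3 k (h5 i rfl k)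
    · obtain ⟨Z', k1, k2⟩ := exists_pot (fun c => g c (if -κ = 1 then 0 else 1)) (st (i + 1))
        (H (i + 1))
      obtain ⟨s', k3, k4⟩ := h1.bounce hκ h2 k1 (h4.resolve_right fun k' => k (k'.2 i rfl)).symm
        (k2.trans h3.symm)
      obtain ⟨s'', m', k5, k6⟩ := key (-κ) _ s' Z' (by omega) k4 k1 k2 (by
        have := hl i (by omega)
        rcases hκ with rfl | rfl <;> simp at k ⊢ <;> omega) (by simp)
      exact ⟨s'', m', k5.tail k3, k6⟩

/-- The chain of a normalised word. -/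
theorem Wd.chain {W : ℤ → G} (hW : Pot (fun c => g c 0) W) (h0 : W (st 0) = H 0) {n : ℕ}
    (hN : N = n + 1) (hl : 1 ≤ lv 0) (hd : d n = 1) : ∃ s t m, Chain g s t ∧ RowA g s 1 m W ∧
      t.x + t.p = st N + 1 ∧ 2 ≤ t.p ∧ t.W (st N) = H N := by
  obtain ⟨A, -, a1, a2, a3⟩ := exists_pre (fun k => lv k = 0 ∨ lv k = 1) (Nat.zero_le N)
  obtain ⟨κ, hκ, b1, b2⟩ : ∃ κ : ℤ, (κ = 1 ∨ κ = -1) ∧
      (A < N → 2 ≤ if κ = 1 then lv A else 1 - lv A) ∧
      (A = N → (if κ = 1 then lv n else 1 - lv n) = 1) := by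
    rcases a1.eq_or_lt with e | e
    · rcases a2 n (by omega) (by omega) with k | k
      · exact ⟨-1, Or.inr rfl, by omega, fun _ => by simp [k]⟩
      · exact ⟨1, Or.inl rfl, by omega, fun _ => by simp [k]⟩
    · have := a3 e
      rcases le_or_gt 2 (lv A) with k | k
      · exact ⟨1, Or.inl rfl, fun _ => by simpa using k, by omega⟩
      · exact ⟨-1, Or.inr rfl, fun _ => by simp; omega, by omega⟩
  obtain ⟨i, i1, i2, i3⟩ := exists_suf (fun k => (if κ = 1 then lv k else 1 - lv k) = 1) A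
  obtain ⟨B, j1, j2, j3⟩ := exists_suf (fun k => c k = c n) N
  have i4 : i ≤ n := by
    by_contra k
    exact i3 n (by omega) (b2 (by omega))
  have j4 : B ≤ n := by
    by_contra k
    exact j3 n (by omega) rfl
  obtain ⟨Z, hZ, e⟩ := exists_pot (fun c => g c (if κ = 1 then 0 else 1)) (st i) (H i)
  obtain ⟨s, s1, s2⟩ := h.first hκ (le_max_left i B) (by omega) i1 i2 b1 hZ e
  obtain ⟨t, t1, t2, t3, -, -, t4⟩ := h.tail (h.mid (by omega) _ i le_rfl (fun r r1 r2 => by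
    by_contra k
    exact j3 r (by omega) ((h.opp (by omega) k).1.symm.trans (j2 _ (by omega) (by omega)))) s2)
    (n := n) (by omega) (by omega) fun k k1 k2 =>
      (j2 k (by omega) (by omega)).trans (j2 _ (by omega) (by omega)).symm
  have c1 : i = 0 → κ = 1 := fun k => hκ.resolve_right fun e => by
    subst e k
    rcases Nat.eq_zero_or_pos A with rfl | k
    · have := b1 (by omega)
      simp at this
      omega
    · have := i2 0 le_rfl k
      simp at this
      omega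
  have c2 : ∀ k, i = k + 1 → lv k = if κ = 1 then 0 else 1 := fun k hk => by
    have k1 := i3 k hk
    have k2 := a2 k (by omega) (by omega)
    rcases hκ with rfl | rfl <;> simp at k1 ⊢ <;> omega
  obtain ⟨s', m, k1, k2⟩ := h.back hW h0 i (by omega) (fun k hk => a2 k (by omega) (by omega)) κ _ s Z
    hκ s1 hZ e (Or.inr ⟨c1, c2⟩) (by simp)
  have e1 := h.tgt n (by omega)
  rw [← hN, hd] at e1
  rw [hd, ← e1, ← hN] at t4
  exact ⟨s', t, m, k1.trans t1, k2, by simpa [hd, e1, ca] using t2, by simpa [hd] using t3, t4⟩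

end AllOne
end

-- merged part: Pool.Agent.Work.MP_d5331a_gt.A1.Main
section
/-!
Induction on the length of the word of a path.
-/

set_option autoImplicit false

open Complex Set

namespace AllOne

open Neuwirth OneOne

theorem walk_get {u v : ℤ} {L : List ((ℤ × ℤ) × Bool)} (hw : Walk gs gt u L v) :
    ∃ st : ℕ → ℤ, st 0 = u ∧ st L.length = v ∧ ∀ i (hi : i < L.length),
      st i = dsrc gs gt L[i] ∧ st (i + 1) = dtgt gs gt L[i] := by
  induction hw with
  | nil u => exact ⟨fun _ => u, rfl, rfl, fun i hi => absurd hi (by simp)⟩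
  | cons d _ ih =>
    obtain ⟨st, h1, h2, h3⟩ := ih
    refine ⟨fun i => Nat.casesOn i (dsrc gs gt d) st, rfl, h2, fun i hi => ?_⟩
    cases i with
    | zero => exact ⟨rfl, h1⟩
    | succ i => exact h3 i (by simpa using hi)

variable {G : Type} [Group G] {g : ℤ → ℤ → G}

theorem exists_wd {u v : ℤ} {L : List ((ℤ × ℤ) × Bool)} (hw : Walk gs gt u L v) (hr : Reduced L)
    (U : G) : ∃ (c lv d st : ℕ → ℤ) (H : ℕ → G), Wd g L.length c lv d st H ∧ st 0 = u ∧
      st L.length = v ∧ H 0 = U ∧ H L.length = U * wv g L ∧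
      ∀ i (hi : i < L.length), lv i = L[i].1.2 ∧ d i = if L[i].2 then 1 else -1 := by
  obtain ⟨st, h1, h2, h3⟩ := walk_get hw
  have e : ∀ i (hi : i < L.length), L.getD i ((0, 0), true) = L[i] := fun i hi =>
    List.getD_eq_getElem _ _ hi
  refine ⟨fun i => (L.getD i ((0, 0), true)).1.1, fun i => (L.getD i ((0, 0), true)).1.2,
    fun i => if (L.getD i ((0, 0), true)).2 then 1 else -1, st, fun i => U * wv g (L.take i),
    ⟨fun i => ?_, fun i hi => ?_, fun i hi => ?_, fun i hi => ?_, fun i hi k1 k2 k3 => ?_⟩, h1, h2,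
    by simp [wv_nil], by simp, fun i hi => by simp only [e i hi, and_self]⟩
  · split_ifs <;> simp
  · rw [List.take_succ_eq_append_getElem hi, wv_append, wv_cons, wv_nil, e i hi, mul_one, cr,
      ← mul_assoc]
    cases L[i].2 <;> simp
  · rw [(h3 i hi).1, e i hi, dsrc, cb]
    cases L[i].2 <;> simp [gs, gt]
  · rw [(h3 i hi).2, e i hi, dtgt, ca]
    cases L[i].2 <;> simp [gs, gt]
  · rw [e i (by omega), e _ hi] at k1 k2 k3
    refine List.isChain_iff_getElem.1 hr i hi (Prod.ext (Prod.ext k2 k3) ?_)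
    revert k1
    cases L[i].2 <;> cases L[i + 1].2 <;> simp

theorem Chain.seq {s t : Seg G} (h : Chain g s t) : ∃ l, 1 ≤ l ∧ ∃ T : ℕ → Seg G, T 1 = s ∧
    T l = t ∧ ∀ j, 1 ≤ j → j < l → Step g (T j) (T (j + 1)) := by
  induction h with
  | refl => exact ⟨1, le_rfl, fun _ => s, rfl, rfl, fun j h1 h2 => by omega⟩
  | @tail b c _ h ih =>
    obtain ⟨l, h1, T, rfl, rfl, h4⟩ := ih
    refine ⟨l + 1, by omega, fun i => if i ≤ l then T i else c, if_pos h1, if_neg (by omega),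
      fun j j1 j2 => ?_⟩
    rcases (show j ≤ l by omega).eq_or_lt with rfl | k
    · simpa using h
    · simpa [k.le, show j + 1 ≤ l from k] using h4 j j1 k

theorem Rep.concl_of {w u : ℤ} {γ : ℝ → ℂ} {L : List ((ℤ × ℤ) × Bool)} (h : Rep w γ u L)
    (hm : ∀ (G : Type) [Group G] (g : ℤ → ℤ → G) (W : ℤ → G), Pot (fun c => g c 0) W →
      ∃ l, 1 ≤ l ∧ ∃ T : ℕ → Seg G, (T 1).ok g ∧
        (∀ j, 1 ≤ j → j < l → Step g (T j) (T (j + 1))) ∧ (T 1).y = 0 ∧ 0 < (T 1).q ∧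
        0 < (T l).p ∧ (l = 1 ∨ 2 ≤ (T 1).q ∧ 2 ≤ (T l).p) ∧ (T l).x + (T l).p = w ∧
        (T 1).W (if 0 ≤ (T 1).p then (T 1).x else (T 1).x - 1) =
          W (if 0 ≤ (T 1).p then (T 1).x else (T 1).x - 1) ∧ (T l).W (w - 1) = W u * wv g L) :
    Concl (knot γ) := by
  obtain ⟨G, _, g, hg⟩ := exists_faith
  obtain ⟨W, hW, -⟩ := exists_pot (fun c => g c 0) 0 1
  obtain ⟨l, hl, T, h1, h2, h3, h4, h5, h6, rfl, h8, h9⟩ := hm G g W hW
  obtain ⟨γ', k1, k2, k3, k4⟩ := model hl T h1 h2 h3 h4 h5 h6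
  rw [h9, k3, h8, ← k3] at k4
  exact k2.of_eqv (hg _ _ _ W _ hW k1 h.1 k4 (h.2.2 G g W hW))

theorem Rep.concl_nil {w u : ℤ} {γ : ℝ → ℂ} (h : Rep w γ u []) : Concl (knot γ) := by
  obtain rfl := walk_nil h.2.1
  refine h.concl_of fun G _ g W hW => ⟨1, le_rfl, fun _ => ⟨w - 1, 0, 1, 1, W⟩,
    ⟨fun _ => 0, hW, fun t t0 t1 _ _ => by simpa using ⟨t0, t1⟩⟩, fun j h1 h2 => by omega, rfl,
    one_pos, one_pos, Or.inl rfl, by simp, rfl, by simp [wv_nil]⟩

theorem Rep.concl_red {w u : ℤ} {γ : ℝ → ℂ} {L : List ((ℤ × ℤ) × Bool)} (h : Rep w γ u L)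
    (hr : Reduced L) {n : ℕ} (hn : L.length = n + 1) (h0 : 1 ≤ (L[0]'(by omega)).1.2)
    (h1 : (L[n]'(by omega)).2 = true) : Concl (knot γ) := by
  refine h.concl_of fun G _ g W hW => ?_
  obtain ⟨c, lv, d, st, H, k1, k2, k3, k4, k5, k6⟩ := exists_wd (g := g) h.2.1 hr (W u)
  obtain ⟨s, t, m, m1, ⟨m2, m3, m4, -, -, m5⟩, m6, m7, m8⟩ := k1.chain hW (k2 ▸ k4.symm) hn
    ((k6 0 (by omega)).1 ▸ h0) (by rw [(k6 n (by omega)).2, h1, if_pos rfl])
  obtain ⟨l, hl, T, rfl, rfl, hT⟩ := m1.seq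
  exact ⟨l, hl, T, m2, hT, by omega, by omega, by omega, Or.inr ⟨by omega, m7⟩, by omega, m5,
    by rw [← k3, m8, k5]⟩

theorem Rep.concl (n : ℕ) : ∀ (L : List ((ℤ × ℤ) × Bool)) (w u : ℤ) (γ : ℝ → ℂ), L.length = n →
    Rep w γ u L → Concl (knot γ) := by
  induction n using Nat.strong_induction_on with
  | _ n ih =>
    have key : ∀ (L : List ((ℤ × ℤ) × Bool)) (w u : ℤ) (γ : ℝ → ℂ), L.length = n →
        (∀ d L', L = d :: L' → 0 ≤ d.1.2) → Rep w γ u L → Concl (knot γ) := by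
      intro L w u γ hn h0 h
      by_cases hr : Reduced L
      swap
      · rw [Reduced, List.isChain_iff_forall_rel_of_append_cons_cons] at hr
        push Not at hr
        obtain ⟨a, b, L₁, L₂, rfl, rfl⟩ := hr
        exact ih _ (by simp [← hn]) _ w u γ rfl h.red
      rcases L.eq_nil_or_concat' with rfl | ⟨L', ⟨⟨c, m⟩, b⟩, rfl⟩
      · exact h.concl_nil
      cases b
      · obtain ⟨v, -, k⟩ := walk_split h.2.1
        obtain rfl : c = w := by
          have := walk_nil (walk_inv _ _ k).2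
          simpa [dtgt, gs] using this
        obtain ⟨γ', k1, k2⟩ := h.flip_top
        exact (ih _ (by simp [← hn]) _ _ _ γ' rfl k1).of_eqv k2.symm
      · obtain ⟨⟨⟨c', m'⟩, b'⟩, L'', e⟩ := List.exists_cons_of_ne_nil
          (l := L' ++ [((c, m), true)]) (by simp)
        rcases (show 0 ≤ m' from h0 _ _ e).eq_or_lt with rfl | k
        · rw [e] at h hn
          obtain ⟨u', h'⟩ := h.zero
          exact ih _ (by simp [← hn]) _ w u' γ rfl h'
        · exact h.concl_red hr (n := L'.length) (by simp) (by simp only [e]; exact k) (by simp)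
    intro L w u γ hn h
    by_cases h0 : ∀ d L', L = d :: L' → 0 ≤ d.1.2
    · exact key L w u γ hn h0 h
    · push Not at h0
      obtain ⟨d, L', rfl, k⟩ := h0
      obtain ⟨γ', k1, k2⟩ := h.flip_bot
      refine (key _ w u γ' (by simpa using hn) (fun d' L'' e => ?_) k1).of_eqv k2.symm
      rw [← (List.cons.inj e).1]
      dsimp only
      omega

theorem main (γ : ℝ → ℂ) (hc : ContinuousOn γ (Icc 0 1))
    (hav : ∀ s ∈ Icc (0 : ℝ) 1, ∀ k m : ℤ, γ s ≠ k + m * I)
    (h0 : 0 < (γ 0).im ∧ (γ 0).im < 1) (h1 : ∀ k : ℤ, (γ 1).re ≠ k) : Concl (knot γ) := by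
  let γ' : ℝ → ℂ := fun s => γ (projIcc 0 1 zero_le_one s)
  have he : EqOn γ' γ (Icc 0 1) := fun s hs => by simp only [γ', projIcc_of_mem _ hs]
  have e0 := he (left_mem_Icc.2 zero_le_one)
  have e1 := he (right_mem_Icc.2 zero_le_one)
  have hA : Adm ⌈(γ 1).re⌉ γ' :=
    ⟨hc.comp_continuous (continuous_subtype_val.comp continuous_projIcc) fun s => Subtype.prop _,
      fun s hs => he hs ▸ hav s hs, e0 ▸ h0, by
        rw [e1]
        exact ⟨by linarith [Int.ceil_lt_add_one (γ 1).re], (Int.le_ceil _).lt_of_ne (h1 _)⟩⟩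
  obtain ⟨u, L, h⟩ := exists_rep hA
  exact knot_congr he ▸ Rep.concl _ L _ u γ' rfl h

end AllOne
end
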